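import Pool.Agent.MP_c481b3_nt.H79.Iu
import Pool.Agent.MP_c481b3_nt.H31F.All
import Pool.Agent.MP_c481b3_nt.H31F.K4
import Pool.Agent.MP_c481b3_nt.H31F.U2
import Pool.Agent.MP_c481b3_nt.H31F.Phi

/-! Fixed points of matrices of trace zero and curves with complex multiplication. -/

set_option autoImplicit false

namespace Pool.Agent.MP_c481b3_nt.H79

open UpperHalfPlane hiding I
open Pool.Agent.MP_c481b3_nt.H81 Pool.Agent.MP_c481b3_nt.H28
open Pool.Agent.MP_c481b3_nt.H31F (Lt M2 act den eps act_eq_self den_ne b1 b2 u1 u2 surj_of)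
open scoped Real

namespace BraA

/-- the curve of the lattice of `τ` -/
lemma base (τ : ℍ) :
    Good (gA (Lt τ)) (gB (Lt τ)) ∧ jj (gA (Lt τ)) (gB (Lt τ)) = H31F.JJ τ := by
  have hπ : (π : ℂ) ≠ 0 := by exact_mod_cast Real.pi_ne_zero
  have hd : 4 * (-(Lt τ).g₂ / 4) ^ 3 + 27 * (-(Lt τ).g₃ / 4) ^ 2 =
      -256 * π ^ 12 * H31F.dl τ ^ 2 := by
    rw [b1.y1.disc, ModularForm.discriminant_eq_E₄_cube_sub_E₆_sq, (u1 τ).1, (u1 τ).2]
    ring
  have hne := b1.y1.ne τ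
  refine ⟨⟨two_ne_zero, ?_⟩, ?_⟩
  · rw [hd]
    exact mul_ne_zero (mul_ne_zero (by norm_num) (pow_ne_zero _ hπ)) (pow_ne_zero _ hne)
  · rw [jj, hd, b1.y1.eJ, gA, (u1 τ).1]
    field_simp
    ring

/-- multiplication by `u` keeps the lattice -/
def St (τ : ℍ) (u : ℂ) : Prop := ∀ z ∈ (Lt τ).lattice, u * z ∈ (Lt τ).lattice

lemma mem_Lt {τ : ℍ} {z : ℂ} : z ∈ (Lt τ).lattice ↔ ∃ a b : ℤ, z = a * τ + b := by
  rw [PeriodPair.mem_lattice]
  refine exists_congr fun a => exists_congr fun b => ?_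
  change (a : ℂ) * τ + b * 1 = z ↔ _
  rw [mul_one, eq_comm]

lemma st_iff {τ : ℍ} {u : ℂ} :
    St τ u ↔ ∃ a b c d : ℤ, u * τ = a * τ + b ∧ u = c * τ + d := by
  constructor
  · intro h
    obtain ⟨a, b, e⟩ := mem_Lt.1 (h τ (mem_Lt.2 ⟨1, 0, by simp⟩))
    obtain ⟨c, d, e'⟩ := mem_Lt.1 (h 1 (mem_Lt.2 ⟨0, 1, by simp⟩))
    exact ⟨a, b, c, d, e, by rw [← e', mul_one]⟩
  · rintro ⟨a, b, c, d, e, e'⟩ z hz
    obtain ⟨x, y, rfl⟩ := mem_Lt.1 hz
    refine mem_Lt.2 ⟨x * a + y * c, x * b + y * d, ?_⟩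
    push_cast
    linear_combination x * e + y * e'

lemma indep {τ : ℍ} {a b : ℤ} (h : (a : ℂ) * τ + b = 0) : a = 0 ∧ b = 0 := by
  have h0 : a = 0 := by simpa [τ.im_pos.ne'] using congrArg Complex.im h
  exact ⟨h0, by simpa [h0] using h⟩

lemma iu_of_st (ua : UA) {τ : ℍ} {u : ℂ} (hu : u ≠ 0) (h : St τ u) :
    ∃ (m : ℕ) (f : Pt (gA (Lt τ)) (gB (Lt τ)) →+ Pt (gA (Lt τ)) (gB (Lt τ))), Iu m u f := by
  obtain ⟨φ, hφ⟩ := u2 (Lt τ) (base τ).1
  obtain ⟨C, d, -⟩ := ua (Lt τ) (Lt τ) φ u (base τ).1 (base τ).1 hφ hu h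
  exact ⟨_, _, vd_iu three_ne_zero d⟩

lemma st_of_iu (ub : UB) {τ : ℍ} {u : ℂ} {m : ℕ}
    {f : Pt (gA (Lt τ)) (gB (Lt τ)) →+ Pt (gA (Lt τ)) (gB (Lt τ))} (h : Iu m u f) : St τ u :=
  h.elim fun C d => ub (Lt τ) (Lt τ) C u d.1

/-- the degree of an endomorphism of square `-n` -/
lemma deg_eq {A B u : ℂ} {m n : ℕ} {f : Pt A B →+ Pt A B} (h : Iu m u f) (e : u ^ 2 = -n) :
    m = n := by
  classical
  have G := h.good.1
  obtain ⟨φ, -, p2, p3⟩ := h.toE three_ne_zero G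
  have e1 : φ * φ = -((n : ℤ) : EE G) := cE_inj G (by
    rw [map_mul, p3, map_neg, map_intCast, ← sq, e, Int.cast_natCast])
  rw [(compRing three_ne_zero G).norm_of_sq (Int.natCast_nonneg n) e1] at p2
  exact_mod_cast p2.symm

/-- the action on the points of order two -/
lemma key (ua : UA) (ub : UB) {τ : ℍ} {u : ℂ} {n : ℕ}
    {χ : Pt (gA (Lt τ)) (gB (Lt τ)) →+ Pt (gA (Lt τ)) (gB (Lt τ))} (h : Iu n u χ)
    (e : u ^ 2 = -n) : (∀ P, 2 • P = 0 → χ P = P) ↔ St τ ((1 + u) / 2) := by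
  classical
  have G := (base τ).1
  have h0 : (1 + u) / 2 ≠ 0 := fun z => by
    have : ((n + 1 : ℕ) : ℂ) = 0 := by
      push_cast
      linear_combination e + 2 * (1 - u) * z
    exact Nat.succ_ne_zero n (by exact_mod_cast this)
  obtain ⟨φ, p1, -, p3⟩ := h.toE three_ne_zero G
  have one : ∀ P, (φ + 1).1 P = χ P + P := fun P => by rw [EE_add, p1]; rfl
  constructor
  · intro hf
    obtain ⟨ψ, hψ⟩ := div_nat (n := 2) ⟨G, three_ne_zero, by norm_num⟩ (φ + 1) fun P hP => by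
      rw [one, hf P hP, ← two_nsmul, hP]
    have c := congrArg (cE G) hψ
    rw [map_add, map_one, map_mul, map_natCast, p3] at c
    have c' : cE G ψ = (1 + u) / 2 := by
      push_cast at c
      linear_combination -c / 2
    obtain ⟨m, a, -⟩ := iu_ofE three_ne_zero G ψ (c' ▸ h0)
    exact st_of_iu ub (c' ▸ a)
  · intro hs P hP
    obtain ⟨m, f, a⟩ := iu_of_st ua h0 hs
    obtain ⟨w, -, -, q3⟩ := a.toE three_ne_zero G
    have c : φ + 1 = w * (2 : ℕ) := cE_inj G (by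
      rw [map_add, map_one, map_mul, map_natCast, p3, q3]
      push_cast
      ring)
    have c' := one P
    rw [c, EE_mul, EE_nat, hP, map_zero] at c'
    rw [two_nsmul] at hP
    exact add_right_cancel (c'.symm.trans hP.symm)

/-- the sign of a matrix of trace zero -/
lemma sign {τ : ℍ} {u : ℂ} {Q : M2} (hd : Odd Q.det) (ht : Q.trace = 0)
    (e : u * τ = Q 0 0 * τ + Q 0 1) (e' : u = Q 1 0 * τ + Q 1 1) :
    St τ ((1 + u) / 2) ↔ eps Q = 1 := by
  rw [Matrix.det_fin_two] at hd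
  rw [Matrix.trace_fin_two] at ht
  have h1 : St τ ((1 + u) / 2) ↔ Odd (Q 0 0) ∧ Even (Q 0 1) ∧ Even (Q 1 0) := by
    rw [st_iff]
    constructor
    · rintro ⟨a, b, c, d, f, f'⟩
      have g := indep (τ := τ) (a := 1 + Q 0 0 - 2 * a) (b := Q 0 1 - 2 * b) (by
        push_cast
        linear_combination 2 * f - e)
      have g' := indep (τ := τ) (a := Q 1 0 - 2 * c) (b := 1 + Q 1 1 - 2 * d) (by
        push_cast
        linear_combination 2 * f' - e')
      exact ⟨⟨a - 1, by omega⟩, ⟨b, by omega⟩, ⟨c, by omega⟩⟩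
    · rintro ⟨⟨a, ha⟩, ⟨b, hb⟩, ⟨c, hc⟩⟩
      have hd' : Q 1 1 = -(2 * a + 1) := by omega
      rw [ha, hb] at e
      rw [hc, hd'] at e'
      push_cast at e e'
      refine ⟨a + 1, b, c, -a, ?_, ?_⟩ <;> push_cast
      · linear_combination e / 2
      · linear_combination e' / 2
  have hd' : Q 1 1 = -Q 0 0 := by omega
  rw [h1, eps, hd']
  rw [hd'] at hd
  generalize Q 0 0 = a at *
  generalize Q 0 1 = b at *
  generalize Q 1 0 = c at *
  by_cases ha : Even a <;> by_cases hb : Even b <;> by_cases hc : Even c <;>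
    simp [ha, hb, hc, parity_simps, ← Int.not_even_iff_odd] at hd ⊢

lemma eps_iff {Q : M2} {e : ℤ} (he : e ^ 2 = 1) : eps Q = e ↔ (e = 1 ↔ eps Q = 1) := by
  rcases sq_eq_one_iff.1 he with rfl | rfl <;> unfold eps <;> split_ifs <;> simp

/-- the characteristic equation -/
lemma char {τ u : ℂ} {a b c d : ℤ} (e : u * τ = a * τ + b) (e' : u = c * τ + d) :
    u ^ 2 = (a + d : ℤ) * u - (a * d - b * c : ℤ) := by
  push_cast
  linear_combination c * e + (u - a) * e'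

end BraA

open BraA in
theorem bra_of : UA → UB → BRA := by
  intro ua ub n e t hn he
  have n0 : 0 < n := hn.pos
  constructor
  · rintro ⟨τ, Q, rfl, hd, ht, hτ, hs⟩
    have hdet : 0 < Q.det := by rw [hd]; exact_mod_cast n0
    have e1 : den Q τ * τ = Q 0 0 * τ + Q 0 1 := ((act_eq_self hdet).1 hτ).symm
    have e2 : den Q τ = Q 1 0 * τ + Q 1 1 := rfl
    have e3 := char e1 e2
    rw [← Matrix.trace_fin_two, ← Matrix.det_fin_two, ht, hd, Int.cast_zero, zero_mul, zero_sub,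
      Int.cast_natCast] at e3
    obtain ⟨m, f, a⟩ := iu_of_st ua (den_ne hdet τ) (st_iff.2 ⟨_, _, _, _, e1, e2⟩)
    obtain rfl := deg_eq a e3
    refine ⟨_, _, _, f, cx_iff.2 ⟨a, e3⟩, (base τ).2, ?_⟩
    rw [key ua ub a e3, sign (hd ▸ (Int.odd_coe_nat _).2 hn) ht e1 e2]
    exact (eps_iff he).1 hs
  · rintro ⟨A, B, u, χ, hχ, rfl, hs⟩
    obtain ⟨a, e3⟩ := cx_iff.1 hχ
    obtain ⟨y, hy⟩ := IsAlgClosed.exists_pow_nat_eq (jj A B - 1728) two_pos
    obtain ⟨τ, rfl⟩ := surj_of b1 b2.lv y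
    have hJ : H31F.JJ τ = jj A B := by rw [H31F.JJ, hy, sub_add_cancel]
    obtain ⟨v, f, hf⟩ := iu_iso three_ne_zero a.good.1 (base τ).1 (by rw [(base τ).2, hJ])
    obtain ⟨g, hg, g1, g2⟩ := hf.dual three_ne_zero (by simp)
    simp only [one_smul] at g1 g2
    have a' := (hg.comp three_ne_zero a).comp three_ne_zero hf
    rw [one_mul, mul_one, Nat.cast_one, mul_right_comm, one_div,
      inv_mul_cancel₀ hf.good.2.2.1, one_mul] at a'
    have hs' : (∀ P, 2 • P = 0 → χ P = P) ↔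
        ∀ P, 2 • P = 0 → (f.comp (χ.comp g)) P = P := by
      constructor
      · intro h P hP
        rw [AddMonoidHom.comp_apply, AddMonoidHom.comp_apply,
          h _ (by rw [← map_nsmul, hP, map_zero]), g2]
      · intro h P hP
        have := congrArg g (h (f P) (by rw [← map_nsmul, hP, map_zero]))
        rwa [AddMonoidHom.comp_apply, AddMonoidHom.comp_apply, g1, g1] at this
    obtain ⟨p, q, r, s, e1, e2⟩ := st_iff.1 (st_of_iu ub a')
    have e4 : (p + s) ^ 2 * -(n : ℤ) = (p * s - q * r - n) ^ 2 := by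
      have h := char e1 e2
      have h2 : ((p + s : ℤ) : ℂ) * u = (p * s - q * r : ℤ) - n := by linear_combination e3 - h
      have h3 : ((p + s : ℤ) : ℂ) ^ 2 * -n = ((p * s - q * r : ℤ) - n) ^ 2 := by
        rw [← h2, ← e3, mul_pow]
      exact_mod_cast h3
    have n1 : (0 : ℤ) < n := by exact_mod_cast n0
    have t0 : p + s = 0 := by
      by_contra c
      nlinarith [sq_pos_of_ne_zero c, sq_nonneg (p * s - q * r - n)]
    have d0 : p * s - q * r = n := by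
      rw [t0] at e4
      exact sub_eq_zero.1 (pow_eq_zero_iff two_ne_zero |>.1 (by rw [← e4]; simp))
    have hd : (!![p, q; r, s] : M2).det = n := by rw [Matrix.det_fin_two_of, d0]
    have ht : (!![p, q; r, s] : M2).trace = 0 := by rw [Matrix.trace_fin_two_of, t0]
    refine ⟨τ, !![p, q; r, s], hJ, hd, ht, (act_eq_self (hd ▸ n1)).2 ?_, (eps_iff he).2 ?_⟩
    · change (p : ℂ) * τ + q = (r * τ + s) * τ
      rw [← e1, ← e2]
    · rw [hs, hs', key ua ub a' e3, sign (hd ▸ (Int.odd_coe_nat _).2 hn) ht e1 e2]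

end Pool.Agent.MP_c481b3_nt.H79
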