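import Pool.Agent.MP_c481b3_nt.H79.SpecB

/-! The finite subgroups that are stable under two anticommuting elements. -/

set_option autoImplicit false

namespace Pool.Agent.MP_c481b3_nt.H79

open Pool.Agent.MP_c481b3_nt.H28 AddSubgroup

namespace ClsA

variable {G : Type} [AddCommGroup G]

theorem line {q : ℕ} (hq : q.Prime) (hK : Nat.card {P : G // q • P = 0} = q ^ 2)
    {D : AddSubgroup G} (hD : ¬∀ P : G, q • P = 0 → P ∈ D) {P Q : G} (h0 : P ≠ 0) (hP : P ∈ D)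
    (hP' : q • P = 0) (hQ : Q ∈ D) (hQ' : q • Q = 0) : Q ∈ zmultiples P := by
  have := Fact.mk hq
  let K : AddSubgroup G := (nsmulAddMonoidHom q).ker
  have hK' : Nat.card K = q ^ 2 := hK
  have : Finite K := Nat.finite_of_card_ne_zero (hK' ▸ pow_ne_zero _ hq.ne_zero)
  have h1 : D ⊓ K ≤ K := inf_le_right
  obtain ⟨k, hk, e⟩ := (Nat.dvd_prime_pow hq).1 (hK' ▸ card_dvd_of_le h1)
  have h2 : k ≠ 2 := fun h => hD fun P hP =>
    ((eq_of_le_of_card_ge h1 (by rw [hK', e, h])).ge hP).1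
  have : Finite (D ⊓ K : AddSubgroup G) := Finite.of_injective _ (inclusion_injective h1)
  refine (eq_of_le_of_card_ge (zmultiples_le_of_mem (H := D ⊓ K) ⟨hP, hP'⟩) ?_).ge ⟨hQ, hQ'⟩
  rw [e, Nat.card_zmultiples, addOrderOf_eq_prime hP' h0]
  exact (Nat.pow_le_pow_right hq.pos (by omega : k ≤ 1)).trans_eq (pow_one q)

theorem cyc (C : AddSubgroup G) [Finite C] (h : ∀ q : ℕ, q.Prime → ∀ P ∈ C, ∀ Q ∈ C, P ≠ 0 →
    q • P = 0 → q • Q = 0 → Q ∈ zmultiples P) : ∃ P, C = zmultiples P := by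
  obtain ⟨⟨P, hP⟩, e⟩ := AddMonoid.exists_addOrderOf_eq_exponent
    (AddMonoid.ExponentExists.of_finite (G := C))
  rw [addOrderOf_mk] at e
  have h0 : addOrderOf P ≠ 0 := e ▸ AddMonoid.exponent_ne_zero_of_finite
  have h1 : ∀ Q ∈ C, addOrderOf P • Q = 0 := fun Q hQ =>
    e ▸ congrArg Subtype.val (AddMonoid.exponent_nsmul_eq_zero (⟨Q, hQ⟩ : C))
  have key : ∀ n : ℕ, n ∣ addOrderOf P → ∀ Q ∈ C, n • Q = 0 → Q ∈ zmultiples P := by
    intro n
    induction n using induction_on_primes with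
    | zero => exact fun h => absurd (zero_dvd_iff.1 h) h0
    | one => exact fun _ Q _ hQ => (one_nsmul Q ▸ hQ : Q = 0) ▸ zero_mem _
    | prime_mul q a hq ih =>
      intro hd Q hQ h2
      obtain ⟨k, hk⟩ := ih ((dvd_mul_left a q).trans hd) _ (nsmul_mem hQ q) (by rwa [← mul_nsmul])
      obtain ⟨c, hc⟩ := (dvd_mul_right q a).trans hd
      have c0 : c ≠ 0 := by rintro rfl; exact h0 hc
      obtain ⟨k, rfl⟩ : (q : ℤ) ∣ k := by
        have h3 : ((c : ℤ) * k) • P = 0 := by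
          rw [mul_zsmul, show k • P = q • Q from hk, natCast_zsmul, ← mul_nsmul, ← hc, h1 Q hQ]
        rw [← addOrderOf_dvd_iff_zsmul_eq_zero, hc, Nat.cast_mul, mul_comm] at h3
        exact Int.dvd_of_mul_dvd_mul_left (by exact_mod_cast c0) h3
      have h3 := h q hq _ (nsmul_mem hP c) _ (sub_mem hQ (zsmul_mem hP k))
        (nsmul_ne_zero_of_lt_addOrderOf c0
          (hc ▸ lt_mul_of_one_lt_left (Nat.pos_of_ne_zero c0) hq.one_lt))
        (by rw [← mul_nsmul', ← hc, addOrderOf_nsmul_eq_zero])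
        (by rw [nsmul_sub, ← show (q * k : ℤ) • P = q • Q from hk, mul_zsmul, natCast_zsmul,
          sub_self])
      simpa using add_mem (zmultiples_le_of_mem (nsmul_mem (mem_zmultiples P) c) h3)
        (zsmul_mem (mem_zmultiples P) k)
  exact ⟨P, le_antisymm (fun Q hQ => key _ dvd_rfl Q hQ (h1 Q hQ)) (zmultiples_le_of_mem hP)⟩

theorem fixT {f : G →+ G} {m : ℕ} (hm : Odd m) (hf : ∀ P, f (f P) = -(m • P)) {T : G}
    (h2 : 2 • T = 0) (hT : f T ∈ zmultiples T) : ∀ S ∈ zmultiples T, f S = S := by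
  have h1 : f T = T := by
    obtain ⟨k, hk⟩ := mem_zmultiples_iff.1 hT
    have h3 : ∀ c : ℤ, (2 * c) • T = 0 := fun c => by
      rw [mul_comm, mul_zsmul, ofNat_zsmul, h2, zsmul_zero]
    obtain ⟨c, rfl | rfl⟩ := Int.even_or_odd' k
    · obtain ⟨d, rfl⟩ := hm
      have h4 := hf T
      rw [← hk, h3, map_zero, succ_nsmul, mul_nsmul, h2, nsmul_zero, zero_add, eq_comm,
        neg_eq_zero] at h4
      rw [h4, map_zero]
    · rw [← hk, add_zsmul, h3, one_zsmul, zero_add]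
  rintro _ ⟨k, rfl⟩
  rw [map_zsmul, h1]

theorem two {f g : G →+ G} {C : AddSubgroup G} {p o n : ℕ} (hp : Odd p) (ho : Odd o)
    (hn : n % 4 = 3) (h4 : Nat.card {P : G // 2 • P = 0} = 2 ^ 2) (hs : ∀ Q : G, ∃ P : G, 2 • P = Q)
    (hf : ∀ P, f (f P) = -(p • P)) (hg : ∀ P, g (g P) = -(n • P))
    (hfg : ∀ P, g (f P) = -f (g P)) {T : G} (h0 : T ≠ 0) (h2 : 2 • T = 0) (hT : T ∈ C)
    (fC : ∀ P ∈ C, f P ∈ C) (gC : ∀ P ∈ C, g P ∈ C)
    (hC : ∀ P ∈ C, 2 • P = 0 → P ∈ zmultiples T) (ho' : ∀ P ∈ C, o • P ∈ zmultiples T)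
    (ht : (∀ P, 2 • P ∈ C → g P - P ∈ C) ↔ ∀ P, 2 • P = 0 → g P = P) : False := by
  have fT := fixT hp hf h2 (hC _ (fC T hT) (by rw [← map_nsmul, h2, map_zero]))
  have gT := fixT (Nat.odd_iff.2 (by omega)) hg h2 (hC _ (gC T hT)
    (by rw [← map_nsmul, h2, map_zero]))
  have T1 := mem_zmultiples T
  by_cases h : ∀ P, 2 • P = 0 → g P = P
  · obtain ⟨Q, rfl⟩ := hs T
    have a1 := fT _ T1
    have a2 := gT _ T1
    rw [map_nsmul] at a1 a2
    have a3 := fT _ (hC _ (add_mem (ht.2 h Q hT) hT) (by linear_combination (norm := abel) a2 + h2))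
    have a4 := h (Q - f Q) (by linear_combination (norm := abel) -a1)
    simp only [map_add, map_sub, map_nsmul, hfg] at a3 a4
    exact h0 (by linear_combination (norm := abel) a4 - a3 - a2)
  · refine h (ht.1 fun Q hQ => ?_)
    have a1 := ho' _ hQ
    have a2 := gT _ a1
    have a3 : 2 • o • 2 • Q = 0 := by
      obtain ⟨k, hk⟩ := a1
      rw [← hk, smul_comm, h2, zsmul_zero]
    rw [smul_comm o, map_nsmul] at a2
    rw [smul_comm o] at a3
    have a4 : g (o • Q) - o • Q ∈ C := by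
      generalize o • Q = S at a2 a3
      refine zmultiples_le_of_mem hT (line Nat.prime_two h4 (D := g.eqLocus (.id G)) h h0
        (gT _ T1) h2 ?_ (by linear_combination (norm := abel) a2))
      obtain ⟨c, rfl⟩ : ∃ c, n = 4 * c + 3 := ⟨n / 4, by omega⟩
      change g _ = _
      rw [map_sub, hg, AddMonoidHom.id_apply]
      linear_combination (norm := module) -a2 - (c + 1) • a3
    obtain ⟨k, rfl⟩ := ho
    have a5 := sub_mem a4 (nsmul_mem (sub_mem (gC _ hQ) hQ) k)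
    simp only [map_nsmul] at a5
    convert a5 using 1
    module

variable {R : Type} [Ring R] [Module R G]

/-- the action of an element -/
abbrev ac (θ : R) : G →+ G := DistribSMul.toAddMonoidHom G θ

theorem step {C : AddSubgroup G} [Finite C] {θ π ψ : R} (h1 : Nat.card {P : G // θ • P = 0} ≠ 1)
    (hs : ∀ Q : G, ∃ P : G, θ • P = Q) (hk : ∀ P : G, θ • P = 0 → P ∈ C)
    (hπ : π * θ = θ * π ∨ π * θ = -(θ * π)) (hψ : ψ * θ = θ * ψ) (πC : ∀ P ∈ C, π • P ∈ C)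
    (ψC : ∀ P ∈ C, ψ • P ∈ C) : ∃ D : AddSubgroup G, Finite D ∧ Nat.card D < Nat.card C ∧
      Nat.card D ∣ Nat.card C ∧ (∀ P ∈ D, π • P ∈ D) ∧ (∀ P ∈ D, ψ • P ∈ D) ∧
      ((∀ P : G, 2 • P ∈ D → ψ • P - P ∈ D) ↔ ∀ P : G, 2 • P ∈ C → ψ • P - P ∈ C) ∧
      ∀ P : G, P ∈ C ↔ θ • P ∈ D := by
  have m : ∀ P : G, P ∈ C ↔ θ • P ∈ C.map (ac θ) := fun P => ⟨fun h => ⟨P, h, rfl⟩,
    fun ⟨Q, hQ, e⟩ => by
      simpa using add_mem (hk (P - Q) (by rw [smul_sub, sub_eq_zero]; exact e.symm)) hQ⟩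
  have su := (ac θ).addSubgroupMap_surjective C
  have a : ∀ P : G, ψ • θ • P - θ • P = θ • (ψ • P - P) := fun P => by
    rw [smul_sub, smul_smul, hψ, mul_smul]
  refine ⟨_, Finite.of_surjective _ su, not_le.1 fun h => h1 ?_, card_map_dvd _ _, ?_, ?_,
    ⟨fun h P hP => ?_, fun h Q hQ => ?_⟩, m⟩
  · refine Nat.card_eq_one_iff_exists.2 ⟨⟨0, smul_zero _⟩, fun ⟨P, hP⟩ => Subtype.ext ?_⟩
    exact (congrArg Subtype.val ((su.bijective_of_nat_card_le h).1 (a₁ := ⟨P, hk P hP⟩) (a₂ := 0)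
      (Subtype.ext (hP.trans (smul_zero θ).symm))) :)
  · rintro _ ⟨P, hP, rfl⟩
    change π • θ • P ∈ _
    rcases hπ with e | e <;> rw [smul_smul, e]
    · exact (mul_smul θ π P).symm ▸ (m _).1 (πC P hP)
    · rw [neg_smul, mul_smul]
      exact neg_mem ((m _).1 (πC P hP))
  · rintro _ ⟨P, hP, rfl⟩
    change ψ • θ • P ∈ _
    rw [smul_smul, hψ, mul_smul]
    exact (m _).1 (ψC P hP)
  · rw [m, ← a]
    exact h _ (smul_comm θ 2 P ▸ (m _).1 hP)
  · obtain ⟨P, rfl⟩ := hs Q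
    rw [a, ← m]
    exact h _ ((m _).2 ((smul_comm θ 2 P).symm ▸ hQ))

end ClsA

open ClsA in
theorem cls : CLS := by
  intro G R _ _ _ N hN p l r i x y π φ hp p2 hl l4 lp hr r2 rp rl hxy hπ hφ an hk C
  have hp' : Prime (p : ℤ) := Nat.prime_iff_prime_int.1 hp
  have nd : ∀ q : ℕ, q.Prime → q ≠ p → ∀ k : ℕ, ¬(p : ℤ) ∣ (q : ℤ) ^ k := fun q hq h k e =>
    h ((Nat.prime_dvd_prime_iff_eq hp hq).1 (Int.natCast_dvd_natCast.1 (hp'.dvd_of_dvd_pow e))).symm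
  have kq : ∀ q : ℕ, q.Prime → q ≠ p → Nat.card {P : G // q • P = 0} = q ^ 2 ∧
      ∀ Q : G, ∃ P : G, q • P = Q := fun q hq h => by
    have := hk q (hN.nat q ▸ nd q hq h 2)
    simp only [Nat.cast_smul_eq_nsmul, hN.nat] at this
    exact_mod_cast this
  have Nφ : N φ = l := hN.norm_of_sq (by positivity) (by rwa [Int.cast_natCast])
  obtain ⟨kφ, sφ⟩ := hk φ (by simpa [Nφ] using nd l hl lp 1)
  rw [Nφ, Nat.cast_inj] at kφ
  have ψe : ∀ P : G, ((r : R) ^ i * φ) • P = r ^ i • φ • P := fun P => by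
    rw [mul_smul, ← Nat.cast_pow, Nat.cast_smul_eq_nsmul]
  have ππ : ∀ P : G, π • π • P = -(p • P) := fun P => by
    rw [smul_smul, hπ, neg_smul, Nat.cast_smul_eq_nsmul]
  have φφ : ∀ P : G, φ • φ • P = -(l • P) := fun P => by
    rw [smul_smul, hφ, neg_smul, Nat.cast_smul_eq_nsmul]
  have φπ : ∀ P : G, φ • π • P = -(π • φ • P) := fun P => by
    rw [smul_smul, an, neg_smul, mul_smul]
  have ψφ : (r : R) ^ i * φ * φ = φ * ((r : R) ^ i * φ) := by
    rw [← mul_assoc, ← ((Nat.cast_commute r φ).pow_left i).eq]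
  generalize (r : R) ^ i * φ = ψ at *
  have ψπ : ∀ P : G, ψ • π • P = -(π • ψ • P) := fun P => by
    rw [ψe, ψe, φπ, smul_neg, smul_comm]
  obtain ⟨n, hn⟩ : ∃ n, n = Nat.card C := ⟨_, rfl⟩
  induction n using Nat.strong_induction_on generalizing C with
  | _ n ih =>
  intro fin pC πC ψC ty
  by_cases hq : ∃ q : ℕ, q.Prime ∧ q ≠ p ∧ ∀ P : G, q • P = 0 → P ∈ C
  · obtain ⟨q, hq, qp, h⟩ := hq
    obtain ⟨D, a1, a2, a3, a4, a5, a6, a7⟩ := step (C := C) (θ := (q : R))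
      (by simpa only [Nat.cast_smul_eq_nsmul, (kq q hq qp).1] using
        (Nat.one_lt_pow two_ne_zero hq.one_lt).ne')
      (by simpa only [Nat.cast_smul_eq_nsmul] using (kq q hq qp).2)
      (by simpa only [Nat.cast_smul_eq_nsmul] using h) (Or.inl (Nat.cast_comm q π).symm)
      (Nat.cast_comm q ψ).symm πC ψC
    obtain ⟨m, η, e, b, b1, b2, b3, b4⟩ :=
      ih _ (hn ▸ a2) D rfl a1 (fun h => pC (h.trans a3)) a4 a5 (a6.trans ty)
    refine ⟨m * q, η, e, b, fun h => (hp'.dvd_or_dvd h).elim b1 (pow_one (q : ℤ) ▸ nd q hq qp 1),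
      b2, b3, fun P => ?_⟩
    rw [a7, b4, smul_smul, mul_assoc, mul_assoc, ← Nat.cast_comm, Int.cast_mul m, Int.cast_natCast,
      mul_assoc]
  by_cases h : ∀ P : G, φ • P = 0 → P ∈ C
  · obtain ⟨D, a1, a2, a3, a4, a5, a6, a7⟩ := step (C := C) (kφ ▸ hl.one_lt.ne') sφ h
      (Or.inr (by rw [an, neg_neg])) ψφ πC ψC
    obtain ⟨m, η, e, b, b1, b2, b3, b4⟩ :=
      ih _ (hn ▸ a2) D rfl a1 (fun h => pC (h.trans a3)) a4 a5 (a6.trans ty)
    exact ⟨m, η, e + 1, b, b1, b2, b3, fun P => by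
      rw [a7, b4, smul_smul, mul_assoc, mul_assoc, pow_succ]⟩
  have np : ∀ P ∈ C, p • P = 0 → P = 0 := fun P hP e => by_contra fun h0 => by
    have := Fact.mk hp
    exact pC (addOrderOf_eq_prime e h0 ▸ C.addOrderOf_dvd_natCard hP)
  have ln : ∀ q : ℕ, q.Prime → ∀ P ∈ C, ∀ Q ∈ C, P ≠ 0 → q • P = 0 → q • Q = 0 →
      Q ∈ zmultiples P := fun q hq' P hP Q hQ h0 e e' => by
    have qp : q ≠ p := by rintro rfl; exact h0 (np P hP e)
    exact line hq' (kq q hq' qp).1 (fun h => hq ⟨q, hq', qp, h⟩) h0 hP e hQ e'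
  obtain ⟨P, rfl⟩ := cyc C ln
  have P1 := mem_zmultiples P
  obtain ⟨a, ha⟩ : ∃ a : ℤ, a • P = π • P := πC P P1
  obtain ⟨c, hc⟩ : ∃ c : ℤ, c • P = ψ • P := ψC P P1
  have a1 : φ • (2 • r ^ i • P) = 0 := by
    rw [smul_comm, smul_comm φ, ← ψe]
    refine np _ (nsmul_mem (ψC P P1) 2) (neg_eq_zero.1 ?_)
    have e := ψπ P
    rw [← ha, smul_comm, ← hc, smul_comm π, ← ha, smul_comm a] at e
    rw [← ππ, ← hc, smul_comm π 2, smul_comm π c, ← ha, two_nsmul, add_eq_zero_iff_eq_neg.2 e,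
      smul_zero]
  have a2 : 2 • r ^ i • P = 0 := by_contra fun h0 => h fun Q hQ => by
    have := Fact.mk hl
    have : Finite (ac φ : G →+ G).ker :=
      Nat.finite_of_card_ne_zero (kφ.trans_ne hl.ne_zero)
    refine zmultiples_le_of_mem (nsmul_mem (nsmul_mem P1 _) 2)
      ((eq_of_le_of_card_ge (K := (ac φ).ker) (zmultiples_le_of_mem a1) ?_).ge hQ)
    rw [Nat.card_zmultiples, addOrderOf_eq_prime (p := l)
      (neg_eq_zero.1 (by rw [← φφ, a1, smul_zero])) h0]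
    exact kφ.le
  have ro : Odd (r ^ i) := (hr.odd_of_ne_two r2).pow
  have a3 : r ^ i • P = 0 := by_contra fun h0 =>
    two (f := ac π) (g := ac ψ) (n := r ^ i * (r ^ i * l)) (hp.odd_of_ne_two p2) ro
      (by obtain ⟨k, e⟩ := ro
          rw [e, show (2 * k + 1) * ((2 * k + 1) * l) = 4 * ((k * k + k) * l) + l by ring]
          omega)
      (kq 2 Nat.prime_two p2.symm).1 (kq 2 Nat.prime_two p2.symm).2 ππ
      (fun Q => by
        change ψ • ψ • Q = _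
        rw [ψe, ψe, smul_comm φ, φφ, smul_neg, smul_neg, mul_smul, mul_smul])
      ψπ h0 a2 (nsmul_mem P1 _) πC ψC
      (fun Q hQ => ln 2 Nat.prime_two _ (nsmul_mem P1 _) Q hQ h0 a2)
      (by rintro _ ⟨k, rfl⟩; exact ⟨k, smul_comm _ _ _⟩) ty
  obtain ⟨b, hb, e⟩ := (Nat.dvd_prime_pow hr).1 (addOrderOf_dvd_of_nsmul_eq_zero a3)
  have a4 : (r : ℤ) ^ b ∣ a * a + p := by
    rw [← Nat.cast_pow, ← e, addOrderOf_dvd_iff_zsmul_eq_zero, add_zsmul, mul_zsmul, ha,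
      ← smul_comm π, ha, ππ, natCast_zsmul, neg_add_cancel]
  obtain ⟨η, b1, b2⟩ : ∃ η : ℤ, η ^ 2 = 1 ∧ (r : ℤ) ^ b ∣ (x + η * y * a) ^ b := by
    rcases b.eq_zero_or_pos with rfl | b0
    · exact ⟨1, rfl, by simp⟩
    obtain ⟨d, hd⟩ := (dvd_pow_self _ b0.ne').trans a4
    rcases (Nat.prime_iff_prime_int.1 hr).dvd_or_dvd (a := x + 1 * y * a) (b := x + -1 * y * a)
      ⟨1 - y ^ 2 * d, by linear_combination -hxy - y ^ 2 * hd⟩ with h | h
    exacts [⟨1, rfl, pow_dvd_pow_of_dvd h b⟩, ⟨-1, rfl, pow_dvd_pow_of_dvd h b⟩]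
  have Nα : N ((x : R) + (η * y : ℤ) * π) = r := by
    have h0 : (0 : ℤ) < p := by exact_mod_cast hp.pos
    have e1 : π * π = -((p : ℤ) : R) := by rwa [Int.cast_natCast]
    rw [CompRing.add N, hN.int, hN.int_mul, hN.norm_of_sq h0.le e1, hN.pol_int', ← mul_one (x : R),
      hN.pol_int, CompRing.pol_comm, hN.tr_of_sq h0 e1, hxy]
    linear_combination y ^ 2 * p * b1
  have a5 : ∀ k : ℕ, ((x : R) + (η * y : ℤ) * π) ^ k • P = (x + η * y * a) ^ k • P ∧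
      N (((x : R) + (η * y : ℤ) * π) ^ k) = r ^ k := fun k => by
    induction k with
    | zero => simp [hN.one]
    | succ k ih =>
      rw [pow_succ', mul_smul, ih.1, hN.mul, ih.2, Nα, ← pow_succ', smul_comm, add_smul, mul_smul,
        Int.cast_smul_eq_zsmul, Int.cast_smul_eq_zsmul, ← ha, ← mul_zsmul, ← add_zsmul,
        ← mul_zsmul, ← pow_succ]
      exact ⟨rfl, rfl⟩
  obtain ⟨c1, c2⟩ := a5 b
  refine ⟨1, η, 0, b, hp'.not_dvd_one, b1, hb, fun Q => ?_⟩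
  rw [Int.cast_one, pow_zero, mul_one, mul_one]
  generalize ((x : R) + (η * y : ℤ) * π) ^ b = θ at c1 c2 ⊢
  have c3 := (hk θ (c2 ▸ nd r hr rp b)).1
  rw [c2, ← Nat.cast_pow, Nat.cast_inj] at c3
  have : Finite (ac θ : G →+ G).ker :=
    Nat.finite_of_card_ne_zero (c3.trans_ne (pow_ne_zero _ hr.ne_zero))
  rw [eq_of_le_of_card_ge (K := (ac θ).ker) (zmultiples_le_of_mem (c1.trans
    (addOrderOf_dvd_iff_zsmul_eq_zero.1 (by rw [e]; exact_mod_cast b2))))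
    (by rw [Nat.card_zmultiples, e]; exact c3.le)]
  rfl

end Pool.Agent.MP_c481b3_nt.H79
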