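import Pool.Agent.MP_c481b3_nt.H79.SpecZ

/-! Formal properties of maps of a disc of `p`-adic integers, and involutions. -/

set_option autoImplicit false

namespace Pool.Agent.MP_c481b3_nt.H79

namespace CompzA

variable {p : ℕ} [Fact p.Prime] {j : ℤ_[p]}

theorem sub {x y : ℤ_[p]} (hx : Dz j x) (hy : Dz j y) : (p : ℤ_[p]) ∣ y - x := by
  have := dvd_sub hy hx
  rwa [sub_sub_sub_cancel_right] at this

theorem cpt : IsCompact {x | Dz j x} := by
  have e : {x | Dz j x} = Set.range fun z : ℤ_[p] => j + p * z := by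
    ext x
    exact ⟨fun ⟨z, h⟩ => ⟨z, by linear_combination -h⟩,
      fun ⟨z, h⟩ => ⟨z, by linear_combination -h⟩⟩
  rw [e]
  exact isCompact_range (by fun_prop)

theorem two (hp : p ≠ 2) : IsUnit (2 : ℤ_[p]) := by
  rw [PadicInt.isUnit_iff]
  refine le_antisymm (PadicInt.norm_le_one _) (not_lt.1 fun h => hp ?_)
  have h2 : (p : ℤ) ∣ 2 := (PadicInt.norm_int_lt_one_iff_dvd 2).1 (by exact_mod_cast h)
  exact (Nat.prime_dvd_prime_iff_eq Fact.out Nat.prime_two).1 (by exact_mod_cast h2)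

theorem fix (C : COMPZ) {s : ℤ_[p] → ℤ_[p]} (hp : p ≠ 2) (T : Tz j s (-1)) :
    ∃ c, Dz j c ∧ s c = c := by
  have hc : ContinuousOn s {x | Dz j x} := by
    refine (LipschitzOnWith.of_dist_le_mul (K := 1) fun x hx y hy => ?_).continuousOn
    obtain ⟨u, hu⟩ := C.lip p j s _ T y x hy hx
    rw [dist_eq_norm, dist_eq_norm, hu, norm_mul, NNReal.coe_one, mul_comm]
    exact mul_le_mul_of_nonneg_right (PadicInt.norm_le_one u) (norm_nonneg _)
  obtain ⟨c, hc0, hm⟩ := cpt.exists_isMinOn (f := fun x => ‖s x - x‖) ⟨j, by simp [Dz]⟩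
    (hc.sub continuousOn_id).norm
  refine ⟨c, hc0, ?_⟩
  obtain ⟨h1, a, b, ⟨r, hr⟩, h2⟩ := T c hc0
  obtain ⟨w, hw⟩ := (two hp).exists_right_inv
  obtain ⟨z, hz⟩ := sub hc0 h1
  have h3 : Dz j (c + p * (z * w)) := by
    have := dvd_add hc0 (dvd_mul_right (p : ℤ_[p]) (z * w))
    rwa [sub_add_eq_add_sub] at this
  obtain ⟨u, hu⟩ := h2 _ h3
  have e : s (c + p * (z * w)) - (c + p * (z * w)) =
      (s c - c) * (p * (w * (r + b * (z * w) + u * p * (z * w) ^ 2))) := by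
    rw [hz]
    linear_combination hu + hz + (p * (z * w)) * hr - (p * z) * hw
  have h4 : ‖s c - c‖ ≤ ‖s (c + p * (z * w)) - (c + p * (z * w))‖ := hm h3
  by_contra hne
  rw [e, norm_mul] at h4
  exact absurd h4 (not_le.2 (mul_lt_of_lt_one_right (norm_pos_iff.2 (sub_ne_zero.2 hne))
    ((PadicInt.norm_lt_one_iff_dvd _).2 (dvd_mul_right _ _))))

end CompzA

open CompzA

theorem compz : COMPZ where
  base p _ j f H := by
    have hj : Dz j j := by simp [Dz]
    obtain ⟨-, a, b, h0⟩ := H j hj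
    refine ⟨a, fun x hx => ⟨(H x hx).1, ?_⟩⟩
    rcases eq_or_ne x j with rfl | hne
    · exact ⟨a, b, by simp, h0⟩
    obtain ⟨-, a', b', h1⟩ := H x hx
    refine ⟨a', b', hx.trans ?_, h1⟩
    obtain ⟨u, hu⟩ := h0 x hx
    obtain ⟨v, hv⟩ := h1 j hj
    refine ⟨b + b' + (x - j) * (u - v), mul_left_cancel₀ (sub_ne_zero.2 hne) ?_⟩
    linear_combination hu + hv
  comp p _ j f g h e e' F G H x hx := by
    obtain ⟨h1, a, b, ⟨r, hr⟩, h2⟩ := F x hx
    obtain ⟨h3, a', b', ⟨r', hr'⟩, h4⟩ := G _ h1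
    refine ⟨(H x hx).symm ▸ h3, a * a', a' * b + b' * a ^ 2,
      ⟨r * a' + e * r', by linear_combination a' * hr + e * hr'⟩, fun y hy => ?_⟩
    obtain ⟨u, hu⟩ := h2 y hy
    obtain ⟨v, hv⟩ := h4 _ (F y hy).1
    have e1 : f y - f x = (y - x) * (a + (y - x) * (b + (y - x) * u)) := by linear_combination hu
    rw [H x hx, H y hy]
    rw [e1] at hv
    refine ⟨a' * u + b' * (b + (y - x) * u) * (2 * a + (y - x) * (b + (y - x) * u)) +
      (a + (y - x) * (b + (y - x) * u)) ^ 3 * v, ?_⟩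
    linear_combination hv
  lip p _ j f e F x y hx hy := by
    obtain ⟨-, a, b, -, h⟩ := F x hx
    obtain ⟨u, hu⟩ := h y hy
    exact ⟨a + (y - x) * (b + (y - x) * u), by linear_combination hu⟩

theorem ref_of : COMPZ → REF := by
  intro C p _ j s e hp T hs
  by_cases he : (p : ℤ_[p]) ∣ e + 1
  · have T' : Tz j s (-1) := fun x hx => by
      obtain ⟨h1, a, b, h2, h3⟩ := T x hx
      exact ⟨h1, a, b, (show a - e + (e + 1) = a - -1 by ring) ▸ dvd_add h2 he, h3⟩
    exact Or.inr ⟨T', fix C hp T'⟩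
  · refine Or.inl fun x hx => ?_
    by_contra hne
    obtain ⟨h1, a, b, ⟨r, hr⟩, h3⟩ := T x hx
    obtain ⟨u, hu⟩ := h3 _ h1
    obtain ⟨z, hz⟩ := sub hx h1
    rw [hs x hx] at hu
    have e1 : 1 + a + (s x - x) * (b + (s x - x) * u) = 0 :=
      mul_left_cancel₀ (sub_ne_zero.2 hne) (by linear_combination -hu)
    refine he ⟨-r - z * (b + (s x - x) * u), ?_⟩
    linear_combination e1 - hr - (b + (s x - x) * u) * hz

end Pool.Agent.MP_c481b3_nt.H79
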