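import Pool.Agent.MP_c481b3_nt.H79.SpecB

/-! Isogenies together with their degree and their multiplier. -/

set_option autoImplicit false

namespace Pool.Agent.MP_c481b3_nt.H79

open Pool.Agent.MP_c481b3_nt.H81 Pool.Agent.MP_c481b3_nt.H28

variable {k : Type} [Field k] [DecidableEq k] [IsAlgClosed k] {A B A₁ B₁ A₂ B₂ : k}

/-- a separable isogeny of degree `n` and multiplier `u` -/
def Iu (n : ℕ) (u : k) (f : Pt A B →+ Pt A₁ B₁) : Prop :=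
  ∃ C, VD C u A₁ B₁ ∧ C.card = n ∧ ∀ P, f P = vm C u A₁ B₁ P

lemma cx_iff {A B u : ℂ} {n : ℕ} {χ : Pt A B →+ Pt A B} : Cx n u χ ↔ Iu n u χ ∧ u ^ 2 = -n :=
  ⟨fun ⟨C, a, b, c, d⟩ => ⟨⟨C, a, b, d⟩, c⟩, fun ⟨⟨C, a, b, d⟩, c⟩ => ⟨C, a, b, c, d⟩⟩

omit [DecidableEq k] [IsAlgClosed k] in
lemma jj_scale {u : k} (hu : u ≠ 0) (A B : k) : jj (u ^ 4 * A) (u ^ 6 * B) = jj A B := by
  rw [jj, jj, ← mul_div_mul_left (6912 * A ^ 3) _ (pow_ne_zero 12 hu)]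
  congr 1 <;> ring

omit [IsAlgClosed k] in
lemma vd_jj {C : Finset (Pt A B)} {u : k} (d : VD C u A₁ B₁) : jj A₁ B₁ = jj (vA C) (vB C) := by
  rw [d.hA, d.hB, jj_scale d.hu]

variable {m n : ℕ} {u v : k} {f : Pt A B →+ Pt A₁ B₁} {g : Pt A₁ B₁ →+ Pt A₂ B₂}

omit [IsAlgClosed k] in
lemma Iu.is (a : Iu n u f) : Is n f := a.elim fun C h => ⟨C, u, h⟩

omit [IsAlgClosed k] in
lemma Iu.good (a : Iu n u f) : Good A B ∧ Good A₁ B₁ ∧ u ≠ 0 ∧ n ≠ 0 :=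
  a.elim fun _ h => ⟨h.1.good, h.1.good', h.1.hu, h.2.1 ▸ (card_pos_sub h.1.sub).ne'⟩

lemma Iu.neg (a : Iu n u f) : Iu n (-u) (-f) := by
  obtain ⟨C, d, c, e⟩ := a
  exact ⟨C, d.neg_u, c, fun P => by rw [d.vm_neg_u, ← e]; rfl⟩

/-- conjugation by a field embedding -/
lemma Iu.conj {M : Type} [Field M] [DecidableEq M] [IsAlgClosed M] {A' B' A₁' B₁' : M}
    (a : Iu n u f) (h3 : (3 : M) ≠ 0) (τ : k →+* M) (hA : τ A = A') (hB : τ B = B')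
    (hG : Good A' B') (hA₁ : τ A₁ = A₁') (hB₁ : τ B₁ = B₁') (hG₁ : Good A₁' B₁') :
    ∃ g : Pt A' B' →+ Pt A₁' B₁', Iu n (τ u) g ∧ ∀ P,
      g ((Sc.ofHom τ hA hB hG).map P) = (Sc.ofHom τ hA₁ hB₁ hG₁).map (f P) := by
  obtain ⟨D, d, c, e⟩ := a
  have hf : ∀ P ∈ D.erase 0, (rd_triv τ hA hB hG).red P ≠ 0 := fun P hP => by
    rw [red_triv τ hA hB hG]; exact Sc.map_ne _ (Finset.mem_erase.1 hP).1
  have h1 := d.red (rd_triv τ hA hB hG) (rd_triv τ hA₁ hB₁ hG₁) (ev_triv τ u)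
    ((_root_.map_ne_zero τ).2 d.hu) hf
  have h2 := d.red_vm (rd_triv τ hA hB hG) (rd_triv τ hA₁ hB₁ hG₁) (ev_triv τ u)
    ((_root_.map_ne_zero τ).2 d.hu) hf
  rw [Finset.image_congr fun P _ => red_triv τ hA hB hG P] at h1 h2
  refine ⟨h1.hom h3, ⟨_, h1, ?_, fun _ => rfl⟩, fun P => ?_⟩
  · rw [Finset.card_image_of_injective _ (Sc.injective _), c]
  · rw [← red_triv τ hA₁ hB₁ hG₁, ← red_triv τ hA hB hG P, e, h2]; rfl

variable (h3 : (3 : k) ≠ 0)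
include h3

lemma vd_iu {C : Finset (Pt A B)} (d : VD C u A₁ B₁) : Iu C.card u (d.hom h3) :=
  ⟨C, d, rfl, fun _ => rfl⟩

lemma Iu.comp (a : Iu n u f) (b : Iu m v g) : Iu (m * n) (u * v) (g.comp f) := by
  obtain ⟨C, d, rfl, e⟩ := a
  obtain ⟨C', d', rfl, e'⟩ := b
  have fin := finite_preimage (d.hom h3) (C.finite_toSet.subset fun P hP => (d.hom_eq_zero h3).1 hP)
    C'.finite_toSet
  have mem : ∀ P, P ∈ fin.toFinset ↔ d.hom h3 P ∈ C' := fun P => fin.mem_toFinset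
  have hH : IsSub fin.toFinset := ⟨(mem _).2 (by rw [map_zero]; exact d'.sub.zero),
    fun P hP Q hQ => (mem _).2 (by rw [map_sub]; exact d'.sub.sub _ ((mem _).1 hP) _ ((mem _).1 hQ))⟩
  have hs : C ⊆ fin.toFinset := fun P hP =>
    (mem _).2 (by rw [(d.hom_eq_zero h3).2 hP]; exact d'.sub.zero)
  have im : fin.toFinset.image (d.hom h3) = C' := by
    ext Q
    obtain ⟨P, rfl⟩ := d.surj h3 Q
    rw [d.mem_image h3 hH hs, mem]
  generalize fin.toFinset = H at *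
  subst im
  exact ⟨H, d.comp h3 hH hs d', d.card_image h3 hH hs, fun P => by
    rw [← d.comp_vm h3 hH hs d', AddMonoidHom.comp_apply, e', e]; rfl⟩

lemma Iu.dual (a : Iu n u f) (hn : (n : k) ≠ 0) : ∃ g : Pt A₁ B₁ →+ Pt A B, Iu n (n / u) g ∧
    (∀ P, g (f P) = n • P) ∧ ∀ P, f (g P) = n • P := by
  obtain ⟨C, d, hc, e⟩ := a
  have t : Tm A B n := ⟨d.good, h3, hn⟩
  refine ⟨(d.dual t hc).hom h3, ⟨_, d.dual t hc, d.dual_card t hc, fun _ => rfl⟩,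
    fun P => ?_, fun P => ?_⟩
  · rw [e]; exact d.dual_comp t hc P
  · rw [e]; exact d.comp_dual t hc P

lemma iu_iso (hG : Good A B) (hG₁ : Good A₁ B₁) (e : jj A B = jj A₁ B₁) :
    ∃ (u : k) (f : Pt A B →+ Pt A₁ B₁), Iu 1 u f := by
  obtain ⟨f, C, u, h⟩ := is_iso h3 hG hG₁ (jj_eq h3 hG hG₁ e)
  exact ⟨u, f, C, h⟩

variable [DecidableEq (RatFunc k)] [DecidableEq (LL k)] (hG : Good A B)

lemma Iu.toE {f : Pt A B →+ Pt A B} (a : Iu n u f) :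
    ∃ φ : EE hG, (∀ P, φ.1 P = f P) ∧ NE φ = n ∧ cE hG φ = u := by
  obtain ⟨C, d, rfl, e⟩ := a
  obtain ⟨φ, f1, f2, f3⟩ := d.exists_end (hG := hG) h3
  exact ⟨φ, fun P => by rw [f1, e]; rfl, f3, f2⟩

lemma iu_ofE (φ : EE hG) (hc : cE hG φ ≠ 0) :
    ∃ n : ℕ, Iu n (cE hG φ) (φ.1 : Pt A B →+ Pt A B) ∧ (n : ℤ) = NE φ := by
  obtain ⟨C, d, e1, e2⟩ := exists_vd h3 φ hc
  exact ⟨_, e2 ▸ vd_iu h3 d, e1⟩

/-- the kernel and the image of a separable endomorphism, as in `CLS` -/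
lemma ker_card (φ : EE hG) (hc : cE hG φ ≠ 0) :
    (Nat.card {P : Pt A B // φ • P = 0} : ℤ) = NE φ ∧ ∀ Q : Pt A B, ∃ P, φ • P = Q := by
  obtain ⟨C, d, e1, e2⟩ := exists_vd h3 φ hc
  have e : ∀ P, φ • P = d.hom h3 P := fun P => by rw [← e2]; rfl
  simp only [e, d.hom_eq_zero, ← e1]
  exact ⟨by simp, d.surj h3⟩

omit h3 in
lemma cE_inj [CharZero k] : Function.Injective (cE hG) := by
  refine (injective_iff_map_eq_zero _).2 fun φ h => ?_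
  have c := compRing three_ne_zero hG
  have := congrArg (cE hG) (c.char φ)
  rw [map_sub, map_mul, map_mul, h, mul_zero, mul_zero, zero_sub, map_intCast] at this
  exact c.eq_zero φ (by exact_mod_cast neg_eq_zero.1 this.symm)

omit h3 [DecidableEq (RatFunc k)] [DecidableEq (LL k)] in
/-- in characteristic zero the multiplier determines the isogeny -/
lemma Iu.ext [CharZero k] {f' : Pt A B →+ Pt A₁ B₁} (a : Iu n u f) (b : Iu m u f') : f = f' := by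
  classical
  obtain ⟨G, -, u0, n0⟩ := a.good
  have hn : (n : k) ≠ 0 := Nat.cast_ne_zero.2 n0
  obtain ⟨g, g1, -, g3⟩ := a.dual three_ne_zero hn
  obtain ⟨φ, p1, -, p3⟩ := (b.comp three_ne_zero g1).toE three_ne_zero G
  have e : φ = n := cE_inj G (by rw [p3, map_natCast, mul_div_cancel₀ _ u0])
  ext P
  obtain ⟨Q, rfl⟩ := Tm.nsmul_surj ⟨G, three_ne_zero, hn⟩ P
  rw [map_nsmul f', ← g3, ← EE_nat (hG := G), ← e, p1]
  rfl

end Pool.Agent.MP_c481b3_nt.H79
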