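import Pool.Agent.MP_c481b3_nt.H79.SpecP
import Pool.Agent.MP_c481b3_nt.H79.Iu
import Pool.Agent.MP_c481b3_nt.H28.Univ

/-! The action on the disc has expansions of order two. -/

set_option autoImplicit false

namespace Pool.Agent.MP_c481b3_nt.H79

open Pool.Agent.MP_c481b3_nt.H81 Pool.Agent.MP_c481b3_nt.H28 IsLocalRing Polynomial

namespace TayA

section closure
variable {L : Type} [Field L] {O : ValuationSubring L} {S : Set L} (I : Imp O S) {f g : L → L}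
include I

lemma pw (h : Ty O S f) (n : ℕ) : Ty O S fun x => f x ^ n := by
  induction n with
  | zero => exact I.congr _ _ (I.const 1 (one_mem O)) fun _ _ => pow_zero _
  | succ n ih => exact I.congr _ _ (I.mul _ _ ih h) fun _ _ => pow_succ _ _

lemma sb (h : Ty O S f) (h' : Ty O S g) : Ty O S fun x => f x - g x :=
  I.congr _ _ (I.add _ _ h (I.mul _ _ (I.const (-1) (neg_mem (one_mem O))) h')) fun _ _ => by ring

lemma nm (n : ℕ) [n.AtLeastTwo] (h : Ty O S f) : Ty O S fun x => OfNat.ofNat n * f x :=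
  I.mul _ _ (I.const _ (natCast_mem O n)) h

lemma tA (c : ℤ) : Ty O S (fA (c : L)) :=
  I.mul _ _ (I.mul _ _ (nm I 3 (pw I (I.const _ (intCast_mem O c)) 2)) I.id)
    (sb I (I.const _ (natCast_mem O 1728)) I.id)

lemma tB (c : ℤ) : Ty O S (fB (c : L)) :=
  I.mul _ _ (I.mul _ _ (nm I 2 (pw I (I.const _ (intCast_mem O c)) 3)) I.id)
    (pw I (sb I (I.const _ (natCast_mem O 1728)) I.id) 2)

end closure

lemma der_eval {L : Type} [Field L] [DecidableEq L] (s : Finset L) (a : L → L) {x : L} (hx : x ∈ s) :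
    (derivative (∏ y ∈ s, (X - C (a y)))).eval (a x) = ∏ y ∈ s.erase x, (a x - a y) := by
  rw [← Finset.mul_prod_erase s _ hx, derivative_mul]
  simp [eval_prod]

variable {p : ℕ} [Fact p.Prime] (Y : Ctx p)

/-- the first coordinate of the lift of a torsion point -/
lemma coord (I : Imp Y.O {t | Y.Dk t}) {N : ℕ} (hN : ¬p ∣ N) (Q : Pt Y.A Y.B) :
    ∃ x : ℂ → ℂ, (∀ (t : ℂ) (h : Y.Dk t) (P : Y.P t), N • P = 0 → h.rd.red P = Q → xc P = x t) ∧
      (Q ≠ 0 → N • Q = 0 → Ty Y.O {t | Y.Dk t} x) := by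
  have T := Y.tm hN
  have ex : ∀ t : ℂ, ∃ x : ℂ, ∀ (h : Y.Dk t) (P : Y.P t), N • P = 0 → h.rd.red P = Q → xc P = x := by
    intro t
    by_cases e : ∃ (h : Y.Dk t) (P : Y.P t), N • P = 0 ∧ h.rd.red P = Q
    · obtain ⟨h, P, h1, h2⟩ := e
      exact ⟨xc P, fun _ P' a b => by rw [red_inj h.rd T.ne a h1 (b.trans h2.symm)]⟩
    · exact ⟨0, fun h P a b => absurd ⟨h, P, a, b⟩ e⟩
  choose x hx using ex
  refine ⟨x, hx, fun Q0 hQ => ?_⟩
  obtain ⟨G, hG⟩ := (univ N T.pos).1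
  have hA := Y.spec.2.1
  have hB := Y.spec.2.2.1
  have ev : ∀ (t : ℂ) (h : Y.Dk t) (P : Y.P t), P ≠ 0 → N • P = 0 →
      Ev (resPlc Y.O) (N * xc P * (fA (Y.c : ℂ) t / fB (Y.c : ℂ) t))
        (N * xc (h.rd.red P) * (Y.A / Y.B)) := fun t h P a b =>
    ((Ev.nat _ N).mul (ev_xc h.rd (red_tors_ne h.rd T.ne a b))).mul
      ((rdA h.rd).div (rdB h.rd) hB)
  have lf : ∀ (t : ℂ) (h : Y.Dk t), ∃ P : Y.P t, P ≠ 0 ∧ N • P = 0 ∧ h.rd.red P = Q ∧
      xc P = x t ∧ x t ∈ ((tors (fA (Y.c : ℂ) t) (fB (Y.c : ℂ) t) N).erase 0).image xc := by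
    intro t h
    obtain ⟨P, a, b⟩ := exists_lift h.rd T hQ
    have c : P ≠ 0 := fun e => Q0 (by rw [← b, e, map_zero])
    exact ⟨P, c, a, b, hx t h P a b, Finset.mem_image.2
      ⟨P, Finset.mem_erase.2 ⟨c, (T.up h.rd).mem.2 a⟩, hx t h P a b⟩⟩
  have ez : ∀ t : ℂ, Y.Dk t → Ev (resPlc Y.O) (N * x t * (fA (Y.c : ℂ) t / fB (Y.c : ℂ) t))
      (N * xc Q * (Y.A / Y.B)) := by
    intro t h
    obtain ⟨P, a, b, c, d, -⟩ := lf t h
    rw [← d, ← c]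
    exact ev t h P a b
  have iA := I.inv _ (tA I Y.c) fun t h => (rdA (Ctx.Dk.rd h)).v_one hA
  have iB := I.inv _ (tB I Y.c) fun t h => (rdB (Ctx.Dk.rd h)).v_one hB
  have tz : Ty Y.O {t | Y.Dk t} fun t => N * x t * (fA (Y.c : ℂ) t / fB (Y.c : ℂ) t) := by
    refine I.imp G _ (fun t => fA (Y.c : ℂ) t ^ 3 / fB (Y.c : ℂ) t ^ 2)
      (I.congr _ _ (I.mul _ _ (pw I (tA I Y.c) 3) (pw I iB 2)) fun _ _ => by
        rw [div_eq_mul_inv, inv_pow])
      (fun t h => (ez t h).mem) (fun t h s h' => (((ez s h').sub (ez t h)).congr rfl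
        (sub_self _)).v_lt) (fun t h => ?_) fun t h => ?_
    · obtain ⟨P, -, -, -, -, m⟩ := lf t h
      obtain ⟨g, a, b, -⟩ := Ctx.Dk.spec h
      rw [ev2, hG ℂ _ _ g a b, eval_prod]
      exact Finset.prod_eq_zero m (by simp)
    · obtain ⟨P, P0, hP, -, e, m⟩ := lf t h
      obtain ⟨g, a, b, -⟩ := Ctx.Dk.spec h
      rw [ev2, ← derivative_map, hG ℂ _ _ g a b,
        der_eval _ (fun y => N * y * (fA (Y.c : ℂ) t / fB (Y.c : ℂ) t)) m, map_prod]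
      refine Finset.prod_eq_one fun y hy => ?_
      obtain ⟨ne, hy⟩ := Finset.mem_erase.1 hy
      obtain ⟨R, hR, rfl⟩ := Finset.mem_image.1 hy
      obtain ⟨R0, hR⟩ := Finset.mem_erase.1 hR
      rw [(T.up (Ctx.Dk.rd h)).mem] at hR
      rw [← e] at ne ⊢
      refine ((ev t h P P0 hP).sub (ev t h R R0 hR)).v_one fun z => ne ?_
      have z1 := mul_left_cancel₀ T.ne (mul_right_cancel₀ (div_ne_zero hA hB) (sub_eq_zero.1 z))
      rcases eq_or_neg (red_tors_ne (Ctx.Dk.rd h) T.ne P0 hP) (red_tors_ne (Ctx.Dk.rd h) T.ne R0 hR)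
        z1 with z2 | z2
      · rw [red_inj (Ctx.Dk.rd h) T.ne hP hR z2]
      · rw [← map_neg] at z2
        rw [red_inj (Ctx.Dk.rd h) T.ne hP (by rw [smul_neg, hR, neg_zero]) z2, xc_neg]
  have iN := I.inv _ (I.const _ (natCast_mem Y.O N)) fun _ _ => (Ev.nat (resPlc Y.O) N).v_one T.ne
  refine I.congr _ _ (I.mul _ _ (I.mul _ _ (I.mul _ _ tz iN) (tB I Y.c)) iA) fun t h => ?_
  obtain ⟨-, a, b, -⟩ := Ctx.Dk.spec h
  have n0 : (N : ℂ) ≠ 0 := Nat.cast_ne_zero.2 T.pos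
  field_simp

end TayA

open TayA in
theorem tay_of : IMP → LIFT → TAY := by
  intro imp lift p _ Y θ hθ
  have I : Imp Y.O {t | Y.Dk t} := imp ℂ Y.O _ (fun t h => Ev.mem h) fun t h s h' =>
    ((Ev.sub h' h).congr rfl (sub_self _)).v_lt
  obtain ⟨K, d, e1, e2⟩ := exists_vd Y.three θ (Y.sep hθ)
  have hN : ¬p ∣ K.card := fun h => hθ (e1 ▸ Int.natCast_dvd_natCast.2 h)
  choose x hx tx using coord Y I hN
  have ty : ∀ Q ∈ K.erase 0, Ty Y.O {t | Y.Dk t} (x Q) := fun Q hQ =>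
    tx Q (Finset.mem_erase.1 hQ).1 (d.sub.nsmul_card (Finset.mem_erase.1 hQ).2)
  have A := tA I Y.c
  have B := tB I Y.c
  have c1 : ∀ Q ∈ K.erase 0, Ty Y.O {t | Y.Dk t} fun t => 3 * x Q t ^ 2 + fA (Y.c : ℂ) t :=
    fun Q hQ => I.add _ _ (nm I 3 (pw I (ty Q hQ) 2)) A
  have ta := sb I A (nm I 5 (I.sum _ _ _ c1))
  have tb := sb I B (nm I 7 (I.sum _ (K.erase 0) _ fun Q hQ => I.add _ _
    (I.mul _ _ (c1 Q hQ) (ty Q hQ))
    (nm I 2 (I.add _ _ (I.add _ _ (pw I (ty Q hQ) 3) (I.mul _ _ A (ty Q hQ))) B))))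
  have key : ∀ t, Y.Dk t → ∃ C : Finset (Y.P t),
      fA (Y.c : ℂ) t - 5 * ∑ Q ∈ K.erase 0, (3 * x Q t ^ 2 + fA (Y.c : ℂ) t) = vA C ∧
      fB (Y.c : ℂ) t - 7 * ∑ Q ∈ K.erase 0, ((3 * x Q t ^ 2 + fA (Y.c : ℂ) t) * x Q t +
        2 * (x Q t ^ 3 + fA (Y.c : ℂ) t * x Q t + fB (Y.c : ℂ) t)) = vB C ∧
      Y.h θ t = jj (vA C) (vB C) ∧ Y.O.valuation (4 * vA C ^ 3 + 27 * vB C ^ 2) = 1 := by
    intro t ht
    obtain ⟨h, h', C, u, v, c, -, cm⟩ := (lift p Y).lf θ t hθ ht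
    have cc : C.card = K.card := by exact_mod_cast c.trans e1.symm
    have n0 : (C.card : Y.κ) ≠ 0 := cc ▸ Y.nat_ne.2 hN
    have hf := red_sub_ne h.rd v.sub n0
    have im : C.image h.rd.red = K := by
      refine Finset.eq_of_subset_of_card_le (fun Q hQ => ?_) (by rw [card_red h.rd v.sub n0, cc])
      obtain ⟨P, hP, rfl⟩ := Finset.mem_image.1 hQ
      have := cm P
      rw [v.eq_zero.2 hP, map_zero, e2] at this
      exact (d.hom_eq_zero Y.three).1 this.symm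
    have sm : ∀ F : ℂ → ℂ, ∑ Q ∈ K.erase 0, F (x Q t) = ∑ P ∈ C.erase 0, F (xc P) := by
      intro F
      rw [← im, image_erase h.rd.red hf, Finset.sum_image
        ((injOn_of_ne h.rd.red v.sub hf).mono (Finset.coe_subset.2 (Finset.erase_subset _ _)))]
      refine Finset.sum_congr rfl fun P hP => ?_
      rw [hx _ t h P (cc ▸ v.sub.nsmul_card (Finset.mem_erase.1 hP).2) rfl]
    refine ⟨C, ?_, ?_, h'.spec.2.2.2.symm.trans (vd_jj v), ?_⟩
    · rw [sm fun y => 3 * y ^ 2 + fA (Y.c : ℂ) t]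
      rfl
    · rw [sm fun y => (3 * y ^ 2 + fA (Y.c : ℂ) t) * y +
        2 * (y ^ 3 + fA (Y.c : ℂ) t * y + fB (Y.c : ℂ) t)]
      rfl
    · refine (((Ev.ofNat _ 4).mul ((ev_vA h.rd v.sub hf).pow 3)).add
        ((Ev.ofNat _ 27).mul ((ev_vB h.rd v.sub hf).pow 2))).v_one ?_
      rw [im, d.hA, d.hB]
      refine fun z => mul_ne_zero (pow_ne_zero 12 d.hu) Y.good.disc ?_
      linear_combination z
  refine I.congr _ _ (I.mul _ _ (nm I 6912 (pw I ta 3))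
    (I.inv _ (I.add _ _ (nm I 4 (pw I ta 3)) (nm I 27 (pw I tb 2))) fun t h => ?_)) fun t h => ?_
  · obtain ⟨C, a, b, -, e⟩ := key t h
    rw [a, b]
    exact e
  · obtain ⟨C, a, b, e, -⟩ := key t h
    rw [a, b, e, jj, div_eq_mul_inv]

end Pool.Agent.MP_c481b3_nt.H79
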