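import Pool.Agent.MP_c481b3_nt.H79.SpecN
import Pool.Agent.MP_c481b3_nt.H79.Tay

/-! The coordinates of the torsion points on a line have expansions of order two. -/

set_option autoImplicit false

namespace Pool.Agent.MP_c481b3_nt.H79

open Pool.Agent.MP_c481b3_nt.H81 Pool.Agent.MP_c481b3_nt.H28 IsLocalRing Polynomial

namespace CrdA

lemma good_T {a b : ℤ} (h : 4 * a ^ 3 + 27 * b ^ 2 ≠ 0) :
    Good (lA (a : LL ℚ) b TT) (lB (a : LL ℚ) b TT) := by
  refine ⟨two_ne_zero, ?_⟩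
  have : (4 * lA (a : LL ℚ) b TT ^ 3 + 27 * lB (a : LL ℚ) b TT ^ 2 : LL ℚ)
      = aL (ap (4 * lA (a : ℚ[X]) b X ^ 3 + 27 * lB (a : ℚ[X]) b X ^ 2)) := by
    simp only [map_add, map_mul, map_pow, map_ofNat, map_lA, map_lB, map_intCast]
  rw [this]
  refine (_root_.map_ne_zero _).2 (ap_ne fun e => h ?_)
  have := congrArg (eval 0) e
  simp [lA, lB] at this
  have h2 : ((4 * a ^ 3 + 27 * b ^ 2 : ℤ) : ℚ) = 0 := by
    push_cast
    linarith
  exact_mod_cast h2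

lemma rdl {L κ : Type} [Field L] [Field κ] {π : Plc L κ} (a b : ℤ) {s : L} {t : κ} (h : Ev π s t)
    (g : Good (lA (a : κ) b t) (lB (a : κ) b t)) :
    Rd π (lA (a : L) b s) (lB (a : L) b s) (lA (a : κ) b t) (lB (a : κ) b t) :=
  rd_of ((Ev.int π a).sub (((Ev.ofNat π 9).mul (Ev.int π b)).mul h))
    ((Ev.int π b).add (((Ev.ofNat π 2).mul ((Ev.int π a).pow 2)).mul h)) g

end CrdA

open CrdA in
theorem uni2 : UNI2 := by
  classical
  intro a b n hd hn
  have tT := tm_char (good_T hd) hn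
  obtain ⟨G, hG⟩ := (mem_lifts (f := zL) (xp (lA (a : LL ℚ) b TT) (lB (a : LL ℚ) b TT) n)).1
    ((lifts_iff_coeff_lifts _).2 fun m => exists_zpoly
      (fun σ => (ev_triv σ.toRingEquiv.toRingHom _).unique (ev_xp (rdl a b
        ((ev_triv σ.toRingEquiv.toRingHom TT).congr rfl (σ.commutes _)) tT.good) tT m))
      fun O hO =>
        xp_mem tT O (sub_mem (intCast_mem O a)
          (mul_mem (mul_mem (natCast_mem O 9) (intCast_mem O b)) hO)) (add_mem (intCast_mem O b)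
          (mul_mem (mul_mem (natCast_mem O 2) (pow_mem (intCast_mem O a) 2)) hO)) m)
  refine ⟨G, fun t h => ?_⟩
  obtain ⟨π, hπ⟩ := univPlace ℂ t
  ext m
  have h1 := ev_xp (rdl a b ((hπ X).congr rfl (aeval_X _)) h) (tm_char h hn) m
  rw [← hG, coeff_map] at h1
  rw [coeff_map]
  exact (ev_zL hπ (G.coeff m)).unique h1

open TayA in
theorem crd_of : IMP → UNI2 → CRD := by
  intro imp uni p _ Y N Q hN
  have I : Imp Y.O {t | Y.Dk t} := imp ℂ Y.O _ (fun t h => Ev.mem h) fun t h s h' =>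
    ((Ev.sub h' h).congr rfl (sub_self _)).v_lt
  have T := Y.tm hN
  have ex : ∀ t : ℂ, ∃ x : ℂ, ∀ (h : Y.Dk t) (P : Y.P t), N • P = 0 → h.rd.red P = Q →
      xc P = x := by
    intro t
    by_cases e : ∃ (h : Y.Dk t) (P : Y.P t), N • P = 0 ∧ h.rd.red P = Q
    · obtain ⟨h, P, h1, h2⟩ := e
      exact ⟨xc P, fun _ P' a b => by rw [red_inj h.rd T.ne a h1 (b.trans h2.symm)]⟩
    · exact ⟨0, fun h P a b => absurd ⟨h, P, a, b⟩ e⟩
  choose x hx using ex
  refine ⟨x, hx, fun Q0 hQ => ?_⟩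
  obtain ⟨G, hG⟩ := uni Y.a Y.b N (fun e => Y.unit (by rw [e]; exact dvd_zero _)) T.pos
  have ev : ∀ (t : ℂ) (h : Y.Dk t) (P : Y.P t), P ≠ 0 → N • P = 0 →
      Ev (resPlc Y.O) (N * xc P) (N * xc (h.rd.red P)) := fun t h P a b =>
    (Ev.nat _ N).mul (ev_xc h.rd (red_tors_ne h.rd T.ne a b))
  have lf : ∀ (t : ℂ) (h : Y.Dk t), ∃ P : Y.P t, P ≠ 0 ∧ N • P = 0 ∧ h.rd.red P = Q ∧
      xc P = x t ∧ x t ∈ ((tors (Y.fA t) (Y.fB t) N).erase 0).image xc := by
    intro t h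
    obtain ⟨P, a, b⟩ := exists_lift h.rd T hQ
    have c : P ≠ 0 := fun e => Q0 (by rw [← b, e, map_zero])
    exact ⟨P, c, a, b, hx t h P a b, Finset.mem_image.2
      ⟨P, Finset.mem_erase.2 ⟨c, (T.up h.rd).mem.2 a⟩, hx t h P a b⟩⟩
  have ez : ∀ t : ℂ, Y.Dk t → Ev (resPlc Y.O) (N * x t) (N * xc Q) := by
    intro t h
    obtain ⟨P, a, b, c, d, -⟩ := lf t h
    rw [← d, ← c]
    exact ev t h P a b
  have tz : Ty Y.O {t | Y.Dk t} fun t => N * x t := by
    refine I.imp G _ (fun t => t) I.id (fun t h => (ez t h).mem)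
      (fun t h s h' => (((ez s h').sub (ez t h)).congr rfl (sub_self _)).v_lt) (fun t h => ?_)
      fun t h => ?_
    · obtain ⟨P, -, -, -, -, m⟩ := lf t h
      rw [ev2, hG t (Fam.Dk.good h), xp, eval_prod]
      exact Finset.prod_eq_zero m (by simp)
    · obtain ⟨P, P0, hP, -, e, m⟩ := lf t h
      have r := Fam.Dk.rd h
      rw [ev2, ← derivative_map, hG t (Fam.Dk.good h), xp,
        der_eval _ (fun y : ℂ => (N : ℂ) * y) m, map_prod]
      refine Finset.prod_eq_one fun y hy => ?_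
      obtain ⟨ne, hy⟩ := Finset.mem_erase.1 hy
      obtain ⟨R, hR, rfl⟩ := Finset.mem_image.1 hy
      obtain ⟨R0, hR⟩ := Finset.mem_erase.1 hR
      rw [(T.up r).mem] at hR
      rw [← e] at ne ⊢
      refine ((ev t h P P0 hP).sub (ev t h R R0 hR)).v_one fun z => ne ?_
      rcases eq_or_neg (red_tors_ne r T.ne P0 hP) (red_tors_ne r T.ne R0 hR)
        (mul_left_cancel₀ T.ne (sub_eq_zero.1 z)) with z2 | z2
      · rw [red_inj r T.ne hP hR z2]
      · rw [← map_neg] at z2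
        rw [red_inj r T.ne hP (by rw [smul_neg, hR, neg_zero]) z2, xc_neg]
  have iN := I.inv _ (I.const _ (natCast_mem Y.O N)) fun _ _ => (Ev.nat (resPlc Y.O) N).v_one T.ne
  exact I.congr _ _ (I.mul _ _ iN tz) fun t _ =>
    (inv_mul_cancel_left₀ (Nat.cast_ne_zero.2 T.pos) _).symm

end Pool.Agent.MP_c481b3_nt.H79
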