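import Pool.Agent.MP_c481b3_nt.H79.SpecH

/-! A residue of odd degree gives a prime of odd degree. -/

set_option autoImplicit false

namespace Pool.Agent.MP_c481b3_nt.H79

open Polynomial NumberField IsLocalRing
open scoped IntermediateField

namespace DegA

lemma gen {K : Type} [Field K] [NumberField K] (j : K) (x : ℚ⟮j⟯) : ∃ (D : ℤ) (g : ℤ[X]), D ≠ 0 ∧
    g.eval₂ (Int.castRingHom K) j = (D : K) * (x : K) := by
  have h1 : (x : K) ∈ (ℚ⟮j⟯).toSubalgebra := x.2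
  rw [IntermediateField.adjoin_simple_toSubalgebra_of_isAlgebraic (IsAlgebraic.of_finite ℚ _),
    Algebra.adjoin_singleton_eq_range_aeval] at h1
  obtain ⟨f, hf⟩ := h1
  obtain ⟨D, hD, hDf⟩ := IsLocalization.integerNormalization_spec (nonZeroDivisors ℤ) f
  refine ⟨D, IsLocalization.integerNormalization (nonZeroDivisors ℤ) f,
    nonZeroDivisors.ne_zero hD, ?_⟩
  change aeval j _ = _
  rw [← aeval_map_algebraMap ℚ, hDf, ← algebraMap_smul ℚ D f, map_smul]
  have hf' : aeval j f = (x : K) := hf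
  rw [hf', Algebra.smul_def]
  simp

lemma hom_ev {A B : Type} [CommRing A] [CommRing B] (f : A →+* B) (a : A) (g : ℤ[X]) :
    f (g.eval₂ (Int.castRingHom A) a) = g.eval₂ (Int.castRingHom B) (f a) := by
  rw [hom_eval₂, RingHom.eq_intCast' (f.comp _)]

lemma mem_of_integral (O : ValuationSubring ℂ) {x : ℂ} (hx : IsIntegral ℤ x) : x ∈ O := by
  have h : IsIntegral O x := hx.tower_top
  obtain ⟨y, rfl⟩ := IsIntegrallyClosed.isIntegral_iff.1 h
  exact y.2

lemma odd_deg {L : Type} [Field L] [NumberField L] (P : Ideal (𝓞 L)) [hP : P.IsMaximal] {q m : ℕ}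
    (hq : q.Prime) (hqP : (q : 𝓞 L) ∈ P) (hm : Odd m) (hfix : ∀ x : 𝓞 L, x ^ q ^ m - x ∈ P) :
    ∃ f, Odd f ∧ Ideal.absNorm P = q ^ f := by
  classical
  obtain ⟨p, f, hf, hpP, hp, hN⟩ := Ideal.exists_prime_and_absNorm_eq_pow P
  let : Field (𝓞 L ⧸ P) := Ideal.Quotient.field P
  have hl0 : ((q : ℕ) : 𝓞 L ⧸ P) = 0 := by
    rw [← map_natCast (Ideal.Quotient.mk P), Ideal.Quotient.eq_zero_iff_mem]
    exact hqP
  have : CharP (𝓞 L ⧸ P) q := (CharP.charP_iff_prime_eq_zero hq).2 hl0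
  have hpq : p = q := by
    have h1 : ((p : ℕ) : 𝓞 L ⧸ P) = 0 := by
      rw [← map_natCast (Ideal.Quotient.mk P), Ideal.Quotient.eq_zero_iff_mem]
      exact hpP
    rw [CharP.cast_eq_zero_iff (𝓞 L ⧸ P) q] at h1
    exact ((Nat.prime_dvd_prime_iff_eq hq hp).1 h1).symm
  subst hpq
  have hcard : Nat.card (𝓞 L ⧸ P) = p ^ f := by
    rw [← hN, Ideal.absNorm_apply, Submodule.cardQuot_apply]
  have : Finite (𝓞 L ⧸ P) := Nat.finite_of_card_ne_zero (by
    rw [hcard]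
    exact pow_ne_zero _ hq.ne_zero)
  obtain ⟨g, hg⟩ := IsCyclic.exists_ofOrder_eq_natCard (α := (𝓞 L ⧸ P)ˣ)
  rw [Nat.card_units, hcard] at hg
  have h1 : g ^ p ^ m = g := by
    ext
    obtain ⟨x, hx⟩ := Ideal.Quotient.mk_surjective (g : 𝓞 L ⧸ P)
    have := Ideal.Quotient.eq_zero_iff_mem.2 (hfix x)
    rw [map_sub, map_pow, hx, sub_eq_zero] at this
    rw [Units.val_pow_eq_pow_val, this]
  have h2 : g ^ (p ^ m - 1) = 1 := by
    have h3 : p ^ m = (p ^ m - 1) + 1 := (Nat.sub_add_cancel (Nat.one_le_pow _ _ hq.pos)).symm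
    rw [h3, pow_succ] at h1
    exact mul_eq_right.1 h1
  have h4 := orderOf_dvd_of_pow_eq_one h2
  rw [hg] at h4
  have h5 := Nat.gcd_eq_left h4
  rw [Nat.pow_sub_one_gcd_pow_sub_one] at h5
  have h6 : p ^ (Nat.gcd f m) = p ^ f := by
    have a := Nat.one_le_pow (Nat.gcd f m) _ hq.pos
    have b := Nat.one_le_pow f _ hq.pos
    omega
  have h7 := Nat.pow_right_injective hq.two_le h6
  exact ⟨f, hm.of_dvd_nat (h7 ▸ Nat.gcd_dvd_right f m), hN⟩

end DegA

open DegA in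
theorem deg_of : ODP → DEG := by
  classical
  intro odp K _ _ j hodd
  choose D g hD hg using gen j
  let e := RingOfIntegers.basis ℚ⟮j⟯
  refine ⟨∏ i, (D (e i)).natAbs, Finset.prod_ne_zero_iff.2 fun i _ => Int.natAbs_ne_zero.2 (hD _), ?_⟩
  intro q m O σ hq hqD hv hj hm hfr
  have := Fact.mk hq
  have mem : ∀ x : 𝓞 ℚ⟮j⟯, σ ((x : ℚ⟮j⟯) : K) ∈ O := fun x => mem_of_integral O
    (x.isIntegral_coe.map (σ.comp (algebraMap ℚ⟮j⟯ K)).toIntAlgHom)
  let ρ : 𝓞 ℚ⟮j⟯ →+* O :=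
    ((σ.comp (algebraMap ℚ⟮j⟯ K)).comp (algebraMap _ ℚ⟮j⟯)).codRestrict O.toSubring mem
  let φ : 𝓞 ℚ⟮j⟯ →+* ResidueField O := (residue O).comp ρ
  have hz : ∀ y : O, O.valuation (y : ℂ) < 1 → residue O y = 0 := fun y hy =>
    (residue_eq_zero_iff y).2 ((O.valuation_lt_one_iff y).2 hy)
  have hq0 : ((q : ℕ) : ResidueField O) = 0 := by
    rw [← map_natCast (residue O)]
    exact hz _ (by simpa using hv)
  have : CharP (ResidueField O) q := (CharP.charP_iff_prime_eq_zero hq).2 hq0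
  let F := iterateFrobenius (ResidueField O) q m
  let J : O := ⟨σ j, hj⟩
  have hJ : F (residue O J) = residue O J := by
    have := hz (J ^ q ^ m - J) (by simpa using hfr)
    rw [map_sub, map_pow, sub_eq_zero] at this
    exact this
  have hred : ∀ x : 𝓞 ℚ⟮j⟯, (g x).eval₂ (Int.castRingHom _) (residue O J) =
      (D x : ResidueField O) * φ x := by
    intro x
    have h1 : (g x).eval₂ (Int.castRingHom _) J = (D x : O) * ρ x := by
      apply O.subtype_injective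
      rw [hom_ev, map_mul, map_intCast]
      change eval₂ _ (σ j) (g x) = _ * σ ((x : ℚ⟮j⟯) : K)
      rw [← hom_ev, hg, map_mul, map_intCast]
    rw [← hom_ev, h1, map_mul, map_intCast]
    rfl
  have hfix : ∀ x, F (φ x) = φ x := by
    have hbasis : ∀ i, F (φ (e i)) = φ (e i) := by
      intro i
      have hDl : ((D (e i) : ℤ) : ResidueField O) ≠ 0 := by
        rw [Ne, CharP.intCast_eq_zero_iff _ q]
        intro hdvd
        exact hqD ((Int.natCast_dvd.1 hdvd).trans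
          (Finset.dvd_prod_of_mem (fun i => (D (e i)).natAbs) (Finset.mem_univ i)))
      have h1 := hom_ev F (residue O J) (g (e i))
      rw [hJ, hred, map_mul, map_intCast] at h1
      exact mul_left_cancel₀ hDl h1
    intro x
    rw [← e.sum_repr x]
    simp only [map_sum, map_zsmul, hbasis]
  have hqP : (q : 𝓞 ℚ⟮j⟯) ∈ RingHom.ker φ := by simp
  have : (RingHom.ker φ).IsMaximal := (RingHom.ker_isPrime φ).isMaximal fun h => by
    rw [h, Ideal.mem_bot, Nat.cast_eq_zero] at hqP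
    exact hq.ne_zero hqP
  obtain ⟨f, hf, hN⟩ := odd_deg (RingHom.ker φ) hq hqP hm fun x => by
    rw [RingHom.mem_ker, map_sub, map_pow, sub_eq_zero]
    exact hfix x
  obtain ⟨P, hP, hle⟩ := odp K q ((RingHom.ker φ).map (algebraMap _ (𝓞 K))) hq (by
    rw [Ideal.absNorm_algebraMap, hN, ← pow_mul, padicValNat.prime_pow,
      ← IsFractionRing.finrank_eq (𝓞 ℚ⟮j⟯) ℚ⟮j⟯ (𝓞 K) K]
    exact hf.mul hodd)
  refine ⟨P, hP, fun x hx hlt => hle ?_⟩
  have hi : IsIntegral ℤ (⟨x, hx⟩ : ℚ⟮j⟯) :=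
    (isIntegral_algebraMap_iff (algebraMap ℚ⟮j⟯ K).injective).1 x.isIntegral_coe
  have hxe : x = algebraMap (𝓞 ℚ⟮j⟯) (𝓞 K) ⟨⟨x, hx⟩, hi⟩ := by
    ext
    rfl
  rw [hxe]
  exact Ideal.mem_map_of_mem _ (hz (ρ ⟨⟨x, hx⟩, hi⟩) hlt)

end Pool.Agent.MP_c481b3_nt.H79
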