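import Pool.Agent.MP_c481b3_nt.H79.SpecZ

/-! A map tangent to the identity that moves a point as far as possible is minimal. -/

set_option autoImplicit false

namespace Pool.Agent.MP_c481b3_nt.H79

namespace DynA

variable {p : ℕ} [hp : Fact p.Prime] {j : ℤ_[p]} {g : ℤ_[p] → ℤ_[p]}

theorem unit_iff (u : ℤ_[p]) : IsUnit u ↔ ¬(p : ℤ_[p]) ∣ u := by
  rw [← PadicInt.norm_lt_one_iff_dvd, ← PadicInt.not_isUnit_iff, not_not]

theorem sub {x y : ℤ_[p]} (hx : Dz j x) (hy : Dz j y) : (p : ℤ_[p]) ∣ y - x := by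
  simpa using dvd_sub hy hx

theorem iter (hC : COMPZ) (h : Tz j g 1) (n : ℕ) : Tz j g^[n] 1 := by
  induction n with
  | zero => exact fun x hx => ⟨hx, 1, 0, by simp, fun y _ => by simp⟩
  | succ n ih => simpa using hC.comp p j _ _ g^[n + 1] _ _ h ih fun _ _ => rfl

/-- the orbit to first and to second order -/
theorem orbit (hC : COMPZ) (h : Tz j g 1) {x : ℤ_[p]} (hx : Dz j x) : ∃ a b : ℤ_[p], ∀ n : ℕ,
    p * (g x - x) ∣ g^[n] x - x - n * (g x - x) ∧ p ^ 2 * (g x - x) ∣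
      6 * (g^[n] x - x - n * (g x - x)) - p * (g x - x) * n * (a * (n - 1) +
        b * ((n - 1) * (2 * n - 1))) := by
  obtain ⟨h1, a, b, ⟨a', ha⟩, hy⟩ := h x hx
  obtain ⟨e, he⟩ := sub hx h1
  refine ⟨3 * a', b * e, fun n => ?_⟩
  induction n with
  | zero => simp
  | succ n ih =>
    obtain ⟨⟨r, hr⟩, s, hs⟩ := ih
    obtain ⟨w, hw⟩ := hy _ (iter hC h n x hx).1
    rw [Function.iterate_succ_apply']
    generalize g^[n] x = y at *
    obtain rfl : y = x + p * e * (n + p * r) := by rw [he] at hr; linear_combination hr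
    obtain rfl : a = 1 + p * a' := by linear_combination ha
    rw [he] at hs ⊢
    push_cast
    refine ⟨⟨r + (n + p * r) * (a' + b * e * (n + p * r) + p * (e * (n + p * r)) ^ 2 * w), ?_⟩,
      s + 6 * (a' * r + b * e * r * (2 * n + p * r) + e ^ 2 * (n + p * r) ^ 3 * w), ?_⟩
    · linear_combination hw + he
    · linear_combination 6 * hw + 6 * he + hs

/-- every point is moved by the same amount -/
def Ex (j : ℤ_[p]) (k : ℕ) (g : ℤ_[p] → ℤ_[p]) : Prop :=
  ∀ x, Dz j x → ∃ u, ¬(p : ℤ_[p]) ∣ u ∧ g x - x = p ^ (k + 1) * u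

theorem step (hC : COMPZ) (h5 : 5 ≤ p) (h : Tz j g 1) {k : ℕ} (e : Ex j k g) :
    Ex j (k + 1) g^[p] := fun x hx => by
  obtain ⟨a, b, H⟩ := orbit hC h hx
  obtain ⟨u, hu, e⟩ := e x hx
  have u6 : IsUnit ((2 * 3 : ℕ) : ℤ_[p]) := by
    rw [PadicInt.isUnit_iff, PadicInt.norm_natCast_eq_one_iff]
    exact .mul_right ((Nat.coprime_primes hp.out Nat.prime_two).2 (by omega))
      ((Nat.coprime_primes hp.out Nat.prime_three).2 (by omega))
  obtain ⟨w, hw⟩ : p ^ 2 * (g x - x) ∣ g^[p] x - x - p * (g x - x) := by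
    obtain ⟨w, hw⟩ := (H p).2
    refine u6.dvd_mul_left.1 ⟨w + (a * (p - 1) + b * ((p - 1) * (2 * p - 1))), ?_⟩
    push_cast
    linear_combination hw
  refine ⟨u + p * (u * w), fun q => hu ((dvd_add_left (dvd_mul_right _ _)).1 q), ?_⟩
  rw [e] at hw
  linear_combination hw

end DynA

open DynA in
theorem dyn_of : COMPZ → DYN := by
  intro hC p hp j c f h5 h hc hn
  have p0 : (p : ℤ_[p]) ≠ 0 := Nat.cast_ne_zero.2 hp.out.ne_zero
  have ex : ∀ k, Ex j k f^[p ^ k] := fun k => by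
    induction k with
    | succ k ih => rw [pow_succ, Function.iterate_mul]; exact step hC h5 (iter hC h _) ih
    | zero =>
      intro x hx
      obtain ⟨u, hu⟩ := sub hx (h x hx).1
      obtain ⟨-, a, b, ⟨a', ha⟩, hy⟩ := h c hc
      obtain ⟨w, hw⟩ := hy x hx
      obtain ⟨e, he⟩ := sub hc hx
      refine ⟨u, fun ⟨v, hv⟩ => hn ⟨v - a' * e - b * e ^ 2 - p * e ^ 3 * w, ?_⟩, by simpa using hu⟩
      rw [he] at hw
      linear_combination hu - hw + he + p * hv - p * e * ha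
  intro x hx
  refine ⟨fun y hy k => ?_, fun n e => by_contra fun n0 => ?_⟩
  · suffices ∃ n, (p : ℤ_[p]) ^ (k + 1) ∣ f^[n] x - y from
      this.imp fun n => (pow_dvd_pow _ k.le_succ).trans
    induction k with
    | zero => exact ⟨0, by simpa using sub hy hx⟩
    | succ k ih =>
      obtain ⟨n, t, ht⟩ := ih
      have hx' := (iter hC h n x hx).1
      obtain ⟨u, hu, e⟩ := ex k _ hx'
      obtain ⟨v, hv⟩ := ((unit_iff u).2 hu).exists_right_inv
      obtain ⟨_, _, H⟩ := orbit hC (iter hC h (p ^ k)) hx'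
      obtain ⟨r, hr⟩ := (H ((-t * v).appr 1)).1
      obtain ⟨s, hs⟩ := Ideal.mem_span_singleton.1 (PadicInt.appr_spec 1 (-t * v))
      refine ⟨p ^ k * (-t * v).appr 1 + n, u * r - u * s, ?_⟩
      rw [Function.iterate_add_apply, Function.iterate_mul]
      rw [e] at hr
      linear_combination hr + ht - p ^ (k + 1) * u * hs - p ^ (k + 1) * t * hv
  · obtain ⟨k, m, hm, rfl⟩ := Nat.exists_eq_pow_mul_and_not_dvd n0 p hp.out.ne_one
    obtain ⟨u, hu, e'⟩ := ex k x hx
    obtain ⟨_, _, H⟩ := orbit hC (iter hC h (p ^ k)) hx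
    have := (H m).1
    rw [← Function.iterate_mul, e, sub_self, zero_sub, dvd_neg, e', mul_dvd_mul_iff_right
      (mul_ne_zero (pow_ne_zero _ p0) fun q => hu (by simp [q])), ← PadicInt.norm_lt_one_iff_dvd,
      PadicInt.norm_natCast_lt_one_iff] at this
    exact hm this

end Pool.Agent.MP_c481b3_nt.H79
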