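import Pool.Agent.MP_c481b3_nt.H79.SpecZ

/-! Rows SYMZ and FINZ: the parity of the valuation along dense orbits. -/

set_option autoImplicit false

namespace Pool.Agent.MP_c481b3_nt.H79

open Polynomial

namespace FinzA

variable {p : ℕ} [hp : Fact p.Prime]

theorem loc (g : ℚ[X]) {y : ℤ_[p]} (h : pv g y ≠ 0) :
    ∃ k : ℕ, ∀ z, (p : ℤ_[p]) ^ k ∣ z - y → (pv g z).valuation = (pv g y).valuation := by
  have hc : Continuous (pv (p := p) g) := g.continuous_aeval.comp continuous_subtype_val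
  obtain ⟨ε, h0, h1⟩ := Metric.continuous_iff.1 hc y _ (norm_pos_iff.2 h)
  obtain ⟨k, hk⟩ := PadicInt.exists_pow_neg_lt p h0
  refine ⟨k, fun z hz => ?_⟩
  have h2 := h1 z (by
    rw [dist_eq_norm]
    exact ((PadicInt.norm_le_pow_iff_mem_span_pow _ k).2 (Ideal.mem_span_singleton.2 hz)).trans_lt hk)
  rw [dist_eq_norm] at h2
  have h3 : ‖pv g z‖ = ‖pv g y‖ := Padic.norm_eq_of_norm_sub_lt_right h2
  have h4 : pv g z ≠ 0 := norm_ne_zero_iff.1 (h3.trans_ne (norm_ne_zero_iff.2 h))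
  rw [Padic.norm_eq_zpow_neg_valuation h4, Padic.norm_eq_zpow_neg_valuation h] at h3
  exact neg_injective (zpow_right_injective₀ (Nat.cast_pos.2 hp.out.pos)
    (Nat.cast_ne_one.2 hp.out.ne_one) h3)

theorem iter {j e x : ℤ_[p]} {f : ℤ_[p] → ℤ_[p]} (h : Tz j f e) (hx : Dz j x) (n : ℕ) :
    Dz j (f^[n] x) := by
  induction n with
  | zero => exact hx
  | succ n ih => rw [Function.iterate_succ_apply']; exact (h _ ih).1

theorem fin {g : ℚ[X]} (h : g ≠ 0) : {z : ℤ_[p] | pv g z = 0}.Finite :=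
  ((g.rootSet_finite ℚ_[p]).preimage Subtype.val_injective.injOn).subset fun _ hz =>
    (mem_rootSet_of_ne h).2 hz

end FinzA

open FinzA

theorem symz_of : COMPZ → SYMZ := by
  intro hC p _ j c e e' s f g hs hf hc hd h y hy h1 h2
  obtain ⟨k, hk⟩ := loc g h1
  obtain ⟨l, hl⟩ := loc g h2
  obtain ⟨n, hn⟩ := hd y hy (k + l)
  rw [← hk _ ((pow_dvd_pow _ (Nat.le_add_right k l)).trans hn), ← hl _ ((pow_dvd_pow _
    (Nat.le_add_left l k)).trans (hn.trans (hC.lip p j s e hs _ _ hy (iter hf hc n))))]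
  exact h n

theorem finz_of : COMPZ → DYN → FINZ := by
  intro hC hD p _ j c s s' g h5 hg hs hs' hi _ hc hf hm i1 i2 x y hx hy gx gy
  have hT : Tz j (fun u => s' (s u)) 1 := by
    simpa using hC.comp p j s s' (fun u => s' (s u)) _ _ hs hs' fun _ _ => rfl
  generalize hT' : (fun u => s' (s u)) = T at hT
  have eT : ∀ u, T u = s' (s u) := fun u => by rw [← hT']
  have h1 := hD p j c T h5 hT hc (by rwa [eT, hf])
  have h2 : Function.Injective fun n => T^[n] c := fun a b e => by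
    wlog hab : a ≤ b generalizing a b
    · exact (this b a e.symm (le_of_not_ge hab)).symm
    obtain ⟨d, rfl⟩ := Nat.exists_eq_add_of_le' hab
    beta_reduce at e
    rw [Function.iterate_add_apply] at e
    rw [(h1 _ (iter hT hc a)).2 d e.symm, zero_add]
  obtain ⟨N, hN⟩ := (((fin hg).union ((fin hg).image s)).preimage h2.injOn).bddAbove
  have h3 : ∀ n, pv g (T^[n] (T^[N + 1] c)) ≠ 0 ∧ pv g (s (T^[n] (T^[N + 1] c))) ≠ 0 := fun n => by
    rw [← Function.iterate_add_apply]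
    exact ⟨fun e => by have := hN (Or.inl e); omega,
      fun e => by have := hN (Or.inr ⟨_, e, hi _ (iter hT hc _)⟩); omega⟩
  have h4 := iter hT hc (N + 1)
  generalize T^[N + 1] c = u at h3 h4
  have h6 : ∀ n, Odd (pv g (T^[n] u)).valuation ↔ Odd (pv g u).valuation := fun n => by
    induction n with
    | zero => rfl
    | succ n ih =>
      have a := (h3 (n + 1)).1
      rw [Function.iterate_succ_apply', eT] at a ⊢
      exact ((i2 _ (hs _ (iter hT h4 n)).1 (h3 n).2 a).trans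
        (i1 _ (iter hT h4 n) (h3 n).1 (h3 n).2)).trans ih
  obtain ⟨k, hk⟩ := loc g gx
  obtain ⟨l, hl⟩ := loc g gy
  obtain ⟨a, ha⟩ := (h1 u h4).1 x hx k
  obtain ⟨b, hb⟩ := (h1 u h4).1 y hy l
  rw [← hk _ ha, ← hl _ hb, h6, h6]

end Pool.Agent.MP_c481b3_nt.H79
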