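import Pool.Agent.MP_c481b3_nt.H79.SpecP
import Pool.Agent.MP_c481b3_nt.H79.Iu

/-! Row Fixa: the singular moduli lie in the unramified quadratic extension. -/

set_option autoImplicit false

namespace Pool.Agent.MP_c481b3_nt.H79

open Pool.Agent.MP_c481b3_nt.H81 Pool.Agent.MP_c481b3_nt.H28

namespace FixaA

lemma pow_sign {k : Type} [Field k] {a : k} {p : ℕ} (hp : Odd p) (h : a ^ p = -a) (m : ℕ) :
    a ^ p ^ m = (-1) ^ m * a := by
  induction m with
  | zero => simp
  | succ m ih =>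
    rw [pow_succ p, pow_mul, ih, mul_pow, h, ← pow_mul, mul_comm m p, pow_mul, hp.neg_one_pow]
    ring

end FixaA

open FixaA in
theorem fixa_of : LIFT → RAT → ENDL → FRB → QUO → PREM → FIXA := by
  intro _ R E F Q Pm p _ X θ n c ε s t ss odd hn sq anti dz hz hs cm
  have hN : NE θ = n := X.cr.norm_of_sq (Int.natCast_nonneg n) (by rw [sq, Int.cast_natCast])
  have hd : ¬(p : ℤ) ∣ NE θ := by rwa [hN, Int.natCast_dvd_natCast]
  have h0 : X.Dk (X.io c) := X.dk_io.2 dz
  have fx : X.h θ (X.io c) = X.io c := by rw [← R p X θ c ⟨hd, Or.inr anti⟩ dz, hz]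
  obtain ⟨-, u, χ, cx, ev, -⟩ := E p X θ n _ h0 hn sq fx
  obtain ⟨C₀, q₀⟩ := Q n _ _ u t χ ε odd cx cm
  have nr : ¬IsSquare (-(n : ZMod p)) := by
    simpa [hN] using nonres X.good X.three p X.hA X.hB anti hd
  obtain ⟨k₀, q, hC⟩ := Pm n p _ _ u t χ ε C₀ Fact.out nr cx q₀
  generalize C₀.image (p ^ k₀ • ·) = C at q hC
  obtain ⟨v, A', B', d, rfl⟩ := q.quo
  refine X.pad.fix2 s _ (-n) (by rw [hs, map_neg, map_natCast]) fun σ f1 f2 => ?_
  have e : (σ : ℂ →+* ℂ) (X.io c) = X.io c := f1 _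
  have f3 : σ u = u := by
    rcases sq_eq_sq_iff_eq_or_eq_neg.1 ((cx_iff.1 cx).2.trans hs.symm) with h | h
    · rw [h, f2]
    · rw [h, map_neg, f2]
  obtain ⟨m, m1, m2⟩ := F p X σ _ h0 e C.card u f1 hC ev.mem
  have c0 := X.sep hd
  have a1 : cE X.good θ ^ p = -cE X.good θ := by
    simpa using c_anti X.good X.three p 1 X.hA X.hB c0 anti
  have po : Odd p := (Fact.out : p.Prime).odd_of_ne_two (by have := X.five; omega)
  rw [f3] at m1
  have a2 := (ev.sub (ev.pow (p ^ m))).unique (Ev.of_lt (π := resPlc X.O) m1)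
  rw [pow_sign po a1] at a2
  obtain ⟨k, rfl⟩ : Even m := by
    by_contra h
    rw [(Nat.not_even_iff_odd.1 h).neg_one_pow] at a2
    exact mul_ne_zero X.two c0 (by linear_combination a2)
  have pw : X.π ^ (k + k) = (((-p) ^ k : ℤ) : X.E) := by
    rw [← two_mul, pow_mul, pow_two, show X.π * X.π = _ from ss]
    push_cast
    rfl
  have st : ∀ P ∈ C, h0.cj σ e P ∈ C := fun P hP => by
    have h1 := d.sub.nsmul_card hP
    have h2 := zsmul_mem_sub d.sub hP ((-p) ^ k)
    rw [red_inj h0.rd (X.nat_ne.2 hC) (P := h0.cj σ e P) (by rw [← map_nsmul, h1, map_zero])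
      (d.sub.nsmul_card h2) (by rw [m2 P h1, pw, EE_int, map_zsmul])]
    exact h2
  have im : C.image (h0.cj σ e) = C :=
    Finset.eq_of_subset_of_card_le (Finset.image_subset_iff.2 st)
      (Finset.card_image_of_injective _ (Sc.injective _)).ge
  obtain ⟨b1, b2⟩ := vA_image (σ : ℂ →+* ℂ) (by rw [map_fA, map_intCast, e])
    (by rw [map_fB, map_intCast, e]) h0.spec.1 d.sub
  rw [vd_jj d]
  refine (jj_map (σ : ℂ →+* ℂ) _ _).trans ?_
  rw [← b1, ← b2]
  exact congrArg (fun D => jj (vA D) (vB D)) im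

end Pool.Agent.MP_c481b3_nt.H79
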