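import Pool.Agent.MP_c481b3_nt.H79.SpecN
import Pool.Agent.MP_c481b3_nt.H79.Fixb

/-! The rational singular moduli in the deformation disc of any supersingular curve. -/

set_option autoImplicit false

namespace Pool.Agent.MP_c481b3_nt.H79

open Pool.Agent.MP_c481b3_nt.H81 Pool.Agent.MP_c481b3_nt.H28

namespace FixbNA

open FixbA (pr pow_odd)

variable {p : ℕ} [Fact p.Prime] {X : Fam p}

/-- the degree is prime to `p` -/
def U (θ : X.E) : Prop := ¬(p : ℤ) ∣ NE θ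

lemma U.mul {θ ψ : X.E} (a : U θ) (b : U ψ) : U (θ * ψ) := fun h =>
  (pr.dvd_or_dvd (X.cr.mul θ ψ ▸ h)).elim a b

lemma U.int {m : ℤ} (h : ¬(p : ℤ) ∣ m) : U (m : X.E) := fun e =>
  h (pr.dvd_of_dvd_pow (X.cr.int m ▸ e))

lemma U.nat {m : ℕ} (h : ¬p ∣ m) : U (m : X.E) := by
  simpa using U.int (X := X) (m := m) (by exact_mod_cast h)

lemma U.pow {θ : X.E} (a : U θ) (n : ℕ) : U (θ ^ n) := by
  induction n with
  | zero => simpa using U.int (X := X) (m := 1) pr.not_dvd_one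
  | succ n ih => rw [pow_succ]; exact ih.mul a

lemma U.left {θ ψ : X.E} (a : U (θ * ψ)) : U θ := fun h =>
  a (X.cr.mul θ ψ ▸ h.mul_right _)

lemma U.ne {θ : X.E} (a : U θ) : θ ≠ 0 := fun e => a (by rw [e, X.cr.zero]; exact dvd_zero _)

lemma U.sq {θ : X.E} {n : ℕ} (h : ¬p ∣ n) (e : θ * θ = -(n : X.E)) : U θ :=
  U.left (ψ := -θ) (by rw [mul_neg, e, neg_neg]; exact U.nat h)

lemma t2_mul {ψ φ : X.E} (a : X.T2 ψ) : X.T2 (ψ * φ) ↔ X.T2 φ :=
  forall₂_congr fun P hP => by rw [EE_mul, a _ (by rw [← map_nsmul, hP, map_zero])]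

lemma t2_pow {ψ : X.E} (a : X.T2 ψ) (n : ℕ) : X.T2 (ψ ^ n) := by
  induction n with
  | zero => exact fun _ _ => rfl
  | succ n ih => rw [pow_succ]; exact (t2_mul ih).2 a

lemma t2_odd (ω : X.E) : X.T2 (1 + 2 * ω) := fun P hP => by
  rw [EE_add, two_mul, EE_add, ← map_add, ← two_nsmul, hP, map_zero, add_zero]; rfl

lemma t2_nat {r : ℕ} (h : Odd r) : X.T2 (r : X.E) := by
  obtain ⟨k, rfl⟩ := h
  simpa [add_comm] using t2_odd (k : X.E)

lemma fix_pow (L : X.Lift) {φ : X.E} {t : ℂ} (ht : X.Dk t) (a : U φ) (e : X.h φ t = t) (n : ℕ) :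
    X.h (φ ^ n) t = t := by
  induction n with
  | zero => simpa using L.int 1 t pr.not_dvd_one ht
  | succ n ih => rw [pow_succ, L.mul _ _ _ (a.pow n) a ht, e, ih]

lemma fix_int (L : X.Lift) {φ : X.E} {t : ℂ} (ht : X.Dk t) (a : U φ) (e : X.h φ t = t) {m : ℤ}
    (hm : ¬(p : ℤ) ∣ m) : X.h (m * φ) t = t := by
  rw [L.mul _ _ _ (U.int hm) a ht, e, L.int m t hm ht]

lemma exists_sigma {n : ℕ} {u : ℂ} (hu : u ∈ X.O) (e : u ^ 2 = -n)
    (nr : ¬IsSquare (-(n : ZMod p))) : ∃ σ, Fx X.ι σ ∧ σ u = -u := by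
  by_contra h
  push Not at h
  obtain ⟨a, rfl⟩ := X.pad.fix u fun σ hσ => (sq_eq_sq_iff_eq_or_eq_neg.1 (by
    rw [← map_pow, e, map_neg, map_natCast])).resolve_right (h σ hσ)
  obtain ⟨a, rfl⟩ : ∃ b : ℤ_[p], a = b := ⟨⟨a, (X.pad.mem a).1 hu⟩, rfl⟩
  have : a * a = -n := Subtype.ext (X.ι.injective (by simpa [sq] using e))
  exact nr ⟨PadicInt.toZMod a, by rw [← map_mul, this]; simp⟩

lemma odd_m {s : X.κ} (s0 : s ≠ 0) (e : s ^ p ^ 1 = -s) {m : ℕ} (h : -s - s ^ p ^ m = 0) :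
    Odd m := by
  refine Nat.not_even_iff_odd.1 ?_
  rintro ⟨k, rfl⟩
  have : s ^ p ^ (k + k) = s := by
    clear h
    induction k with
    | zero => simp
    | succ k ih =>
      rw [show k + 1 + (k + 1) = k + k + 1 + 1 by ring, pow_add, pow_add, pow_mul, pow_mul, ih, e,
        (odd_char X.good p 1).neg_pow, e, neg_neg]
  exact s0 (mul_left_cancel₀ X.two (by linear_combination -h - this))

section type
variable {t : ℂ} (ht : X.Dk t) {C : Finset (X.P t)} (hC : IsSub C) (hp : ¬p ∣ C.card)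
include hp

lemma nd2 : ¬p ∣ C.card * 2 := fun h => ((Fact.out : p.Prime).dvd_mul.1 h).elim hp fun e => by
  have := Nat.le_of_dvd two_pos e
  have := X.five
  omega

include hC

lemma mem_of {P : X.P t} (hP : (C.card * 2) • P = 0) (h : ht.rd.red P ∈ C.image ht.rd.red) :
    P ∈ C := by
  obtain ⟨Q, hQ, e⟩ := Finset.mem_image.1 h
  rwa [← red_inj ht.rd (X.tm (nd2 hp)).ne
    (by rw [mul_comm, mul_nsmul', hC.nsmul_card hQ, nsmul_zero]) hP e]

lemma type_iff {χ : X.P t →+ X.P t} {θ : X.E} (e : ∀ P, ht.rd.red (χ P) = θ.1 (ht.rd.red P)) :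
    (∀ Q : Pt X.A X.B, 2 • Q ∈ C.image ht.rd.red → θ.1 Q - Q ∈ C.image ht.rd.red) ↔
      ∀ P, 2 • P ∈ C → χ P - P ∈ C := by
  refine ⟨fun h P hP => ?_, fun h Q hQ => ?_⟩
  · have z : (C.card * 2) • P = 0 := by rw [mul_nsmul', hC.nsmul_card hP]
    refine mem_of ht hC hp (by rw [nsmul_sub, ← map_nsmul, z, map_zero, sub_zero]) ?_
    rw [map_sub, e]
    exact h _ (by rw [← map_nsmul]; exact Finset.mem_image_of_mem _ hP)
  · obtain ⟨P, z, rfl⟩ := exists_lift ht.rd (X.tm (nd2 hp)) (Q := Q) (by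
      obtain ⟨P, hP, e⟩ := Finset.mem_image.1 hQ
      rw [mul_nsmul', ← e, ← map_nsmul, hC.nsmul_card hP, map_zero])
    rw [← e, ← map_sub]
    rw [← map_nsmul] at hQ
    exact Finset.mem_image_of_mem _ (h P (mem_of ht hC hp (by rw [smul_comm, z, nsmul_zero]) hQ))

lemma pi_stab (ss : X.SS) {f : X.P t → X.P t} (hf : ∀ P ∈ C, f P ∈ C) {m : ℕ} (hm : Odd m)
    (e : ∀ P, C.card • P = 0 → ht.rd.red (f P) = (X.π ^ m).1 (ht.rd.red P)) :
    ∀ Q ∈ C.image ht.rd.red, X.π.1 Q ∈ C.image ht.rd.red := by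
  intro Q hQ
  obtain ⟨P, hP, rfl⟩ := Finset.mem_image.1 hQ
  obtain ⟨k, rfl⟩ := hm
  obtain ⟨a, b, h⟩ : IsCoprime ((-p : ℤ) ^ k) C.card := (Nat.isCoprime_iff_coprime.2
    ((Fact.out : p.Prime).coprime_iff_not_dvd.2 hp)).neg_left.pow_left
  have z := hC.nsmul_card hP
  have e1 := e P z
  rw [pow_odd ss, EE_mul, EE_int] at e1
  rw [← one_zsmul (X.π.1 _), ← h, add_zsmul, mul_zsmul, mul_zsmul, ← e1, natCast_zsmul,
    ← map_nsmul, ← map_nsmul, z, map_zero, map_zero, zsmul_zero, add_zero, ← map_zsmul]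
  exact Finset.mem_image_of_mem _ (zsmul_mem_sub hC (hf P hP) a)

end type

end FixbNA

open FixbA (al_norm al_comm al_move al_sq) in
open FixbNA in
theorem fixb2_of : LIFT2 → RAT2 → ENDL2 → FRB2 → QUO → PREM → H90 → CLS → FIXB2 := by
  intro hL hR hE hF hQ hP hH hC p _ X φ l r i x y c z ss hl l4 lp hr r2 rp rl hxy hφ an hc fx
  have pp : p.Prime := Fact.out
  have L := hL p X
  have nl : ¬p ∣ l := fun h => lp ((Nat.prime_dvd_prime_iff_eq pp hl).1 h).symm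
  have nr : ¬p ∣ r := fun h => rp ((Nat.prime_dvd_prime_iff_eq pp hr).1 h).symm
  have ro : Odd r := hr.odd_of_ne_two r2
  have uφ : U φ := U.sq nl hφ
  have ht : X.Dk (X.io c) := X.dk_io.2 hc
  have f0 : X.h φ (X.io c) = X.io c := by rw [← hR p X φ c ⟨uφ, Or.inr an⟩ hc, fx]
  have w2 : ∀ η : ℤ, η ^ 2 = 1 → (r : ℤ) = x ^ 2 + p * (η * y) ^ 2 := fun η h => by
    rw [mul_pow, h, one_mul, hxy]
  have ua : ∀ η : ℤ, η ^ 2 = 1 → U (X := X) ((x : X.E) + (η * y : ℤ) * X.π) := fun η h =>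
    U.left (by rw [al_norm ss (w2 η h)]; exact U.nat nr)
  have ra : ∀ (η : ℤ) (b : ℕ), η ^ 2 = 1 → X.io (X.hz (((x : X.E) + (η * y : ℤ) * X.π) ^ b) c)
      = X.h (((x : X.E) + (η * y : ℤ) * X.π) ^ b) (X.io c) := fun η b h =>
    hR p X _ c ⟨(ua η h).pow b, Or.inl ((al_comm x _).pow_left b)⟩ hc
  set n := l * (r ^ i) ^ 2 with hn
  have nn : ¬p ∣ n := fun h => (pp.dvd_mul.1 h).elim nl fun h =>
    nr (pp.dvd_of_dvd_pow (pp.dvd_of_dvd_pow h))
  have on : Odd n := (Nat.odd_iff.2 (by omega)).mul ro.pow.pow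
  have cr : ∀ ψ : X.E, Commute ((r : X.E) ^ i) ψ := fun ψ => (Nat.cast_commute r ψ).pow_left i
  have sq : (r : X.E) ^ i * φ * ((r : X.E) ^ i * φ) = -(n : X.E) := by
    rw [mul_assoc, ← mul_assoc φ, ← (cr φ).eq, mul_assoc, hφ, hn, mul_comm l]
    push_cast
    noncomm_ring
  have aθ : (r : X.E) ^ i * φ * X.π = -(X.π * ((r : X.E) ^ i * φ)) := by
    rw [mul_assoc, an, ← mul_assoc X.π, ← (cr X.π).eq, mul_neg, mul_assoc]
  have fθ : X.h ((r : X.E) ^ i * φ) (X.io c) = X.io c := by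
    simpa using fix_int L ht uφ f0 (m := r ^ i) fun h =>
      nr (pp.dvd_of_dvd_pow (n := i) (by exact_mod_cast h))
  have uθ := U.sq nn sq
  refine ⟨fun cm => ?_, ?_⟩
  · obtain ⟨-, u, χ, cx, ev, rd⟩ := hE p X _ n _ ht nn sq fθ
    have ns : ¬IsSquare (-(n : ZMod p)) := by
      have := nonres X.good X.three p X.hA X.hB aθ uθ
      rw [X.cr.norm_of_sq (n := n) (by positivity) (by simpa using sq)] at this
      simpa using this
    obtain ⟨σ, fσ, su⟩ := exists_sigma ev.mem (cx_iff.1 cx).2 ns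
    have e : (σ : ℂ →+* ℂ) (X.io c) = X.io c := fσ _
    obtain ⟨C₀, q₀⟩ := hQ n _ _ u _ χ _ on cx cm
    obtain ⟨C₁, q₁, s₁⟩ := hH n _ _ u _ χ _ C₀ σ (by rw [X.map_fA, e])
      (by rw [X.map_fB, e]) ht.good su (fσ z) cx q₀
    obtain ⟨k, q, cp⟩ := hP n p _ _ u _ χ _ C₁ pp ns cx q₁
    have s : ∀ P ∈ C₁.image (p ^ k • ·), ht.cj σ e P ∈ C₁.image (p ^ k • ·) := fun P h => by
      obtain ⟨Q, h', rfl⟩ := Finset.mem_image.1 h
      rw [map_nsmul]
      exact Finset.mem_image_of_mem _ (s₁ Q h')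
    generalize C₁.image (p ^ k • ·) = C at q cp s
    obtain ⟨v, A', B', d, j⟩ := q.quo
    obtain ⟨m, m1, m2⟩ := hF p X σ _ ht e C.card u fσ cp ev.mem
    have om : Odd m := odd_m (X.sep uθ) (c_anti X.good X.three p 1 X.hA X.hB (X.sep uθ) aθ)
      ((ev.neg.sub (ev.pow _)).unique (Ev.of_lt (su ▸ m1)))
    obtain ⟨a, η, e', b, ha, hη, hb, mem⟩ := hC (Pt X.A X.B) X.E NE X.cr p l r i x y X.π φ pp
      (by have := X.five; omega) hl l4 lp hr r2 rp rl hxy ss hφ an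
      (fun θ h => ker_card X.three X.good θ (X.sep h)) (toSub (isSub_image ht.rd.red d.sub))
      (Finset.finite_toSet _) (by rwa [card_toSub, card_red _ d.sub (X.tm cp).ne])
      (pi_stab ht d.sub cp ss s om m2)
      (fun Q h => by
        obtain ⟨P, h', rfl⟩ := Finset.mem_image.1 h
        exact Finset.mem_image.2 ⟨_, q.st P h', rd P⟩)
      ((type_iff ht d.sub cp rd).trans (q.ty.symm.trans (t2_mul (t2_pow (t2_nat ro) i)).symm))
    have ub := (ua η hη).pow b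
    have um := (U.int ha).mul (uφ.pow e')
    refine ⟨η, b, hη, hb, X.ι.injective ?_⟩
    rw [← j, L.ker _ _ ht C v A' B' (ub.mul um) d cp mem, L.mul _ _ _ ub um ht,
      fix_int L ht (uφ.pow e') (fix_pow L ht uφ f0 e') ha, ← ra η b hη]
    exact (Fam.io_Jz (X.dk_io.1 (ra η b hη ▸ (L.lf _ _ ub ht).choose_spec.choose))).symm
  · rintro ⟨η, b, hη, hb, rfl⟩
    obtain ⟨a, rfl⟩ := Nat.exists_eq_add_of_le hb
    have mv := al_move ss an (w2 η hη) a b
    obtain ⟨ω, hω⟩ := al_sq ss (w2 η hη) ro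
    have t2 := (t2_mul (t2_pow (t2_nat (X := X) ro) a)).2 (t2_pow (hω ▸ t2_odd ω) b)
    have ub := (ua η hη).pow b
    have rb := ra η b hη
    generalize (r : X.E) ^ a * _ = ψ at mv t2
    generalize ((x : X.E) + (η * y : ℤ) * X.π) ^ b = β at mv ub rb ⊢
    have s2 : ψ * φ * (ψ * φ) = -(n : X.E) := X.cr.cancel' ub.ne (by
      rw [mul_assoc, mv, ← mul_assoc, mv, mul_assoc, sq, mul_neg, neg_mul, Nat.cast_comm])
    obtain ⟨-, h', -⟩ := L.lf β _ ub ht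
    have := (hE p X _ n _ h' nn s2 (by
      rw [← L.mul _ _ _ (U.sq nn s2) ub ht, mv, L.mul _ _ _ ub uθ ht, fθ])).1
    rwa [← rb, ← Fam.io_Jz (X.dk_io.1 (rb ▸ h')), propext (t2_mul t2)] at this

end Pool.Agent.MP_c481b3_nt.H79
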