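import Pool.Agent.MP_c481b3_nt.H79.SpecP
import Pool.Agent.MP_c481b3_nt.H28.Loc
import Pool.Agent.MP_c481b3_nt.H28.SeedGeo

/-! Automorphisms that fix the `p`-adic numbers act on residues through powers of Frobenius. -/

set_option autoImplicit false

namespace Pool.Agent.MP_c481b3_nt.H79

open Pool.Agent.MP_c481b3_nt.H81 Pool.Agent.MP_c481b3_nt.H28 IsLocalRing Polynomial

namespace FrbA

section fin
variable {κ : Type} [Field κ] (p : ℕ) [Fact p.Prime] [CharP κ p]

lemma exists_fix (T : Finset κ)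
    (hT : ∀ y ∈ T, ∃ g : (ZMod p)[X], g ≠ 0 ∧ g.eval₂ (ZMod.castHom (dvd_refl p) κ) y = 0) :
    ∃ N : ℕ, N ≠ 0 ∧ ∀ y ∈ T, y ^ p ^ N = y := by
  let : Algebra (ZMod p) κ := ZMod.algebra κ p
  have hi : ∀ y ∈ (T : Set κ), IsIntegral (ZMod p) y := fun y hy => by
    obtain ⟨g, h0, h1⟩ := hT y hy
    refine IsAlgebraic.isIntegral ⟨g, h0, ?_⟩
    rw [aeval_def, Subsingleton.elim (algebraMap (ZMod p) κ) (ZMod.castHom (dvd_refl p) κ)]
    exact h1
  set F := IntermediateField.adjoin (ZMod p) (T : Set κ) with hF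
  have : FiniteDimensional (ZMod p) F := IntermediateField.finiteDimensional_adjoin hi
  have : Finite F := Module.finite_of_finite (ZMod p)
  let : Fintype F := Fintype.ofFinite F
  refine ⟨Module.finrank (ZMod p) F, Module.finrank_pos.ne', fun y hy => ?_⟩
  have e := FiniteField.pow_card (⟨y, IntermediateField.subset_adjoin _ _ hy⟩ : F)
  rw [Module.card_eq_pow_finrank (K := ZMod p), ZMod.card] at e
  exact congrArg Subtype.val e

lemma exists_pow (τ : κ →+* κ) {N : ℕ} (hN : N ≠ 0) :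
    ∃ m : ℕ, ∀ y : κ, y ^ p ^ N = y → τ y = y ^ p ^ m := by
  classical
  set F : Subfield κ := (iterateFrobenius κ p N).eqLocusField (RingHom.id κ) with hF
  have hm : ∀ y, y ∈ F ↔ y ^ p ^ N = y := fun y => Iff.rfl
  have h0 := FiniteField.X_pow_card_pow_sub_X_ne_zero κ hN (Fact.out : p.Prime).one_lt
  have : Finite F := ((X ^ p ^ N - X : κ[X]).roots.toFinset.finite_toSet.subset fun y hy => by
    rw [Finset.mem_coe, Multiset.mem_toFinset, mem_roots h0, IsRoot, eval_sub, eval_pow, eval_X,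
      sub_eq_zero]
    exact (hm y).1 hy : (F : Set κ).Finite).to_subtype
  let : Algebra (ZMod p) F := ZMod.algebra F p
  let f : F →+* F := (τ.comp F.subtype).codRestrict F fun y => (hm _).2 (by
    change τ y ^ p ^ N = τ y
    rw [← map_pow, (hm _).1 y.2])
  have hb : Function.Bijective f := Finite.injective_iff_bijective.1 f.injective
  let g : F ≃ₐ[ZMod p] F := AlgEquiv.ofRingEquiv (f := RingEquiv.ofBijective f hb) fun x =>
    RingHom.congr_fun (Subsingleton.elim (f.comp (algebraMap (ZMod p) F)) (algebraMap _ _)) x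
  obtain ⟨m, h⟩ := FiniteField.exists_forall_apply_eq_pow (ZMod p) p F g
  refine ⟨m, fun y hy => ?_⟩
  have := congrArg Subtype.val (h ⟨y, (hm y).2 hy⟩)
  rw [Nat.card_zmod] at this
  exact this

end fin

section res
variable {p : ℕ} [Fact p.Prime] {O : ValuationSubring ℂ} {ι : ℚ_[p] →+* ℂ} (h : Pad p O ι)
include h

lemma exists_int (z : ℂ) : ∃ g : ℤ_[p][X], g.map PadicInt.toZMod ≠ 0 ∧
    g.eval₂ (ι.comp PadicInt.Coe.ringHom) z = 0 := by
  obtain ⟨g, g0, g1⟩ := h.alg z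
  obtain ⟨i, hi, hm⟩ := g.support.exists_max_image (fun i => ‖g.coeff i‖)
    (nonempty_support_iff.2 g0)
  have c0 : g.coeff i ≠ 0 := mem_support_iff.1 hi
  obtain ⟨g', e⟩ := (mem_lifts (f := PadicInt.Coe.ringHom) (C (g.coeff i)⁻¹ * g)).1
    ((lifts_iff_coeff_lifts _).2 fun j => ⟨⟨(g.coeff i)⁻¹ * g.coeff j, by
      rw [norm_mul, norm_inv, inv_mul_le_one₀ (norm_pos_iff.2 c0)]
      by_cases hj : j ∈ g.support
      · exact hm j hj
      · rw [notMem_support_iff.1 hj, norm_zero]; exact norm_nonneg _⟩, (coeff_C_mul _).symm⟩)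
  refine ⟨g', fun h0 => ?_, ?_⟩
  · have e1 := congrArg (fun t => coeff t i) e
    simp only [coeff_map, coeff_C_mul, inv_mul_cancel₀ c0] at e1
    have e2 : g'.coeff i = 1 := Subtype.ext e1
    have e3 := congrArg (fun t => coeff t i) h0
    simp [coeff_map, e2] at e3
  · rw [← eval₂_map, e, eval₂_mul, g1, mul_zero]

lemma res_alg' [CharP (ResidueField O) p] (a : O) : ∃ g : (ZMod p)[X], g ≠ 0 ∧
    g.eval₂ (ZMod.castHom (dvd_refl p) (ResidueField O)) (residue O a) = 0 := by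
  obtain ⟨g, g0, g1⟩ := exists_int h (a : ℂ)
  refine ⟨_, g0, ?_⟩
  set ψ : ℤ_[p] →+* O := (ι.comp PadicInt.Coe.ringHom).codRestrict O.toSubring
    fun x => (h.mem _).2 x.2 with hψ
  have e1 : g.eval₂ ψ a = 0 := Subtype.val_injective ((hom_eval₂ g ψ O.subtype a).trans g1)
  have e2 := hom_eval₂ g ψ (residue O) a
  rw [e1, map_zero] at e2
  rw [eval₂_map, e2]
  congr 1
  ext x
  have e3 := PadicInt.toZMod_spec x
  rw [← ZMod.natCast_val] at e3
  have e4 : residue O (ψ (x - ((PadicInt.toZMod x).val : ℤ_[p]))) = 0 := by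
    rw [residue_eq_zero_iff, O.valuation_lt_one_iff]
    exact (h.lt _).2 (PadicInt.mem_nonunits.1 e3)
  rw [map_sub, map_sub, sub_eq_zero, map_natCast, map_natCast] at e4
  rw [RingHom.comp_apply, RingHom.comp_apply, e4, ZMod.castHom_apply, ZMod.natCast_val]

end res

end FrbA

theorem padf : PADF := by
  classical
  intro p _ O ι h σ hσ S hS
  have : CharP (ResidueField O) p := res_charP Fact.out h.vp
  let f : O →+* O := ((σ : ℂ →+* ℂ).comp O.subtype).codRestrict O.toSubring fun x =>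
    (O.valuation_le_one_iff _).1 ((h.stab σ hσ x).trans_le (O.valuation_le_one x))
  have : IsLocalHom f := ⟨fun a ha =>
    (O.valuation_eq_one_iff a).2 ((h.stab σ hσ a).symm.trans ((O.valuation_eq_one_iff _).1 ha))⟩
  obtain ⟨N, hN, h1⟩ := FrbA.exists_fix p (S.image (resPlc O).ev) fun y hy => by
    obtain ⟨z, hz, rfl⟩ := Finset.mem_image.1 hy
    have := FrbA.res_alg' h ⟨z, hS z hz⟩
    rwa [show residue O ⟨z, hS z hz⟩ = (resPlc O).ev z from ((resPlc O).ev_coe ⟨z, hS z hz⟩).symm]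
      at this
  obtain ⟨m, h2⟩ := FrbA.exists_pow p (ResidueField.map f) hN
  refine ⟨m, fun z hz => ?_⟩
  have e : (resPlc O).ev z = residue O ⟨z, hS z hz⟩ := (resPlc O).ev_coe ⟨z, hS z hz⟩
  have h3 := h2 _ (h1 _ (Finset.mem_image_of_mem _ hz))
  rw [e, ResidueField.map_residue, ← map_pow, ← sub_eq_zero, ← map_sub, residue_eq_zero_iff,
    O.valuation_lt_one_iff] at h3
  exact h3

theorem frb_of : PADF → FRB := by
  classical
  intro H p _ X σ t h e N s hσ hN hs
  have T := (X.tm hN).up h.rd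
  have hr : ∀ P : X.P t, P ≠ 0 → N • P = 0 → h.rd.red P ≠ 0 := fun P h0 hP =>
    red_tors_ne h.rd (X.nat_ne.2 hN) h0 hP
  set D := (tors (fA (X.c : ℂ) t) (fB (X.c : ℂ) t) N).erase 0 with hD
  have hD' : ∀ P, P ∈ D ↔ P ≠ 0 ∧ N • P = 0 := fun P => by rw [hD, Finset.mem_erase, T.mem]
  obtain ⟨m, hm⟩ := H p X.O X.ι X.pad σ hσ (insert s (D.image xc ∪ D.image yc)) (by
    intro z hz
    simp only [Finset.mem_insert, Finset.mem_union, Finset.mem_image, hD'] at hz
    rcases hz with rfl | ⟨P, hP, rfl⟩ | ⟨P, hP, rfl⟩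
    · exact hs
    · exact (ev_xc h.rd (hr P hP.1 hP.2)).mem
    · exact (ev_yc h.rd (hr P hP.1 hP.2)).mem)
  refine ⟨m, hm s (Finset.mem_insert_self _ _), fun P hP => ?_⟩
  by_cases h0 : P = 0
  · rw [h0, map_zero, map_zero, map_zero]
  have hP' := (hD' P).2 ⟨h0, hP⟩
  have key : ∀ z y, z ∈ insert s (D.image xc ∪ D.image yc) → Ev (resPlc X.O) z y →
      Ev (resPlc X.O) (σ z) (y ^ p ^ (1 * m)) := fun z y hz hy =>
    ((Ev.of_lt (π := resPlc X.O) (hm z hz)).add (hy.pow (p ^ m))).congr (sub_add_cancel _ _)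
      (by rw [zero_add, one_mul])
  rw [Ctx.π, (frE_pow X.good p 1 X.hA X.hB m).1, frE_apply]
  refine red_eq h.rd (Sc.map_ne _ h0) (Sc.map_ne _ (hr P h0 hP)) ?_ ?_
  · rw [xc_frP, Ctx.Dk.cj, xc_ofHom]
    exact key _ _ (Finset.mem_insert_of_mem
      (Finset.mem_union_left _ (Finset.mem_image_of_mem _ hP'))) (ev_xc h.rd (hr P h0 hP))
  · rw [yc_frP, Ctx.Dk.cj, yc_ofHom]
    exact key _ _ (Finset.mem_insert_of_mem
      (Finset.mem_union_right _ (Finset.mem_image_of_mem _ hP'))) (ev_yc h.rd (hr P h0 hP))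

end Pool.Agent.MP_c481b3_nt.H79
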