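import Pool.Agent.MP_c481b3_nt.H79.SpecG
import Pool.Agent.MP_c481b3_nt.H31F.Vls
import Pool.Agent.MP_c481b3_nt.H28.PolyAux
import Pool.Agent.MP_c481b3_nt.H28.SpecD
import Pool.Agent.MP_c481b3_nt.H28.GRed

/-! The argument of Elkies. -/

set_option autoImplicit false

namespace Pool.Agent.MP_c481b3_nt.H79

open Pool.Agent.MP_c481b3_nt.H81 Pool.Agent.MP_c481b3_nt.H28 Polynomial NumberField

namespace GlobA

variable {O : ValuationSubring ℂ} {q : ℕ}

lemma v_le {x : ℂ} (h : x ∈ O) : O.valuation x ≤ 1 := (O.valuation_le_one_iff x).2 h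

lemma v_int (hq : q.Prime) (hv : O.valuation (q : ℂ) < 1) {n : ℤ} (hn : ¬(q : ℤ) ∣ n) :
    O.valuation (n : ℂ) = 1 := by
  refine le_antisymm (v_le (intCast_mem O n)) (not_lt.1 fun h => ?_)
  obtain ⟨a, b, e⟩ : IsCoprime (q : ℤ) n :=
    (Int.isCoprime_iff_gcd_eq_one.2 (by
      rw [Int.gcd_eq_natAbs, Int.natAbs_natCast]
      exact (hq.coprime_iff_not_dvd).2 fun h => hn (Int.natCast_dvd.2 h)))
  have e1 : (a : ℂ) * q + b * n = 1 := by exact_mod_cast congrArg (Int.cast : ℤ → ℂ) e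
  have : O.valuation ((a : ℂ) * q + b * n) < 1 := by
    refine O.valuation.map_add_lt ?_ ?_ <;> rw [map_mul]
    · exact mul_lt_one_of_nonneg_of_lt_one_right (v_le (intCast_mem O a)) zero_le hv
    · exact mul_lt_one_of_nonneg_of_lt_one_right (v_le (intCast_mem O b)) zero_le h
  rw [e1, map_one] at this
  exact lt_irrefl _ this

lemma v_nat (hq : q.Prime) (hv : O.valuation (q : ℂ) < 1) {n : ℕ} (hn : ¬q ∣ n) :
    O.valuation (n : ℂ) = 1 := by
  simpa using v_int hq hv (n := n) (by rwa [Int.natCast_dvd_natCast])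

lemma v_nat' (hq : q.Prime) (hv : O.valuation (q : ℂ) < 1) {n : ℕ} (hn : n ≠ 0) :
    O.valuation (n : ℂ) = O.valuation (q : ℂ) ^ padicValNat q n := by
  have := Fact.mk hq
  obtain ⟨m, hm⟩ : q ^ padicValNat q n ∣ n := pow_padicValNat_dvd
  have h1 : ¬q ∣ m := by
    rintro ⟨k, rfl⟩
    exact pow_succ_padicValNat_not_dvd (p := q) hn ⟨k, by rw [pow_succ, mul_assoc]; exact hm⟩
  conv_lhs => rw [hm]
  rw [Nat.cast_mul, map_mul, v_nat hq hv h1, mul_one, Nat.cast_pow, map_pow]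

lemma v_rat (hq : q.Prime) (hv : O.valuation (q : ℂ) < 1) {x : ℚ} (hx : x ≠ 0) :
    O.valuation (x : ℂ) = O.valuation (q : ℂ) ^ padicValRat q x := by
  have q0 : O.valuation (q : ℂ) ≠ 0 := by simpa using hq.ne_zero
  have h1 : O.valuation (x.num : ℂ) = O.valuation ((x.num.natAbs : ℕ) : ℂ) := by
    rcases Int.natAbs_eq x.num with h | h
    · conv_lhs => rw [h]
      simp
    · conv_lhs => rw [h]
      simp
  rw [Rat.cast_def, map_div₀, h1, v_nat' hq hv (by simpa using hx), v_nat' hq hv x.den_ne_zero,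
    padicValRat, padicValInt, zpow_sub₀ q0, zpow_natCast, zpow_natCast]

lemma val_zero (hq : q.Prime) (hv : O.valuation (q : ℂ) < 1) {x : ℚ}
    (h : O.valuation (x : ℂ) = 1) : x ≠ 0 ∧ padicValRat q x = 0 := by
  have hx : x ≠ 0 := by rintro rfl; simp at h
  have q0 : 0 < O.valuation (q : ℂ) := zero_lt_iff.2 (by simpa using hq.ne_zero)
  rw [v_rat hq hv hx] at h
  exact ⟨hx, (zpow_eq_one_iff_right₀ q0.le hv.ne).1 h⟩

lemma norm_lt (hq : q.Prime) (hv : O.valuation (q : ℂ) < 1) {x : ℚ}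
    (h : O.valuation (x : ℂ) < 1) : padicNorm q x < 1 := by
  by_cases hx : x = 0
  · simp [hx]
  have q0 : 0 < O.valuation (q : ℂ) := zero_lt_iff.2 (by simpa using hq.ne_zero)
  rw [v_rat hq hv hx, zpow_lt_one_iff_right_of_lt_one₀ q0 hv] at h
  rw [padicNorm.eq_zpow_of_nonzero hx]
  exact zpow_lt_one_of_neg₀ (by exact_mod_cast hq.one_lt) (by omega)

lemma prod_mem {s : Multiset ℂ} {f : ℂ → ℂ} (h : ∀ x ∈ s, f x ∈ O) : (s.map f).prod ∈ O :=
  multiset_prod_mem _ fun y hy => by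
    obtain ⟨x, hx, rfl⟩ := Multiset.mem_map.1 hy
    exact h x hx

lemma prod_one {s : Multiset ℂ} {f : ℂ → ℂ} (h : ∀ x ∈ s, O.valuation (f x) = 1) :
    O.valuation (s.map f).prod = 1 := by
  rw [map_multiset_prod, Multiset.map_map]
  exact Multiset.prod_eq_one fun y hy => by
    obtain ⟨x, hx, rfl⟩ := Multiset.mem_map.1 hy
    exact h x hx

lemma prod_near {s : Multiset ℂ} {f f' : ℂ → ℂ}
    (h : ∀ x ∈ s, f x ∈ O ∧ f' x ∈ O ∧ O.valuation (f x - f' x) < 1) :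
    O.valuation ((s.map f).prod - (s.map f').prod) < 1 := by
  induction s using Multiset.induction_on with
  | empty => simp
  | cons a s ih =>
    have h1 := h a (Multiset.mem_cons_self a s)
    have h2 := fun x hx => h x (Multiset.mem_cons_of_mem hx)
    have e : f a * (s.map f).prod - f' a * (s.map f').prod
        = f a * ((s.map f).prod - (s.map f').prod) + (s.map f').prod * (f a - f' a) := by ring
    rw [Multiset.map_cons, Multiset.map_cons, Multiset.prod_cons, Multiset.prod_cons, e]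
    refine O.valuation.map_add_lt ?_ ?_ <;> rw [map_mul]
    · exact mul_lt_one_of_nonneg_of_lt_one_right (v_le h1.1) zero_le (ih h2)
    · exact mul_lt_one_of_nonneg_of_lt_one_right (v_le (prod_mem fun x hx => (h2 x hx).2.1))
        zero_le h1.2.2

lemma aeval_mem {x : ℂ} (hx : x ∈ O) (F : ℤ[X]) : aeval x F ∈ O := by
  rw [aeval_eq_sum_range]
  exact sum_mem fun i _ => zsmul_mem (pow_mem hx i) _

lemma one_of_mul {x y : ℂ} (hx : x ∈ O) (hy : y ∈ O) (h : O.valuation (x * y) = 1) :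
    O.valuation x = 1 ∧ O.valuation y = 1 := by
  rw [map_mul] at h
  refine ⟨le_antisymm (v_le hx) (not_lt.1 fun h1 => ?_),
    le_antisymm (v_le hy) (not_lt.1 fun h1 => ?_)⟩
  · exact (mul_lt_one_of_nonneg_of_lt_one_left zero_le h1 (v_le hy)).ne h
  · exact (mul_lt_one_of_nonneg_of_lt_one_right (v_le hx) zero_le h1).ne h

variable {K : Type} [Field K] [NumberField K]

lemma emb_mem (σ : K →+* ℂ) (x : 𝓞 K) : σ (x : K) ∈ O :=
  (H31F.VlsAux.int _).1 (map_isIntegral_int σ x.isIntegral_coe) O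

lemma not_both {P : Ideal (𝓞 K)} (hP : P.IsMaximal) {N : ℕ} (hq : q.Prime) (hN : ¬q ∣ N)
    (h1 : (q : 𝓞 K) ∈ P) (h2 : (N : 𝓞 K) ∈ P) : False := by
  obtain ⟨a, b, e⟩ : IsCoprime (q : 𝓞 K) N :=
    Nat.Coprime.cast ((hq.coprime_iff_not_dvd).2 hN)
  exact hP.ne_top ((Ideal.eq_top_iff_one _).2
    (e ▸ add_mem (P.mul_mem_left a h1) (P.mul_mem_left b h2)))

/-- one integer that lies in all the exceptional ideals -/
lemma exists_N {A B : 𝓞 K} (h0 : (Wc A B).Δ * B ≠ 0) (hf : (SP A B).Finite) :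
    ∃ N : ℕ, N ≠ 0 ∧ (Wc A B).Δ * B ∣ N ∧ ∀ P ∈ SP A B, (N : 𝓞 K) ∈ P := by
  classical
  refine ⟨Ideal.absNorm (Ideal.span {(Wc A B).Δ * B}) * ∏ P ∈ hf.toFinset, Ideal.absNorm P,
    mul_ne_zero (by simpa using h0) (Finset.prod_ne_zero_iff.2 fun P hP => ?_), ?_, fun P hP => ?_⟩
  · obtain ⟨-, -, q, hq, h, -⟩ := hf.mem_toFinset.1 hP
    rw [Ne, Ideal.absNorm_eq_zero_iff]
    rintro rfl
    exact hq.ne_zero (by simpa using h)
  · rw [Nat.cast_mul]
    exact Dvd.dvd.mul_right (Ideal.mem_span_singleton.1 (Ideal.absNorm_mem _)) _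
  · rw [Nat.cast_mul, ← Finset.mul_prod_erase _ _ (hf.mem_toFinset.2 hP), Nat.cast_mul]
    exact P.mul_mem_left _ (P.mul_mem_right _ (Ideal.absNorm_mem _))

/-- the values at the conjugates of the invariant are units -/
lemma unit (hS : SSQ) {A B : 𝓞 K} {N n : ℕ} {ε : Prop} {F : ℤ[X]} (h1 : (Wc A B).Δ * B ∣ N)
    (h2 : ∀ P ∈ SP A B, (N : 𝓞 K) ∈ P) (hq : q.Prime) (h5 : 5 ≤ q) (hN : ¬q ∣ N)
    (hv : O.valuation (q : ℂ) < 1) (F0 : F.map (Int.castRingHom (ZMod q)) ≠ 0)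
    (hF : ∀ t, t ∈ F.aroots ℂ ↔ Cm n ε t)
    (hn : ¬IsSquare (-(n : ZMod q)) ∨ ∃ m, n = q * m ∧ ¬q ∣ m ∧ Odd m) (σ : K →+* ℂ) :
    σ (jj (A : K) B) ∈ O ∧ O.valuation (aeval (σ (jj (A : K) B)) F) = 1 ∧
      O.valuation (σ (jj (A : K) B) - 1728) = 1 := by
  obtain ⟨c, hc⟩ := h1
  have a1 := emb_mem (O := O) σ A
  have b1 := emb_mem (O := O) σ B
  have d1 : 4 * σ A ^ 3 + 27 * σ B ^ 2 ∈ O :=
    add_mem (mul_mem (ofNat_mem O 4) (pow_mem a1 _)) (mul_mem (ofNat_mem O 27) (pow_mem b1 _))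
  have e : (N : ℂ) = (4 * σ A ^ 3 + 27 * σ B ^ 2) * (σ B * σ ((-16 * c : 𝓞 K) : K)) := by
    have := congrArg (fun x : 𝓞 K => σ (x : K)) hc
    simp only [Wc_disc] at this
    push_cast at this ⊢
    simp only [map_natCast, map_mul, map_add, map_pow, map_neg, map_ofNat] at this ⊢
    rw [this]; ring
  have v1 := v_nat hq hv hN
  rw [e] at v1
  obtain ⟨v2, v3⟩ := one_of_mul d1 (mul_mem b1 (emb_mem σ _)) v1
  have v4 := (one_of_mul b1 (emb_mem σ _) v3).1
  have d0 : 4 * σ A ^ 3 + 27 * σ B ^ 2 ≠ 0 := by rintro h; simp [h] at v2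
  have j1 : jj (σ A) (σ B) ∈ O := by
    rw [← O.valuation_le_one_iff, jj, map_div₀, v2, div_one]
    exact v_le (mul_mem (ofNat_mem O 6912) (pow_mem a1 _))
  rw [jj_map]
  refine ⟨j1, le_antisymm (v_le (aeval_mem j1 F)) (not_lt.1 fun h => ?_), ?_⟩
  · obtain ⟨i, hi⟩ : ∃ i, ((F.coeff i : ℤ) : ZMod q) ≠ 0 := by
      by_contra hc
      push Not at hc
      exact F0 (Polynomial.ext fun i => by simpa using hc i)
    obtain ⟨w, w1, w2⟩ := exists_root_near O j1 (F.map (Int.castRingHom ℂ)) (i := i) (by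
      rw [coeff_map, eq_intCast, v_int hq hv (by rwa [← ZMod.intCast_zmod_eq_zero_iff_dvd]),
        eval_map]
      exact h)
    have w3 : w ∈ F.aroots ℂ := by
      rw [mem_aroots]
      exact ⟨by rintro rfl; simp at F0, by rwa [eval_map] at w1⟩
    obtain ⟨P, p1, p2⟩ := hS K A B σ O q n ε w hq h5 hv ((hF w).1 w3) w2 hn fun P p1 p2 p3 =>
      not_both p1 hq hN p2 (hc ▸ P.mul_mem_right _ (P.mul_mem_right _ p3))
    exact not_both p1.1 hq hN p2 (h2 P p1)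
  · have e2 : jj (σ A) (σ B) - 1728
        = -((6 : ℕ) : ℂ) ^ 6 * σ B ^ 2 / (4 * σ A ^ 3 + 27 * σ B ^ 2) := by
      rw [jj, div_sub' d0, div_left_inj' d0]; push_cast; ring
    have h6 : ¬q ∣ 6 := fun h => by
      have := Nat.le_of_dvd (by norm_num) h
      interval_cases q
      · omega
      · exact absurd hq (by norm_num)
    rw [e2, map_div₀, v2, map_mul, Valuation.map_neg, map_pow, map_pow, v_nat hq hv h6, v4]
    simp

lemma mod12 {l : ℕ} (h8 : l % 8 = 7) (h3 : jacobiSym (-(l : ℤ)) 3 = 1) : l % 12 = 11 := by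
  rw [jacobiSym.mod_left] at h3
  have : l % 3 = 0 ∨ l % 3 = 1 ∨ l % 3 = 2 := by omega
  rcases this with h | h | h
  · rw [show -(l : ℤ) % ((3 : ℕ) : ℤ) = 0 by omega] at h3
    norm_num at h3
  · rw [show -(l : ℤ) % ((3 : ℕ) : ℤ) = 2 by omega] at h3
    norm_num at h3
  · omega

lemma sq2 : ∀ x : ZMod 2, IsSquare x := by decide

end GlobA

open GlobA in
theorem glob_of : POLY → SSQ → REC → NRM → GLOB := by
  classical
  intro hP hS hR hN K _ _ A B p r hΔ him hf hp h5 hr r2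
  have B0 : B ≠ 0 := by
    rintro rfl
    obtain ⟨τ⟩ : Nonempty (K →+* ℂ) := inferInstance
    have A0 : (A : K) ≠ 0 := by
      intro h
      have : A = 0 := by exact_mod_cast h
      simp [Wc_disc, this] at hΔ
    have : jj (A : K) ((0 : 𝓞 K) : K) = 1728 := by
      rw [jj]; simp only [map_zero]; field_simp; ring
    exact him τ (by rw [this]; simp [map_ofNat])
  obtain ⟨N, N0, N1, N2⟩ := exists_N (mul_ne_zero hΔ B0) hf
  refine ⟨N + p + r + 5, fun l hl Ml l8 hJ hJp i ε => ?_⟩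
  have := Fact.mk hp
  set g := minpoly ℚ (jj (A : K) B) with hg
  have gm : g.Monic := minpoly.monic (Algebra.IsIntegral.isIntegral _)
  have gr : ∀ ρ ∈ g.aroots ℂ, ∃ σ : K →+* ℂ, σ (jj (A : K) B) = ρ := fun ρ h => by
    have h1 : ρ ∈ g.rootSet ℂ := by simpa [rootSet] using h
    rw [hg, ← NumberField.Embeddings.range_eval_eq_rootSet_minpoly K ℂ] at h1
    exact h1
  obtain ⟨ge, hn⟩ := hN g gm fun ρ h => by obtain ⟨σ, rfl⟩ := gr ρ h; exact him σ
  obtain ⟨F, F0, ⟨c, R, Z, c1, hRZ⟩, Fn, Fr⟩ := hP l r i ε hl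
    (mod12 l8 (hJ 3 Nat.prime_three (by omega) (by omega) (by omega))) hr r2 (by omega)
  obtain ⟨⟨w, w0, hw⟩, hw'⟩ := hn F
  obtain ⟨⟨w2, w20, hw2⟩, hw2'⟩ := hn (X - C 1728)
  obtain ⟨⟨u, -, hu⟩, -⟩ := hn R
  have e2 : w2 = aeval (1728 : ℚ) g := by
    have : ((aeval (1728 : ℚ) g : ℚ) : ℂ) = aeval (1728 : ℂ) g := by
      simpa using (aeval_algebraMap_apply ℂ (1728 : ℚ) g).symm
    rw [← Rat.cast_inj (α := ℂ), hw2, hw2', this, leadingCoeff_X_sub_C, aroots_X_sub_C]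
    simp
  have key : ∀ (q : ℕ) (O : ValuationSubring ℂ), q.Prime → N + p + r + 5 < q →
      O.valuation (q : ℂ) < 1 → (¬IsSquare (-((l * (r ^ i) ^ 2 : ℕ) : ZMod q)) ∨
        ∃ m, l * (r ^ i) ^ 2 = q * m ∧ ¬q ∣ m ∧ Odd m) →
      (∀ ρ ∈ g.aroots ℂ, ρ ∈ O) ∧ O.valuation ((w * w2 : ℚ) : ℂ) = 1 := by
    intro q O hq Mq hv hs
    have h := unit hS N1 N2 hq (by omega)
      (fun h => absurd (Nat.le_of_dvd (Nat.pos_of_ne_zero N0) h) (by omega)) hv (F0 q hq) Fr hs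
    refine ⟨fun ρ hρ => by obtain ⟨σ, rfl⟩ := gr ρ hρ; exact (h σ).1, ?_⟩
    rw [Rat.cast_mul, map_mul, hw, hw2, Nr, Nr,
      prod_one fun ρ hρ => by obtain ⟨σ, rfl⟩ := gr ρ hρ; exact (h σ).2.1,
      prod_one fun ρ hρ => by obtain ⟨σ, rfl⟩ := gr ρ hρ; simpa [map_ofNat] using (h σ).2.2, mul_one]
  obtain ⟨O, hO⟩ := H31F.VlsAux.val l hl
  obtain ⟨k1, k2⟩ := key l O hl Ml hO (Or.inr ⟨_, rfl, fun h => by
    have := (Nat.prime_dvd_prime_iff_eq hl hr).1 (hl.dvd_of_dvd_pow (hl.dvd_of_dvd_pow h))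
    omega, ((hr.odd_of_ne_two r2).pow).pow⟩)
  obtain ⟨W0, W1⟩ := val_zero hl hO k2
  have W2 : O.valuation ((w * w2 - u ^ 2 : ℚ) : ℂ) < 1 := by
    have e1 : ((w * w2 : ℚ) : ℂ) = Nr g (R ^ 2 + C (l : ℤ) * Z) := by
      have c2 : ((c : ℂ)) ^ g.natDegree = 1 := by
        obtain ⟨k, hk⟩ := ge
        have : (c : ℂ) ^ 2 = 1 := by exact_mod_cast c1
        rw [hk, ← two_mul, pow_mul, this, one_pow]
      have cd : Multiset.card (g.aroots ℂ) = g.natDegree := IsAlgClosed.card_aroots_eq_natDegree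
      rw [← hRZ, Rat.cast_mul, hw, hw2, Nr, Nr, Nr]
      simp only [map_mul, Multiset.prod_map_mul, map_sub, aeval_X, map_ofNat,
        Multiset.map_const', Multiset.prod_replicate, cd, eq_intCast, map_intCast, c2]
      ring
    rw [Rat.cast_sub, e1, Rat.cast_pow, hu, Nr, Nr, ← Multiset.prod_map_pow]
    refine prod_near fun ρ hρ => ⟨aeval_mem (k1 ρ hρ) _, pow_mem (aeval_mem (k1 ρ hρ) _) _, ?_⟩
    rw [map_add, map_pow, add_sub_cancel_left, map_mul, map_mul]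
    refine mul_lt_one_of_nonneg_of_lt_one_left zero_le ?_ (v_le (aeval_mem (k1 ρ hρ) _))
    simpa using hO
  have ev : Even (padicValRat p (w * w2)) := by
    by_contra ho
    obtain ⟨q, hq, qp, qj, qv⟩ := hR l p (w * w2) u hl l8 hp hJp
      (lt_of_le_of_ne (mul_nonneg w0 w20) W0.symm)
      (by rw [padicNorm.eq_zpow_of_nonzero W0, W1]; simp) (norm_lt hl hO W2)
      (Int.not_even_iff_odd.1 ho)
    have := Fact.mk hq
    have ns := ZMod.nonsquare_of_jacobiSym_eq_neg_one qj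
    have q2 : q ≠ 2 := by
      rintro rfl
      exact ns (sq2 _)
    have Mq : N + p + r + 5 < q := by
      by_contra h
      rw [hJ q hq (not_lt.1 h) q2 qp] at qj
      omega
    obtain ⟨O', hO'⟩ := H31F.VlsAux.val q hq
    refine qv (val_zero hq hO' (key q O' hq Mq hO' (Or.inl ?_)).2).2
    rintro ⟨y, hy⟩
    have r0 : (r : ZMod q) ≠ 0 := by
      rw [Ne, ZMod.natCast_eq_zero_iff]
      exact fun h => absurd (Nat.le_of_dvd hr.pos h) (by omega)
    refine ns ⟨y / r ^ i, ?_⟩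
    push_cast at hy ⊢
    field_simp
    linear_combination hy
  have F1 : F ≠ 0 := by rintro rfl; simpa using F0 2 Nat.prime_two
  have lc0 : (F.leadingCoeff : ℚ) ≠ 0 := by simpa using F1
  refine ⟨(F.aroots ℂ).toFinset, w / F.leadingCoeff ^ g.natDegree, fun t => ?_, fun σ t ht => ?_,
    div_ne_zero (left_ne_zero_of_mul W0) (pow_ne_zero _ lc0), ?_, ?_⟩
  · rw [Multiset.mem_toFinset, Fr]
  · rw [Multiset.mem_toFinset, mem_aroots] at ht ⊢
    refine ⟨F1, ?_⟩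
    have := aeval_algHom_apply σ.toRingHom.toIntAlgHom t F
    rw [ht.2, map_zero] at this
    exact this
  · have : (F.leadingCoeff : ℂ) ≠ 0 := by simpa using F1
    rw [Finset.prod_eq_multiset_prod, Multiset.toFinset_val, Fn.dedup]
    push_cast
    rw [hw, hw']
    field_simp
  · rw [← e2, div_mul_eq_mul_div, padicValRat.div W0 (pow_ne_zero _ lc0), padicValRat.pow]
    exact ev.sub ((Int.even_coe_nat _).2 ge |>.mul_right _)

end Pool.Agent.MP_c481b3_nt.H79
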