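import Pool.Agent.MP_c481b3_nt.H79.SpecH
import Pool.Agent.MP_c481b3_nt.H79.Glob

/-! The argument of Elkies for the primes with trace zero. -/

set_option autoImplicit false

namespace Pool.Agent.MP_c481b3_nt.H79

open Pool.Agent.MP_c481b3_nt.H81 Pool.Agent.MP_c481b3_nt.H28 Polynomial NumberField GlobA
open scoped IntermediateField

namespace Glob2A

variable {O : ValuationSubring ℂ} {q : ℕ} {K : Type} [Field K] [NumberField K] {A B : 𝓞 K} {N : ℕ}

lemma exists_N (h0 : A * B * (Wc A B).Δ ≠ 0) (hf : (Z0 A B).Finite) :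
    ∃ N : ℕ, N ≠ 0 ∧ A * B * (Wc A B).Δ ∣ N ∧ ∀ P ∈ Z0 A B, (N : 𝓞 K) ∈ P := by
  classical
  refine ⟨Ideal.absNorm (Ideal.span {A * B * (Wc A B).Δ}) * ∏ P ∈ hf.toFinset, Ideal.absNorm P,
    mul_ne_zero (by simpa using h0) (Finset.prod_ne_zero_iff.2 fun P hP => ?_), ?_, fun P hP => ?_⟩
  · exact mt Ideal.absNorm_eq_zero_iff.1 (Ring.ne_bot_of_isMaximal_of_not_isField
      (hf.mem_toFinset.1 hP).1 (RingOfIntegers.not_isField K))
  · rw [Nat.cast_mul]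
    exact Dvd.dvd.mul_right (Ideal.mem_span_singleton.1 (Ideal.absNorm_mem _)) _
  · rw [Nat.cast_mul, ← Finset.mul_prod_erase _ _ (hf.mem_toFinset.2 hP), Nat.cast_mul]
    exact P.mul_mem_left _ (P.mul_mem_right _ (Ideal.absNorm_mem _))

lemma unit (h1 : A * B * (Wc A B).Δ ∣ N) (hq : q.Prime) (h5 : 5 ≤ q) (hN : ¬q ∣ N)
    (hv : O.valuation (q : ℂ) < 1) (σ : K →+* ℂ) : σ (jj (A : K) B) ∈ O ∧
      O.valuation (σ (jj (A : K) B)) = 1 ∧ O.valuation (σ (jj (A : K) B) - 1728) = 1 := by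
  obtain ⟨c, hc⟩ := h1
  have a1 := emb_mem (O := O) σ A
  have b1 := emb_mem (O := O) σ B
  have d1 : 4 * σ A ^ 3 + 27 * σ B ^ 2 ∈ O :=
    add_mem (mul_mem (ofNat_mem O 4) (pow_mem a1 _)) (mul_mem (ofNat_mem O 27) (pow_mem b1 _))
  have e : (N : ℂ) = (4 * σ A ^ 3 + 27 * σ B ^ 2) * (σ A * (σ B * σ ((-16 * c : 𝓞 K) : K))) := by
    have := congrArg (fun x : 𝓞 K => σ (x : K)) hc
    simp only [Wc_disc] at this
    push_cast at this ⊢
    simp only [map_natCast, map_mul, map_add, map_pow, map_neg, map_ofNat] at this ⊢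
    rw [this]; ring
  have v1 := v_nat hq hv hN
  rw [e] at v1
  obtain ⟨v2, v3⟩ := one_of_mul d1 (mul_mem a1 (mul_mem b1 (emb_mem σ _))) v1
  obtain ⟨v4, v5⟩ := one_of_mul a1 (mul_mem b1 (emb_mem σ _)) v3
  have v6 := (one_of_mul b1 (emb_mem σ _) v5).1
  have d0 : 4 * σ A ^ 3 + 27 * σ B ^ 2 ≠ 0 := by rintro h; simp [h] at v2
  have h2 : ¬q ∣ 2 := fun h => by have := Nat.le_of_dvd two_pos h; omega
  have h3 : ¬q ∣ 3 := fun h => by have := Nat.le_of_dvd three_pos h; omega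
  have j1 : O.valuation (jj (σ A) (σ B)) = 1 := by
    rw [jj, show (6912 : ℂ) = (2 : ℕ) ^ 8 * (3 : ℕ) ^ 3 by norm_num]
    simp only [map_div₀, map_mul, map_pow, v2, v4, v_nat hq hv h2, v_nat hq hv h3]
    simp
  rw [jj_map]
  refine ⟨(O.valuation_le_one_iff _).1 j1.le, j1, ?_⟩
  have e2 : jj (σ A) (σ B) - 1728
      = -((2 : ℕ) ^ 6 * (3 : ℕ) ^ 6 * σ B ^ 2) / (4 * σ A ^ 3 + 27 * σ B ^ 2) := by
    rw [jj, div_sub' d0, div_left_inj' d0]; push_cast; ring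
  simp only [e2, map_div₀, Valuation.map_neg, map_mul, map_pow, v2, v6, v_nat hq hv h2,
    v_nat hq hv h3]
  simp

omit [NumberField K] in
lemma exists_x (h0 : (Wc A B).Δ ≠ 0) (h1 : A * B * (Wc A B).Δ ∣ N) (F : ℤ[X]) :
    ∃ x : 𝓞 K, (x : K) = (N ^ F.natDegree : ℕ) * aeval (jj (A : K) B) F := by
  obtain ⟨c, hc⟩ := h1
  have d0 : 4 * algebraMap (𝓞 K) K A ^ 3 + 27 * algebraMap (𝓞 K) K B ^ 2 ≠ 0 := fun h => h0
    (RingOfIntegers.coe_injective (by
      simp only [Wc_disc, map_mul, map_add, map_pow, map_ofNat, h, mul_zero, map_zero]))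
  have e : algebraMap (𝓞 K) K (A * B * c * (-16 * 6912 * A ^ 3))
      = algebraMap ℤ K N * jj (A : K) B := by
    have := congrArg (algebraMap (𝓞 K) K) hc
    rw [Wc_disc] at this
    simp only [map_natCast, map_mul, map_add, map_pow, map_neg, map_ofNat] at this ⊢
    rw [this, jj, mul_div_assoc', eq_div_iff d0]
    simp only [RingOfIntegers.coe_eq_algebraMap]
    ring
  refine ⟨aeval (A * B * c * (-16 * 6912 * A ^ 3)) (F.scaleRoots N), ?_⟩
  rw [RingOfIntegers.coe_eq_algebraMap, ← aeval_algebraMap_apply, e, aeval_def,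
    scaleRoots_eval₂_mul, aeval_def]
  simp

lemma ev_aeval {κ : Type} [Field κ] {π : Plc ℂ κ} {a : ℂ} {b : κ} (h : Ev π a b) (F : ℤ[X]) :
    Ev π (aeval a F) (aeval b F) := by
  simp only [aeval_eq_sum_range, zsmul_eq_mul]
  exact Ev.sum _ fun i _ => (Ev.int π _).mul (h.pow i)

/-- transfer of a congruence -/
lemma near {t ρ : ℂ} (hρ : ρ ∈ O) (h : O.valuation (t - ρ) < 1) {F : ℤ[X]}
    (e : O.valuation (aeval t F) < 1) : O.valuation (aeval ρ F) < 1 := by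
  have a := Ev.of_mem (π := resPlc O) hρ
  have b := ((Ev.of_lt (π := resPlc O) h).add a).congr (sub_add_cancel _ _) (zero_add _)
  exact ((ev_aeval a F).congr rfl ((ev_aeval b F).unique (Ev.of_lt e))).v_lt

lemma near_one {t ρ : ℂ} (h : O.valuation (t - ρ) < 1) (e : O.valuation ρ = 1) :
    O.valuation t = 1 := by
  rw [← add_sub_cancel ρ t, O.valuation.map_add_eq_of_lt_left (e ▸ h), e]

end Glob2A

open Glob2A in
theorem glob2_of : POLY → KEY → DEG → ODN → UNQ → INR → LOC → REC2 → NRM → PAD → GLOB2 := by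
  classical
  intro hP hK hD hO hU hI hL hR hN hA K _ _ A B p r hΔ him odd hf hp h5 hr r2
  obtain ⟨σ₀⟩ : Nonempty (K →+* ℂ) := inferInstance
  have A0 : A ≠ 0 := by
    rintro rfl
    exact him σ₀ (by simp [jj])
  have B0 : B ≠ 0 := by
    rintro rfl
    have A1 : (A : K) ≠ 0 := by exact_mod_cast A0
    have : jj (A : K) ((0 : 𝓞 K) : K) = 1728 := by
      rw [jj]; simp only [map_zero]; field_simp; ring
    exact him σ₀ (by rw [this]; simp [map_ofNat])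
  obtain ⟨N, N0, N1, N2⟩ := Glob2A.exists_N (mul_ne_zero (mul_ne_zero A0 B0) hΔ) hf
  obtain ⟨D, D0, hd⟩ := hD K _ odd
  obtain ⟨l₀, hl₀⟩ : ∃ l₀ : ℕ, ∀ (l m : ℕ) (ε : Prop), l.Prime →
      Cm (l * m ^ 2) ε (σ₀ (jj (A : K) B)) → l ≤ l₀ := by
    by_cases h : ∃ (l m : ℕ) (ε : Prop), l.Prime ∧ Cm (l * m ^ 2) ε (σ₀ (jj (A : K) B))
    · obtain ⟨l, m, ε, a, b⟩ := h
      exact ⟨l, fun l' m' ε' a' b' => (hU _ _ _ _ _ _ _ a' a b' b).le⟩
    · exact ⟨0, fun l m ε a b => absurd ⟨l, m, ε, a, b⟩ h⟩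
  refine ⟨N + D + l₀ + p + r + 5, fun l hl Ml l8 hJ hJp i ε => ?_⟩
  have := Fact.mk hp
  have := Fact.mk hl
  have u0 := fun (q : ℕ) (O : ValuationSubring ℂ) (hq : q.Prime)
    (Mq : N + D + l₀ + p + r + 5 < q) => Glob2A.unit (O := O) N1 hq (by omega)
      fun h => absurd (Nat.le_of_dvd (Nat.pos_of_ne_zero N0) h) (by omega)
  have x0 := exists_x hΔ N1
  have k0 := hK K A B
  set j := jj (A : K) B
  set g := minpoly ℚ j with hg
  have gm : g.Monic := minpoly.monic (Algebra.IsIntegral.isIntegral _)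
  have gr : ∀ ρ ∈ g.aroots ℂ, ∃ σ : K →+* ℂ, σ j = ρ := fun ρ h => by
    have h1 : ρ ∈ g.rootSet ℂ := by simpa [rootSet] using h
    rw [hg, ← NumberField.Embeddings.range_eval_eq_rootSet_minpoly K ℂ] at h1
    exact h1
  obtain ⟨ge, hn⟩ := hN g gm fun ρ h => by obtain ⟨σ, rfl⟩ := gr ρ h; exact him σ
  obtain ⟨F, F0, ⟨c, R, Z, c1, hRZ⟩, Fn, Fr⟩ := hP l r i ε hl
    (mod12 l8 (hJ 3 Nat.prime_three (by omega) (by omega) (by omega))) hr r2 (by omega)
  have F1 : F ≠ 0 := by rintro rfl; simpa using F0 2 Nat.prime_two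
  obtain ⟨⟨w, w0, hw⟩, hw'⟩ := hn F
  obtain ⟨⟨w2, w20, hw2⟩, hw2'⟩ := hn (X - C 1728)
  obtain ⟨x, hx⟩ := x0 F
  have e2 : w2 = aeval (1728 : ℚ) g := by
    have : ((aeval (1728 : ℚ) g : ℚ) : ℂ) = aeval (1728 : ℂ) g := by
      simpa using (aeval_algebraMap_apply ℂ (1728 : ℚ) g).symm
    rw [← Rat.cast_inj (α := ℂ), hw2, hw2', this, leadingCoeff_X_sub_C, aroots_X_sub_C]
    simp
  have nd : ∀ q : ℕ, q.Prime → N + D + l₀ + p + r + 5 < q → ¬q ∣ N ^ F.natDegree :=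
    fun q hq Mq h => absurd (Nat.le_of_dvd (Nat.pos_of_ne_zero N0) (hq.dvd_of_dvd_pow h)) (by omega)
  have bad : ∀ (q : ℕ) (P : Ideal (𝓞 K)), q.Prime → N + D + l₀ + p + r + 5 < q →
      (¬IsSquare (-((l * (r ^ i) ^ 2 : ℕ) : ZMod q)) ∨
        ∃ m, l * (r ^ i) ^ 2 = q * m ∧ ¬q ∣ m ∧ Odd m) → Od q P → x ∉ P := by
    intro q P hq Mq hs od hx'
    have nN : (N : 𝓞 K) ∉ P := not_both od.max hq
      (fun h => absurd (Nat.le_of_dvd (Nat.pos_of_ne_zero N0) h) (by omega)) od.mem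
    have n1 : A * B * (Wc A B).Δ ∉ P := fun h => nN (P.mem_of_dvd N1 h)
    exact nN (N2 P ⟨od.max, fun h => n1 (P.mul_mem_left _ h), k0 x q _ _ ε F P hq (by omega)
      (F0 q hq) (fun t => (Fr t).1) hs od n1 (nd q hq Mq) hx hx'⟩)
  have v2 : ∀ (q : ℕ) (O : ValuationSubring ℂ), q.Prime → N + D + l₀ + p + r + 5 < q →
      O.valuation (q : ℂ) < 1 → w2 ≠ 0 ∧ padicValRat q w2 = 0 := fun q O hq Mq hv =>
    val_zero hq hv (by
      rw [hw2, Nr]
      exact prod_one fun ρ hρ => by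
        obtain ⟨σ, rfl⟩ := gr ρ hρ
        simpa [map_ofNat] using (u0 q O hq Mq hv σ).2.2)
  have am : ∀ σ : K →+* ℂ, aeval (σ j) F = σ (aeval j F) := fun σ =>
    aeval_algHom_apply σ.toIntAlgHom j F
  have w1 : w ≠ 0 := by
    rintro rfl
    obtain ⟨ρ, hρ, e⟩ := Multiset.mem_map.1
      (Multiset.prod_eq_zero_iff.1 (hw.symm.trans Rat.cast_zero))
    obtain ⟨σ, rfl⟩ := gr ρ hρ
    rw [am, map_eq_zero] at e
    have := hl₀ l _ ε hl ((Fr _).1 (mem_aroots.2 ⟨F1, by rw [am, e, map_zero]⟩))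
    omega
  obtain ⟨O, ι, pad⟩ := hA l
  obtain ⟨s, hs⟩ := IsAlgClosed.exists_pow_nat_eq (-l : ℂ) two_pos
  have W0 := mul_ne_zero w1 (v2 l O hl Ml pad.vp).1
  have lr : ¬l ∣ r ^ i := fun h => by
    have := (Nat.prime_dvd_prime_iff_eq hl hr).1 (hl.dvd_of_dvd_pow h)
    omega
  have ro : Odd (r ^ i) := (hr.odd_of_ne_two r2).pow
  have sq : Sq l (w * w2) := by
    refine hL l O ι s g F R Z c _ pad hs gm (fun ρ hρ => ?_) (F0 l hl) c1 hRZ Fn
      (fun t ht ρ hρ nr τ fx ft => ?_) W0 ?_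
    · obtain ⟨σ, rfl⟩ := gr ρ hρ
      exact ⟨him σ, (u0 l O hl Ml pad.vp σ).1, (u0 l O hl Ml pad.vp σ).2.2⟩
    · obtain ⟨σ, rfl⟩ := gr ρ hρ
      obtain ⟨a1, a2, a3⟩ := u0 l O hl Ml pad.vp σ
      refine (sq_eq_sq_iff_eq_or_eq_neg.1 (by
        rw [← map_pow, hs, map_neg, map_natCast])).resolve_right fun ns => ?_
      obtain ⟨k, k1, k2⟩ := hI l O ι _ ε s t τ pad (by omega) ro lr hs ((Fr t).1 ht)
        (near_one nr a2) (near_one (by rwa [sub_sub_sub_cancel_right]) a3) fx ft ns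
      have k3 := near a1 nr (F := X ^ l ^ k - X) (by simpa using k2)
      rw [map_sub, map_pow, aeval_X] at k3
      obtain ⟨P, od, hx'⟩ := hd l k O σ hl
        (fun h => absurd (Nat.le_of_dvd (Nat.pos_of_ne_zero D0) h) (by omega)) pad.vp a1 k1 k3
      refine bad l P hl Ml (Or.inr ⟨_, rfl, fun h => lr (hl.dvd_of_dvd_pow h), ro.pow⟩) od
        (hx' x ?_ ?_)
      · rw [hx, aeval_eq_sum_range]
        exact mul_mem (natCast_mem _ _) (sum_mem fun i _ =>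
          zsmul_mem (pow_mem (IntermediateField.mem_adjoin_simple_self ℚ j) i) _)
      · rw [hx, map_mul, map_natCast, ← am, map_mul, v_nat hl pad.vp (nd l hl Ml), one_mul]
        exact near a1 nr (by rw [(mem_aroots.1 ht).2, map_zero]; exact zero_lt_one)
    · rw [Rat.cast_mul, hw, hw2, Nr, Nr, Nr]
      simp only [map_mul, Multiset.prod_map_mul, map_ofNat]
      exact mul_comm _ _
  have ev : Even (padicValRat p (w * w2)) := by
    by_contra ho
    obtain ⟨q, hq, qp, qj, qv⟩ := hR l p (w * w2) hl l8 hp hJp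
      (lt_of_le_of_ne (mul_nonneg w0 w20) W0.symm) sq (Int.not_even_iff_odd.1 ho)
    have := Fact.mk hq
    have ns := ZMod.nonsquare_of_jacobiSym_eq_neg_one qj
    have q2 : q ≠ 2 := by
      rintro rfl
      exact ns (sq2 _)
    have Mq : N + D + l₀ + p + r + 5 < q := by
      by_contra h
      rw [hJ q hq (not_lt.1 h) q2 qp] at qj
      omega
    obtain ⟨O', hO'⟩ := H31F.VlsAux.val q hq
    obtain ⟨a, b⟩ := v2 q O' hq Mq hO'
    rw [padicValRat.mul w1 a, b, add_zero] at qv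
    obtain ⟨P, od, hx'⟩ := hO K j x q _ F w odd hq (nd q hq Mq) hx hw qv
    refine bad q P hq Mq (Or.inl ?_) od hx'
    rintro ⟨y, hy⟩
    have r0 : (r : ZMod q) ≠ 0 := by
      rw [Ne, ZMod.natCast_eq_zero_iff]
      exact fun h => absurd (Nat.le_of_dvd hr.pos h) (by omega)
    refine ns ⟨y / r ^ i, ?_⟩
    push_cast at hy ⊢
    field_simp
    linear_combination hy
  have lc0 : (F.leadingCoeff : ℚ) ≠ 0 := by simpa using F1
  refine ⟨(F.aroots ℂ).toFinset, w / F.leadingCoeff ^ g.natDegree, fun t => ?_, fun σ t ht => ?_,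
    div_ne_zero w1 (pow_ne_zero _ lc0), ?_, ?_⟩
  · rw [Multiset.mem_toFinset, Fr]
  · rw [Multiset.mem_toFinset, mem_aroots] at ht ⊢
    refine ⟨F1, ?_⟩
    have := aeval_algHom_apply σ.toRingHom.toIntAlgHom t F
    rw [ht.2, map_zero] at this
    exact this
  · have : (F.leadingCoeff : ℂ) ≠ 0 := by simpa using F1
    rw [Finset.prod_eq_multiset_prod, Multiset.toFinset_val, Fn.dedup]
    push_cast
    rw [hw, hw']
    field_simp
  · rw [← e2, div_mul_eq_mul_div, padicValRat.div W0 (pow_ne_zero _ lc0), padicValRat.pow]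
    exact ev.sub ((Int.even_coe_nat _).2 ge |>.mul_right _)

end Pool.Agent.MP_c481b3_nt.H79
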