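import Pool.Agent.MP_c481b3_nt.H79.SpecN

/-! The values of a polynomial at the invariant. -/

set_option autoImplicit false

namespace Pool.Agent.MP_c481b3_nt.H79

open Pool.Agent.MP_c481b3_nt.H81 Pool.Agent.MP_c481b3_nt.H28 Polynomial

namespace GtA

variable {p : ℕ} [Fact p.Prime]

lemma of_norm {x y : ℚ_[p]} (h : ‖x‖ = ‖y‖) : (x = 0 ↔ y = 0) ∧ x.valuation = y.valuation := by
  have e : x = 0 ↔ y = 0 := by rw [← norm_eq_zero, h, norm_eq_zero]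
  refine ⟨e, ?_⟩
  by_cases hx : x = 0
  · rw [hx, e.1 hx]
  · rw [Padic.norm_eq_zpow_neg_valuation hx, Padic.norm_eq_zpow_neg_valuation (e.not.1 hx)] at h
    have h1 : (1 : ℝ) < p := by exact_mod_cast (Fact.out : p.Prime).one_lt
    exact neg_injective (zpow_right_injective₀ (by positivity) h1.ne' h)

lemma norm_disc (Y : Fam p) {x : ℤ_[p]} (hx : Dz 0 x) :
    ‖4 * lA (Y.a : ℚ_[p]) Y.b x ^ 3 + 27 * lB (Y.a : ℚ_[p]) Y.b x ^ 2‖ = 1 := by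
  have e : 4 * lA (Y.a : ℚ_[p]) Y.b x ^ 3 + 27 * lB (Y.a : ℚ_[p]) Y.b x ^ 2
      = ((4 * lA (Y.a : ℤ_[p]) Y.b x ^ 3 + 27 * lB (Y.a : ℤ_[p]) Y.b x ^ 2 : ℤ_[p]) : ℚ_[p]) := by
    have := PadicInt.Coe.ringHom (p := p) |>.congr_arg (rfl : 4 * lA (Y.a : ℤ_[p]) Y.b x ^ 3
      + 27 * lB (Y.a : ℤ_[p]) Y.b x ^ 2 = _)
    conv_lhs at this =>
      simp only [map_add, map_mul, map_pow, map_lA, map_lB, map_intCast, map_ofNat]
    exact this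
  rw [e, PadicInt.padic_norm_e_of_padicInt]
  refine le_antisymm (PadicInt.norm_le_one _) (not_lt.1 fun h => Y.unit ?_)
  rw [PadicInt.norm_lt_one_iff_dvd] at h
  rw [← PadicInt.norm_int_lt_one_iff_dvd, PadicInt.norm_lt_one_iff_dvd]
  rw [Dz, sub_zero] at hx
  have := h.sub (hx.mul_right (972 * Y.a * Y.b ^ 2 * x - 2916 * Y.b ^ 3 * x ^ 2 + 108 * Y.a ^ 4 * x))
  convert this using 1
  simp only [lA, lB]
  push_cast
  ring

end GtA

theorem gt : GT := by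
  intro p _ Y g
  refine ⟨∑ k ∈ Finset.range (g.natDegree + 1), C (g.coeff k) *
    ((6912 * lA (Y.a : ℚ[X]) Y.b X ^ 3) ^ k *
      (4 * lA (Y.a : ℚ[X]) Y.b X ^ 3 + 27 * lB (Y.a : ℚ[X]) Y.b X ^ 2) ^ (g.natDegree - k)),
    fun x hx => GtA.of_norm ?_⟩
  have hJ : (Y.Jz x : ℚ_[p]) = jj (lA (Y.a : ℚ_[p]) Y.b x) (lB (Y.a : ℚ_[p]) Y.b x) :=
    Y.ι.injective ((Fam.io_Jz hx).trans (Y.J_io x))
  have hD := GtA.norm_disc Y hx
  have hD0 := norm_ne_zero_iff.1 (hD.trans_ne one_ne_zero)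
  have hA : aeval (x : ℚ_[p]) (lA (Y.a : ℚ[X]) Y.b X) = lA (Y.a : ℚ_[p]) Y.b x := by
    simp [lA, map_ofNat]
  have hB : aeval (x : ℚ_[p]) (lB (Y.a : ℚ[X]) Y.b X) = lB (Y.a : ℚ_[p]) Y.b x := by
    simp [lB, map_ofNat]
  have hn := congrArg (· ^ g.natDegree) hD
  simp only [one_pow, ← norm_pow] at hn
  rw [← one_mul ‖pv g _‖, ← hn, ← norm_mul, pv, pv, hJ, aeval_eq_sum_range (p := g), map_sum,
    Finset.mul_sum]
  congr 1
  refine Finset.sum_congr rfl fun k hk => ?_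
  obtain ⟨m, hm⟩ := Nat.exists_eq_add_of_le (Nat.lt_succ_iff.1 (Finset.mem_range.1 hk))
  simp only [map_mul, map_pow, map_add, map_ofNat, hA, hB, aeval_C, Algebra.smul_def]
  rw [hm, Nat.add_sub_cancel_left, jj, div_pow, pow_add]
  generalize 4 * lA (Y.a : ℚ_[p]) Y.b x ^ 3 + 27 * lB (Y.a : ℚ_[p]) Y.b x ^ 2 = D at hD0
  field_simp

end Pool.Agent.MP_c481b3_nt.H79
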