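import Pool.Agent.MP_c481b3_nt.H79.Iu

/-! A rational quotient is the quotient by a rational subgroup. -/

set_option autoImplicit false

namespace Pool.Agent.MP_c481b3_nt.H79

open Pool.Agent.MP_c481b3_nt.H81 Pool.Agent.MP_c481b3_nt.H28

namespace H90A

variable {A B A' B' : ℂ} {σ : ℂ →+* ℂ} {hA : σ A = A} {hB : σ B = B} {hG : Good A B}

lemma jm (σ : ℂ →+* ℂ) (A B : ℂ) : jj (σ A) (σ B) = σ (jj A B) := by
  simp [jj, map_ofNat]

/-- the kernel is stable as soon as the multipliers match -/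
lemma stab {m m' : ℕ} {v c : ℂ} {f f' : Pt A B →+ Pt A' B'} {ι : Pt (σ A') (σ B') →+ Pt A' B'}
    (a : Iu m v f) (a' : Iu m' (σ v * c) f') (i : Iu 1 c ι) {P : Pt A B} (hP : f P = 0) :
    f' ((Sc.ofHom σ hA hB hG).map P) = 0 := by
  obtain ⟨g, g1, g2⟩ := a.conj three_ne_zero σ hA hB hG rfl rfl (a.good.2.1.map σ)
  rw [a'.ext (g1.comp three_ne_zero i), AddMonoidHom.comp_apply, g2, hP, map_zero, map_zero]

end H90A

open H90A in
theorem h90_of : MOVE → H90 := by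
  classical
  intro mv n A B u t χ ε C σ hA hB hG hu ht hχ q
  have h3 : (3 : ℂ) ≠ 0 := three_ne_zero
  obtain ⟨w, A', B', d, ej⟩ := q.quo
  obtain ⟨x, x2⟩ := cx_iff.1 hχ
  have l := vd_iu h3 d
  obtain ⟨-, G', w0, N0⟩ := l.good
  have hN : (C.card : ℂ) ≠ 0 := Nat.cast_ne_zero.2 N0
  obtain ⟨c, ι, i⟩ := iu_iso h3 (G'.map σ) G' (by rw [jm, ej, ht])
  obtain ⟨g, g1, -⟩ := l.conj h3 σ hA hB hG rfl rfl (G'.map σ)
  obtain ⟨l', l1, -⟩ := l.dual h3 hN
  obtain ⟨β, -, b2, b3⟩ := ((g1.comp h3 i).comp h3 l1).toE h3 hG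
  obtain ⟨y, y1, y2, y3⟩ := x.toE h3 hG
  have R := compRing h3 hG
  have cm : ∀ φ ψ : EE hG, φ * ψ = ψ * φ := fun φ ψ =>
    cE_inj hG (by rw [map_mul, map_mul, mul_comm])
  have n0 : n ≠ 0 := x.good.2.2.2
  have yy : y * y = -(((n : ℤ) : EE hG)) := cE_inj hG (by
    rw [map_mul, y3, map_neg, map_intCast, ← sq, x2, Int.cast_natCast])
  obtain ⟨s, s1, -⟩ := R.comm_rel (R.tr_of_sq (by omega) yy) (cm β y)
  have s2 := congrArg (cE hG) s1
  have s3 := congrArg (cE hG) (R.char β)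
  simp only [map_mul, map_sub, map_intCast, y2, y3, b2] at s2 s3
  generalize pol NE β 1 = τ at s2 s3
  have s4 := congrArg σ s2
  simp only [map_mul, map_sub, map_intCast, hu] at s4
  have nC : (n : ℂ) ≠ 0 := Nat.cast_ne_zero.2 n0
  have s5 : σ (cE hG β) = τ - cE hG β := by
    apply mul_left_cancel₀ (mul_ne_zero (by norm_num : (4 : ℂ) ≠ 0) nC)
    push_cast at s2 s4
    linear_combination s2 + s4
  have s6 : σ w * c * C.card = cE hG β * w := by rw [b3]; field_simp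
  push_cast at s3
  by_cases h0 : cE hG (C.card + β) = 0
  · rw [map_add, map_natCast] at h0
    refine ⟨C, q, fun P hP => ?_⟩
    have e : -w = σ w * c := mul_right_cancel₀ hN (by linear_combination -s6 - w * h0)
    have := stab (hA := hA) (hB := hB) (hG := hG) l (e ▸ l.neg) i ((d.hom_eq_zero h3).2 hP)
    exact (d.hom_eq_zero h3).1 (neg_eq_zero.1 this)
  obtain ⟨m, a, -⟩ := iu_ofE h3 hG _ h0
  have z := a.comp h3 l
  have e : cE hG (C.card + β) * w = σ (cE hG (C.card + β) * w) * c := by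
    apply mul_right_cancel₀ hN
    rw [map_add, map_natCast, map_mul, map_add, map_natCast, s5]
    linear_combination (-(C.card : ℂ) - τ + cE hG β) * s6 + w * s3
  obtain ⟨D, dD, -, eD⟩ := id a
  obtain ⟨H, dH, -, eH⟩ := id z
  have mH : ∀ P, P ∈ H ↔ vm D _ A B P ∈ C := fun P => by
    rw [← dH.eq_zero, ← eH, ← eD, ← d.hom_eq_zero h3]; rfl
  have sD : D ⊆ H := fun P hP => (mH P).2 (by rw [dD.eq_zero.2 hP]; exact d.sub.zero)
  have im : H.image (vm D (cE hG (C.card + β)) A B) = C := by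
    ext Q
    obtain ⟨P, rfl⟩ := dD.surj h3 Q
    exact (dD.mem_image h3 dH.sub sD).trans (mH P)
  refine ⟨H, (mv A B _ t χ ε D H dD (fun P => ?_) dH.sub sD).2 (by rw [im]; exact q),
    fun P hP => ?_⟩
  · rw [← eD, ← eD, ← y1, ← y1]
    exact ((EE_mul _ _ P).symm.trans (by rw [cm])).trans (EE_mul _ _ P)
  · rw [← dH.eq_zero, ← eH] at hP ⊢
    exact stab z (e ▸ z) i hP

end Pool.Agent.MP_c481b3_nt.H79
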