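import Pool.Agent.MP_c481b3_nt.H79.SpecG

/-! Conjugate points contribute an even valuation. -/

set_option autoImplicit false

namespace Pool.Agent.MP_c481b3_nt.H79

open Polynomial

namespace PairA

lemma prod_inv {α : Type} [DecidableEq α] (P : ℂ → Prop) (h1 : P 1)
    (hm : ∀ x y, P x → P y → P (x * y)) (f : α → ℂ) (τ : α → α) (Z : Finset α) :
    (∀ t ∈ Z, τ t ∈ Z ∧ τ t ≠ t ∧ τ (τ t) = t ∧ P (f t * f (τ t))) → P (∏ t ∈ Z, f t) := by
  induction Z using Finset.strongInduction with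
  | H Z ih =>
    intro h
    rcases Z.eq_empty_or_nonempty with rfl | ⟨t, ht⟩
    · simpa using h1
    obtain ⟨h2, h3, h4, h5⟩ := h t ht
    have h6 : τ t ∈ Z.erase t := Finset.mem_erase.2 ⟨h3, h2⟩
    rw [← Finset.mul_prod_erase Z f ht, ← Finset.mul_prod_erase _ f h6, ← mul_assoc]
    refine hm _ _ h5 (ih _ ((Finset.erase_subset _ _).trans_ssubset (Finset.erase_ssubset ht)) ?_)
    intro u hu
    simp only [Finset.mem_erase] at hu ⊢
    obtain ⟨k2, k3, k4, k5⟩ := h u hu.2.2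
    refine ⟨⟨fun e => hu.2.1 ?_, fun e => hu.1 ?_, k2⟩, k3, k4, k5⟩
    · rw [← k4, e, h4]
    · rw [← k4, e]

variable {p : ℕ} [Fact p.Prime]

lemma val_of_norm {x y : ℚ_[p]} (hy : y ≠ 0) (h : ‖x‖ = ‖y‖) :
    x ≠ 0 ∧ x.valuation = y.valuation := by
  have hx : x ≠ 0 := fun e => hy (by rwa [e, norm_zero, eq_comm, norm_eq_zero] at h)
  refine ⟨hx, ?_⟩
  rw [Padic.norm_eq_zpow_neg_valuation hx, Padic.norm_eq_zpow_neg_valuation hy] at h
  have hp : (1 : ℝ) < p := by exact_mod_cast (Fact.out : p.Prime).one_lt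
  exact neg_injective ((zpow_right_inj₀ (by linarith) hp.ne').1 h)

lemma sq_add {n : ℕ} (hn : ¬IsSquare (-(n : ZMod p))) (c : ℚ_[p]) :
    c ^ 2 + n ≠ 0 ∧ Even (c ^ 2 + n).valuation := by
  rcases le_or_gt ‖c‖ 1 with hc | hc
  · obtain ⟨c, rfl⟩ : ∃ d : ℤ_[p], c = d := ⟨⟨c, hc⟩, rfl⟩
    have hu : IsUnit (c ^ 2 + n : ℤ_[p]) := by
      by_contra hu
      have hm : (c ^ 2 + n : ℤ_[p]) ∈ RingHom.ker (PadicInt.toZMod (p := p)) := by
        rw [PadicInt.ker_toZMod]
        exact hu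
      rw [RingHom.mem_ker, map_add, map_pow, map_natCast] at hm
      exact hn ⟨PadicInt.toZMod c, by linear_combination -hm⟩
    have h1 : ‖(c : ℚ_[p]) ^ 2 + n‖ = ‖(1 : ℚ_[p])‖ := by
      have h0 := PadicInt.isUnit_iff.1 hu
      rw [PadicInt.norm_def] at h0
      push_cast at h0
      rw [norm_one, h0]
    obtain ⟨h2, h3⟩ := val_of_norm one_ne_zero h1
    exact ⟨h2, by simp [h3]⟩
  · have hc0 : c ≠ 0 := fun e => by
      rw [e, norm_zero] at hc
      linarith
    have hn1 : ‖(n : ℚ_[p])‖ ≤ 1 := by exact_mod_cast Padic.norm_int_le_one (p := p) (n : ℤ)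
    have hlt : ‖(n : ℚ_[p])‖ < ‖c ^ 2‖ := by
      rw [norm_pow]
      nlinarith
    have h1 : ‖c ^ 2 + n‖ = ‖c ^ 2‖ := by
      rw [Padic.add_eq_max_of_ne hlt.ne', max_eq_left hlt.le]
    obtain ⟨h2, h3⟩ := val_of_norm (pow_ne_zero 2 hc0) h1
    exact ⟨h2, by rw [h3, Padic.valuation_pow]; simp⟩

lemma norm_form {n : ℕ} (hn : ¬IsSquare (-(n : ZMod p))) (a b : ℚ_[p])
    (h : a ^ 2 + n * b ^ 2 ≠ 0) : Even (a ^ 2 + n * b ^ 2).valuation := by
  rcases eq_or_ne b 0 with rfl | hb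
  · simp [Padic.valuation_pow]
  · obtain ⟨h1, h2⟩ := sq_add hn (a / b)
    have e : a ^ 2 + n * b ^ 2 = b ^ 2 * ((a / b) ^ 2 + n) := by field_simp
    rw [e, Padic.valuation_mul (pow_ne_zero 2 hb) h1, Padic.valuation_pow]
    exact Even.add (by simp) h2

lemma val_prod {α : Type} (S : Finset α) (f : α → ℚ_[p]) (h : ∀ x ∈ S, f x ≠ 0) :
    (∏ x ∈ S, f x).valuation = ∑ x ∈ S, (f x).valuation := by
  classical
  induction S using Finset.induction_on with
  | empty => simp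
  | insert a S ha ih =>
    have h' : ∀ x ∈ S, f x ≠ 0 := fun x hx => h x (Finset.mem_insert_of_mem hx)
    rw [Finset.prod_insert ha, Finset.sum_insert ha, Padic.valuation_mul
      (h a (Finset.mem_insert_self _ _)) (Finset.prod_ne_zero_iff.2 h'), ih h']

lemma hom_aeval {A B : Type} [Field A] [Field B] [CharZero A] [CharZero B] (φ : A →+* B) (x : A)
    (g : ℚ[X]) : aeval (φ x) g = φ (aeval x g) :=
  aeval_algHom_apply φ.toRatAlgHom x g

lemma aeval_quad (ι : ℚ_[p] →+* ℂ) {n : ℕ} {s : ℂ} (hs : s ^ 2 = -n) (a b : ℚ_[p]) (g : ℚ[X]) :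
    ∃ a' b', aeval (ι a + ι b * s) g = ι a' + ι b' * s := by
  induction g using Polynomial.induction_on with
  | C q => exact ⟨q, 0, by simp⟩
  | add f g hf hg =>
    obtain ⟨a₁, b₁, e₁⟩ := hf
    obtain ⟨a₂, b₂, e₂⟩ := hg
    exact ⟨a₁ + a₂, b₁ + b₂, by rw [map_add, e₁, e₂, map_add, map_add]; ring⟩
  | monomial k q h =>
    obtain ⟨a₁, b₁, e₁⟩ := h
    refine ⟨a₁ * a - n * (b₁ * b), a₁ * b + b₁ * a, ?_⟩
    rw [pow_succ, ← mul_assoc, map_mul, e₁, aeval_X]
    simp only [map_sub, map_add, map_mul, map_natCast]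
    linear_combination ι b₁ * ι b * hs

end PairA

open PairA

theorem pair : PAIR := by
  classical
  intro p _ O ι n s g Z S w pad hn hs hZ hq hS hw hprod
  obtain ⟨σ, hσ, hσs⟩ : ∃ σ, Fx ι σ ∧ σ s ≠ s := by
    by_contra hc
    push Not at hc
    obtain ⟨c, rfl⟩ := pad.fix s hc
    refine (sq_add hn c).1 (ι.injective ?_)
    rw [map_add, map_pow, map_natCast, hs, map_zero, neg_add_cancel]
  have hneg : σ s = -s := by
    have h1 : σ s ^ 2 = s ^ 2 := by rw [← map_pow, hs, map_neg, map_natCast]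
    exact (sq_eq_sq_iff_eq_or_eq_neg.1 h1).resolve_left hσs
  have hact : ∀ a b, σ (ι a + ι b * s) = ι a - ι b * s := fun a b => by
    rw [map_add, map_mul, hσ a, hσ b, hneg]
    ring
  have hne : ∀ t ∈ Z, aeval t g ≠ 0 := by
    rw [← Finset.prod_ne_zero_iff, ← hprod]
    exact_mod_cast hw
  have hP := prod_inv (fun z => ∃ y : ℚ_[p], y ≠ 0 ∧ Even y.valuation ∧ z = ι y)
    ⟨1, one_ne_zero, by simp, by simp⟩
    (by
      rintro _ _ ⟨x, hx, ex, rfl⟩ ⟨y, hy, ey, rfl⟩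
      exact ⟨x * y, mul_ne_zero hx hy, by rw [Padic.valuation_mul hx hy]; exact ex.add ey,
        (map_mul _ _ _).symm⟩)
    (fun t => aeval t g) σ (Z.filter fun t => ¬σ t = t) (by
      intro t ht
      obtain ⟨ht, hne'⟩ := Finset.mem_filter.1 ht
      obtain ⟨a, b, e⟩ := hq t ht
      have h2 : σ (σ t) = t := by
        have := hact a (-b)
        rw [map_neg, neg_mul, ← sub_eq_add_neg, sub_neg_eq_add] at this
        rw [e, hact, this]
      refine ⟨Finset.mem_filter.2 ⟨hZ σ t ht, fun h => hne' (by rw [← h, h2])⟩, hne', h2, ?_⟩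
      obtain ⟨a', b', e'⟩ := aeval_quad ι hs a b g
      rw [← e] at e'
      have h3 : aeval t g * aeval (σ t) g = ι (a' ^ 2 + n * b' ^ 2) := by
        have h4 := hom_aeval σ.toRingHom t g
        simp only [RingEquiv.toRingHom_eq_coe, RingEquiv.coe_toRingHom] at h4
        rw [h4, e', hact]
        simp only [map_add, map_mul, map_pow, map_natCast]
        linear_combination -(ι b') ^ 2 * hs
      have h5 : a' ^ 2 + n * b' ^ 2 ≠ 0 := fun h => by
        rw [h, map_zero] at h3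
        exact mul_ne_zero (hne t ht) (hne _ (hZ σ t ht)) h3
      exact ⟨_, h5, norm_form hn a' b' h5, h3⟩)
  obtain ⟨y, hy, ey, hP⟩ := hP
  have hfix : Z.filter (fun t => σ t = t) = S.image fun x : ℤ_[p] => ι (x : ℚ_[p]) := by
    ext t
    simp only [Finset.mem_filter, Finset.mem_image]
    constructor
    · rintro ⟨ht, h⟩
      obtain ⟨a, b, e⟩ := hq t ht
      have h1 : t = ι a := by
        rw [e, hact] at h
        rw [e]
        linear_combination (-1 / 2 : ℂ) * h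
      obtain ⟨x, hx, rfl⟩ := (hS a).1 (h1 ▸ ht)
      exact ⟨x, hx, h1.symm⟩
    · rintro ⟨x, hx, rfl⟩
      exact ⟨(hS _).2 ⟨x, hx, rfl⟩, hσ _⟩
  have hw' : (w : ℚ_[p]) = (∏ x ∈ S, pv g x) * y := by
    apply ι.injective
    have hinj : Set.InjOn (fun x : ℤ_[p] => ι (x : ℚ_[p])) S :=
      fun x _ y _ h => Subtype.ext (ι.injective h)
    rw [map_ratCast, hprod, ← Finset.prod_filter_mul_prod_filter_not Z fun t => σ t = t, hP, hfix,
      Finset.prod_image hinj, map_mul, map_prod]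
    simp only [pv, hom_aeval]
  have h0 : ∏ x ∈ S, pv g x ≠ 0 := fun h => by
    rw [h, zero_mul] at hw'
    exact hw (by exact_mod_cast hw')
  have h1 := Finset.prod_ne_zero_iff.1 h0
  refine ⟨h1, ?_⟩
  rw [← Padic.valuation_ratCast, hw', Padic.valuation_mul h0 hy, val_prod S _ h1, add_right_comm]
  exact (Even.add_self _).add ey

end Pool.Agent.MP_c481b3_nt.H79
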