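import Pool.Agent.MP_c481b3_nt.H79.SpecH
import Pool.Agent.MP_c481b3_nt.H79.Pair

/-! Products over two conjugate halves. -/

set_option autoImplicit false

namespace Pool.Agent.MP_c481b3_nt.H79

open Polynomial

namespace HalfA

variable {l : ℕ} [Fact l.Prime] {O : ValuationSubring ℂ} {ι : ℚ_[l] →+* ℂ} {s : ℂ}

lemma odd_ne {b : ℚ_[l]} (hb : b ≠ 0) (c : ℚ_[l]) : ‖c ^ 2‖ ≠ ‖l * b ^ 2‖ := fun h => by
  have hl : (l : ℚ_[l]) ≠ 0 := Nat.cast_ne_zero.2 (Fact.out : l.Prime).ne_zero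
  have h1 := (PairA.val_of_norm (mul_ne_zero hl (pow_ne_zero 2 hb)) h).2
  rw [Padic.valuation_mul hl (pow_ne_zero 2 hb), Padic.valuation_pow, Padic.valuation_pow,
    Padic.valuation_p] at h1
  omega

lemma nrm (hs : s ^ 2 = -l) {σ : ℂ ≃+* ℂ} (hσ : Fx ι σ) (hσs : σ s = -s) (a b : ℚ_[l]) :
    (ι a + ι b * s) * σ (ι a + ι b * s) = ι (a ^ 2 + l * b ^ 2) := by
  rw [map_add σ, map_mul σ, hσ a, hσ b, hσs]
  simp only [map_add, map_mul, map_pow, map_natCast]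
  linear_combination -(ι b) ^ 2 * hs

lemma near (pad : Pad l O ι) (hs : s ^ 2 = -l) {σ : ℂ ≃+* ℂ} (hσ : Fx ι σ) (hσs : σ s = -s)
    (a b : ℚ_[l]) (h : O.valuation (ι a + ι b * s) ≤ 1) :
    ∃ n : ℤ, O.valuation (ι a + ι b * s - n) < 1 := by
  have h1 : ‖a ^ 2 + l * b ^ 2‖ ≤ 1 := by
    rw [← pad.mem, ← O.valuation_le_one_iff, ← nrm hs hσ hσs, map_mul, pad.stab σ hσ]
    exact mul_le_one' h h
  have h2 : ‖a ^ 2‖ ≤ 1 ∧ ‖l * b ^ 2‖ < 1 := by
    rcases eq_or_ne b 0 with rfl | hb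
    · simpa using h1
    · rw [Padic.add_eq_max_of_ne (odd_ne hb a), max_le_iff] at h1
      exact ⟨h1.1, h1.2.lt_of_ne fun e => odd_ne hb 1 (by rw [e, one_pow, norm_one])⟩
  have h3 : ‖a‖ ≤ 1 := by
    have := h2.1
    rwa [norm_pow, pow_le_one_iff_of_nonneg (norm_nonneg _) two_ne_zero] at this
  have h4 : O.valuation (ι b * s) < 1 := by
    have h5 := (pad.lt _).2 h2.2
    have e : ι (l * b ^ 2) = -(ι b * s) ^ 2 := by
      rw [map_mul, map_pow, map_natCast, mul_pow, hs]; ring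
    rw [e, Valuation.map_neg, map_pow] at h5
    exact (pow_lt_one_iff two_ne_zero).1 h5
  have h6 := PadicInt.mem_nonunits.1 (PadicInt.zmodRepr_spec (⟨a, h3⟩ : ℤ_[l])).2
  refine ⟨PadicInt.zmodRepr (⟨a, h3⟩ : ℤ_[l]), ?_⟩
  rw [add_sub_right_comm]
  refine Valuation.map_add_lt _ ?_ h4
  rw [Int.cast_natCast, ← map_natCast ι, ← map_sub, pad.lt]
  simpa [PadicInt.norm_def] using h6

lemma sm_mul {p q : ℂ[X]} (hp : ∀ i, O.valuation (p.coeff i) ≤ 1)
    (hq : ∀ i, O.valuation (q.coeff i) < 1) (i : ℕ) : O.valuation ((p * q).coeff i) < 1 := by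
  rw [coeff_mul]
  exact Valuation.map_sum_lt _ one_ne_zero fun c _ => by
    rw [map_mul]
    exact (mul_le_of_le_one_left' (hp _)).trans_lt (hq _)

lemma perm {H : Finset ℂ} {τ : ℂ ≃+* ℂ} (h : ∀ t ∈ H, τ t ∈ H) {M : Type} [CommMonoid M]
    (f : ℂ → M) : ∏ t ∈ H, f (τ t) = ∏ t ∈ H, f t := by
  have e : H.map τ.toEquiv.toEmbedding = H := Finset.eq_of_subset_of_card_le (fun x hx => by
    obtain ⟨t, ht, rfl⟩ := Finset.mem_map.1 hx
    exact h t ht) (Finset.card_map _).ge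
  conv_rhs => rw [← e, Finset.prod_map]
  rfl

lemma map_P (H : Finset ℂ) (τ : ℂ ≃+* ℂ) :
    (∏ t ∈ H, (X - C t)).map (τ : ℂ →+* ℂ) = ∏ t ∈ H, (X - C (τ t)) := by
  simp [Polynomial.map_prod]

end HalfA

open HalfA

theorem half_of : SPLIT → HALF := by
  intro split l _ O ι s T g pad hs hO h1 h2
  obtain ⟨H, σ, hσ, hσs, hH, hT⟩ := split l O ι s T pad hs h1 h2
  have hs' : s ^ 2 = ι (-l) := by rw [hs, map_neg, map_natCast]
  have hp : ∀ {M : Type} [CommMonoid M] (f : ℂ → M),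
      ∏ t ∈ T, f t = (∏ t ∈ H, f t) * ∏ t ∈ H, f (σ t) := fun f => by
    rw [Finset.prod_eq_multiset_prod, hT, Multiset.map_add, Multiset.prod_add, Multiset.map_map]
    rfl
  have ha : ∀ τ : ℂ ≃+* ℂ, τ (∏ t ∈ H, aeval t g) = ∏ t ∈ H, aeval (τ t) g := fun τ => by
    rw [map_prod]
    exact Finset.prod_congr rfl fun t _ => (PairA.hom_aeval τ.toRingHom t g).symm
  constructor
  · obtain ⟨a, b, e⟩ := pad.fix2 s (∏ t ∈ H, aeval t g) _ hs' fun τ hτ hτs => by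
      rw [ha, perm (hH τ hτ hτs) fun t => aeval t g]
    exact ⟨a, b, by rw [hp, ← ha, e, nrm hs hσ hσs]⟩
  obtain ⟨P, hP⟩ : ∃ P : ℂ[X], P = ∏ t ∈ H, (X - C t) := ⟨_, rfl⟩
  have hm : P.Monic := hP ▸ monic_prod_of_monic _ _ fun t _ => monic_X_sub_C t
  have hin : ∀ i, O.valuation (P.coeff i) ≤ 1 := fun i => by
    obtain ⟨Q, hQ⟩ : P ∈ liftsRing O.subtype := hP ▸ Subring.prod_mem _ fun t ht =>
      sub_mem ⟨X, map_X _⟩ ⟨C ⟨t, hO t (by
        rw [← Finset.mem_val, hT]; exact Multiset.mem_add.2 (Or.inl ht))⟩, map_C _⟩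
    rw [← hQ, coe_mapRingHom, coeff_map]
    exact O.valuation_le_one _
  have hn : ∀ i, ∃ n : ℤ, O.valuation (P.coeff i - n) < 1 := fun i => by
    obtain ⟨a, b, e⟩ := pad.fix2 s (P.coeff i) _ hs' fun τ hτ hτs => by
      have := coeff_map (τ : ℂ →+* ℂ) i (p := P)
      rw [hP, map_P, perm (hH τ hτ hτs) fun t => X - C t, ← hP] at this
      exact this.symm
    rw [e]
    exact near pad hs hσ hσs a b (e ▸ hin i)
  choose n hn using hn
  obtain ⟨h, hh⟩ : ∃ h : ℤ[X],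
    h = X ^ P.natDegree + ∑ i : Fin P.natDegree, C (n i) * X ^ (i : ℕ) := ⟨_, rfl⟩
  have hd : ∀ i, O.valuation ((P - h.map (Int.castRingHom ℂ)).coeff i) < 1 := fun i => by
    have e : P - h.map (Int.castRingHom ℂ) =
        ∑ j ∈ Finset.range P.natDegree, C (P.coeff j - n j) * X ^ j := by
      rw [hh, Fin.sum_univ_eq_sum_range fun j => C (n j) * X ^ j]
      conv_lhs => enter [1]; rw [hm.as_sum]
      simp [Polynomial.map_sum, sub_mul]
    rw [e, finsetSum_coeff]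
    refine Valuation.map_sum_lt _ one_ne_zero fun j _ => ?_
    rw [coeff_C_mul_X_pow]
    split_ifs
    · exact hn j
    · simp
  have hd' : ∀ i, O.valuation ((P.map (σ : ℂ →+* ℂ) - h.map (Int.castRingHom ℂ)).coeff i) < 1 :=
    fun i => by
      have := hd i
      rw [← pad.stab σ hσ] at this
      simpa using this
  refine ⟨h, hh ▸ monic_X_pow_add (degree_sum_fin_lt _), fun i => ?_⟩
  have e : ∏ t ∈ T, (X - C t) - h.map (Int.castRingHom ℂ) ^ 2 =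
      P * (P.map (σ : ℂ →+* ℂ) - h.map (Int.castRingHom ℂ)) +
        h.map (Int.castRingHom ℂ) * (P - h.map (Int.castRingHom ℂ)) := by
    rw [hp, ← map_P, ← hP]; ring
  rw [e, coeff_add]
  refine Valuation.map_add_lt _ (sm_mul hin hd' i) (sm_mul (fun j => ?_) hd i)
  rw [coeff_map, O.valuation_le_one_iff]
  exact intCast_mem O _

end Pool.Agent.MP_c481b3_nt.H79
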