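import Pool.Agent.MP_c481b3_nt.H79.SpecG

/-! An unramified prime of degree one gives an embedding in the `p`-adic numbers. -/

set_option autoImplicit false

namespace Pool.Agent.MP_c481b3_nt.H79

open NumberField

namespace Hen1A

variable {K : Type} [Field K] [NumberField K] {p : ℕ} {P : Ideal (𝓞 K)}

theorem ex (hp : p.Prime) (h : Ideal.absNorm P = p) (h2 : (p : 𝓞 K) ∉ P ^ 2) (k : ℕ) :
    ∃ f : 𝓞 K →+* ZMod (p ^ k), (∀ x, f x = 0 ↔ x ∈ P ^ k) ∧
      ∀ x : 𝓞 K, ∃ n : ℤ, x - n ∈ P ^ k := by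
  have P0 : P ≠ ⊥ := fun e => hp.ne_zero (by rw [← h, e, Ideal.absNorm_bot])
  have pr := Ideal.prime_of_isPrime P0 (Ideal.isPrime_of_irreducible_absNorm (h ▸ hp))
  have m : (p : 𝓞 K) ∈ P := h ▸ Ideal.absNorm_mem P
  obtain ⟨I, hI⟩ := Ideal.dvd_span_singleton.2 m
  have z : ∀ n : ℕ, (n : 𝓞 K ⧸ P ^ k) = 0 ↔ (n : 𝓞 K) ∈ P ^ k := fun n => by
    rw [← map_natCast (Ideal.Quotient.mk _), Ideal.Quotient.eq_zero_iff_mem]
  obtain ⟨j, j1, j2⟩ := (Nat.dvd_prime_pow hp).1 ((ringChar.spec (𝓞 K ⧸ P ^ k) (p ^ k)).1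
    ((z _).2 (Nat.cast_pow (α := 𝓞 K) p k ▸ Ideal.pow_mem_pow m k)))
  have : j = k := j1.eq_of_not_lt fun l => by
    have a := (z _).1 (j2 ▸ ringChar.Nat.cast_ringChar)
    rw [Nat.cast_pow, ← Ideal.dvd_span_singleton, ← Ideal.span_singleton_pow, hI, mul_pow] at a
    have b := (pow_dvd_pow P l).trans a
    rw [pow_succ, mul_dvd_mul_iff_left (pow_ne_zero j pr.ne_zero)] at b
    refine h2 (Ideal.dvd_span_singleton.1 ?_)
    rw [hI, sq]
    exact mul_dvd_mul_left P (pr.dvd_of_dvd_pow b)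
  have c : CharP (𝓞 K ⧸ P ^ k) (p ^ k) := ringChar.of_eq (this ▸ j2)
  have n : Nat.card (𝓞 K ⧸ P ^ k) = p ^ k := by
    rw [← h, ← map_pow, Ideal.absNorm_apply, Submodule.cardQuot_apply]
  have : Finite (𝓞 K ⧸ P ^ k) := Nat.finite_of_card_ne_zero (n ▸ pow_ne_zero k hp.ne_zero)
  have := Fintype.ofFinite (𝓞 K ⧸ P ^ k)
  let e := ZMod.ringEquiv (𝓞 K ⧸ P ^ k) (Nat.card_eq_fintype_card.symm.trans n)
  refine ⟨e.symm.toRingHom.comp (Ideal.Quotient.mk _), fun x => by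
    simp [Ideal.Quotient.eq_zero_iff_mem], fun x => ?_⟩
  obtain ⟨n, hn⟩ := ZMod.intCast_surjective (e.symm (Ideal.Quotient.mk _ x))
  refine ⟨n, Ideal.Quotient.eq.1 (e.symm.injective ?_)⟩
  rw [← hn, map_intCast, map_intCast]

end Hen1A

theorem hen1 : HEN1 := by
  intro K _ _ p hp P h h2
  choose f f1 f2 using Hen1A.ex hp.out h h2
  have c : ∀ (k1 k2) (hk : k1 ≤ k2),
      (ZMod.castHom (pow_dvd_pow p hk) (ZMod (p ^ k1))).comp (f k2) = f k1 := fun k1 k2 hk =>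
    RingHom.ext fun x => by
      obtain ⟨n, hn⟩ := f2 k2 x
      have a := (f1 _ _).2 hn
      have b := (f1 _ _).2 (Ideal.pow_le_pow_right hk hn)
      rw [map_sub, sub_eq_zero, map_intCast] at a b
      rw [RingHom.comp_apply, a, b, map_intCast]
  have s : ∀ k x, PadicInt.lift c x ∈ Ideal.span {(p : ℤ_[p]) ^ k} ↔ x ∈ P ^ k := fun k x => by
    rw [← PadicInt.ker_toZModPow, RingHom.mem_ker, ← f1, ← PadicInt.lift_spec c k]
    rfl
  have i : Function.Injective ((algebraMap ℤ_[p] ℚ_[p]).comp (PadicInt.lift c)) :=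
    (injective_iff_map_eq_zero _).2 fun x e => by
      have e : PadicInt.lift c x = 0 := Subtype.ext e
      rw [← Ideal.mem_bot, ← Ideal.iInf_pow_eq_bot_of_isDomain P fun t =>
        hp.out.ne_one (by rw [← h, t, Ideal.absNorm_top]), Ideal.mem_iInf]
      exact fun k => (s k x).1 (e ▸ zero_mem _)
  refine ⟨IsFractionRing.lift i, fun x => ?_⟩
  rw [show IsFractionRing.lift i (x : K) = _ from IsFractionRing.lift_algebraMap i x]
  refine ⟨(PadicInt.lift c x).2, (PadicInt.norm_lt_one_iff_dvd (PadicInt.lift c x)).trans ?_⟩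
  simpa [Ideal.mem_span_singleton] using s 1 x

end Pool.Agent.MP_c481b3_nt.H79
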