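import Pool.Agent.MP_c481b3_nt.H79.SpecG

/-! One supersingular prime of degree one gives the hypothesis of the main theorem. -/

set_option autoImplicit false

namespace Pool.Agent.MP_c481b3_nt.H79

open Pool.Agent.MP_c481b3_nt.H81 Pool.Agent.MP_c481b3_nt.H28 Polynomial NumberField

namespace HenA

lemma val_eq {p : ℕ} [Fact p.Prime] {x y : ℚ_[p]} (hy : y ≠ 0) (h : ‖x‖ = ‖y‖) :
    x ≠ 0 ∧ x.valuation = y.valuation := by
  have hx : x ≠ 0 := fun e => hy (by rwa [e, norm_zero, eq_comm, norm_eq_zero] at h)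
  refine ⟨hx, ?_⟩
  have hp : p.Prime := Fact.out
  rwa [Padic.norm_eq_zpow_neg_valuation hx, Padic.norm_eq_zpow_neg_valuation hy,
    zpow_right_inj₀ (by exact_mod_cast hp.pos) (by exact_mod_cast hp.ne_one), neg_inj] at h

/-- integers at a prescribed distance of a `p`-adic integer -/
lemma exists_int {p : ℕ} [Fact p.Prime] {z : ℚ_[p]} (hz : ‖z‖ ≤ 1) (k : ℕ) :
    ∃ t : ℤ, ‖(t : ℚ_[p]) - z‖ = ‖(p : ℚ_[p]) ^ k‖ := by
  have hp : p.Prime := Fact.out
  have p0 : (p : ℚ_[p]) ^ k ≠ 0 := pow_ne_zero _ (by exact_mod_cast hp.ne_zero)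
  obtain ⟨s, hs⟩ := (PadicInt.denseRange_intCast (p := p)).exists_dist_lt ⟨z, hz⟩
    (norm_pos_iff.2 p0)
  refine ⟨s + p ^ k, Padic.norm_eq_of_norm_sub_lt_right ?_⟩
  rw [dist_comm, dist_eq_norm] at hs
  have e : ((s + p ^ k : ℤ) : ℚ_[p]) - z - (p : ℚ_[p]) ^ k =
      (((s : ℤ_[p]) - ⟨z, hz⟩ : ℤ_[p]) : ℚ_[p]) := by
    push_cast; ring
  rw [e]
  exact hs

/-- near a simple root the valuation of a polynomial takes both parities -/
lemma exists_odd {p : ℕ} [Fact p.Prime] {z : ℚ_[p]} (hz : ‖z‖ ≤ 1) {G : ℚ_[p][X]}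
    (h0 : G.eval z = 0) (h1 : G.derivative.eval z ≠ 0) (m : ℤ) :
    ∃ t : ℤ, ‖(t : ℚ_[p]) - z‖ < 1 ∧ G.eval (t : ℚ_[p]) ≠ 0 ∧
      Odd ((G.eval (t : ℚ_[p])).valuation + m) := by
  have hp : p.Prime := Fact.out
  obtain ⟨G1, rfl⟩ := dvd_iff_isRoot.2 h0
  have g1 : G1.eval z ≠ 0 := by simpa [derivative_mul] using h1
  obtain ⟨δ, d0, hδ⟩ := Metric.continuousAt_iff.1 (G1.continuous.continuousAt (x := z)) _
    (norm_pos_iff.2 g1)
  have lt : ‖(p : ℚ_[p])‖ < 1 := Padic.norm_p_lt_one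
  obtain ⟨k0, hk0⟩ := exists_pow_lt_of_lt_one (lt_min d0 one_pos) lt
  have p0 : (p : ℚ_[p]) ≠ 0 := by exact_mod_cast hp.ne_zero
  have key : ∀ k : ℕ, k0 ≤ k → ∃ t : ℤ, ‖(t : ℚ_[p]) - z‖ < 1 ∧
      ((X - C z) * G1).eval (t : ℚ_[p]) ≠ 0 ∧
      (((X - C z) * G1).eval (t : ℚ_[p])).valuation = k + (G1.eval z).valuation := by
    intro k hk
    obtain ⟨t, ht⟩ := exists_int hz k
    have sm : ‖(t : ℚ_[p]) - z‖ < min δ 1 := by
      rw [ht, norm_pow]
      exact (pow_le_pow_of_le_one (norm_nonneg _) lt.le hk).trans_lt hk0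
    obtain ⟨a1, a2⟩ := val_eq (pow_ne_zero k p0) ht
    have := hδ (x := (t : ℚ_[p])) (by rw [dist_eq_norm]; exact sm.trans_le (min_le_left _ _))
    rw [dist_eq_norm] at this
    obtain ⟨b1, b2⟩ := val_eq g1 (Padic.norm_eq_of_norm_sub_lt_right this)
    refine ⟨t, sm.trans_le (min_le_right _ _), ?_, ?_⟩
    · simpa using ⟨a1, b1⟩
    · rw [eval_mul, eval_sub, eval_X, eval_C, Padic.valuation_mul a1 b1, a2, b2,
        Padic.valuation_pow, Padic.valuation_p, mul_one]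
  rcases Int.even_or_odd (k0 + (G1.eval z).valuation + m) with h | h
  · obtain ⟨t, t1, t2, t3⟩ := key (k0 + 1) (Nat.le_succ _)
    refine ⟨t, t1, t2, ?_⟩
    rw [t3]
    obtain ⟨c, hc⟩ := h
    exact ⟨c, by push_cast; omega⟩
  · obtain ⟨t, t1, t2, t3⟩ := key k0 le_rfl
    exact ⟨t, t1, t2, t3 ▸ h⟩

/-- the number of points does not change under a ring isomorphism -/
lemma card_eq {R S : Type} [CommRing R] [CommRing S] (e : R ≃+* S) (a b : R) :
    Nat.card (Wc a b).toAffine.Point = Nat.card (Wc (e a) (e b)).toAffine.Point := by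
  have m : (Wc a b).map (e : R →+* S) = Wc (e a) (e b) := by ext <;> simp [Wc]
  refine Nat.card_congr (((Wc a b).toAffine.nonsingularPointEquiv.trans ?_).trans
    (Wc (e a) (e b)).toAffine.nonsingularPointEquiv.symm)
  refine Equiv.optionCongr (Equiv.subtypeEquiv (e.toEquiv.prodCongr e.toEquiv) fun xy => ?_)
  have := (Wc a b).toAffine.map_nonsingular (f := (e : R →+* S)) e.injective xy.1 xy.2
  rw [← this]
  change _ ↔ (Wc (e a) (e b)).toAffine.Nonsingular (e xy.1) (e xy.2)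
  rw [← m]
  rfl

end HenA

open HenA in
theorem hen_of : HEN1 → HEN := by
  intro H K _ _ A B p P hp h5 hN hP2 hnP haP
  have := Fact.mk hp
  obtain ⟨ψ, hψ⟩ := H K p P hN hP2
  have n : P ≠ ⊥ := fun e => hp.ne_zero (by rw [← hN, e, Ideal.absNorm_bot])
  have : Finite (𝓞 K ⧸ P) := P.finiteQuotientOfFreeOfNeBot n
  let := Fintype.ofFinite (𝓞 K ⧸ P)
  have := NeZero.mk hp.ne_zero
  let e : ZMod p ≃+* (𝓞 K ⧸ P) := ZMod.ringEquivOfPrime (𝓞 K ⧸ P) hp (by
    rw [← hN, Ideal.absNorm_apply, Submodule.cardQuot_apply, Nat.card_eq_fintype_card])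
  let φ : 𝓞 K →+* ZMod p := (e.symm : (𝓞 K ⧸ P) →+* ZMod p).comp (Ideal.Quotient.mk P)
  have hφ : ∀ x, φ x = 0 ↔ x ∈ P := fun x => by
    change e.symm (Ideal.Quotient.mk P x) = 0 ↔ _
    rw [map_eq_zero_iff _ e.symm.injective, Ideal.Quotient.eq_zero_iff_mem]
  obtain ⟨a, ha⟩ := ZMod.intCast_surjective (φ A)
  obtain ⟨b, hb⟩ := ZMod.intCast_surjective (φ B)
  set D : 𝓞 K := 4 * A ^ 3 + 27 * B ^ 2 with hD
  have h3 : A * B * D ∉ P := fun h => hnP (by
    rw [Wc_disc, ← hD, show A * B * (-16 * D) = -16 * (A * B * D) by ring]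
    exact P.mul_mem_left _ h)
  have hDP : D ∉ P := fun h => h3 (P.mul_mem_left _ h)
  have hB : (B : K) ≠ 0 := fun h => h3 (by
    rw [show B = 0 from RingOfIntegers.coe_eq_zero_iff.1 h, mul_zero, zero_mul]
    exact P.zero_mem)
  have nD : ‖ψ D‖ = 1 := le_antisymm (hψ D).1 (not_lt.1 fun h => hDP ((hψ D).2.1 h))
  have D0 : (D : K) ≠ 0 := fun h => by
    rw [h, map_zero, norm_zero] at nD
    exact zero_ne_one nD
  have cD : (D : K) = 4 * (A : K) ^ 3 + 27 * (B : K) ^ 2 := by rw [hD]; push_cast; rfl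
  set j : K := jj (A : K) B with hj
  have jD : j * D = 6912 * (A : K) ^ 3 := by
    rw [hj, jj, ← cD, div_mul_cancel₀ _ D0]
  have cA : ((6912 * A ^ 3 : 𝓞 K) : K) = 6912 * (A : K) ^ 3 := by push_cast; rfl
  have hz : ‖ψ j‖ ≤ 1 := by
    have := (hψ (6912 * A ^ 3)).1
    rwa [cA, ← jD, map_mul, norm_mul, nD, mul_one] at this
  have hi : IsIntegral ℚ j := Algebra.IsIntegral.isIntegral j
  set g := minpoly ℚ j with hg
  have ev : ∀ (f : ℚ[X]) (x : K),
      (f.map (algebraMap ℚ ℚ_[p])).eval (ψ x) = ψ (aeval x f) := fun f x => by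
    rw [eval_map_algebraMap]
    exact aeval_algHom_apply ψ.toRatAlgHom x f
  have evq : ∀ (x : ℚ), (g.map (algebraMap ℚ ℚ_[p])).eval (x : ℚ_[p]) =
      ((aeval x g : ℚ) : ℚ_[p]) := fun x => by
    rw [eval_map_algebraMap]
    exact aeval_algebraMap_apply ℚ_[p] x g
  have g0 : aeval (1728 : ℚ) g ≠ 0 := fun h => by
    have h1 : (algebraMap ℚ K) 1728 = j :=
      minpoly.root hi (by rwa [coe_aeval_eq_eval] at h)
    have h2 : (1728 : K) * D = 6912 * (A : K) ^ 3 := by rw [← jD, ← h1]; simp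
    rw [cD] at h2
    exact hB (pow_eq_zero_iff two_ne_zero |>.1 (mul_left_cancel₀
      (show (46656 : K) ≠ 0 by norm_num) (by linear_combination h2)))
  obtain ⟨t, t1, t2, t3⟩ := exists_odd hz (G := g.map (algebraMap ℚ ℚ_[p]))
    (by rw [ev, hg, minpoly.aeval, map_zero])
    (by
      rw [derivative_map, ev, _root_.map_ne_zero]
      exact (minpoly.irreducible hi).separable.aeval_derivative_ne_zero (minpoly.aeval ℚ j))
    (padicValRat p (aeval (1728 : ℚ) g))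
  refine ⟨a, b, t, ?_, ?_, ?_, ?_⟩
  · rw [← ZMod.intCast_zmod_eq_zero_iff_dvd]
    intro h
    refine h3 ((hφ _).1 ?_)
    push_cast at h
    rw [ha, hb] at h
    simpa [hD, map_ofNat] using h
  · rw [card_eq e, ha, hb]
    have m : (Wc A B).map (Ideal.Quotient.mk P) = Wc (e (φ A)) (e (φ B)) := by
      ext <;> simp [Wc, φ]
    rw [aP, m, hN] at haP
    omega
  · rw [← ZMod.intCast_zmod_eq_zero_iff_dvd]
    have h : (t : 𝓞 K) * D - 6912 * A ^ 3 ∈ P := by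
      refine (hψ _).2.1 ?_
      have c : (((t : 𝓞 K) * D - 6912 * A ^ 3 : 𝓞 K) : K) = ((t : K) - j) * D := by
        rw [sub_mul, jD, ← cA]; push_cast; rfl
      rw [c, map_mul, norm_mul, nD, mul_one, map_sub, map_intCast]
      exact t1
    have h' := (hφ _).2 h
    push_cast
    rw [ha, hb]
    simpa [hD, map_ofNat] using h'
  · have c : ((t : ℤ) : ℚ_[p]) = ((t : ℚ) : ℚ_[p]) := by simp
    rw [c, evq] at t2 t3
    rw [Padic.valuation_ratCast] at t3
    rwa [padicValRat.mul (by exact_mod_cast t2) g0]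

end Pool.Agent.MP_c481b3_nt.H79
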