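import Pool.Agent.MP_c481b3_nt.H79.SpecN
import Pool.Agent.MP_c481b3_nt.H79.Hen

/-! One supersingular prime of degree one gives the hypothesis, for every invariant. -/

set_option autoImplicit false

namespace Pool.Agent.MP_c481b3_nt.H79

open Pool.Agent.MP_c481b3_nt.H81 Pool.Agent.MP_c481b3_nt.H28 Polynomial NumberField HenA

namespace HenNA

variable {p : ℕ} [Fact p.Prime]

lemma near {z : ℚ_[p]} (hz : ‖z‖ ≤ 1) {u : ℚ_[p] → ℚ_[p]} (hu : ContinuousAt u z) (u0 : u z ≠ 0) :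
    ∃ k0 : ℕ, ∀ k : ℕ, k0 ≤ k → ∃ t : ℤ, ‖(t : ℚ_[p]) - z‖ < 1 ∧ (t : ℚ_[p]) - z ≠ 0 ∧
      ((t : ℚ_[p]) - z).valuation = k ∧ u t ≠ 0 ∧ (u t).valuation = (u z).valuation := by
  have hp : p.Prime := Fact.out
  obtain ⟨δ, d0, hδ⟩ := Metric.continuousAt_iff.1 hu _ (norm_pos_iff.2 u0)
  have lt : ‖(p : ℚ_[p])‖ < 1 := Padic.norm_p_lt_one
  obtain ⟨k0, hk0⟩ := exists_pow_lt_of_lt_one (lt_min d0 one_pos) lt
  have p0 : (p : ℚ_[p]) ≠ 0 := by exact_mod_cast hp.ne_zero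
  refine ⟨k0, fun k hk => ?_⟩
  obtain ⟨t, ht⟩ := exists_int hz k
  have sm : ‖(t : ℚ_[p]) - z‖ < min δ 1 := by
    rw [ht, norm_pow]
    exact (pow_le_pow_of_le_one (norm_nonneg _) lt.le hk).trans_lt hk0
  obtain ⟨a1, a2⟩ := val_eq (pow_ne_zero k p0) ht
  have := hδ (x := (t : ℚ_[p])) (by rw [dist_eq_norm]; exact sm.trans_le (min_le_left _ _))
  rw [dist_eq_norm] at this
  obtain ⟨b1, b2⟩ := val_eq u0 (Padic.norm_eq_of_norm_sub_lt_right this)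
  exact ⟨t, sm.trans_le (min_le_right _ _), a1,
    by rw [a2, Padic.valuation_pow, Padic.valuation_p, mul_one], b1, b2⟩

lemma two {α β : ℚ_[p]} (ha : ‖α‖ ≤ 1) (hb : ‖β‖ ≤ 1) (a0 : α ≠ 0) (b0 : β ≠ 0)
    (D0 : 4 * α ^ 3 + 27 * β ^ 2 ≠ 0) {G : ℚ_[p][X]} (h0 : G.eval (jj α β) = 0)
    (h1 : G.derivative.eval (jj α β) ≠ 0) (m : ℤ) :
    ∃ a b : ℤ, ‖(a : ℚ_[p]) - α‖ < 1 ∧ ‖(b : ℚ_[p]) - β‖ < 1 ∧ G.eval (jj (a : ℚ_[p]) b) ≠ 0 ∧
      Odd ((G.eval (jj (a : ℚ_[p]) b)).valuation + m) := by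
  obtain ⟨G1, hG⟩ := dvd_iff_isRoot.2 h0
  have g1 : G1.eval (jj α β) ≠ 0 := by simpa [hG, derivative_mul] using h1
  obtain ⟨u, hu⟩ : ∃ u : ℚ_[p] → ℚ_[p], u = fun t => -(6912 * 27) * α ^ 3 * (β + t) /
    ((4 * α ^ 3 + 27 * t ^ 2) * (4 * α ^ 3 + 27 * β ^ 2)) * G1.eval (jj α t) := ⟨_, rfl⟩
  have c1 : ContinuousAt (fun t => jj α t) β := by
    unfold jj
    exact ContinuousAt.div (by fun_prop) (by fun_prop) D0
  have c2 : ContinuousAt u β := by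
    rw [hu]
    refine ContinuousAt.mul ?_ (G1.continuous.continuousAt.comp (f := fun t => jj α t) c1)
    exact ContinuousAt.div (by fun_prop) (by fun_prop) (mul_ne_zero D0 D0)
  have u0 : u β ≠ 0 := by
    rw [hu]
    exact mul_ne_zero (div_ne_zero (mul_ne_zero (mul_ne_zero (by norm_num) (pow_ne_zero _ a0))
      (by rw [← two_mul]; exact mul_ne_zero two_ne_zero b0)) (mul_ne_zero D0 D0)) g1
  obtain ⟨k0, hk⟩ := near hb c2 u0
  obtain ⟨k, k1, k2⟩ : ∃ k : ℕ, k0 ≤ k ∧ Odd (k + (u β).valuation + m) := by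
    rcases Int.even_or_odd (k0 + (u β).valuation + m) with ⟨c, hc⟩ | h
    · exact ⟨k0 + 1, Nat.le_succ _, c, by push_cast; omega⟩
    · exact ⟨k0, le_rfl, h⟩
  obtain ⟨b, b1, b2, b3, b4, b5⟩ := hk k k1
  have D1 : 4 * α ^ 3 + 27 * (b : ℚ_[p]) ^ 2 ≠ 0 := fun e => b4 (by simp [hu, e])
  have e : G.eval (jj α b) = ((b : ℚ_[p]) - β) * u b := by
    rw [hG, hu, eval_mul, eval_sub, eval_X, eval_C, ← mul_assoc]
    congr 1
    unfold jj
    rw [div_sub_div _ _ D1 D0, ← mul_div_assoc]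
    congr 1
    ring
  have c3 : ContinuousAt (fun s => G.eval (jj s (b : ℚ_[p]))) α := by
    refine G.continuous.continuousAt.comp (f := fun s => jj s (b : ℚ_[p])) ?_
    unfold jj
    exact ContinuousAt.div (by fun_prop) (by fun_prop) D1
  obtain ⟨k', hk'⟩ := near ha c3 (by rw [e]; exact mul_ne_zero b2 b4)
  obtain ⟨a, a1, -, -, a4, a5⟩ := hk' k' le_rfl
  refine ⟨a, b, a1, b1, a4, ?_⟩
  rwa [a5, e, Padic.valuation_mul b2 b4, b3, b5]

end HenNA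

open HenNA in
theorem hen2_of : HEN1 → HEN2 := by
  intro H K _ _ A B p P him hp h5 hN hP2 hnP haP
  have := Fact.mk hp
  obtain ⟨ψ, hψ⟩ := H K p P hN hP2
  have n : P ≠ ⊥ := fun e => hp.ne_zero (by rw [← hN, e, Ideal.absNorm_bot])
  have : Finite (𝓞 K ⧸ P) := P.finiteQuotientOfFreeOfNeBot n
  let := Fintype.ofFinite (𝓞 K ⧸ P)
  have := NeZero.mk hp.ne_zero
  let e : ZMod p ≃+* (𝓞 K ⧸ P) := ZMod.ringEquivOfPrime (𝓞 K ⧸ P) hp (by
    rw [← hN, Ideal.absNorm_apply, Submodule.cardQuot_apply, Nat.card_eq_fintype_card])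
  let φ : 𝓞 K →+* ZMod p := (e.symm : (𝓞 K ⧸ P) →+* ZMod p).comp (Ideal.Quotient.mk P)
  have hφ : ∀ x, φ x = 0 ↔ x ∈ P := fun x => by
    change e.symm (Ideal.Quotient.mk P x) = 0 ↔ _
    rw [map_eq_zero_iff _ e.symm.injective, Ideal.Quotient.eq_zero_iff_mem]
  have hφ' : ∀ (a : ℤ) (x : 𝓞 K), ‖(a : ℚ_[p]) - ψ x‖ < 1 → (a : ZMod p) = φ x := fun a x h => by
    have h1 : (a : 𝓞 K) - x ∈ P := (hψ _).2.1 (by
      have c : (((a : 𝓞 K) - x : 𝓞 K) : K) = (a : K) - x := by push_cast; rfl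
      rwa [c, map_sub, map_intCast])
    have h2 := (hφ _).2 h1
    rwa [map_sub, map_intCast, sub_eq_zero] at h2
  set D : 𝓞 K := 4 * A ^ 3 + 27 * B ^ 2 with hD
  have hDP : D ∉ P := fun h => hnP (by
    rw [Wc_disc, ← hD]
    exact P.mul_mem_left _ h)
  have D0 : (D : K) ≠ 0 := fun h => hDP (by
    rw [RingOfIntegers.coe_eq_zero_iff.1 h]
    exact P.zero_mem)
  have cD : (D : K) = 4 * (A : K) ^ 3 + 27 * (B : K) ^ 2 := by rw [hD]; push_cast; rfl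
  obtain ⟨τ⟩ : Nonempty (K →+* ℂ) := inferInstance
  have j1 : jj (A : K) B ≠ 1728 := fun h => him τ (by rw [h, map_ofNat]; simp)
  have hA : (A : K) ≠ 0 := fun h => him τ (by simp [jj, h])
  have hB : (B : K) ≠ 0 := fun h => j1 (by
    rw [jj, h, div_eq_iff (by simpa using hA)]
    ring)
  set j : K := jj (A : K) B with hj
  have hi : IsIntegral ℚ j := Algebra.IsIntegral.isIntegral j
  set g := minpoly ℚ j with hg
  have ev : ∀ (f : ℚ[X]) (x : K),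
      (f.map (algebraMap ℚ ℚ_[p])).eval (ψ x) = ψ (aeval x f) := fun f x => by
    rw [eval_map_algebraMap]
    exact aeval_algHom_apply ψ.toRatAlgHom x f
  have evq : ∀ (x : ℚ), (g.map (algebraMap ℚ ℚ_[p])).eval (x : ℚ_[p]) =
      ((aeval x g : ℚ) : ℚ_[p]) := fun x => by
    rw [eval_map_algebraMap]
    exact aeval_algebraMap_apply ℚ_[p] x g
  have g0 : aeval (1728 : ℚ) g ≠ 0 := fun h => by
    have h1 : (algebraMap ℚ K) 1728 = j :=
      minpoly.root hi (by rwa [coe_aeval_eq_eval] at h)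
    exact j1 (by rw [← h1]; simp)
  obtain ⟨a, b, ha, hb, t2, t3⟩ := two (hψ A).1 (hψ B).1 ((_root_.map_ne_zero ψ).2 hA)
    ((_root_.map_ne_zero ψ).2 hB)
    (by simpa [cD, map_ofNat] using (_root_.map_ne_zero ψ).2 D0)
    (G := g.map (algebraMap ℚ ℚ_[p]))
    (by rw [← jj_map, ev, hg, minpoly.aeval, map_zero])
    (by
      rw [← jj_map, derivative_map, ev, _root_.map_ne_zero]
      exact (minpoly.irreducible hi).separable.aeval_derivative_ne_zero (minpoly.aeval ℚ j))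
    (padicValRat p (aeval (1728 : ℚ) g))
  have ha := hφ' a A ha
  have hb := hφ' b B hb
  refine ⟨a, b, ?_, ?_, ?_⟩
  · rw [← ZMod.intCast_zmod_eq_zero_iff_dvd]
    intro h
    refine hDP ((hφ _).1 ?_)
    push_cast at h
    rw [ha, hb] at h
    simpa [hD, map_ofNat] using h
  · rw [card_eq e, ha, hb]
    have m : (Wc A B).map (Ideal.Quotient.mk P) = Wc (e (φ A)) (e (φ B)) := by
      ext <;> simp [Wc, φ]
    rw [aP, m, hN] at haP
    omega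
  · have c : jj (a : ℚ_[p]) b = ((jj (a : ℚ) b : ℚ) : ℚ_[p]) := by simp [jj]
    rw [c, evq] at t2 t3
    rw [Padic.valuation_ratCast] at t3
    rwa [padicValRat.mul (by exact_mod_cast t2) g0]

end Pool.Agent.MP_c481b3_nt.H79
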