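import Pool.Agent.MP_c481b3_nt.H79.SpecA
import Pool.Agent.MP_c481b3_nt.H31F.Mat

/-! The triangular matrices of determinant `l m`. -/

set_option autoImplicit false

namespace Pool.Agent.MP_c481b3_nt.H79

open UpperHalfPlane hiding I
open Finset Pool.Agent.MP_c481b3_nt.H31F

namespace HkmA

lemma prod (m : ℕ) (f : M2 → ℂ) : ∏ H ∈ Hk 2 m, f H
    = ∏ d ∈ m.divisors, ∏ b ∈ range d, f !![((m / d : ℕ) : ℤ), ((2 * b : ℕ) : ℤ); 0, (d : ℤ)] :=
  mat.sum 2 m two_pos (Additive ℂ) f

lemma mul {a b d a' b' d' : ℤ} (h : 0 < a * d) (h' : 0 < a' * d') (τ : ℍ) :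
    act !![a, b; 0, d] (act !![a', b'; 0, d'] τ) = act !![a * a', a * b' + b * d'; 0, d * d'] τ := by
  rw [← act_mul (by simpa [Matrix.det_fin_two] using h) (by simpa [Matrix.det_fin_two] using h')]
  simp

lemma mod (g : ℕ → ℂ) {l d : ℕ} (h : l.Coprime d) :
    ∏ b ∈ range d, g (l * b % d) = ∏ b ∈ range d, g b := by
  have i : Set.InjOn (fun b => l * b % d) (range d) := fun x hx y hy e =>
    Nat.ModEq.eq_of_lt_of_lt (Nat.ModEq.cancel_left_of_coprime h.symm e) (by simpa using hx)
      (by simpa using hy)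
  have m : ∀ b ∈ range d, l * b % d ∈ range d := fun b hb =>
    mem_range.2 (Nat.mod_lt _ (by have := mem_range.1 hb; omega))
  rw [← prod_image i, eq_of_subset_of_card_le (image_subset_iff.2 m) (card_image_of_injOn i).ge]

lemma blk (g : ℕ → ℂ) (l d : ℕ) :
    ∏ b ∈ range (d * l), g b = ∏ b ∈ range d, ∏ c ∈ range l, g (b + c * d) := by
  rw [prod_comm]
  induction l with
  | zero => simp
  | succ l ih =>
    rw [mul_add_one, prod_range_add, ih, prod_range_succ]
    simp only [add_comm, mul_comm]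

end HkmA

open HkmA in
theorem hkm : HKM := by
  intro l m f hl _ _ lm hf τ
  have m0 : m ≠ 0 := by rintro rfl; simp at lm
  have l0 : (0 : ℤ) < l := by exact_mod_cast hl.pos
  have e : (l * m).divisors = m.divisors ∪ m.divisors.image (· * l) := by
    ext d
    simp only [mem_union, mem_image, Nat.mem_divisors]
    constructor
    · rintro ⟨h, -⟩
      by_cases c : l ∣ d
      · obtain ⟨d, rfl⟩ := c
        exact Or.inr ⟨d, ⟨Nat.dvd_of_mul_dvd_mul_left hl.pos h, m0⟩, mul_comm _ _⟩
      · exact Or.inl ⟨((Nat.Prime.coprime_iff_not_dvd hl).2 c).symm.dvd_of_dvd_mul_left h, m0⟩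
    · rintro (⟨h, -⟩ | ⟨d, ⟨h, -⟩, rfl⟩)
      · exact ⟨h.mul_left _, mul_ne_zero hl.ne_zero m0⟩
      · exact ⟨mul_comm l d ▸ mul_dvd_mul_left l h, mul_ne_zero hl.ne_zero m0⟩
  rw [prod, prod m, e, prod_union, prod_image fun x _ y _ h => Nat.eq_of_mul_eq_mul_right hl.pos h,
    ← prod_mul_distrib]
  · refine prod_congr rfl fun d hd => ?_
    obtain ⟨a, rfl⟩ := Nat.dvd_of_mem_divisors hd
    have d0 : 0 < d := Nat.pos_of_ne_zero (left_ne_zero_of_mul m0)
    have a0 : (0 : ℤ) < a * d := by rw [mul_comm]; exact_mod_cast Nat.pos_of_ne_zero m0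
    have c : l.Coprime d := (Nat.Prime.coprime_iff_not_dvd hl).2 fun h => lm (h.mul_right _)
    rw [blk, ← mod _ c, ← prod_mul_distrib, mul_left_comm, Nat.mul_div_cancel_left _ d0,
      Nat.mul_div_cancel_left _ d0, mul_left_comm, ← mul_assoc, mul_comm l d,
      Nat.mul_div_cancel_left _ (mul_pos d0 hl.pos)]
    refine prod_congr rfl fun b _ => ?_
    rw [prod, hl.prod_divisors, prod_range_one, Nat.div_one, Nat.div_self hl.pos, mul_comm,
      mul (by simpa using l0) a0]
    congr 1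
    · refine prod_congr rfl fun c _ => ?_
      rw [mul (by simpa using l0) a0]
      push_cast
      ring_nf
    · rw [← hf (l * b / d : ℕ), mul one_pos (by push_cast; nlinarith)]
      have : ((2 * (l * b % d) : ℕ) : ℤ) + 2 * (l * b / d : ℕ) * d = l * (2 * b : ℕ) := by
        exact_mod_cast (by rw [mul_assoc, ← mul_add, Nat.mod_add_div', mul_left_comm] :
          2 * (l * b % d) + 2 * (l * b / d) * d = l * (2 * b))
      rw [one_mul, one_mul, one_mul, this]
      simp
  · rw [disjoint_left]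
    intro d h h'
    obtain ⟨d, -, rfl⟩ := mem_image.1 h'
    exact lm ((dvd_mul_left l d).trans (Nat.dvd_of_mem_divisors h))

end Pool.Agent.MP_c481b3_nt.H79
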