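import Pool.Agent.MP_c481b3_nt.H79.SpecP

/-! Closure properties of the expansions of order two. -/

set_option autoImplicit false

namespace Pool.Agent.MP_c481b3_nt.H79

open IsLocalRing Polynomial

namespace ImpA

variable {L : Type} [Field L] {O : ValuationSubring L} {S : Set L}

/-- expansions given by a polynomial -/
def Tp (O : ValuationSubring L) (S : Set L) (f : L → L) : Prop :=
  ∀ x ∈ S, ∃ Z : O[X], f x = (Z.eval 0 : O) ∧ ∀ y ∈ S, ∀ h : O, (h : L) = y - x →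
    ∃ e : O, f y = (Z.eval h + e * h ^ 3 : O)

theorem tp_of {f : L → L} (H : Ty O S f) : Tp O S f := fun x hx => by
  obtain ⟨h0, a, ha, b, hb, H⟩ := H x hx
  refine ⟨C ⟨f x, h0⟩ + C ⟨a, ha⟩ * X + C ⟨b, hb⟩ * X ^ 2, by simp, fun y hy h e => ?_⟩
  have h1 := H y hy
  rw [← map_pow, O.valuation_le_iff] at h1
  obtain ⟨c, hc⟩ := h1
  refine ⟨c, ?_⟩
  simp only [eval_add, eval_mul, eval_C, eval_X, eval_pow]
  push_cast
  rw [e]
  linear_combination -hc

theorem ty_of (hS : ∀ x ∈ S, x ∈ O) {f : L → L} (H : Tp O S f) : Ty O S f := fun x hx => by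
  obtain ⟨Z, h0, H⟩ := H x hx
  refine ⟨h0 ▸ (Z.eval 0).2, _, (Z.divX.coeff 0).2, _, (Z.divX.divX.coeff 0).2, fun y hy => ?_⟩
  obtain ⟨e, he⟩ := H y hy ⟨y - x, sub_mem (hS y hy) (hS x hx)⟩ rfl
  rw [← map_pow, O.valuation_le_iff]
  generalize hh : (⟨y - x, sub_mem (hS y hy) (hS x hx)⟩ : O) = h at he
  have e0 : y - x = h := by rw [← hh]
  have k : ∀ P : O[X], P.eval h = h * P.divX.eval h + P.coeff 0 := fun P => by
    conv_lhs => rw [← X_mul_divX_add P]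
    rw [eval_add, eval_mul, eval_X, eval_C]
  refine ⟨Z.divX.divX.divX.eval h + e, ?_⟩
  rw [he, h0, e0, k Z, k Z.divX, k Z.divX.divX, ← coeff_zero_eq_eval_zero]
  push_cast
  ring

theorem step {R : Type} [CommRing R] (G : R[X][X]) (z0 : R) (u : Rˣ)
    (hu : ∀ Z : R[X], Z.eval 0 = z0 → (G.derivative.eval Z).eval 0 = u) (j : ℕ) (Z : R[X])
    (h0 : Z.eval 0 = z0) (h : X ^ (j + 1) ∣ G.eval Z) :
    ∃ Z' : R[X], Z'.eval 0 = z0 ∧ X ^ (j + 2) ∣ G.eval Z' := by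
  obtain ⟨q, hq⟩ := h
  obtain ⟨κ, hκ⟩ := G.binomExpansion Z (-(C (↑u⁻¹ : R) * q * X ^ (j + 1)))
  have h1 := X_mul_divX_add (G.derivative.eval Z)
  rw [coeff_zero_eq_eval_zero, hu Z h0] at h1
  have h2 : (C (u : R) : R[X]) * C (↑u⁻¹ : R) = 1 := by rw [← C_mul, Units.mul_inv, C_1]
  refine ⟨Z + -(C (↑u⁻¹ : R) * q * X ^ (j + 1)), by simp [h0],
    -((G.derivative.eval Z).divX * C (↑u⁻¹ : R) * q) + κ * (C (↑u⁻¹ : R) * q) ^ 2 * X ^ j, ?_⟩
  rw [hκ, hq]
  generalize (G.derivative.eval Z).divX = r at h1 ⊢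
  rw [← h1]
  linear_combination (-(q * X ^ (j + 1))) * h2

theorem ev2_dvd {R : Type} [CommRing R] (F : ℤ[X][X]) (x : R) {y y' d : R} (h : d ∣ y - y') :
    d ∣ ev2 F x y - ev2 F x y' := by
  rw [← Ideal.mem_span_singleton, ← Ideal.Quotient.eq] at h ⊢
  rw [map_ev2, map_ev2, h]

theorem coe_ev2 (F : ℤ[X][X]) (a b : O) : ((ev2 F a b : O) : L) = ev2 F (a : L) b :=
  map_ev2 O.subtype F a b

theorem imp (hS : ∀ x ∈ S, ∀ y ∈ S, O.valuation (y - x) < 1) (F : ℤ[X][X]) {z w : L → L}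
    (hw : Tp O S w) (hz : ∀ x ∈ S, z x ∈ O) (h1 : ∀ x ∈ S, ∀ y ∈ S, O.valuation (z y - z x) < 1)
    (h2 : ∀ x ∈ S, ev2 F (z x) (w x) = 0)
    (h3 : ∀ x ∈ S, O.valuation (ev2 F.derivative (z x) (w x)) = 1) : Tp O S z := fun x hx => by
  obtain ⟨W, w0, hW⟩ := hw x hx
  obtain ⟨z0, e0⟩ : ∃ z0 : O, z x = z0 := ⟨⟨_, hz x hx⟩, rfl⟩
  have ev : ∀ (P : ℤ[X][X]) (Z : O[X]) (h : O),
      (ev2 P Z W).eval h = ev2 P (Z.eval h) (W.eval h) := fun P Z h => map_ev2 (evalRingHom h) P Z W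
  obtain ⟨u, hu⟩ : IsUnit (ev2 F.derivative z0 (W.eval 0)) := by
    rw [O.valuation_eq_one_iff, coe_ev2, ← e0, ← w0]; exact h3 x hx
  have st := step (F.map (eval₂RingHom (Int.castRingHom O[X]) W)) z0 u fun Z hZ => by
    rw [derivative_map, hu, ← hZ]; exact ev _ Z 0
  obtain ⟨Z1, a1, b1⟩ := st 0 (C z0) eval_C (by
    rw [zero_add, pow_one, X_dvd_iff, coeff_zero_eq_eval_zero]
    refine (ev F _ 0).trans (Subtype.ext ?_)
    rw [coe_ev2, eval_C, ← e0, ← w0]; exact h2 x hx)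
  obtain ⟨Z, a2, q, b2⟩ := st 1 Z1 a1 b1
  refine ⟨Z, by rw [a2, e0], fun y hy h eh => ?_⟩
  obtain ⟨e, he⟩ := hW y hy h eh
  obtain ⟨zy, ey⟩ : ∃ zy : O, z y = zy := ⟨⟨_, hz y hy⟩, rfl⟩
  generalize hv : W.eval h + e * h ^ 3 = wy at he
  have d1 : h ^ 3 ∣ ev2 F (Z.eval h) wy := by
    have c1 : h ^ 3 ∣ ev2 F (Z.eval h) (W.eval h) := by
      rw [← ev]
      exact ⟨q.eval h, by rw [show ev2 F Z W = _ from b2]; simp⟩
    have c2 := ev2_dvd F (Z.eval h) (y := wy) (y' := W.eval h) (d := h ^ 3) ⟨e, by rw [← hv]; ring⟩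
    simpa using c2.add c1
  obtain ⟨κ, hκ⟩ := (F.map (eval₂RingHom (Int.castRingHom O) wy)).binomExpansion zy (Z.eval h - zy)
  rw [add_sub_cancel, derivative_map] at hκ
  have c3 : ev2 F zy wy = 0 := Subtype.ext (by rw [coe_ev2, ← ey, ← he]; exact h2 y hy)
  have c4 : IsUnit (ev2 F.derivative zy wy) := by
    rw [O.valuation_eq_one_iff, coe_ev2, ← ey, ← he]; exact h3 y hy
  have m1 : h ∈ maximalIdeal O := by rw [O.valuation_lt_one_iff, eh]; exact hS x hx y hy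
  have m2 : zy - z0 ∈ maximalIdeal O := by
    rw [O.valuation_lt_one_iff]; push_cast; rw [← ey, ← e0]; exact h1 x hx y hy
  have m3 : Z.eval h - zy ∈ maximalIdeal O := by
    obtain ⟨c, hc⟩ := sub_dvd_eval_sub h 0 Z
    rw [show Z.eval h - zy = h * c - (zy - z0) by rw [← a2]; linear_combination hc]
    exact sub_mem (Ideal.mul_mem_right _ _ m1) m2
  have c5 : IsUnit (ev2 F.derivative zy wy + κ * (Z.eval h - zy)) := by
    by_contra g
    have g1 : ev2 F.derivative zy wy + κ * (Z.eval h - zy) ∈ maximalIdeal O := g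
    exact (Ideal.add_mem_iff_left _ (Ideal.mul_mem_left _ κ m3)).1 g1 c4
  have c6 : ev2 F (Z.eval h) wy =
      (Z.eval h - zy) * (ev2 F.derivative zy wy + κ * (Z.eval h - zy)) := by
    have : ev2 F (Z.eval h) wy = ev2 F zy wy + ev2 F.derivative zy wy * (Z.eval h - zy) +
      κ * (Z.eval h - zy) ^ 2 := hκ
    rw [this, c3]; ring
  rw [c6, c5.dvd_mul_right] at d1
  obtain ⟨c, hc⟩ := d1
  exact ⟨-c, by rw [ey]; congr 1; linear_combination -hc⟩

theorem const {c : L} (hc : c ∈ O) : Tp O S fun _ => c := fun _ _ =>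
  ⟨C ⟨c, hc⟩, by simp, fun _ _ _ _ => ⟨0, by simp⟩⟩

theorem add {f g : L → L} (hf : Tp O S f) (hg : Tp O S g) : Tp O S fun x => f x + g x :=
  fun x hx => by
  obtain ⟨Z, a, H⟩ := hf x hx
  obtain ⟨Z', a', H'⟩ := hg x hx
  refine ⟨Z + Z', by simp [a, a'], fun y hy h eh => ?_⟩
  obtain ⟨e, he⟩ := H y hy h eh
  obtain ⟨e', he'⟩ := H' y hy h eh
  exact ⟨e + e', by simp only [he, he', eval_add]; push_cast; ring⟩

theorem mul {f g : L → L} (hf : Tp O S f) (hg : Tp O S g) : Tp O S fun x => f x * g x :=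
  fun x hx => by
  obtain ⟨Z, a, H⟩ := hf x hx
  obtain ⟨Z', a', H'⟩ := hg x hx
  refine ⟨Z * Z', by simp [a, a'], fun y hy h eh => ?_⟩
  obtain ⟨e, he⟩ := H y hy h eh
  obtain ⟨e', he'⟩ := H' y hy h eh
  exact ⟨e * Z'.eval h + e' * Z.eval h + e * e' * h ^ 3, by
    simp only [he, he', eval_mul]; push_cast; ring⟩

theorem near (hS : ∀ x ∈ S, ∀ y ∈ S, O.valuation (y - x) < 1) (hO : ∀ x ∈ S, x ∈ O) {f : L → L}
    (hf : Tp O S f) {x y : L} (hx : x ∈ S) (hy : y ∈ S) : O.valuation (f y - f x) < 1 := by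
  obtain ⟨Z, a, H⟩ := hf x hx
  obtain ⟨h, eh⟩ : ∃ h : O, (h : L) = y - x := ⟨⟨_, sub_mem (hO y hy) (hO x hx)⟩, rfl⟩
  obtain ⟨e, he⟩ := H y hy h eh
  obtain ⟨c, hc⟩ := sub_dvd_eval_sub h 0 Z
  have m1 : h ∈ maximalIdeal O := by rw [O.valuation_lt_one_iff, eh]; exact hS x hx y hy
  have m2 := (O.valuation_lt_one_iff _).1 (Ideal.mul_mem_right (c + e * h ^ 2) _ m1)
  rw [show h * (c + e * h ^ 2) = Z.eval h + e * h ^ 3 - Z.eval 0 by linear_combination -hc] at m2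
  rw [he, a]
  exact m2

end ImpA

open ImpA in
theorem imp : IMP := fun L _ O S hO hS =>
  { const := fun _ hc => ty_of hO (const hc)
    id := fun x hx => ⟨hO x hx, 1, one_mem _, 0, zero_mem _, fun y _ => by simp⟩
    add := fun _ _ hf hg => ty_of hO (add (tp_of hf) (tp_of hg))
    mul := fun _ _ hf hg => ty_of hO (mul (tp_of hf) (tp_of hg))
    inv := fun f hf h1 => by
      have h0 : ∀ x ∈ S, f x ≠ 0 := fun x hx e => by simpa [e] using h1 x hx
      refine ty_of hO (ImpA.imp hS (X * C X - 1) (tp_of hf) (fun x hx => ?_) (fun x hx y hy => ?_)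
        (fun x hx => ?_) fun x hx => ?_)
      · rw [← O.valuation_le_one_iff, map_inv₀, h1 x hx, inv_one]
      · rw [inv_sub_inv (h0 y hy) (h0 x hx), map_div₀, map_mul, h1 x hx, h1 y hy, one_mul, div_one]
        exact near hS hO (tp_of hf) hy hx
      · simp [ev2, h0 x hx]
      · simpa [ev2] using h1 x hx
    sum := fun ι s f hf => ty_of hO (by
      classical
      induction s using Finset.induction_on with
      | empty => simpa using const (zero_mem O)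
      | insert i s hi ih =>
        simp only [Finset.sum_insert hi]
        exact add (tp_of (hf i (Finset.mem_insert_self _ _)))
          (ih fun j hj => hf j (Finset.mem_insert_of_mem hj)))
    congr := fun f g hf e x hx => by
      obtain ⟨h0, a, ha, b, hb, H⟩ := hf x hx
      exact ⟨e x hx ▸ h0, a, ha, b, hb, fun y hy => by rw [e x hx, e y hy]; exact H y hy⟩
    imp := fun F _ _ hw hz h1 h2 h3 => ty_of hO (ImpA.imp hS F (tp_of hw) hz h1 h2 h3) }

end Pool.Agent.MP_c481b3_nt.H79
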