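import Pool.Agent.MP_c481b3_nt.H79.SpecN
import Pool.Agent.MP_c481b3_nt.H79.Imp

/-! Implicit functions with coefficients that have expansions. -/

set_option autoImplicit false

namespace Pool.Agent.MP_c481b3_nt.H79

open IsLocalRing Polynomial Finset

namespace Imp2A

variable {R R' : Type} [CommRing R] [CommRing R'] (n : ℕ)

/-- the polynomial with given coefficients -/
noncomputable def pl (W : ℕ → R) : R[X] := ∑ i ∈ range n, C (W i) * X ^ i

theorem e0 (φ : R →+* R') (W : ℕ → R) (z : R) :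
    φ ((pl n W).eval z) = ∑ i ∈ range n, φ (W i) * φ z ^ i := by
  simp [pl, eval_finsetSum]

theorem e1 (φ : R →+* R') (W : ℕ → R) (z : R) :
    φ ((pl n W).derivative.eval z) = ∑ i ∈ range n, i * φ (W i) * φ z ^ (i - 1) := by
  simp only [pl, derivative_C_mul_X_pow, eval_finsetSum, map_sum]
  exact sum_congr rfl fun i _ => by simp [mul_comm]

end Imp2A

open ImpA Imp2A in
theorem imp2 : IMP2 := fun L _ O S hO hS n c z hc hz h1 h2 h3 => ty_of hO fun x hx => by
  choose W w0 hW using fun i => tp_of (hc i) x hx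
  obtain ⟨z0, a0⟩ : ∃ z0 : O, z x = z0 := ⟨⟨_, hz x hx⟩, rfl⟩
  have ev : ∀ (Z : O[X]) (h : O), ((pl n W).eval Z).eval h =
      (pl n fun i => (W i).eval h).eval (Z.eval h) := fun Z h =>
    (e0 n (evalRingHom h) W Z).trans (e0 n (RingHom.id _) _ _).symm
  have k0 : ∀ y ∈ S, ∀ (w : ℕ → O) (t : O), (∀ i, c i y = w i) → z y = t →
      (pl n w).eval t = 0 ∧ IsUnit ((pl n w).derivative.eval t) := fun y hy w t a b => by
    have b2 := h2 y hy
    have b3 := h3 y hy
    simp only [a, b] at b2 b3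
    exact ⟨Subtype.ext ((e0 n O.subtype w t).trans b2),
      (O.valuation_eq_one_iff _).2 ((congrArg _ (e1 n O.subtype w t)).trans b3)⟩
  obtain ⟨k1, u, hu⟩ := k0 x hx _ z0 w0 a0
  have st := step (pl n W) z0 u fun Z hZ => by
    rw [hu, ← hZ]
    exact (e1 n (evalRingHom 0) W Z).trans (e1 n (RingHom.id _) _ _).symm
  obtain ⟨Z1, a1, b1⟩ := st 0 (C z0) eval_C (by
    rw [zero_add, pow_one, X_dvd_iff, coeff_zero_eq_eval_zero, ev, eval_C, k1])
  obtain ⟨Z, a2, q, b2⟩ := st 1 Z1 a1 b1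
  refine ⟨Z, by rw [a2, a0], fun y hy h eh => ?_⟩
  choose e he using fun i => hW i y hy h eh
  obtain ⟨zy, ey⟩ : ∃ zy : O, z y = zy := ⟨⟨_, hz y hy⟩, rfl⟩
  obtain ⟨c3, c4⟩ := k0 y hy _ zy he ey
  have d1 : h ^ 3 ∣ (pl n fun i => (W i).eval h + e i * h ^ 3).eval (Z.eval h) := by
    refine ⟨q.eval h + (pl n e).eval (Z.eval h), ?_⟩
    have c1 := ev Z h
    rw [b2, eval_mul, eval_pow, eval_X] at c1
    rw [mul_add, c1]
    simp only [pl, eval_finsetSum, eval_mul, eval_C, eval_pow, eval_X, mul_sum, ← sum_add_distrib]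
    exact sum_congr rfl fun i _ => by ring
  generalize (pl n fun i => (W i).eval h + e i * h ^ 3) = G at c3 c4 d1
  obtain ⟨κ, hκ⟩ := G.binomExpansion zy (Z.eval h - zy)
  rw [add_sub_cancel] at hκ
  have m1 : h ∈ maximalIdeal O := by rw [O.valuation_lt_one_iff, eh]; exact hS x hx y hy
  have m2 : zy - z0 ∈ maximalIdeal O := by
    rw [O.valuation_lt_one_iff]; push_cast; rw [← ey, ← a0]; exact h1 x hx y hy
  have m3 : Z.eval h - zy ∈ maximalIdeal O := by
    obtain ⟨c, hc⟩ := sub_dvd_eval_sub h 0 Z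
    rw [show Z.eval h - zy = h * c - (zy - z0) by rw [← a2]; linear_combination hc]
    exact sub_mem (Ideal.mul_mem_right _ _ m1) m2
  have c5 : IsUnit (G.derivative.eval zy + κ * (Z.eval h - zy)) := by
    by_contra g
    have g1 : G.derivative.eval zy + κ * (Z.eval h - zy) ∈ maximalIdeal O := g
    exact (Ideal.add_mem_iff_left _ (Ideal.mul_mem_left _ κ m3)).1 g1 c4
  have c6 : G.eval (Z.eval h) =
      (Z.eval h - zy) * (G.derivative.eval zy + κ * (Z.eval h - zy)) := by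
    rw [hκ, c3]; ring
  rw [c6, c5.dvd_mul_right] at d1
  obtain ⟨c, hc⟩ := d1
  exact ⟨-c, by rw [ey]; congr 1; linear_combination -hc⟩

end Pool.Agent.MP_c481b3_nt.H79
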