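import Pool.Agent.MP_c481b3_nt.H79.SpecN
import Pool.Agent.MP_c481b3_nt.H79.Iu

/-! The invariant separates the points of an orbit. -/

set_option autoImplicit false

namespace Pool.Agent.MP_c481b3_nt.H79

open Pool.Agent.MP_c481b3_nt.H81 Pool.Agent.MP_c481b3_nt.H28

theorem unq2 : UNQ2 := by
  classical
  rintro n n' ε ε' t ⟨A, B, u, χ, h, e, -⟩ ⟨A', B', u', χ', h', e', -⟩
  obtain ⟨h, hu⟩ := cx_iff.1 h
  obtain ⟨h', hu'⟩ := cx_iff.1 h'
  obtain ⟨G, -, -, n0⟩ := h.good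
  obtain ⟨G', -, -, n0'⟩ := h'.good
  obtain ⟨v, f, hf⟩ := iu_iso three_ne_zero G G' (e.trans e'.symm)
  obtain ⟨g, hg, -⟩ := hf.dual three_ne_zero (by simp)
  obtain ⟨ψ, -, p1, p2⟩ := (((h.comp three_ne_zero hf).comp three_ne_zero h').comp three_ne_zero
    hg).toE three_ne_zero G
  have v0 := hf.good.2.2.1
  have c := congrArg (cE G) ((compRing three_ne_zero G).char ψ)
  rw [map_sub, map_mul, map_mul, map_intCast, map_intCast, p1, p2,
    show u * v * u' * ((1 : ℕ) / v) = u * u' by field_simp; simp] at c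
  generalize pol NE ψ 1 = a at c
  obtain ⟨N, hN⟩ : ∃ N, N = n * n' := ⟨_, rfl⟩
  have N0 : N ≠ 0 := hN ▸ mul_ne_zero n0 n0'
  have z : (u * u') ^ 2 = N := by rw [mul_pow, hu, hu', hN, neg_mul_neg, ← Nat.cast_mul]
  have c2 : a * (u * u') = 2 * N := by
    rw [one_mul, one_mul, mul_comm n', ← hN] at c
    push_cast at c
    linear_combination z - c
  have c3 : (a : ℂ) ^ 2 = 4 * N := mul_right_cancel₀ (Nat.cast_ne_zero.2 N0)
    (by linear_combination (a * (u * u') + 2 * N) * c2 - a ^ 2 * z)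
  have c4 : a ^ 2 = 4 * N := by exact_mod_cast c3
  obtain ⟨b, rfl⟩ : (2 : ℤ) ∣ a := Int.prime_two.dvd_of_dvd_pow (n := 2) ⟨2 * N, by rw [c4]; ring⟩
  rw [← hN, ← Int.isSquare_natCast_iff]
  exact ⟨b, by linarith⟩

namespace InjA

lemma single {k : Type} [Field k] [DecidableEq k] {A B : k} {C : Finset (Pt A B)} (h : IsSub C)
    (c : C.card = 1) : C = {0} := by
  obtain ⟨P, rfl⟩ := Finset.card_eq_one.1 c
  rw [Finset.mem_singleton.1 h.zero]

variable {p : ℕ} [Fact p.Prime] {X : Fam p}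

lemma pr : Prime (p : ℤ) := Nat.prime_iff_prime_int.1 Fact.out

lemma nd {θ : X.E} {n : ℕ} (h : ¬p ∣ n) (e : NE θ = n) : ¬(p : ℤ) ∣ NE θ := by
  rw [e]; exact_mod_cast h

lemma nd1 : ¬p ∣ 1 := (Fact.out : p.Prime).not_dvd_one

lemma one {φ ψ : X.E} (a : NE φ = 1) (b : NE ψ = 1) (e : cE X.good φ = cE X.good ψ) : φ = ψ := by
  obtain ⟨C, d, c, f⟩ := exists_vd X.three φ (X.sep (nd nd1 a))
  obtain ⟨C', d', c', f'⟩ := exists_vd X.three ψ (X.sep (nd nd1 b))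
  obtain rfl := single d.sub (by exact_mod_cast c.trans a)
  obtain rfl := single d'.sub (by exact_mod_cast c'.trans b)
  refine EE_ext fun P => ?_
  rw [f, f']
  exact congrArg (vm {0} · X.A X.B P) e

lemma npi : NE X.π = p := by rw [Fam.π, NE_frE, pow_one]

lemma sq1 (ss : X.SS) {ε : X.E} (a : NE ε = 1) (e : ε * X.π = X.π * ε) : cE X.good ε ^ 2 = 1 := by
  have p5 : (5 : ℤ) ≤ p := by exact_mod_cast X.five
  obtain ⟨k, -, hk⟩ := X.cr.comm_rel (X.cr.tr_of_sq (n := p) (by omega) (by simpa [Fam.SS] using ss)) e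
  have z := X.cr.pure_norm ε
  have nn := X.cr.nonneg ((2 : ℤ) * ε - pol NE ε 1)
  rw [npi, a] at hk
  rw [a] at z
  rw [z] at nn
  generalize pol NE ε 1 = t at *
  have h1 : k ^ 2 = p * (4 * (4 - t ^ 2)) := mul_right_cancel₀ pr.ne_zero (by linear_combination hk)
  obtain ⟨j, rfl⟩ := pr.dvd_of_dvd_pow (Dvd.intro _ h1.symm)
  have h2 : (p : ℤ) ∣ 4 * (4 - t ^ 2) :=
    ⟨j ^ 2, mul_left_cancel₀ pr.ne_zero (by linear_combination -h1)⟩
  have h3 : 4 - t ^ 2 = 0 := Int.eq_zero_of_dvd_of_nonneg_of_lt (by omega) (by nlinarith)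
    ((pr.dvd_or_dvd h2).resolve_left fun h => by have := Int.le_of_dvd (by norm_num) h; omega)
  have h4 := congrArg (cE X.good) (X.cr.eq_zero _ (z.trans (by omega)))
  have h5 := congrArg (Int.cast : ℤ → X.κ) h3
  rw [map_sub, map_mul, map_intCast, map_intCast, map_zero] at h4
  push_cast at h4 h5
  exact mul_left_cancel₀ (pow_ne_zero 2 X.two) (by
    linear_combination (2 * cE X.good ε + t) * h4 - h5)

lemma res {w : ℂ} {s : X.κ} (h : Ev (resPlc X.O) w s) {z : ℚ_[p]} (e : w = X.ι z) : s ^ p = s := by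
  subst e
  obtain ⟨z, rfl⟩ : ∃ b : ℤ_[p], z = b := ⟨⟨z, (X.pad.mem z).1 h.mem⟩, rfl⟩
  have : X.Dk (X.io (z ^ p - z)) := X.dk_io.2 (by
    rw [Dz, sub_zero, ← Ideal.mem_span_singleton, ← PadicInt.maximalIdeal_eq_span_p,
      ← PadicInt.ker_toZMod, RingHom.mem_ker, map_sub, map_pow, ZMod.pow_card, sub_self])
  exact sub_eq_zero.1 (((h.pow p).sub h).unique (this.congr (by simp [Fam.io]) rfl))

lemma main (L : X.Lift) (ss : X.SS) {x y : ℤ_[p]} (h1 : X.Dk (X.io x)) (h2 : X.Dk (X.io y))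
    (e : X.J (X.io x) = X.J (X.io y)) : X.io x = X.io y ∨
      ∃ ε : X.E, NE ε = 1 ∧ ε * X.π = -(X.π * ε) ∧ X.io y = X.h ε (X.io x) := by
  obtain ⟨v, f, C, d, c, -⟩ := iu_iso three_ne_zero h1.good h2.good e
  obtain rfl := single d.sub c
  have eA : X.fA (X.io x) = v ^ 4 * X.fA (X.io y) := by simpa [vA] using d.hA
  have eB : X.fB (X.io x) = v ^ 6 * X.fB (X.io y) := by simpa [vB] using d.hB
  by_cases a0 : X.fA (X.io y) = 0
  · rw [a0, mul_zero] at eA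
    simp only [lA] at eA a0
    have b0 : (X.b : ℂ) ≠ 0 := fun b0 => X.disc (by
      rw [show (X.a : ℂ) = 0 by linear_combination a0 + 9 * X.io y * b0, b0]; ring)
    exact Or.inl (mul_left_cancel₀ (mul_ne_zero (by norm_num : (9 : ℂ) ≠ 0) b0)
      (by linear_combination a0 - eA))
  by_cases b0 : X.fB (X.io y) = 0
  · rw [b0, mul_zero] at eB
    simp only [lB] at eB b0
    have a1 : (X.a : ℂ) ≠ 0 := fun a1 => X.disc (by
      rw [show (X.b : ℂ) = 0 by linear_combination b0 - 2 * X.a * X.io y * a1, a1]; ring)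
    exact Or.inl (mul_left_cancel₀ (mul_ne_zero two_ne_zero (pow_ne_zero 2 a1))
      (by linear_combination eB - b0))
  have D : ∀ {t}, X.Dk t → Ev (resPlc X.O) (4 * X.fA t ^ 3 + 27 * X.fB t ^ 2) _ := fun h =>
    ((Ev.ofNat _ 4).mul ((rdA h.rd).pow 3)).add ((Ev.ofNat _ 27).mul ((rdB h.rd).pow 2))
  have e12 : Ev (resPlc X.O) (v ^ 12) 1 := ((D h1).div (D h2) X.good.disc).congr
    (by rw [div_eq_iff h2.good.disc, eA, eB]; ring) (div_self X.good.disc)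
  obtain ⟨s, ev⟩ : ∃ s, Ev (resPlc X.O) v s :=
    ⟨_, Ev.of_mem ((resPlc X.O).mem_of_pow (by norm_num) e12.mem)⟩
  have s0 : s ≠ 0 := by
    rintro rfl
    simpa using (ev.pow 12).unique e12
  have s2 := res (ev.pow 2) (z := lB (X.a : ℚ_[p]) X.b x * lA (X.a : ℚ_[p]) X.b y /
      (lA (X.a : ℚ_[p]) X.b x * lB (X.a : ℚ_[p]) X.b y)) (by
    have v0 := d.hu
    simp only [map_div₀, map_mul, map_lA, map_lB, map_intCast]
    change _ = X.fB (X.io x) * X.fA (X.io y) / (X.fA (X.io x) * X.fB (X.io y))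
    rw [eA, eB]
    field_simp)
  have hf : ∀ P ∈ ({0} : Finset (X.P (X.io x))).erase 0, h1.rd.red P ≠ 0 := by simp
  obtain ⟨ε, f1, f2, f3⟩ := (d.red h1.rd h2.rd ev s0 hf).exists_end (hG := X.good) X.three
  have n1 : NE ε = 1 := by simpa using f3
  obtain ⟨ψ, g1, g2⟩ := exists_conj X.good X.three p 1 X.hA X.hB ε (f2 ▸ s0)
  change X.π * ε = ψ * X.π at g1
  have n2 : NE ψ = 1 := by
    have := congrArg NE g1
    rw [X.cr.mul, X.cr.mul, n1, npi, mul_comm] at this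
    exact (mul_right_cancel₀ pr.ne_zero this).symm
  rw [f2, pow_one] at g2
  rcases sq_eq_sq_iff_eq_or_eq_neg.1 ((pow_right_comm s p 2).trans s2) with h | h
  · rw [one n2 n1 (g2.trans (h.trans f2.symm))] at g1
    exact Or.inl (Fam.uni h1 ((ev.pow 2).congr rfl (f2 ▸ sq1 ss n1 g1.symm))
      (by rw [eA]; ring) (by rw [eB]; ring))
  · rw [one n2 ((X.cr.neg ε).trans n1) (by rw [map_neg, g2, h, f2])] at g1
    refine Or.inr ⟨ε, n1, by rw [g1, neg_mul, neg_neg], L.uniq _ _ _ (nd nd1 n1)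
      ⟨h1, h2, _, v, d, by simp [n1], f2 ▸ ev, fun P => ?_⟩⟩
    rw [d.red_vm h1.rd h2.rd ev s0 hf, f1]
    rfl

end InjA

open InjA in
theorem inj_of : LIFT2 → RAT2 → ENDL2 → UNQ2 → INJ := by
  intro hL hR hE hU p _ X φ θ θ' l n n' c ss nl nn nn' hφ an hc fx cθ cθ' e1 e2 ns eJ
  have L := hL p X
  have pp : p.Prime := Fact.out
  have ht : X.Dk (X.io c) := X.dk_io.2 hc
  have u1 := nd nn e1
  have u2 := nd nn' e2
  have r1 := hR p X θ c ⟨u1, Or.inl cθ⟩ hc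
  have r2 := hR p X θ' c ⟨u2, Or.inl cθ'⟩ hc
  obtain ⟨-, h1, -⟩ := L.lf θ _ u1 ht
  obtain ⟨-, h2, -⟩ := L.lf θ' _ u2 ht
  rw [← r1] at h1
  rw [← r2] at h2
  refine X.io_inj ((main L ss h1 h2 (by
    rw [← Fam.io_Jz (X.dk_io.1 h1), eJ, Fam.io_Jz (X.dk_io.1 h2)])).resolve_right ?_)
  rintro ⟨ε, n1, a, m⟩
  have f0 : X.h φ (X.io c) = X.io c := by
    rw [← hR p X φ c ⟨nd nl (X.cr.norm_of_sq (by positivity) (by simpa using hφ)), Or.inr an⟩ hc, fx]
  obtain ⟨η, k1, k2⟩ : ∃ η : X.E, η * θ' = (n' : ℤ) ∧ η * X.π = X.π * η :=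
    ⟨pol NE θ' 1 - θ', by rw [sub_mul, X.cr.char, e2, sub_sub_cancel],
      by rw [sub_mul, mul_sub, cθ', Int.cast_comm]⟩
  have n0 : (n' : ℤ) ≠ 0 := by rintro h; exact nn' (by simp [Int.natCast_eq_zero.1 h])
  have k3 : NE η = n' := by
    have := congrArg NE k1
    rw [X.cr.mul, e2, X.cr.int, sq] at this
    exact mul_right_cancel₀ n0 this
  have k4 : NE (ε * θ) = n := by rw [X.cr.mul, n1, e1, one_mul]
  have k5 : η * (ε * θ) * (η * (ε * θ)) = -((n * n' : ℕ) : X.E) := by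
    rw [X.cr.sq_anti (frE_ne X.good X.three p 1 X.hA X.hB) (show _ * X.π = -(X.π * _) by
      rw [mul_assoc, mul_assoc, cθ, ← mul_assoc ε, a, neg_mul, mul_neg, mul_assoc, ← mul_assoc η,
        k2, mul_assoc]), X.cr.mul, k3, k4, mul_comm, ← Nat.cast_mul, Int.cast_natCast]
  have k6 : X.h (η * (ε * θ)) (X.io c) = X.io c := by
    rw [L.mul _ _ _ (nd nn' k3) (nd nn k4) ht, L.mul _ _ _ (nd nd1 n1) u1 ht, ← r1, ← m, r2,
      ← L.mul _ _ _ (nd nn' k3) u2 ht, k1, L.int _ _ (by exact_mod_cast nn') ht]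
  exact ns (hU _ _ _ _ _ (hE p X φ l _ ht nl hφ f0).1
    (hE p X _ _ _ ht (fun h => (pp.dvd_mul.1 h).elim nn nn') k5 k6).1)

end Pool.Agent.MP_c481b3_nt.H79
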