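import Pool.Agent.MP_c481b3_nt.H79.SpecH
import Pool.Agent.MP_c481b3_nt.H79.Iu
import Pool.Agent.MP_c481b3_nt.H28K.AtL2
import Pool.Agent.MP_c481b3_nt.H28.SeedGeo

/-! A singular modulus fixed by an automorphism that moves the multiplier has odd degree. -/

set_option autoImplicit false

namespace Pool.Agent.MP_c481b3_nt.H79

open Pool.Agent.MP_c481b3_nt.H81 Pool.Agent.MP_c481b3_nt.H28 IsLocalRing

theorem inr_of : PADF → SSF → INR := by
  classical
  rintro H S l _ O ι m ε s t τ pad h5 mo lm hs ⟨A₀, B₀, u₀, χ₀, ⟨C₀, d₀, c₀, e₀, -⟩, hj, -⟩ v1 v2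
    hτ τt τs
  have hl : l.Prime := Fact.out
  have := res_charP hl pad.vp
  have := resid_closed O
  obtain ⟨h2, h3⟩ := small_ne (ResidueField O) h5
  have et : Ev (resPlc O) t _ := Ev.of_mem ((O.valuation_le_one_iff t).1 v1.le)
  generalize (resPlc O).ev t = y at et
  have e1 := (Ev.ofNat (resPlc O) 1728).sub et
  have u1 : (1 : ResidueField O) * y * (1728 - y) ≠ 0 := by
    rw [one_mul]
    refine mul_ne_zero (fun e => (et.congr rfl e).v_lt.ne v1) fun e => (e1.congr rfl e).v_lt.ne ?_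
    exact (Valuation.map_sub_swap _ _ _).trans v2
  obtain ⟨G', A0, B0, -⟩ := f_good h2 h3 u1
  obtain ⟨G, -, -, j1⟩ := f_good (k := ℂ) two_ne_zero three_ne_zero
    ((((Ev.one _).mul et).mul e1).ne_zero u1)
  have r : Rd (resPlc O) (fA 1 t) (fB 1 t) (fA 1 y) (fB 1 y) :=
    rd_of ((((Ev.ofNat _ 3).mul ((Ev.one _).pow 2)).mul et).mul e1)
      ((((Ev.ofNat _ 2).mul ((Ev.one _).pow 3)).mul et).mul (e1.pow 2)) G'
  obtain ⟨D, u, d, hc, hu⟩ : CMv (l * m ^ 2) (fA 1 t) (fB 1 t) := CMv.iso ⟨C₀, u₀, d₀, c₀, e₀⟩ G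
    (jj_eq three_ne_zero d₀.good G (hj.trans j1.symm))
  have τu : (τ : ℂ →+* ℂ) u = -u := by
    rcases sq_eq_sq_iff_eq_or_eq_neg.1
      (show u ^ 2 = (m * s) ^ 2 by rw [hu, mul_pow, hs]; push_cast; ring) with e | e <;>
    simp [e, τs]
  set N := 2 * l * D.card + 1 with hN
  have N0 : (N : ResidueField O) ≠ 0 := by simp [hN]
  have T := Tm.up ⟨G', h3, N0⟩ r
  have hr : ∀ P, P ≠ 0 → N • P = 0 → r.red P ≠ 0 := fun P h0 hP => red_tors_ne r N0 h0 hP
  set E := (tors (fA 1 t) (fB 1 t) N).erase 0 with hE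
  have hE' : ∀ P, P ∈ E ↔ P ≠ 0 ∧ N • P = 0 := fun P => by rw [hE, Finset.mem_erase, T.mem]
  obtain ⟨k, hk⟩ := H l O ι pad τ hτ (insert t (E.image xc ∪ E.image yc)) (by
    intro z hz
    simp only [Finset.mem_insert, Finset.mem_union, Finset.mem_image, hE'] at hz
    rcases hz with rfl | ⟨P, hP, rfl⟩ | ⟨P, hP, rfl⟩
    · exact et.mem
    · exact (ev_xc r (hr P hP.1 hP.2)).mem
    · exact (ev_yc r (hr P hP.1 hP.2)).mem)
  have key : ∀ z w, z ∈ insert t (E.image xc ∪ E.image yc) → Ev (resPlc O) z w →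
      Ev (resPlc O) (τ z) (w ^ l ^ k) := fun z w hz hw =>
    ((Ev.of_lt (π := resPlc O) (hk z hz)).add (hw.pow (l ^ k))).congr (sub_add_cancel _ _)
      (zero_add _)
  rcases k.even_or_odd with ⟨j, hkj⟩ | ho
  swap
  · exact ⟨k, ho, by rw [Valuation.map_sub_swap]; simpa [τt] using hk t (Finset.mem_insert_self _ _)⟩
  exfalso
  have hy : iterateFrobenius _ l k y = y :=
    ((key t y (Finset.mem_insert_self _ _) et).congr τt rfl).unique et
  have hA : fA 1 y ^ l ^ k = fA 1 y := by rw [← iterateFrobenius_def, map_fA, map_one, hy]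
  have hB : fB 1 y ^ l ^ k = fB 1 y := by rw [← iterateFrobenius_def, map_fB, map_one, hy]
  obtain ⟨e, e2, hf⟩ := S _ _ _ G' l k j hA hB (by omega) h3 A0 B0
    (H28K.SSL.ssl2 r residue_surjective hl h5 (CharP.cast_eq_zero _ l)
      (fun h => lm (hl.dvd_of_dvd_pow h)) mo.pow d hc hu)
  have τA : (τ : ℂ →+* ℂ) (fA 1 t) = fA 1 t := by rw [map_fA, map_one, RingHom.coe_coe, τt]
  have τB : (τ : ℂ →+* ℂ) (fB 1 t) = fB 1 t := by rw [map_fB, map_one, RingHom.coe_coe, τt]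
  have cj : ∀ P, N • P = 0 → (Sc.ofHom τ τA τB G).map P = (e * l ^ j : ℤ) • P := fun P hP => by
    by_cases h0 : P = 0
    · rw [h0, map_zero, smul_zero]
    have hP' := (hE' P).2 ⟨h0, hP⟩
    refine red_inj r N0 (by rw [← map_nsmul, hP, map_zero]) (by rw [smul_comm, hP, smul_zero]) ?_
    rw [map_zsmul, ← EE_int (hG := G'), ← hf, frE_apply]
    refine red_eq r (Sc.map_ne _ h0) (Sc.map_ne _ (hr P h0 hP)) ?_ ?_
    · rw [xc_frP, xc_ofHom]
      exact key _ _ (Finset.mem_insert_of_mem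
        (Finset.mem_union_left _ (Finset.mem_image_of_mem _ hP'))) (ev_xc r (hr P h0 hP))
    · rw [yc_frP, yc_ofHom]
      exact key _ _ (Finset.mem_insert_of_mem
        (Finset.mem_union_right _ (Finset.mem_image_of_mem _ hP'))) (ev_yc r (hr P h0 hP))
  have a := vd_iu three_ne_zero d
  obtain ⟨g, g1, g2⟩ := a.conj three_ne_zero τ τA τB G τA τB G
  obtain rfl := a.neg.ext (τu ▸ g1)
  obtain ⟨x, z, hxz⟩ : IsCoprime (2 * (e * l ^ j) : ℤ) N := by
    rw [hN]
    push_cast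
    exact IsCoprime.mul_left ⟨-(l * D.card), 1, by ring⟩ (IsCoprime.mul_left
      ⟨e, 0, by linear_combination e2⟩ (IsCoprime.pow_left ⟨-(2 * D.card), 1, by ring⟩))
  have sub : tors (fA 1 t) (fB 1 t) N ⊆ D := fun P hP => by
    have p1 := T.mem.1 hP
    have p2 : N • d.hom three_ne_zero P = 0 := by rw [← map_nsmul, p1, map_zero]
    have p3 := g2 P
    rw [cj P p1, cj _ p2, map_zsmul, AddMonoidHom.neg_apply, smul_neg, neg_eq_iff_add_eq_zero,
      ← add_smul, ← two_mul] at p3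
    rw [← d.hom_eq_zero three_ne_zero, ← one_smul ℤ (d.hom three_ne_zero P), ← hxz, add_smul,
      mul_smul, p3, mul_smul, natCast_zsmul, p2, smul_zero, smul_zero, add_zero]
  have := Finset.card_le_card sub
  rw [T.card] at this
  exact absurd ((Nat.le_self_pow two_ne_zero N).trans this)
    (Nat.lt_succ_of_le (Nat.le_mul_of_pos_left _ (by omega))).not_ge

end Pool.Agent.MP_c481b3_nt.H79
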