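import Pool.Agent.MP_c481b3_nt.H79.SpecG
import Pool.Agent.MP_c481b3_nt.H79.Iu
import Pool.Agent.MP_c481b3_nt.H28K.AtL2

/-! A congruence with a singular modulus at a prime that does not split. -/

set_option autoImplicit false

namespace Pool.Agent.MP_c481b3_nt.H79

open Pool.Agent.MP_c481b3_nt.H81 Pool.Agent.MP_c481b3_nt.H28 NumberField IsLocalRing

namespace SsqA

lemma card_pow {G : Type} [AddCommGroup G] {q : ℕ} (hs : ∀ Q : G, ∃ P, q • P = Q) (j : ℕ) :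
    Nat.card {P : G // q ^ j • P = 0} = Nat.card {P : G // q • P = 0} ^ j := by
  choose s hs using hs
  induction j with
  | zero => simp
  | succ j ih =>
    rw [pow_succ _ j, pow_succ _ j, ← ih, ← Nat.card_prod]
    refine Nat.card_congr ⟨fun P => (⟨q • P.1, by rw [← mul_nsmul', P.2]⟩,
      ⟨P.1 - s (q • P.1), by rw [smul_sub, hs, sub_self]⟩),
      fun R => ⟨s R.1 + R.2, by rw [mul_nsmul', smul_add, hs, R.2.2, add_zero, R.1.2]⟩,
      fun P => by simp, fun R => ?_⟩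
    simp [hs, R.2.2]

variable {k : Type} [Field k] [DecidableEq k] [IsAlgClosed k] [DecidableEq (RatFunc k)]
  [DecidableEq (LL k)] {A B : k} (hG : Good A B) (h3 : (3 : k) ≠ 0) (q : ℕ) [Fact q.Prime]
  [CharP k q]
include h3

/-- an ordinary curve has `q` points killed by `q` -/
lemma card_ord {f : ℕ} (f0 : f ≠ 0) (hA : A ^ q ^ f = A) (hB : B ^ q ^ f = B)
    (ha : ¬(q : ℤ) ∣ pol NE (frE hG q f hA hB) 1) : Nat.card {P : Pt A B // q • P = 0} = q := by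
  have cr := compRing h3 hG
  have ch := cr.char (frE hG q f hA hB)
  have nm := NE_frE hG q f hA hB
  generalize ha' : pol NE (frE hG q f hA hB) 1 = a at ch ha
  have e : frE hG q f hA hB * (a - frE hG q f hA hB) = (q ^ f : ℕ) := by
    rw [mul_sub, ch, nm, Int.cast_comm]
    simp
  have e' : ∀ P, frP hG q f hA hB ((a - frE hG q f hA hB) • P) = q ^ f • P := fun P => by
    rw [← EE_nat (hG := hG), ← e]
    rfl
  obtain ⟨c1, c2⟩ := ker_card h3 hG (a - frE hG q f hA hB) (by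
    rw [map_sub, cE_frE hG q f hA hB f0, sub_zero, map_intCast]
    exact fun h => ha ((CharP.intCast_eq_zero_iff k q a).1 h))
  have c3 : NE ((a : EE hG) - frE hG q f hA hB) = q ^ f := by
    rw [cr.sub, cr.int, nm, ← mul_one (a : EE hG), cr.pol_int, CompRing.pol_comm, ha']
    ring
  have c4 : Nat.card {P : Pt A B // q ^ f • P = 0} = q ^ f := by
    simp only [← e', frP, Sc.map_eq_zero]
    exact_mod_cast c1.trans c3
  have c5 : ∀ Q, ∃ P, frP hG q f hA hB P = Q := fun Q => by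
    by_cases q0 : Q = 0
    · exact ⟨0, by rw [q0, map_zero]⟩
    obtain ⟨x, hx⟩ := IsAlgClosed.exists_pow_nat_eq (xc Q) (pow_pos (Fact.out : q.Prime).pos f)
    obtain ⟨P, p0, p1⟩ := exists_pt hG x
    rcases eq_or_neg (P := frP hG q f hA hB P) (Sc.map_ne _ p0) q0 (by rw [xc_frP, p1, hx]) with
      h | h
    · exact ⟨P, h⟩
    · exact ⟨-P, by rw [map_neg, h, neg_neg]⟩
  rw [card_pow fun Q => ?_] at c4
  · exact Nat.pow_left_injective f0 c4
  · obtain ⟨P, rfl⟩ := c5 Q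
    obtain ⟨P, rfl⟩ := c2 P
    exact ⟨q ^ (f - 1) • P, by rw [e', ← mul_nsmul', ← pow_succ', Nat.sub_add_cancel (by omega)]⟩

omit h3 [DecidableEq (RatFunc k)] [DecidableEq (LL k)] [CharP k q] [IsAlgClosed k] in
lemma gen (h : Nat.card {P : Pt A B // q • P = 0} = q) : ∃ Q : Pt A B, Q ≠ 0 ∧ q • Q = 0 ∧
    ∀ P : Pt A B, q • P = 0 → ∃ m : ℤ, m • Q = P := by
  have h' : Nat.card (nsmulAddMonoidHom q : Pt A B →+ Pt A B).ker = q := h
  have : Finite (nsmulAddMonoidHom q : Pt A B →+ Pt A B).ker :=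
    Nat.finite_of_card_ne_zero (h'.symm ▸ (Fact.out : q.Prime).ne_zero)
  have := Finite.one_lt_card_iff_nontrivial.1 (h'.symm ▸ (Fact.out : q.Prime).one_lt)
  obtain ⟨Q, hQ⟩ := exists_ne (0 : (nsmulAddMonoidHom q : Pt A B →+ Pt A B).ker)
  refine ⟨Q, fun e => hQ (Subtype.ext e), Q.2, fun P hP => ?_⟩
  obtain ⟨m, hm⟩ := mem_zmultiples_of_prime_card h' (g' := ⟨P, hP⟩) hQ
  exact ⟨m, congrArg Subtype.val hm⟩

omit h3 [CharP k q] in
lemma sq (h : Nat.card {P : Pt A B // q • P = 0} = q) {χ : EE hG} {n : ℕ}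
    (e : χ * χ = -(n : EE hG)) : IsSquare (-(n : ZMod q)) := by
  obtain ⟨Q, q0, q1, q2⟩ := gen q h
  obtain ⟨m, hm⟩ := q2 (χ.1 Q) (by rw [← map_nsmul, q1, map_zero])
  have e1 := congrArg (fun φ : EE hG => φ.1 Q) e
  simp only [EE_mul, EE_neg, EE_nat] at e1
  rw [← hm, map_zsmul, ← hm, ← mul_zsmul] at e1
  have e2 : (m * m + n) • Q = 0 := by rw [add_zsmul, e1, natCast_zsmul, neg_add_cancel]
  rw [← addOrderOf_dvd_iff_zsmul_eq_zero, addOrderOf_eq_prime q1 q0,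
    ← ZMod.intCast_zmod_eq_zero_iff_dvd] at e2
  push_cast at e2
  exact ⟨m, by linear_combination -e2⟩

end SsqA

open SsqA in
theorem ssq : SSQ := by
  rintro K _ _ A B σ O q n ε t hp h5 hv ⟨A₀, B₀, u, χ, ⟨C, d, hc, hu, -⟩, hj, -⟩ ht hn hΔ
  classical
  have := res_charP hp hv
  have : Fact q.Prime := ⟨hp⟩
  have := resid_closed O
  obtain ⟨h2, h3⟩ := small_ne (ResidueField O) h5
  obtain ⟨a, ha⟩ := IsAlgClosed.exists_pow_nat_eq (t / 6912) three_pos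
  obtain ⟨b, hb⟩ := IsAlgClosed.exists_pow_nat_eq ((1 - 4 * a ^ 3) / 27) two_pos
  have h1 : 4 * a ^ 3 + 27 * b ^ 2 = 1 := by rw [hb]; ring
  have hj' : jj a b = t := by rw [jj, h1, ha]; ring
  have G' : Good a b := ⟨two_ne_zero, h1 ▸ one_ne_zero⟩
  have cm : CMv n a b := CMv.iso ⟨C, u, d, hc, hu⟩ G'
    (jj_eq three_ne_zero d.good G' (hj.trans hj'.symm))
  obtain ⟨φ, hφ, m1, m2⟩ := exists_phi' (O := O) hp σ
  obtain ⟨f, G, hA, hB, f0, -, tr⟩ := loc_hom q h3 φ m1 (fun _ => Iff.rfl) (hΔ _ m1 m2)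
  have ev := ((Ev.of_lt (π := resPlc O) ht).add (ev_jj (hφ A) (hφ B) G)).congr
    ((sub_add_cancel _ _).trans hj'.symm) (zero_add _)
  obtain ⟨A', B', r⟩ := rd_of_disc (π := resPlc O) h2 h3 h1 ev.mem
  have e := ev.unique (ev_jj (rdA r) (rdB r) r.good)
  refine ⟨_, ⟨m1, hΔ _ m1 m2, q, hp, m2, by_contra fun hq => ?_⟩, m2⟩
  have hk := card_ord G h3 q f0 hA hB (tr ▸ hq)
  rcases hn with hn | ⟨m, rfl, hm, mo⟩
  · obtain ⟨ψ, c1, c2⟩ := cm.red r h3 fun z => hn (by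
      rw [(ZMod.natCast_eq_zero_iff n q).2 ((CharP.cast_eq_zero_iff _ q _).1 z)]
      simp)
    obtain ⟨g, hg⟩ := is_iso h3 r.good G (jj_eq h3 r.good G e.symm)
    obtain ⟨ψ', c, -⟩ := cm_move h3 G c1 c2 hg (by simp)
    rw [one_pow, mul_one] at c
    exact hn (sq G q hk c)
  · obtain ⟨Q, q0, q1, -⟩ := gen q hk
    obtain ⟨g, hg⟩ := is_iso h3 G r.good (jj_eq h3 G r.good e)
    obtain ⟨D, v, d', c1, c2⟩ := cm
    exact q0 (by simpa using hg.ker (H28K.SSL.ssl2 r residue_surjective hp h5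
      (CharP.cast_eq_zero _ q) hm mo d' c1 c2 (g Q) (by rw [← map_nsmul, q1, map_zero])))

end Pool.Agent.MP_c481b3_nt.H79
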