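import Pool.Agent.MP_c481b3_nt.H79.SpecH
import Pool.Agent.MP_c481b3_nt.H79.Ssq
import Pool.Agent.MP_c481b3_nt.H79.Glob

/-! A congruence with a singular modulus at a given prime of odd degree. -/

set_option autoImplicit false

namespace Pool.Agent.MP_c481b3_nt.H79

open Pool.Agent.MP_c481b3_nt.H81 Pool.Agent.MP_c481b3_nt.H28 NumberField IsLocalRing Polynomial

open SsqA in
theorem ssq2 : SSQ2 := by
  rintro K _ _ A B σ O q n ε t P hp h5 hv ⟨A₀, B₀, u, χ, ⟨C, d, hc, hu, -⟩, hj, -⟩ ht hn hP hΔ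
  classical
  have := res_charP hp hv
  have : Fact q.Prime := ⟨hp⟩
  have := resid_closed O
  obtain ⟨h2, h3⟩ := small_ne (ResidueField O) h5
  obtain ⟨a, ha⟩ := IsAlgClosed.exists_pow_nat_eq (t / 6912) three_pos
  obtain ⟨b, hb⟩ := IsAlgClosed.exists_pow_nat_eq ((1 - 4 * a ^ 3) / 27) two_pos
  have h1 : 4 * a ^ 3 + 27 * b ^ 2 = 1 := by rw [hb]; ring
  have hj' : jj a b = t := by rw [jj, h1, ha]; ring
  have G' : Good a b := ⟨two_ne_zero, h1 ▸ one_ne_zero⟩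
  have cm : CMv n a b := CMv.iso ⟨C, u, d, hc, hu⟩ G'
    (jj_eq three_ne_zero d.good G' (hj.trans hj'.symm))
  obtain ⟨φ, hφ, m1, m2⟩ := exists_phi' (O := O) hp σ
  obtain rfl : RingHom.ker φ = P := Ideal.ext fun x =>
    ⟨fun h => (hP x).1 ((hφ x).congr rfl h).v_lt,
      fun h => (hφ x).unique (Ev.of_lt (π := resPlc O) ((hP x).2 h))⟩
  obtain ⟨f, G, hA, hB, f0, -, tr⟩ := loc_hom q h3 φ m1 (fun _ => Iff.rfl) hΔ
  have ev := ((Ev.of_lt (π := resPlc O) ht).add (ev_jj (hφ A) (hφ B) G)).congr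
    ((sub_add_cancel _ _).trans hj'.symm) (zero_add _)
  obtain ⟨A', B', r⟩ := rd_of_disc (π := resPlc O) h2 h3 h1 ev.mem
  have e := ev.unique (ev_jj (rdA r) (rdB r) r.good)
  by_contra hq
  have hk := card_ord G h3 q f0 hA hB (tr ▸ hq)
  rcases hn with hn | ⟨m, rfl, hm, mo⟩
  · obtain ⟨ψ, c1, c2⟩ := cm.red r h3 fun z => hn (by
      rw [(ZMod.natCast_eq_zero_iff n q).2 ((CharP.cast_eq_zero_iff _ q _).1 z)]
      simp)
    obtain ⟨g, hg⟩ := is_iso h3 r.good G (jj_eq h3 r.good G e.symm)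
    obtain ⟨ψ', c, -⟩ := cm_move h3 G c1 c2 hg (by simp)
    rw [one_pow, mul_one] at c
    exact hn (sq G q hk c)
  · obtain ⟨Q, q0, q1, -⟩ := gen q hk
    obtain ⟨g, hg⟩ := is_iso h3 G r.good (jj_eq h3 G r.good e)
    obtain ⟨D, v, d', c1, c2⟩ := cm
    exact q0 (by simpa using hg.ker (H28K.SSL.ssl2 r residue_surjective hp h5
      (CharP.cast_eq_zero _ q) hm mo d' c1 c2 (g Q) (by rw [← map_nsmul, q1, map_zero])))

open GlobA in
theorem key_of : TR0 → KEY := by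
  intro hT K _ _ A B x q n d ε F P hq h5 F0 hF hn hO hΔ hd hx hxP
  obtain ⟨σ⟩ : Nonempty (K →+* ℂ) := inferInstance
  obtain ⟨O, -, hP⟩ := exists_val (σ.comp (algebraMap (𝓞 K) K))
    (σ.injective.comp (RingOfIntegers.coe_injective)) P hO.max
  replace hP : ∀ r : 𝓞 K, O.valuation (σ r) < 1 ↔ r ∈ P := hP
  have hv : O.valuation (q : ℂ) < 1 := by simpa using (hP q).2 hO.mem
  have hD : (Wc A B).Δ ∉ P := fun h => hΔ (P.mul_mem_left _ h)
  have a1 := emb_mem (O := O) σ A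
  have b1 := emb_mem (O := O) σ B
  have d1 : 4 * σ A ^ 3 + 27 * σ B ^ 2 ∈ O :=
    add_mem (mul_mem (ofNat_mem O 4) (pow_mem a1 _)) (mul_mem (ofNat_mem O 27) (pow_mem b1 _))
  have e : σ ((Wc A B).Δ : 𝓞 K) = -16 * (4 * σ A ^ 3 + 27 * σ B ^ 2) := by
    rw [Wc_disc]
    push_cast
    simp only [map_mul, map_add, map_pow, map_neg, map_ofNat]
  have v1 : O.valuation (σ ((Wc A B).Δ : 𝓞 K)) = 1 :=
    le_antisymm (v_le (emb_mem σ _)) (not_lt.1 fun h => hD ((hP _).1 h))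
  rw [e] at v1
  have v2 := (one_of_mul (neg_mem (ofNat_mem O 16)) d1 v1).2
  have j1 : jj (σ A) (σ B) ∈ O := by
    rw [← O.valuation_le_one_iff, jj, map_div₀, v2, div_one]
    exact v_le (mul_mem (ofNat_mem O 6912) (pow_mem a1 _))
  have h : O.valuation (aeval (jj (σ A) (σ B)) F) < 1 := by
    have h1 := (hP x).2 hxP
    rw [hx, map_mul, map_natCast, map_mul, v_nat hq hv hd, one_mul] at h1
    rw [← jj_map]
    have h2 : aeval (σ (jj (A : K) B)) F = σ (aeval (jj (A : K) B) F) :=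
      aeval_algHom_apply σ.toIntAlgHom _ F
    rwa [h2]
  obtain ⟨i, hi⟩ : ∃ i, ((F.coeff i : ℤ) : ZMod q) ≠ 0 := by
    by_contra hc
    push Not at hc
    exact F0 (Polynomial.ext fun i => by simpa using hc i)
  obtain ⟨w, w1, w2⟩ := exists_root_near O j1 (F.map (Int.castRingHom ℂ)) (i := i) (by
    rw [coeff_map, eq_intCast, v_int hq hv (by rwa [← ZMod.intCast_zmod_eq_zero_iff_dvd]),
      eval_map]
    exact h)
  have w3 : w ∈ F.aroots ℂ := by
    rw [mem_aroots]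
    exact ⟨by rintro rfl; simp at F0, by rwa [eval_map] at w1⟩
  exact hT K A B q P hq h5 hO hΔ (ssq2 K A B σ O q n ε w P hq h5 hv (hF w w3) w2 hn hP hD)

end Pool.Agent.MP_c481b3_nt.H79
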