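import Pool.Agent.MP_c481b3_nt.H79.SpecA
import Pool.Agent.MP_c481b3_nt.H31F.All
import Pool.Agent.MP_c481b3_nt.H31F.Phi
import Pool.Agent.MP_c481b3_nt.H31F.Vls
import Pool.Agent.MP_c481b3_nt.H81.Lift

/-! The congruence of Kronecker in composite degree. -/

set_option autoImplicit false

namespace Pool.Agent.MP_c481b3_nt.H79

open UpperHalfPlane hiding I
open Polynomial IsLocalRing Pool.Agent.MP_c481b3_nt.H31F

namespace KrcA

lemma mem (O : ValuationSubring ℂ) {m : ℕ} (hm : 0 < m) {τ : ℍ} (h : YY τ ∈ O) {M : M2}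
    (hM : M ∈ Hk 2 m) : YY (act M τ) ∈ O := by
  have hd : M.det = m := by
    obtain ⟨a, d, b, -, -, rfl, -, rfl⟩ := (b1.mat.mem 2 m M).1 hM
    simp [Matrix.det_fin_two]
  exact (b2.chp O m _ hm (b2.my.2 O m M hm (by rw [hd]; exact_mod_cast hm) (by rw [hd])).1).2 τ h

lemma inv (b : ℤ) (τ : ℍ) : YY (act !![1, 2 * b; 0, 1] τ) = YY τ := by
  rw [b1.y1.tY _ τ (by simp [Matrix.det_fin_two])]
  simp [eps]

lemma red (h3 : HKM) (O : ValuationSubring ℂ) {l m : ℕ} {Φ Φ' Φl : ℤ[X][X]} (hl : l.Prime)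
    (h2 : l ≠ 2) (hm : Odd m) (hlm : ¬l ∣ m) (hΦ : IsPhi m Φ) (hΦ' : IsPhi (l * m) Φ')
    (hΦl : IsPhi l Φl) (y : ResidueField O) : ∃ w : M2 → ResidueField O,
      (∀ x, ev2 Φ x y = ∏ M ∈ Hk 2 m, (x - w M)) ∧
        ∀ x, ev2 Φ' x y = ∏ M ∈ Hk 2 m, ev2 Φl x (w M) := by
  classical
  obtain ⟨y, rfl⟩ := residue_surjective y
  obtain ⟨τ, hτ⟩ := surj_of b1 b2.lv y
  let v : M2 → O := fun M => if h : YY (act M τ) ∈ O then ⟨_, h⟩ else 0
  have hv : ∀ M ∈ Hk 2 m, O.subtype (v M) = YY (act M τ) := fun M hM => by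
    simp only [v, dif_pos (mem O hm.pos (hτ ▸ y.2) hM)]
    rfl
  have hy : O.subtype y = YY τ := hτ.symm
  refine ⟨fun M => residue O (v M), fun x => ?_, fun x => ?_⟩ <;>
    obtain ⟨x, rfl⟩ := residue_surjective x
  · have : ev2 Φ x y = ∏ M ∈ Hk 2 m, (x - v M) := O.subtype_injective (by
      rw [map_ev2, hy, hΦ, map_prod]
      exact Finset.prod_congr rfl fun M hM => by rw [map_sub, hv M hM])
    rw [← map_ev2, this, map_prod]
    simp only [map_sub]
  · have : ev2 Φ' x y = ∏ M ∈ Hk 2 m, ev2 Φl x (v M) := O.subtype_injective (by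
      rw [map_ev2, hy, hΦ', map_prod,
        h3 l m (fun σ => O.subtype x - YY σ) hl h2 hm hlm (fun b σ => by rw [inv]) τ]
      exact Finset.prod_congr rfl fun M hM => by rw [map_ev2, hv M hM, hΦl])
    rw [← map_ev2, this, map_prod]
    simp only [map_ev2]

end KrcA

theorem krc_of : PHI2 → KRP → HKM → KRC := by
  intro h1 h2 h3 l m Φ Φ' hl hl2 hm hlm hΦ hΦ' R _ _ x y
  obtain ⟨Φl, hΦl, -⟩ := h1 l (hl.odd_of_ne_two hl2)
  obtain ⟨O, hO⟩ := vls.val l hl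
  have := H81.resid_closed O
  have := Fact.mk hl
  have h0 : (l : ResidueField O) = 0 := by
    rw [← map_natCast (residue O), residue_eq_zero_iff, O.valuation_lt_one_iff]
    simpa using hO
  have : CharP (ResidueField O) l := (CharP.charP_iff_prime_eq_zero hl).2 h0
  have key : ∀ x y : ResidueField O, ev2 Φ' x y = ev2 Φ x (y ^ l) * ev2 Φ (x ^ l) y := by
    intro x y
    obtain ⟨w, hw, hw'⟩ := KrcA.red h3 O hl hl2 hm hlm hΦ hΦ' hΦl y
    obtain ⟨z, rfl⟩ := IsAlgClosed.exists_pow_nat_eq x hl.pos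
    have e := map_ev2 (frobenius (ResidueField O) l) Φ z y
    rw [hw, map_prod] at e
    simp only [map_sub, frobenius_def] at e
    rw [hw', ← e, hw, ← Finset.prod_mul_distrib]
    exact Finset.prod_congr rfl fun M _ => h2 l Φl hl hl2 hΦl _ h0 _ _
  have e : ∀ (S : Type) [CommRing S] (x y : S),
      ev2 (Φ' - ev2 (R := ℤ[X][X]) Φ X (C X ^ l) * ev2 (R := ℤ[X][X]) Φ (X ^ l) (C X)) x y
        = ev2 Φ' x y - ev2 Φ x (y ^ l) * ev2 Φ (x ^ l) y := fun S _ x y => by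
    rw [← ev2h_apply, map_sub, map_mul, map_ev2, map_ev2, map_pow, map_pow]
    simp only [ev2h_apply, ev2_X, ev2_CX]
  rw [← sub_eq_zero, ← e]
  exact ev2_zero (ResidueField O) l (fun x y => by rw [e, key, sub_self]) (CharP.cast_eq_zero R l)
    x y

end Pool.Agent.MP_c481b3_nt.H79
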