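import Pool.Agent.MP_c481b3_nt.H79.SpecA
import Pool.Agent.MP_c481b3_nt.H31F.Mat

/-! The diagonal polynomial is `X - 1728` times a square modulo `l`. -/

set_option autoImplicit false

namespace Pool.Agent.MP_c481b3_nt.H79

open UpperHalfPlane hiding I
open Polynomial Pool.Agent.MP_c481b3_nt.H31F

namespace KronA

lemma card_Hk (m : ℕ) : (Hk 2 m).card = ∑ d ∈ m.divisors, d := by
  rw [Finset.card_eq_sum_ones, mat.sum 2 m two_pos ℕ fun _ => 1]
  simp

lemma odd_card {r : ℕ} (i : ℕ) (hr : r.Prime) (h2 : r ≠ 2) : Odd (Hk 2 ((r ^ i) ^ 2)).card := by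
  rw [card_Hk, ← pow_mul, Nat.sum_divisors_prime_pow hr, Finset.odd_sum_iff_odd_card_odd,
    Finset.filter_true_of_mem fun x _ => (hr.odd_of_ne_two h2).pow, Finset.card_range]
  exact ⟨i, by ring⟩

lemma even_card {l m : ℕ} (hl : l.Prime) (h2 : l ≠ 2) (h : ¬l ∣ m) : Even (Hk 2 (l * m)).card := by
  rw [card_Hk, Nat.Coprime.sum_divisors_mul (hl.coprime_iff_not_dvd.2 h), hl.sum_divisors]
  exact ((hl.odd_of_ne_two h2).add_one).mul_right _

lemma sign {Φ : ℤ[X][X]} {N : ℕ} (h : ∀ x y : ℂ, ev2 Φ (-x) (-y) = (-1) ^ N * ev2 Φ x y)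
    {R : Type} [CommRing R] (x y : R) : ev2 Φ (-x) (-y) = (-1) ^ N * ev2 Φ x y := by
  have key : ∀ {S : Type} [CommRing S] (x y : S),
      ev2 (ev2 Φ (-X : ℤ[X][X]) (-C (X : ℤ[X])) - (-1) ^ N * Φ) x y = ev2 Φ (-x) (-y) - (-1) ^ N * ev2 Φ x y := by
    intro S _ x y
    rw [← ev2h_apply, map_sub, map_mul, map_pow, map_neg, map_one, map_ev2, map_neg, map_neg]
    simp only [ev2h_apply, ev2_X, ev2_CX]
  rw [← sub_eq_zero, ← key]
  exact ev2_zero ℂ 0 (fun x y => by rw [key, h, sub_self]) Nat.cast_zero x y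

lemma symm {Φ : ℤ[X][X]} {c : ℤ} (h : ∀ x y : ℂ, ev2 Φ x y = c * ev2 Φ y x)
    {R : Type} [CommRing R] (x y : R) : ev2 Φ x y = c * ev2 Φ y x := by
  have key : ∀ {S : Type} [CommRing S] (x y : S),
      ev2 (Φ - c * ev2 Φ (C X : ℤ[X][X]) X) x y = ev2 Φ x y - c * ev2 Φ y x := by
    intro S _ x y
    rw [← ev2h_apply, map_sub, map_mul, map_intCast, map_ev2]
    simp only [ev2h_apply, ev2_X, ev2_CX]
  rw [← sub_eq_zero, ← key]
  exact ev2_zero ℂ 0 (fun x y => by rw [key, ← h, sub_self]) Nat.cast_zero x y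

lemma even_poly {R : Type} [CommRing R] [NoZeroDivisors R] (h2 : (2 : R) ≠ 0) {T : R[X]}
    (h : T.comp (-X) = T) : ∃ U, T = expand R 2 U := by
  refine ⟨contract 2 T, Polynomial.ext fun n => ?_⟩
  rw [coeff_expand two_pos, coeff_contract two_ne_zero]
  split_ifs with hn
  · rw [Nat.div_mul_cancel hn]
  · have h1 : (T.comp (C (-1) * X)).coeff n = T.coeff n := by
      rw [C_neg, C_1, neg_one_mul, h]
    rw [comp_C_mul_X_coeff, (Nat.not_even_iff_odd.1 fun he => hn he.two_dvd).neg_one_pow] at h1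
    exact (mul_eq_zero.1 (by linear_combination -h1 : 2 * T.coeff n = 0)).resolve_left h2

lemma comp_ev2 {R : Type} [CommRing R] (Φ : ℤ[X][X]) (u v w : R[X]) :
    (ev2 Φ u v).comp w = ev2 Φ (u.comp w) (v.comp w) :=
  map_ev2 (compRingHom w) Φ u v

lemma not_sq {l m : ℕ} (hl : l.Prime) (h : ¬l ∣ m ^ 2) : ¬IsSquare (l * m ^ 2) := by
  rintro ⟨k, hk⟩
  obtain ⟨j, rfl⟩ : l ∣ k := (hl.dvd_mul.1 ⟨_, hk.symm⟩).elim id id
  exact h ⟨j * j, Nat.eq_of_mul_eq_mul_left hl.pos (by rw [hk]; ring)⟩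

end KronA

open KronA

theorem kron_of : PHI2 → SYM → KRC → NZ → KRON := by
  intro phi2 sym krc nz l r i e hl hl2 hr hr2 hlr he
  have hlo := hl.odd_of_ne_two hl2
  have hm : Odd ((r ^ i) ^ 2) := (hr.odd_of_ne_two hr2).pow.pow
  have hd : ¬l ∣ (r ^ i) ^ 2 := fun h =>
    hlr ((Nat.prime_dvd_prime_iff_eq hl hr).1 (hl.dvd_of_dvd_pow (hl.dvd_of_dvd_pow h)))
  obtain ⟨Φ, hΦ, sΦ⟩ := phi2 _ hm
  obtain ⟨Φ', hΦ', sΦ'⟩ := phi2 _ (hlo.mul hm)
  obtain ⟨c, hc, hsy⟩ := sym _ Φ hm hΦ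
  have hT : (ev2 Φ' ((e : ℤ[X]) * X) X).comp (-X) = ev2 Φ' ((e : ℤ[X]) * X) X := by
    rw [comp_ev2, mul_comp, X_comp, intCast_comp, mul_neg, sign sΦ',
      (even_card hl hl2 hd).neg_one_pow, one_mul]
  obtain ⟨U, hU⟩ := even_poly two_ne_zero hT
  have hq : ∀ q : ℕ, ev2 Φ' ((e : (ZMod q)[X]) * X) X =
      expand (ZMod q) 2 (U.map (Int.castRingHom (ZMod q))) := fun q => by
    have := map_ev2 (mapRingHom (Int.castRingHom (ZMod q))) Φ' ((e : ℤ[X]) * X) X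
    rw [hU, map_mul, map_intCast, coe_mapRingHom, map_X, map_expand] at this
    exact this.symm
  refine ⟨U.comp (X - 1728), fun τ => ?_, fun q hqp h0 => ?_, ?_⟩
  · have := map_ev2 (aeval (YY τ) : ℤ[X] →ₐ[ℤ] ℂ).toRingHom Φ' ((e : ℤ[X]) * X) X
    rw [hU, map_mul, map_intCast] at this
    simp only [AlgHom.toRingHom_eq_coe, RingHom.coe_coe, aeval_X, expand_aeval] at this
    rw [← hΦ', ← this, aeval_comp, JJ]
    simp [map_ofNat]
  · refine nz _ q Φ' e (hlo.mul hm) (not_sq hl hd) hΦ' he hqp ?_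
    have h1 : U = (U.comp (X - 1728)).comp (X + 1728) := by
      rw [comp_assoc]; simp
    rw [hq, h1, map_comp, h0, zero_comp, map_zero]
  · have := Fact.mk hl
    have h2 : (2 : ZMod l) ≠ 0 := fun h => hl2 ((Nat.prime_dvd_prime_iff_eq hl Nat.prime_two).1
      ((ZMod.natCast_eq_zero_iff 2 l).1 (by exact_mod_cast h)))
    have hsg : ∀ x y : (ZMod l)[X], ev2 Φ (-x) (-y) = -ev2 Φ x y := fun x y => by
      rw [sign sΦ, (odd_card i hr hr2).neg_one_pow, neg_one_mul]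
    have hS : (X * ev2 Φ ((e : (ZMod l)[X]) * X ^ l) X).comp (-X)
        = X * ev2 Φ ((e : (ZMod l)[X]) * X ^ l) X := by
      rw [mul_comp, comp_ev2, mul_comp, pow_comp, X_comp, intCast_comp, hlo.neg_pow, mul_neg, hsg,
        neg_mul_neg]
    obtain ⟨V, hV⟩ := even_poly h2 hS
    have hk := krc l _ Φ Φ' hl hl2 hm hd hΦ hΦ' (ZMod l)[X] ((e : (ZMod l)[X]) * X) X
    have hc' : ((c : (ZMod l)[X])) ^ 2 = 1 := by rw [← Int.cast_pow, hc, Int.cast_one]
    have hk2 : ((c * e : ℤ) : (ZMod l)[X]) * ev2 Φ' ((e : (ZMod l)[X]) * X) X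
        = ev2 Φ ((e : (ZMod l)[X]) * X ^ l) X ^ 2 := by
      rw [hk, symm hsy _ (X ^ l)]
      rcases sq_eq_one_iff.1 he with rfl | rfl
      · simp only [Int.cast_one, one_mul, mul_one]
        linear_combination ev2 Φ ((X : (ZMod l)[X]) ^ l) X ^ 2 * hc'
      · have h3 := hsg (-X ^ l) X
        rw [neg_neg] at h3
        simp only [Int.cast_neg, Int.cast_one, neg_mul, one_mul, mul_neg, mul_one, hlo.neg_pow, h3]
        linear_combination ev2 Φ (-(X : (ZMod l)[X]) ^ l) X ^ 2 * hc'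
    have hk3 : ((c * e : ℤ) : (ZMod l)[X]) * X * U.map (Int.castRingHom (ZMod l)) = V ^ 2 := by
      apply expand_injective (R := ZMod l) two_pos
      rw [map_mul, map_mul, map_pow, ← hV, ← hq, expand_X, map_intCast, mul_pow, ← hk2]
      ring
    refine ⟨c * e, V.comp (X - 1728), by rw [mul_pow, hc, he, one_mul], ?_⟩
    rw [← pow_comp, ← hk3, mul_comp, mul_comp, X_comp, intCast_comp, Polynomial.map_mul,
      Polynomial.map_mul, map_comp, eq_intCast, Polynomial.map_intCast]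
    simp

end Pool.Agent.MP_c481b3_nt.H79
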