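import Pool.Agent.MP_c481b3_nt.H79.SpecA
import Pool.Agent.MP_c481b3_nt.H31F.All
import Pool.Agent.MP_c481b3_nt.H31F.Vls
import Pool.Agent.MP_c481b3_nt.H81.Lift

/-! The congruence of Kronecker in prime degree. -/

set_option autoImplicit false

namespace Pool.Agent.MP_c481b3_nt.H79

open UpperHalfPlane hiding I
open Polynomial Finset IsLocalRing Pool.Agent.MP_c481b3_nt.H31F

namespace KrpA

theorem ev_aeval {R : Type} [CommRing R] (Φ : ℤ[X][X]) (x : R) (F : LS R) (P : R[X]) :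
    aeval F (ev2 Φ (C x) P) = ev2 Φ (HahnSeries.C x) (aeval F P) := by
  simpa [algebraMap_LS] using map_ev2 (aeval F : R[X] →ₐ[R] LS R).toRingHom Φ (C x) P

theorem up {N : ℕ} (hN : 0 < N) {f : ℍ → ℂ} {F : LS ℂ} (h : Asy 1 f F) (a d : ℕ) (ha : 0 < a)
    (hd : 0 < d) {e : ℕ} (he : e * d = a * N) :
    Asy N (fun τ => f (act !![(a : ℤ), 0; 0, (d : ℤ)] τ)) (ex e F) := by
  have := b1.sub 1 N a d e 0 one_pos hN ha hd (by rw [mul_one, he]) f F h
  rwa [show ru (((0 : ℤ) : ℚ) / (d * (1 : ℕ))) = 1 by ext; simp [ru], sb_one] at this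

theorem lift {N : ℕ} (hN : 0 < N) {f : ℍ → ℂ} {F : LS ℂ} (h : Asy 1 f F) : Asy N f (ex N F) := by
  simpa only [Nat.cast_one, ← Matrix.one_fin_two, act_one] using
    up hN h 1 1 one_pos one_pos (e := N) (by simp)

theorem expan {l : ℕ} {Φ : ℤ[X][X]} (hl : l.Prime) (hΦ : IsPhi l Φ) (x : ℂ) :
    ev2 Φ (HahnSeries.C x) (ex l (Yc ℂ)) =
      (∏ b ∈ range l, (HahnSeries.C x - sb (ru (2 * b / l)) 1 (Yc ℂ))) *
        (HahnSeries.C x - ex l (ex l (Yc ℂ))) := by
  obtain ⟨-, -, r3, -, r5, -, r7, r8⟩ := b1.ring l hl.pos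
  have s : ∀ f F, Asy l f F → Asy l (fun τ => x - f τ) (HahnSeries.C x - F) := fun f F h => by
    have := r7 f F (C x - X) h
    rw [map_sub, aeval_C, aeval_X, algebraMap_LS] at this
    convert this using 2
    rw [eval_sub, eval_C, eval_X]
  have h1 := r7 _ _ (ev2 Φ (C x) X) (lift hl.pos y2.aY)
  rw [ev_aeval, aeval_X] at h1
  refine r5 _ _ _ h1 ?_
  have h2 := r3 _ _ _ _ (r8 ℕ (range l) _ _ fun b _ => s _ _
    (b1.sub 1 l 1 l 1 (2 * b : ℕ) one_pos hl.pos one_pos hl.pos (by simp) _ _ y2.aY)).2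
    (s _ _ (lift hl.pos (up one_pos y2.aY l 1 hl.pos one_pos (e := l) rfl)))
  convert h2 using 2 with τ
  · have h3 : ∏ M ∈ Hk 2 l, (x - YY (act M τ)) = ∏ d ∈ l.divisors, ∏ b ∈ range d,
        (x - YY (act !![((l / d : ℕ) : ℤ), ((2 * b : ℕ) : ℤ); 0, (d : ℤ)] τ)) :=
      mat.sum 2 l two_pos (Additive ℂ) fun M => Additive.ofMul (x - YY (act M τ))
    have h4 := map_ev2 (evalRingHom (YY τ)) Φ (C x) X
    simp only [coe_evalRingHom, eval_C, eval_X] at h4
    rw [h4, hΦ, h3, hl.prod_divisors, Nat.div_self hl.pos]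
    simp
  · simp

end KrpA

open KrpA in
theorem krp : KRP := by
  intro l Φ hl _ hΦ R _ hR x y
  have := Fact.mk hl
  obtain ⟨O, hO⟩ := vls.val l hl
  have := H81.resid_closed O
  have : CharP (ResidueField O) l := (CharP.charP_iff_prime_eq_zero hl).2 (by
    rw [← map_natCast (residue O), residue_eq_zero_iff, O.valuation_lt_one_iff]
    simpa using hO)
  have : CharP (LS (ResidueField O)) l :=
    charP_of_injective_ringHom (f := HahnSeries.C) HahnSeries.C_injective l
  have hu : ∀ b : ℕ, ∃ u : Oˣ, Units.map (O.subtype : O →* ℂ) u = ru (2 * b / l) ∧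
      Units.map (residue O : O →* ResidueField O) u = 1 := fun b => by
    have h1 : (ru (2 * b / l) : ℂ) ^ l = 1 := by
      have : (l : ℂ) ≠ 0 := Nat.cast_ne_zero.2 hl.ne_zero
      rw [ru, Units.val_mk0, ← Complex.exp_nat_mul, ← Complex.exp_nat_mul_two_pi_mul_I b]
      congr 1
      push_cast
      field_simp
    have h2 : (⟨_, ((b2.mr O 1 one_pos).2.2.2.2.2 (2 * b / l)).1⟩ : O) ^ l = 1 := Subtype.ext h1
    refine ⟨Units.ofPowEqOne _ l h2 hl.ne_zero, Units.ext rfl, Units.ext ?_⟩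
    have h3 := congrArg (residue O) h2
    rw [map_pow, map_one] at h3
    exact frobenius_inj _ l (h3.trans (one_pow l).symm)
  choose u h1 h2 using hu
  have hx : ∀ {A B : Type} [CommRing A] [CommRing B] (φ : A →+* B) (F : LS A),
      mapL φ (ex l F) = ex l (mapL φ F) := fun φ F => by
    rw [← sb_one, mapL_sb hl.pos, map_one, sb_one]
  have key : ∀ a c : ResidueField O,
      ev2 (Φ - (X - C X ^ l) * (X ^ l - C X)) a c = 0 := fun a c => by
    obtain ⟨a, rfl⟩ := residue_surjective a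
    obtain ⟨c, rfl⟩ := IsAlgClosed.exists_pow_nat_eq c hl.pos
    have h3 : ev2 Φ (HahnSeries.C a) (ex l (Yc O)) =
        (∏ b ∈ range l, (HahnSeries.C a - sb (u b) 1 (Yc O))) *
          (HahnSeries.C a - ex l (ex l (Yc O))) := mapL_injective O.subtype_injective (by
      simp only [map_ev2, map_mul, map_prod, map_sub, mapL_C, hx, mapL_sb one_pos, h1, mapL_Yc]
      exact expan hl hΦ a)
    have h4 := congrArg (mapL (residue O)) h3
    have h5 := b1.frob _ l (Yc (ResidueField O))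
    rw [mapL_Yc] at h5
    simp only [map_ev2, map_mul, map_prod, map_sub, mapL_C, hx, mapL_sb one_pos, h2, mapL_Yc,
      sb_one, ex_one, prod_const, card_range, sub_pow_char, ← h5, map_pow] at h4
    have h6 := (b1.pol.top _
      (ev2 (Φ - (X - C X ^ l) * (X ^ l - C X)) (C (residue O a)) (X ^ l))).1
    have h7 : aeval (Yc (ResidueField O))
        (ev2 (Φ - (X - C X ^ l) * (X ^ l - C X)) (C (residue O a)) (X ^ l)) = 0 := by
      rw [ev_aeval, ← ev2h_apply]
      simp only [map_sub, map_mul, map_pow, ev2h_apply, ev2_X, ev2_CX, aeval_X, h4, mul_comm,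
        sub_self]
    rw [h7] at h6
    have h8 := leadingCoeff_eq_zero.1 h6.symm
    have h9 := map_ev2 (evalRingHom c)
      (Φ - (X - C X ^ l) * (X ^ l - C X)) (C (residue O a)) (X ^ l)
    rw [h8, map_zero] at h9
    simpa using h9.symm
  have := ev2_zero _ l key hR x y
  rw [← ev2h_apply] at this
  simpa only [map_sub, map_mul, map_pow, ev2h_apply, ev2_X, ev2_CX, sub_eq_zero] using this

end Pool.Agent.MP_c481b3_nt.H79
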