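import Pool.Agent.MP_c481b3_nt.H79.SpecN
import Pool.Agent.MP_c481b3_nt.H79.Iu
import Pool.Agent.MP_c481b3_nt.H28.WkB

/-! Endomorphisms of degree prime to `p` act on the deformation disc of any curve. -/

set_option autoImplicit false

namespace Pool.Agent.MP_c481b3_nt.H79

open Pool.Agent.MP_c481b3_nt.H81 Pool.Agent.MP_c481b3_nt.H28 Polynomial

namespace LiftNA

variable {p : ℕ} [Fact p.Prime] {X : Fam p} {θ : X.E} {t : ℂ}

lemma card_ne {n : ℕ} (hθ : ¬(p : ℤ) ∣ NE θ) (c : (n : ℤ) = NE θ) : ¬p ∣ n := fun e =>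
  hθ (c ▸ Int.natCast_dvd_natCast.2 e)

/-- the scaling that brings a curve to the line -/
lemma root {A' B' : ℂ} {c : X.κ} (hc : c ≠ 0) (e1 : Ev (resPlc X.O) A' (c ^ 4 * X.A))
    (e2 : Ev (resPlc X.O) B' (c ^ 6 * X.B)) : ∃ w, Ev (resPlc X.O) w (c ^ 2) ∧
      (2 * (X.a : ℂ) ^ 3 + 9 * (X.b : ℂ) ^ 2) * w ^ 3 - 2 * (X.a : ℂ) ^ 2 * A' * w
        - 9 * (X.b : ℂ) * B' = 0 := by
  obtain ⟨c0, h0⟩ := IsLocalRing.residue_surjective (c ^ 2)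
  have e0 : Ev (resPlc X.O) (c0 : ℂ) (c ^ 2) := ⟨c0.2, ((resPlc X.O).ev_coe c0).trans h0⟩
  have k3 := ((Ev.ofNat _ 2).mul (X.eva.pow 3)).add ((Ev.ofNat _ 9).mul (X.evb.pow 2))
  have k1 := (((Ev.ofNat _ 2).mul (X.eva.pow 2)).mul e1).neg
  have k0 := (((Ev.ofNat _ 9).mul X.evb).mul e2).neg
  have lt := ((((k3.mul (e0.pow 3)).add (k1.mul e0)).add k0).congr rfl (b' := 0) (by ring)).v_lt
  obtain ⟨i, hi⟩ : ∃ i, X.O.valuation ((C (2 * (X.a : ℂ) ^ 3 + 9 * (X.b : ℂ) ^ 2) * Polynomial.X ^ 3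
      + C (-(2 * (X.a : ℂ) ^ 2 * A')) * Polynomial.X + C (-(9 * (X.b : ℂ) * B'))).coeff i) = 1 := by
    by_cases ha : X.A = 0
    · have hb : X.B ≠ 0 := fun hb => X.good.disc (by rw [ha, hb]; ring)
      refine ⟨0, (k0.congr (by simp) rfl).v_one ?_⟩
      rw [show (9 : X.κ) = 3 * 3 by norm_num]
      exact neg_ne_zero.2 (mul_ne_zero (mul_ne_zero (mul_ne_zero X.three X.three) hb)
        (mul_ne_zero (pow_ne_zero 6 hc) hb))
    · refine ⟨1, (k1.congr (by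
        rw [coeff_add, coeff_add, coeff_C_mul, coeff_C_mul, coeff_X_pow, coeff_X_one, coeff_C]
        simp) rfl).v_one ?_⟩
      exact neg_ne_zero.2 (mul_ne_zero (mul_ne_zero X.two (pow_ne_zero 2 ha))
        (mul_ne_zero (pow_ne_zero 4 hc) ha))
  obtain ⟨w, w1, w2⟩ := exists_root_near X.O c0.2 _ (i := i) (by
    rw [hi, eval_add, eval_add, eval_mul, eval_mul, eval_C, eval_C, eval_C, eval_pow, eval_X]
    exact lt)
  rw [eval_add, eval_add, eval_mul, eval_mul, eval_C, eval_C, eval_C, eval_pow, eval_X] at w1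
  exact ⟨w, ((Ev.of_lt (π := resPlc X.O) w2).add e0).congr (by ring) (by ring),
    by linear_combination w1⟩

/-- a curve that reduces to a scaling of the reduced curve is a scaling of a curve on the line -/
lemma line {A' B' : ℂ} {c : X.κ} (hc : c ≠ 0) (e1 : Ev (resPlc X.O) A' (c ^ 4 * X.A))
    (e2 : Ev (resPlc X.O) B' (c ^ 6 * X.B)) : ∃ t' u, X.Dk t' ∧ Ev (resPlc X.O) u c ∧
      A' = u ^ 4 * X.fA t' ∧ B' = u ^ 6 * X.fB t' := by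
  obtain ⟨w, e4, hw⟩ := root hc e1 e2
  obtain ⟨u, hu, e5⟩ : ∃ u, u ^ 2 = w ∧ Ev (resPlc X.O) u c := by
    obtain ⟨u, hu⟩ := IsAlgClosed.exists_pow_nat_eq w two_pos
    have m := Ev.of_mem ((resPlc X.O).mem_of_pow two_ne_zero (hu ▸ e4.mem))
    rcases sq_eq_sq_iff_eq_or_eq_neg.1 ((m.pow 2).unique (hu ▸ e4)) with e | e
    · exact ⟨u, hu, e ▸ m⟩
    · exact ⟨-u, by rw [neg_sq, hu], m.neg.congr rfl (by rw [e, neg_neg])⟩
  have c2 := pow_ne_zero 2 hc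
  have w0 := e4.ne_zero c2
  have hP := mul_div_cancel₀ A' (pow_ne_zero 2 w0)
  have hQ := mul_div_cancel₀ B' (pow_ne_zero 3 w0)
  have hs := mul_div_cancel₀ ((X.a : ℂ) * X.b + 2 * X.a * (B' / w ^ 3) - 3 * X.b * (A' / w ^ 2))
    X.disc
  have hw' : 2 * (X.a : ℂ) ^ 3 + 9 * (X.b : ℂ) ^ 2
      = 2 * (X.a : ℂ) ^ 2 * (A' / w ^ 2) + 9 * X.b * (B' / w ^ 3) :=
    mul_left_cancel₀ (pow_ne_zero 3 w0) (by
      linear_combination hw - 2 * (X.a : ℂ) ^ 2 * w * hP - 9 * (X.b : ℂ) * hQ)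
  refine ⟨((X.a : ℂ) * X.b + 2 * X.a * (B' / w ^ 3) - 3 * X.b * (A' / w ^ 2))
    / (4 * (X.a : ℂ) ^ 3 + 27 * (X.b : ℂ) ^ 2), u, ?_, e5, ?_, ?_⟩
  · refine ((((X.eva.mul X.evb).add (((Ev.ofNat _ 2).mul X.eva).mul
      (e2.div (e4.pow 3) (pow_ne_zero 3 c2)))).sub (((Ev.ofNat _ 3).mul X.evb).mul
        (e1.div (e4.pow 2) (pow_ne_zero 2 c2)))).div (((Ev.ofNat _ 4).mul (X.eva.pow 3)).add
          ((Ev.ofNat _ 27).mul (X.evb.pow 2))) X.good.disc).congr rfl ?_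
    rw [div_eq_zero_iff]
    left
    field_simp
    ring
  · rw [show u ^ 4 = (u ^ 2) ^ 2 by ring, hu, ← hP]
    refine congrArg _ (mul_left_cancel₀ X.disc ?_)
    rw [hP, Fam.fA, lA]
    linear_combination 9 * (X.b : ℂ) * hs - 2 * (X.a : ℂ) * hw'
  · rw [show u ^ 6 = (u ^ 2) ^ 3 by ring, hu, ← hQ]
    refine congrArg _ (mul_left_cancel₀ X.disc ?_)
    rw [hQ, Fam.fB, lB]
    linear_combination (-2 * (X.a : ℂ) ^ 2) * hs - 3 * (X.b : ℂ) * hw'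

/-- existence of a lift -/
lemma ex (hθ : ¬(p : ℤ) ∣ NE θ) (h : X.Dk t) : ∃ t', X.Lf θ t t' := by
  obtain ⟨C', d, c, e⟩ := exists_vd X.three θ (X.sep hθ)
  have tm := X.tm (card_ne hθ c)
  obtain ⟨C, hC, im⟩ := exists_lift_sub h.rd tm (tm.mem_subs.2 ⟨d.sub, rfl⟩)
  obtain ⟨c1, c2⟩ := (tm.up h.rd).mem_subs.1 hC
  have hf := red_sub_ne h.rd c1 (c2 ▸ tm.ne)
  have e1 := ev_vA h.rd c1 hf
  have e2 := ev_vB h.rd c1 hf
  rw [im, d.hA] at e1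
  rw [im, d.hB] at e2
  obtain ⟨t', u, h', e5, a1, b1⟩ := line d.hu e1 e2
  have D : VD C u (X.fA t') (X.fB t') := ⟨h.good, c1, e5.ne_zero d.hu, a1, b1, h'.good⟩
  refine ⟨t', h, h', C, u, D, c2 ▸ c, e5, fun P => ?_⟩
  rw [D.red_vm h.rd h'.rd e5 d.hu hf, im, e]
  rfl

lemma lf (hθ : ¬(p : ℤ) ∣ NE θ) (h : X.Dk t) : X.Lf θ t (X.h θ t) :=
  Classical.epsilon_spec (ex hθ h)

/-- a subgroup of the right order that reduces into the kernel reduces onto it -/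
lemma img (hθ : ¬(p : ℤ) ∣ NE θ) (h : X.Dk t) {C : Finset (X.P t)} (hC : IsSub C)
    (c : (C.card : ℤ) = NE θ) (e : ∀ P ∈ C, θ.1 (h.rd.red P) = 0) (Q : Pt X.A X.B) :
    Q ∈ C.image h.rd.red ↔ θ.1 Q = 0 := by
  obtain ⟨C', d, c', e'⟩ := exists_vd X.three θ (X.sep hθ)
  have m : ∀ Q, θ.1 Q = 0 ↔ Q ∈ C' := fun Q => by rw [e']; exact d.hom_eq_zero X.three
  rw [m, Finset.eq_of_subset_of_card_le (s := C.image h.rd.red) (t := C') (fun Q hQ => ?_) ?_]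
  · rw [card_red h.rd hC (X.nat_ne.2 (card_ne hθ c))]
    exact_mod_cast (c'.trans c.symm).le
  · obtain ⟨P, hP, rfl⟩ := Finset.mem_image.1 hQ
    exact (m _).1 (e P hP)

/-- subgroups of order prime to `p` with the same reduction agree -/
lemma sub_eq (h : X.Dk t) {C C₁ : Finset (X.P t)} (s : IsSub C) (s₁ : IsSub C₁) (c : ¬p ∣ C.card)
    (n₁ : ¬p ∣ C₁.card) (i : C.image h.rd.red = C₁.image h.rd.red) : C = C₁ := by
  have k : C.card = C₁.card := by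
    rw [← card_red h.rd s (X.nat_ne.2 c), i, card_red h.rd s₁ (X.nat_ne.2 n₁)]
  have tm := X.tm n₁
  exact subs_inj h.rd tm ((tm.up h.rd).mem_subs.2 ⟨s, k⟩) ((tm.up h.rd).mem_subs.2 ⟨s₁, rfl⟩) i

lemma uniq {t' : ℂ} (hθ : ¬(p : ℤ) ∣ NE θ) (l : X.Lf θ t t') : t' = X.h θ t := by
  obtain ⟨h, h', C, u, d, c, v, e⟩ := l
  obtain ⟨h0, h₁, C₁, u₁, d₁, c₁, v₁, e₁⟩ := lf hθ h
  obtain rfl : C = C₁ := sub_eq h d.sub d₁.sub (card_ne hθ c) (card_ne hθ c₁) (Finset.ext fun Q => by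
    rw [img hθ h d.sub c fun P hP => by rw [← e, d.eq_zero.2 hP, map_zero],
      img hθ h d₁.sub c₁ fun P hP => by rw [← e₁, d₁.eq_zero.2 hP, map_zero]])
  have u0 := d.hu
  refine Fam.uni (w := (u₁ / u) ^ 2) h' (((v₁.div v (X.sep hθ)).pow 2).congr rfl
    (by rw [div_self (X.sep hθ), one_pow])) ?_ ?_
  · field_simp
    linear_combination d₁.hA - d.hA
  · field_simp
    linear_combination d₁.hB - d.hB

lemma ker (h : X.Dk t) {C : Finset (X.P t)} {u A' B' : ℂ} (hθ : ¬(p : ℤ) ∣ NE θ)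
    (d : VD C u A' B') (c : ¬p ∣ C.card) (e : ∀ Q, Q ∈ C.image h.rd.red ↔ θ.1 Q = 0) :
    jj A' B' = X.J (X.h θ t) := by
  obtain ⟨h0, h', C₁, u₁, d₁, c₁, -, e₁⟩ := lf hθ h
  have : C = C₁ := sub_eq h d.sub d₁.sub c (card_ne hθ c₁) (Finset.ext fun Q => by
    rw [e, img hθ h d₁.sub c₁ fun P hP => by rw [← e₁, d₁.eq_zero.2 hP, map_zero]])
  rw [vd_jj d, this, ← vd_jj d₁, Fam.J]

lemma mul {θ' : X.E} (hθ : ¬(p : ℤ) ∣ NE θ) (hθ' : ¬(p : ℤ) ∣ NE θ') (h : X.Dk t) :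
    X.h (θ * θ') t = X.h θ (X.h θ' t) := by
  obtain ⟨h0, h₁, C₁, u₁, d₁, c₁, v₁, e₁⟩ := lf hθ' h
  obtain ⟨h1, h₂, C₂, u₂, d₂, c₂, v₂, e₂⟩ := lf hθ h₁
  obtain ⟨H, d, c, e⟩ := (vd_iu three_ne_zero d₁).comp three_ne_zero (vd_iu three_ne_zero d₂)
  have n : ¬(p : ℤ) ∣ NE (θ * θ') := by
    rw [X.cr.mul, (Nat.prime_iff_prime_int.1 Fact.out).dvd_mul]
    exact fun x => x.elim hθ hθ'
  refine (uniq n ⟨h, h₂, H, u₁ * u₂, d, by rw [c, X.cr.mul, Nat.cast_mul, c₁, c₂],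
    (v₁.mul v₂).congr rfl (by rw [map_mul, mul_comm]), fun P => ?_⟩).symm
  rw [EE_mul, ← e₁, ← e₂, ← e]
  rfl

lemma int {n : ℤ} (hn : ¬(p : ℤ) ∣ n) (h : X.Dk t) : X.h n t = t := by
  have tm := (X.tm (mt Int.natCast_dvd.2 hn)).up h.rd
  have n2 : ¬(p : ℤ) ∣ NE (n : X.E) := by
    rw [X.cr.int]
    exact mt (Nat.prime_iff_prime_int.1 Fact.out).dvd_of_dvd_pow hn
  have c : ((tors (X.fA t) (X.fB t) n.natAbs).card : ℤ) = NE (n : X.E) := by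
    rw [tm.card, X.cr.int, Nat.cast_pow, Int.natCast_natAbs, sq_abs]
  have v : Ev (resPlc X.O) (n : ℂ) (cE X.good n) := (Ev.int _ n).congr rfl (map_intCast _ n).symm
  refine (uniq n2 ⟨h, h, _, n, ?_, c, v, fun P => ?_⟩).symm
  · obtain ⟨m, rfl | rfl⟩ := n.eq_nat_or_neg
    · simpa using tm.vd
    · simpa using tm.vd.neg_u
  · rw [EE_int, ← map_zsmul]
    congr 1
    obtain ⟨m, rfl | rfl⟩ := n.eq_nat_or_neg
    · simpa using tm.vm_eq P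
    · simpa using (tm.vd.vm_neg_u P).trans (congrArg Neg.neg (tm.vm_eq P))

end LiftNA

theorem lift2 : LIFT2 := fun _ _ _ =>
  ⟨fun _ _ => LiftNA.lf, fun _ _ _ => LiftNA.uniq, fun _ _ h _ _ _ _ => LiftNA.ker h,
    fun _ _ _ => LiftNA.mul, fun _ _ => LiftNA.int⟩

end Pool.Agent.MP_c481b3_nt.H79
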