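import Pool.Agent.MP_c481b3_nt.H79.SpecH
import Pool.Agent.MP_c481b3_nt.H79.Glob

/-! The local condition at the ramified prime. -/

set_option autoImplicit false

namespace Pool.Agent.MP_c481b3_nt.H79

open Pool.Agent.MP_c481b3_nt.H81 Pool.Agent.MP_c481b3_nt.H28 Polynomial IsLocalRing

namespace LocA

variable {O : ValuationSubring ℂ}

lemma res_zero (x : O) : residue O x = 0 ↔ O.valuation (x : ℂ) < 1 := by
  rw [residue_eq_zero_iff, ValuationSubring.valuation_lt_one_iff]

lemma swap {g : ℚ[X]} (gm : g.Monic) (ge : Even g.natDegree) (T : Finset ℂ) :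
    ((g.aroots ℂ).map fun ρ => ∏ t ∈ T, (ρ - t)).prod = ∏ t ∈ T, aeval t g := by
  simp only [Finset.prod_eq_multiset_prod]
  rw [Multiset.prod_map_prod_map]
  refine congrArg _ (Multiset.map_congr rfl fun t _ => ?_)
  have hs := IsAlgClosed.splits (g.map (algebraMap ℚ ℂ))
  have e := congrArg (eval t) (hs.eq_prod_roots_of_monic (gm.map _))
  have hc : (g.aroots ℂ).card = g.natDegree := by
    rw [aroots_def, ← hs.natDegree_eq_card_roots, natDegree_map]
  rw [eval_map_algebraMap, eval_multiset_prod, Multiset.map_map, ← aroots_def] at e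
  have e2 : ((g.aroots ℂ).map fun ρ => ρ - t) = ((g.aroots ℂ).map fun ρ => t - ρ).map Neg.neg := by
    rw [Multiset.map_map]; simp
  rw [e, e2, Multiset.prod_map_neg, Multiset.card_map, hc, ge.neg_one_pow, one_mul]
  simp

end LocA

open LocA GlobA in
theorem loc_of : HALF → LOCQ → NRM → LOC := by
  classical
  intro hH hQ hN l _ O ι s g F R Z c w hP hs gm hg F0 c1 hRZ Fn hfix w0 hw
  have hl : l.Prime := Fact.out
  obtain ⟨ge, hn⟩ := hN g gm fun ρ h => (hg ρ h).1
  have Fne : F ≠ 0 := by rintro rfl; simp at F0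
  set T : Finset ℂ := (F.aroots ℂ).toFinset.filter
    fun t => ∃ ρ ∈ g.aroots ℂ, O.valuation (t - ρ) < 1 with hT
  have mT : ∀ t, t ∈ T ↔ t ∈ F.aroots ℂ ∧ ∃ ρ ∈ g.aroots ℂ, O.valuation (t - ρ) < 1 := by
    intro t; rw [hT, Finset.mem_filter, Multiset.mem_toFinset]
  have TO : ∀ t ∈ T, t ∈ O := fun t ht => by
    obtain ⟨-, ρ, h1, h2⟩ := (mT t).1 ht
    have := add_mem ((O.valuation_le_one_iff _).1 h2.le) (hg ρ h1).2.1
    rwa [sub_add_cancel] at this
  obtain ⟨⟨a, b, hab⟩, h, hm, hh⟩ := hH l O ι s T g hP hs TO (fun τ hτ t ht => by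
    obtain ⟨h0, ρ, h1, h2⟩ := (mT t).1 ht
    refine (mT _).2 ⟨?_, τ ρ, ?_, by rwa [← map_sub, hP.stab τ hτ]⟩
    · rw [mem_aroots] at h0 ⊢
      exact ⟨h0.1, (aeval_algHom_apply (τ : ℂ →+* ℂ).toIntAlgHom t F).trans (by simp [h0.2])⟩
    · rw [mem_aroots] at h1 ⊢
      exact ⟨h1.1, (aeval_algHom_apply (τ : ℂ →+* ℂ).toRatAlgHom ρ g).trans (by simp [h1.2])⟩)
    fun τ hτ t ht e => by
      obtain ⟨h0, ρ, h1, h2⟩ := (mT t).1 ht
      exact hfix t h0 ρ h1 h2 τ hτ e
  set P : O[X] := ∏ t ∈ T.subtype (· ∈ O), (X - C t) with hPd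
  have Pm : P.Monic := monic_prod_of_monic _ _ fun t _ => monic_X_sub_C _
  have Pe : P.map O.subtype = ∏ t ∈ T, (X - C t) := by
    rw [hPd, Polynomial.map_prod, ← Finset.prod_subtype_of_mem (fun t => X - C t) TO]
    simp
  have inj : Function.Injective O.subtype := Subtype.val_injective
  have mi : ∀ G : ℤ[X], (G.map (Int.castRingHom O)).map O.subtype = G.map (algebraMap ℤ ℂ) := by
    intro G; rw [map_map]; congr 1
  have mk : ∀ G : ℤ[X], (G.map (Int.castRingHom O)).map (residue O)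
      = G.map (Int.castRingHom (ResidueField O)) := by
    intro G; rw [map_map]; congr 1
  have Fc0 : F.map (algebraMap ℤ ℂ) ≠ 0 :=
    (Polynomial.map_ne_zero_iff (FaithfulSMul.algebraMap_injective ℤ ℂ)).2 Fne
  obtain ⟨F1, hF1⟩ : P ∣ F.map (Int.castRingHom O) := by
    rw [← map_dvd_map O.subtype inj Pm, Pe, mi, Finset.prod_eq_multiset_prod,
      Multiset.prod_X_sub_C_dvd_iff_le_roots Fc0, ← aroots_def,
      Multiset.le_iff_subset T.nodup]
    exact fun t ht => ((mT t).1 ht).1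
  have eC : F.map (algebraMap ℤ ℂ) = (∏ t ∈ T, (X - C t)) * F1.map O.subtype := by
    rw [← mi, hF1, Polynomial.map_mul, Pe]
  have := res_charP (O := O) hl hP.vp
  have l0 : Int.castRingHom (ResidueField O) (l : ℤ) = 0 := by simp
  have eP : P.map (residue O) = h.map (Int.castRingHom (ResidueField O)) ^ 2 := by
    rw [← mk, ← Polynomial.map_pow, ← sub_eq_zero, ← Polynomial.map_sub]
    ext i
    rw [coeff_map, coeff_zero, res_zero]
    have e := hh i
    rw [← Pe, show Int.castRingHom ℂ = algebraMap ℤ ℂ from rfl, ← mi, ← Polynomial.map_pow,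
      ← Polynomial.map_sub, coeff_map] at e
    exact e
  have eF : F.map (Int.castRingHom (ResidueField O))
      = h.map (Int.castRingHom (ResidueField O)) ^ 2 * F1.map (residue O) := by
    rw [← mk, hF1, Polynomial.map_mul, eP]
  have eR := congrArg (Polynomial.map (Int.castRingHom (ResidueField O))) hRZ
  rw [Polynomial.map_add, Polynomial.map_mul, Polynomial.map_mul (p := C (l : ℤ)), map_C, l0,
    C_0, zero_mul, add_zero, eF, Polynomial.map_pow] at eR
  have hm' := hm.map (Int.castRingHom (ResidueField O))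
  have hd : h.map (Int.castRingHom (ResidueField O)) ∣ R.map (Int.castRingHom (ResidueField O)) :=
    (IsIntegrallyClosed.pow_dvd_pow_iff two_ne_zero).1
      (eR ▸ Dvd.dvd.mul_left (dvd_mul_right _ _) _)
  have eS : R.map (Int.castRingHom (ResidueField O)) = h.map (Int.castRingHom (ResidueField O)) *
      (R /ₘ h).map (Int.castRingHom (ResidueField O)) := by
    rw [map_divByMonic _ hm]
    have := modByMonic_add_div (R.map (Int.castRingHom (ResidueField O)))
      (h.map (Int.castRingHom (ResidueField O)))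
    rw [(modByMonic_eq_zero_iff_dvd hm').2 hd, zero_add] at this
    exact this.symm
  have eK : (C c * (X - 1728) : ℤ[X]).map (Int.castRingHom (ResidueField O)) * F1.map (residue O)
      = (R /ₘ h).map (Int.castRingHom (ResidueField O)) ^ 2 := by
    apply mul_left_cancel₀ (pow_ne_zero 2 hm'.ne_zero)
    rw [← mul_pow, ← eS, ← eR]; ring
  obtain ⟨⟨u, -, hu⟩, -⟩ := hn (R /ₘ h)
  have F1O : ∀ ρ ∈ O, (F1.map O.subtype).eval ρ ∈ O := fun ρ hρ => by
    have := eval_map_apply (p := F1) O.subtype ⟨ρ, hρ⟩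
    rw [show (F1.map O.subtype).eval ρ = _ from this]
    exact SetLike.coe_mem _
  have near : ∀ ρ ∈ O, O.valuation ((c : ℂ) * ((ρ - 1728) * (F1.map O.subtype).eval ρ)
      - aeval ρ (R /ₘ h) ^ 2) < 1 := fun ρ hρ => by
    have e : residue O ((((C c * (X - 1728) : ℤ[X]).map (Int.castRingHom O)) * F1
        - (R /ₘ h).map (Int.castRingHom O) ^ 2).eval ⟨ρ, hρ⟩) = 0 := by
      rw [← eval_map_apply, Polynomial.map_sub, Polynomial.map_mul, Polynomial.map_pow, mk, mk, eK,
        sub_self, eval_zero]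
    rw [res_zero] at e
    refine lt_of_eq_of_lt (congrArg _ ?_) e
    rw [show ∀ x : O, (x : ℂ) = O.subtype x from fun _ => rfl, ← eval_map_apply, Polynomial.map_sub,
      Polynomial.map_mul, Polynomial.map_pow, mi, mi, ← eval_map_algebraMap]
    simp [mul_assoc]
  have one : ∀ ρ ∈ g.aroots ℂ, O.valuation ((F1.map O.subtype).eval ρ) = 1 := fun ρ hρ => by
    refine le_antisymm (v_le (F1O ρ (hg ρ hρ).2.1)) (not_lt.1 fun h1 => ?_)
    obtain ⟨i, hi⟩ : ∃ i, residue O (F1.coeff i) ≠ 0 := by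
      by_contra hc
      push Not at hc
      have e : F1.map (residue O) = 0 := Polynomial.ext fun i => by simpa using hc i
      rw [e, mul_zero] at eF
      refine F0 (Polynomial.ext fun i => ?_)
      have := congrArg (fun G => G.coeff i) eF
      simp only [coeff_map, eq_intCast, coeff_zero] at this ⊢
      rwa [ZMod.intCast_zmod_eq_zero_iff_dvd, ← CharP.intCast_eq_zero_iff (ResidueField O) l]
    rw [Ne, res_zero, not_lt] at hi
    obtain ⟨t, t1, t2⟩ := exists_root_near O (hg ρ hρ).2.1 (F1.map O.subtype) (i := i)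
      (by rw [coeff_map]; exact h1.trans_le hi)
    have hne := eC ▸ Fc0
    rw [aroots_def, eC, roots_mul hne, roots_prod_X_sub_C, Multiset.nodup_add] at Fn
    have t3 : t ∈ (F1.map O.subtype).roots := (mem_roots (right_ne_zero_of_mul hne)).2 t1
    refine Multiset.disjoint_left.1 Fn.2.2 ((mT t).2 ⟨?_, ρ, hρ, t2⟩) t3
    rw [aroots_def, eC, roots_mul hne]
    exact Multiset.mem_add.2 (Or.inr t3)
  set U := ((g.aroots ℂ).map fun ρ => (ρ - 1728) * (F1.map O.subtype).eval ρ).prod with hU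
  have ew : (w : ℂ) = U * ι (a ^ 2 + l * b ^ 2) := by
    rw [hw, Nr, ← hab, ← swap gm ge, hU, ← Multiset.prod_map_mul]
    refine congrArg _ (Multiset.map_congr rfl fun ρ _ => ?_)
    rw [map_mul, ← eval_map_algebraMap F, eC, eval_mul, eval_prod]
    simp only [map_sub, aeval_X, map_ofNat, eval_sub, eval_X, eval_C]
    ring
  have n0 : a ^ 2 + l * b ^ 2 ≠ 0 := by
    rintro e
    rw [e, map_zero, mul_zero] at ew
    exact w0 (by exact_mod_cast ew)
  have eU : ι (w / (a ^ 2 + l * b ^ 2)) = U := by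
    rw [map_div₀, map_ratCast, ew, mul_div_cancel_right₀ _ ((map_ne_zero ι).2 n0)]
  have U1 : O.valuation U = 1 := prod_one fun ρ hρ => by
    rw [map_mul, (hg ρ hρ).2.2, one ρ hρ, mul_one]
  have U2 : O.valuation (U - (u : ℂ) ^ 2) < 1 := by
    have hc : (g.aroots ℂ).card = g.natDegree := by
      rw [aroots_def, ← (IsAlgClosed.splits _).natDegree_eq_card_roots, natDegree_map]
    have := prod_near (O := O) (s := g.aroots ℂ)
      (f := fun ρ => (c : ℂ) * ((ρ - 1728) * (F1.map O.subtype).eval ρ))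
      (f' := fun ρ => aeval ρ (R /ₘ h) ^ 2) fun ρ hρ =>
      ⟨mul_mem (intCast_mem O c) (mul_mem (sub_mem (hg ρ hρ).2.1 (ofNat_mem O 1728))
        (F1O ρ (hg ρ hρ).2.1)), pow_mem (aeval_mem (hg ρ hρ).2.1 _) 2, near ρ (hg ρ hρ).2.1⟩
    obtain ⟨k, hk⟩ := ge
    have c2 : (c : ℂ) ^ (k + k) = 1 := by
      rw [← two_mul, pow_mul, show (c : ℂ) ^ 2 = 1 by exact_mod_cast c1, one_pow]
    rwa [Multiset.prod_map_mul, Multiset.map_const', Multiset.prod_replicate, hc, hk, c2, one_mul,
      Multiset.prod_map_pow, ← Nr, ← hu] at this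
  refine hQ l w u (w / (a ^ 2 + l * b ^ 2)) a b w0 (le_antisymm ?_ ?_) ?_
    (div_mul_cancel₀ _ n0).symm
  · rw [← hP.mem, eU, ← O.valuation_le_one_iff, U1]
  · rw [← norm_one (α := ℚ_[l]), ← hP.le, eU, U1, map_one, map_one]
  · rw [← hP.lt, map_sub, eU, map_pow, map_ratCast]; exact U2

end Pool.Agent.MP_c481b3_nt.H79
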