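import Pool.Agent.MP_c481b3_nt.H79.SpecH

/-! Norms from the ramified quadratic extension. -/

set_option autoImplicit false

namespace Pool.Agent.MP_c481b3_nt.H79

namespace LocqA

variable {l : ℕ} [Fact l.Prime]

/-- congruent to the square of a unit -/
def N (x : ℚ_[l]) : Prop := ∃ c : ℚ_[l], ‖c‖ = 1 ∧ ‖x - c ^ 2‖ < 1

theorem add_lt {x y : ℚ_[l]} (hx : ‖x‖ < 1) (hy : ‖y‖ < 1) : ‖x + y‖ < 1 :=
  (Padic.nonarchimedean x y).trans_lt (max_lt hx hy)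

theorem N.one {x : ℚ_[l]} (h : N x) : ‖x‖ = 1 := by
  obtain ⟨c, h1, h2⟩ := h
  have h3 : ‖c ^ 2‖ = 1 := by rw [norm_pow, h1, one_pow]
  exact (Padic.norm_eq_of_norm_sub_lt_right (h3 ▸ h2)).trans h3

theorem N.mul {x y : ℚ_[l]} (hx : N x) (hy : N y) : N (x * y) := by
  have h0 := hy.one
  obtain ⟨c, h1, h2⟩ := hx
  obtain ⟨d, h3, h4⟩ := hy
  refine ⟨c * d, by rw [norm_mul, h1, h3, one_mul], ?_⟩
  rw [show x * y - (c * d) ^ 2 = (x - c ^ 2) * y + c ^ 2 * (y - d ^ 2) by ring]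
  refine add_lt ?_ ?_
  · rwa [norm_mul, h0, mul_one]
  · rwa [norm_mul, norm_pow, h1, one_pow, one_mul]

theorem N.rat {x : ℚ_[l]} (h : N x) : ∃ r : ℚ, ‖x - (r : ℚ_[l]) ^ 2‖ < 1 := by
  obtain ⟨c, h1, h2⟩ := h
  obtain ⟨r, hr⟩ := Padic.rat_dense l c one_pos
  have h3 : ‖(r : ℚ_[l])‖ = 1 := (Padic.norm_eq_of_norm_sub_lt_left (h1 ▸ hr)).symm.trans h1
  refine ⟨r, ?_⟩
  rw [show x - (r : ℚ_[l]) ^ 2 = (x - c ^ 2) + (c - r) * (c + r) by ring]
  refine add_lt h2 ?_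
  rw [norm_mul]
  exact mul_lt_one_of_nonneg_of_lt_one_left (norm_nonneg _) hr
    ((Padic.nonarchimedean _ _).trans (max_le h1.le h3.le))

theorem form {a b : ℚ_[l]} (h : a ^ 2 + l * b ^ 2 ≠ 0) :
    ∃ k : ℤ, N ((a ^ 2 + (l : ℚ_[l]) * b ^ 2) / (l : ℚ_[l]) ^ k) := by
  have l0 : (l : ℚ_[l]) ≠ 0 := Nat.cast_ne_zero.2 (Fact.out : l.Prime).ne_zero
  have l1 : (1 : ℝ) < l := by exact_mod_cast (Fact.out : l.Prime).one_lt
  have hu : ∀ x : ℚ_[l], x ≠ 0 → ‖(l : ℚ_[l]) ^ x.valuation‖ = ‖x‖ := fun x hx => by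
    rw [Padic.norm_p_zpow, Padic.norm_eq_zpow_neg_valuation hx]
  rcases le_or_gt ‖b‖ ‖a‖ with hab | hab
  · have a0 : a ≠ 0 := by
      rintro rfl
      rw [norm_zero, norm_le_zero_iff] at hab
      exact h (by simp [hab])
    have a1 := norm_pos_iff.2 a0
    refine ⟨a.valuation * 2, a / l ^ a.valuation, by rw [norm_div, hu a a0, div_self a1.ne'], ?_⟩
    have e : (a ^ 2 + l * b ^ 2) / (l : ℚ_[l]) ^ (a.valuation * 2) - (a / l ^ a.valuation) ^ 2 =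
        l * (b / l ^ a.valuation) ^ 2 := by
      rw [zpow_mul, zpow_ofNat, div_pow, div_pow]; ring
    rw [e, norm_mul, norm_pow, norm_div, hu a a0]
    exact mul_lt_one_of_nonneg_of_lt_one_left (norm_nonneg _) Padic.norm_p_lt_one
      (pow_le_one₀ (by positivity) ((div_le_one a1).2 hab))
  · have b1 : 0 < ‖b‖ := (norm_nonneg a).trans_lt hab
    have b0 := norm_pos_iff.1 b1
    refine ⟨b.valuation * 2 + 1, b / l ^ b.valuation, by
      rw [norm_div, hu b b0, div_self b1.ne'], ?_⟩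
    have e : (a ^ 2 + l * b ^ 2) / (l : ℚ_[l]) ^ (b.valuation * 2 + 1) -
        (b / l ^ b.valuation) ^ 2 = (a / l ^ b.valuation) ^ 2 / l := by
      rw [zpow_add_one₀ l0, zpow_mul, zpow_ofNat, div_pow, div_pow]
      field_simp
      ring
    have h1 : ‖a / (l : ℚ_[l]) ^ b.valuation‖ ≤ (l : ℝ) ^ (-1 : ℤ) := by
      rw [Padic.norm_le_pow_iff_norm_lt_pow_add_one, norm_div, hu b b0]
      simpa using (div_lt_one b1).2 hab
    rw [zpow_neg_one] at h1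
    have h2 : (l : ℝ)⁻¹ < 1 := inv_lt_one_of_one_lt₀ l1
    have h3 : 0 < (l : ℝ)⁻¹ := by positivity
    rw [e, norm_div, norm_pow, Padic.norm_p, div_lt_one h3]
    nlinarith [norm_nonneg (a / (l : ℚ_[l]) ^ b.valuation)]

end LocqA

open LocqA

theorem locq : LOCQ := by
  intro l _ w u U a b hw hU hu e
  have h0 : a ^ 2 + l * b ^ 2 ≠ 0 := fun h => hw (by
    rw [h, mul_zero] at e
    exact_mod_cast e)
  obtain ⟨k, hk⟩ := form h0
  have h1 : ‖(u : ℚ_[l]) ^ 2‖ = 1 := (Padic.norm_eq_of_norm_sub_lt_left (hU ▸ hu)).symm.trans hU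
  have h2 : N U := ⟨u, by rwa [norm_pow, pow_eq_one_iff_of_nonneg (norm_nonneg _) two_ne_zero] at h1,
    hu⟩
  have h3 := h2.mul hk
  rw [← mul_div_assoc, ← e] at h3
  obtain ⟨r, hr⟩ := h3.rat
  refine ⟨k, r, ?_, ?_⟩
  · have := Padic.eq_padicNorm (p := l) (w / l ^ k)
    push_cast at this
    rw [h3.one] at this
    exact_mod_cast this.symm
  · have := Padic.eq_padicNorm (p := l) (w / l ^ k - r ^ 2)
    push_cast at this
    rw [this] at hr
    exact_mod_cast hr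

end Pool.Agent.MP_c481b3_nt.H79
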