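import Pool.Agent.MP_c481b3_nt.H79.Iu

/-! Transport of quotients along endomorphisms, and removal of an inert prime. -/

set_option autoImplicit false

namespace Pool.Agent.MP_c481b3_nt.H79

open Pool.Agent.MP_c481b3_nt.H81 Pool.Agent.MP_c481b3_nt.H28

theorem move : MOVE := by
  intro A B v t χ ε D H d hc hH hs
  have h3 : (3 : ℂ) ≠ 0 := three_ne_zero
  have e : H.image (vm D v A B) = H.image (d.hom h3) := rfl
  rw [e]
  have hc' : ∀ P, χ (d.hom h3 P) = d.hom h3 (χ P) := hc
  have m : ∀ Q, d.hom h3 Q ∈ H.image (d.hom h3) ↔ Q ∈ H := fun Q => d.mem_image h3 hH hs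
  have ty : (∀ P, 2 • P ∈ H → χ P - P ∈ H) ↔
      ∀ P, 2 • P ∈ H.image (d.hom h3) → χ P - P ∈ H.image (d.hom h3) := by
    constructor
    · intro h P
      obtain ⟨Q, rfl⟩ := d.surj h3 P
      rw [← map_nsmul, hc', ← map_sub, m, m]
      exact h Q
    · intro h Q
      have := h (d.hom h3 Q)
      rwa [← map_nsmul, hc', ← map_sub, m, m] at this
  constructor
  · rintro ⟨⟨u, A', B', d', j⟩, st, t'⟩
    refine ⟨⟨_, A', B', d.quot h3 hH hs d', j⟩, fun P hP => ?_, t'.trans ty⟩
    obtain ⟨Q, hQ, rfl⟩ := Finset.mem_image.1 hP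
    rw [hc', m]
    exact st Q hQ
  · rintro ⟨⟨u, A', B', d', j⟩, st, t'⟩
    refine ⟨⟨_, A', B', d.comp h3 hH hs d', j⟩, fun P hP => ?_, t'.trans ty.symm⟩
    rw [← m, ← hc']
    exact st _ ((m P).2 hP)

namespace MoveA

variable {A B u : ℂ} {n p : ℕ} {χ : Pt A B →+ Pt A B}

lemma sq_eq (h : Cx n u χ) (P : Pt A B) : χ (χ P) = -(n • P) := by
  obtain ⟨a, e⟩ := cx_iff.1 h
  obtain ⟨-, -, u0, n0⟩ := a.good
  obtain ⟨g, g1, g2, -⟩ := a.dual three_ne_zero (Nat.cast_ne_zero.2 n0)
  have e1 : (n : ℂ) / u = -u := by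
    rw [div_eq_iff u0]
    linear_combination e
  rw [e1] at g1
  have := g1.ext a.neg
  rw [← g2, this, AddMonoidHom.neg_apply, neg_neg]

lemma tors_sub {C : Finset (Pt A B)} (hp : p.Prime) (hn : ¬IsSquare (-(n : ZMod p)))
    (h : Cx n u χ) (T : Tm A B p) (hC : IsSub C) (st : ∀ P ∈ C, χ P ∈ C) (hd : p ∣ C.card) :
    tors A B p ⊆ C := by
  have := Fact.mk hp
  have : Finite (toSub hC) := C.finite_toSet
  obtain ⟨Q, hQ⟩ := exists_prime_addOrderOf_dvd_card' (G := toSub hC) p (by rwa [card_toSub])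
  have q0 : (Q : Pt A B) ≠ 0 := fun e => hp.one_lt.ne' (by
    rw [← hQ, show Q = 0 from Subtype.ext e, addOrderOf_zero])
  have qp : p • (Q : Pt A B) = 0 := by
    rw [← AddSubgroup.coe_nsmul, ← hQ, addOrderOf_nsmul_eq_zero]; rfl
  have qC : (Q : Pt A B) ∈ C := Q.2
  generalize (Q : Pt A B) = P at q0 qp qC
  have hE := isSub_inter hC T.sub
  have pE : P ∈ C ∩ tors A B p := Finset.mem_inter.2 ⟨qC, T.mem.2 qp⟩
  have hdv := card_dvd hE T.sub Finset.inter_subset_right
  rw [T.card, Nat.dvd_prime_pow hp] at hdv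
  obtain ⟨i, hi, ec⟩ := hdv
  have i3 : i = 0 ∨ i = 1 ∨ i = 2 := by omega
  rcases i3 with rfl | rfl | rfl
  · rw [pow_zero] at ec
    exact (q0 (Finset.card_le_one.1 ec.le _ pE _ hE.zero)).elim
  · rw [pow_one] at ec
    have c1 : χ P ∈ C ∩ tors A B p :=
      Finset.mem_inter.2 ⟨st P qC, T.mem.2 (by rw [← map_nsmul, qp, map_zero])⟩
    rw [eq_gen hp hE ec q0 pE, mem_gen hp.ne_zero qp] at c1
    obtain ⟨m, hm⟩ := c1
    have z : (m * m + n : ℤ) • P = 0 := by
      have := sq_eq h P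
      rw [← hm, map_zsmul, ← hm, ← mul_zsmul] at this
      rw [add_zsmul, this, natCast_zsmul, neg_add_cancel]
    rw [← addOrderOf_dvd_iff_zsmul_eq_zero, addOrderOf_eq_prime qp q0,
      ← ZMod.intCast_zmod_eq_zero_iff_dvd] at z
    refine (hn ⟨m, ?_⟩).elim
    push_cast at z
    linear_combination -z
  · have := Finset.eq_of_subset_of_card_le (Finset.inter_subset_right (s₁ := C)
      (s₂ := tors A B p)) (by rw [ec, T.card])
    rw [← this]
    exact Finset.inter_subset_left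

end MoveA

theorem prem_of : MOVE → PREM := by
  intro hm n p A B u t χ ε C hp hn h q
  have T : Tm A B p := ⟨(cx_iff.1 h).1.good.1, three_ne_zero, Nat.cast_ne_zero.2 hp.ne_zero⟩
  induction hc : C.card using Nat.strong_induction_on generalizing C with
  | _ N ih =>
  by_cases hd : p ∣ C.card
  · obtain ⟨u', A', B', d', -⟩ := q.quo
    have hs := MoveA.tors_sub hp hn h T d'.sub q.st hd
    have e : C.image (vm (tors A B p) p A B) = C.image (p • ·) :=
      Finset.image_congr fun P _ => T.vm_eq P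
    have q1 := (hm A B p t χ ε _ C T.vd (fun P => by rw [T.vm_eq, T.vm_eq, map_nsmul]) d'.sub
      hs).1 q
    have c1 : C.card = (C.image (vm (tors A B p) p A B)).card * (tors A B p).card :=
      T.vd.card_image three_ne_zero d'.sub hs
    rw [e] at q1 c1
    have lt : (C.image (p • ·)).card < N := by
      have h0 := card_pos_sub d'.sub
      have h1 : 1 < (tors A B p).card := by rw [T.card]; exact Nat.one_lt_pow two_ne_zero hp.one_lt
      rw [← hc, c1]
      refine lt_mul_of_one_lt_right (Nat.pos_of_ne_zero fun z => ?_) h1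
      rw [c1, z, zero_mul] at h0
      exact h0.false
    obtain ⟨k, hk⟩ := ih _ lt _ q1 rfl
    have e2 : (C.image (p • ·)).image (p ^ k • ·) = C.image (p ^ (k + 1) • ·) := by
      rw [Finset.image_image]
      exact Finset.image_congr fun P _ => by
        simp only [Function.comp, pow_succ, mul_nsmul']
    exact ⟨k + 1, e2 ▸ hk⟩
  · have e : C.image (p ^ 0 • ·) = C := by simp
    exact ⟨0, by rw [e]; exact ⟨q, hd⟩⟩

end Pool.Agent.MP_c481b3_nt.H79
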