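import Pool.Agent.MP_c481b3_nt.H79.SpecN
import Pool.Agent.MP_c481b3_nt.H28.ModSq
import Pool.Agent.MP_c481b3_nt.H28.FDAlg

/-! Two endomorphisms that lift together modulo `w`. -/

set_option autoImplicit false

namespace Pool.Agent.MP_c481b3_nt.H79

open Pool.Agent.MP_c481b3_nt.H81 Pool.Agent.MP_c481b3_nt.H28 Polynomial ModSqAux

namespace Msq2A

lemma iso {L κ : Type} [Field L] [Field κ] [DecidableEq L] [DecidableEq κ] [IsAlgClosed L]
    [IsAlgClosed κ] {π : Plc L κ} {A B A₁ B₁ : L} {A' B' : κ} {r : Rd π A B A' B'}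
    (r₁ : Rd π A₁ B₁ A' B') {q : ℕ} {F : Pt A' B' → Pt A B} (h : ModSqAux.Lf r q F) {l : ℕ}
    (t : Tm A' B' l) (hl : l < q) {D : Finset (Pt A B)} (hD : D ∈ subs A B l) {v w : L} {u : κ}
    (d₁ : VD D v A₁ B₁) (e1 : Ev π v u) (u0 : u ≠ 0) (c : Tc r r₁ w) {R : Type} [CommRing R]
    [Nontrivial R] (φ : π.O →+* R)
    (hφ : ∀ a : π.O, π.O.valuation a ≤ π.O.valuation w → φ a = 0)
    {ι : Type} (Z : Finset ι) (Q : ι → Pt A' B') (hQ : ∀ i ∈ Z, Q i ≠ 0 ∧ q • Q i = 0) :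
    FD Z (fun i => φ (toO π.O (xc (F (Q i)))))
      (fun i => φ (toO π.O (xc (F (vm (D.image r.red) u A' B' (Q i)))))) l
      (φ (toO π.O v ^ 2)) := by
  obtain ⟨c1, c2⟩ := (t.up r).mem_subs.1 hD
  have hc : (D.card : κ) ≠ 0 := c2 ▸ t.ne
  have hf := red_sub_ne r c1 hc
  have d := d₁.red r r₁ e1 u0 hf
  have hE : (D.image r.red).card = l := by rw [card_red r c1 hc, c2]
  have := fd_vm r r₁ d₁ e1 u0 hf Z (fun i => F (Q i)) fun i hi => by
    rw [h.red _ (hQ i hi).2]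
    exact (h.vm_tor t hl hE d (hQ i hi)).1
  rw [c2] at this
  refine fd_map φ this fun i hi => ?_
  obtain ⟨-, v1, v2⟩ := h.vm_tor t hl hE d (hQ i hi)
  have e4 : r₁.red (vm D v A₁ B₁ (F (Q i))) = vm (D.image r.red) u A' B' (Q i) := by
    rw [d₁.red_vm r r₁ e1 u0 hf, h.red _ (hQ i hi).2]
  have e5 := c q (F (vm (D.image r.red) u A' B' (Q i))) (vm D v A₁ B₁ (F (Q i))) h.tm.ne
    (h.tor _ v2)
    (by rw [← d₁.hom_apply (t.up r).three, ← map_nsmul, h.tor _ (hQ i hi).2, map_zero])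
    (fun e => v1 (by rw [← h.red _ v2, e, map_zero])) (by rw [e4, h.red _ v2])
  rw [eq_comm, ← sub_eq_zero, ← map_sub]
  refine hφ _ ?_
  rw [AddSubgroupClass.coe_sub, coe_toO (h.ev v2 v1).mem,
    coe_toO (ev_xc r₁ (by rwa [e4])).mem]
  exact e5

end Msq2A

theorem msq2 : MSQ2 := by
  intro L κ _ _ _ _ _ _ _ π A B A₁ B₁ A₂ B₂ A' B' r r₁ r₂ p l l' t hp p0 tl tl' t0 D hD D' hD'
    v v' u u' d d' ev ev' hu hu' s s' st w hw hw1 hw2
  have h1 := fdComp
  have h2 := fdUniq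
  have h3 := fdTri
  set M := 2 * (l * l' + l' * l + t.natAbs ^ 2) + (l * l + l ^ 2) + (l' * l' + l' ^ 2) with hM
  obtain ⟨q, hq, hq'⟩ := Nat.exists_infinite_primes (2 * M + t.natAbs + l + l' + p + 1)
  have tq : Tm A' B' q := ⟨tl.good, tl.three, fun e => by
    have := (Nat.isCoprime_iff_coprime.2 ((Nat.coprime_primes hp hq').2 (by omega))).map
      (Int.castRingHom κ)
    rw [map_natCast, map_natCast, p0, e] at this
    exact not_isCoprime_zero_zero this⟩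
  have tt : Tm A' B' t.natAbs := ⟨tl.good, tl.three, fun e => t0 (by
    rcases Int.natAbs_eq t with e' | e'
    · rw [e', Int.cast_natCast, e]
    · rw [e', Int.cast_neg, Int.cast_natCast, e, neg_zero])⟩
  choose! F hF hF' using fun (P : Pt A' B') (hP : q • P = 0) => exists_lift r tq hP
  have h : ModSqAux.Lf r q F := ⟨hq', tq, hF, hF'⟩
  obtain ⟨P, hP⟩ : ((tors A' B' q).erase 0).Nonempty := by
    rw [← Finset.card_pos, Finset.card_erase_of_mem tq.sub.zero, tq.card]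
    have := hq'.two_le
    have : 2 * 2 ≤ q * q := Nat.mul_le_mul this this
    rw [sq]; omega
  rw [Finset.mem_erase, tq.mem] at hP
  have hQ : ∀ i ∈ Finset.range M, (i + 1) • P ≠ 0 ∧ q • (i + 1) • P = 0 := fun i hi =>
    ⟨fun e => hP.1 (eq_zero_of_lt hq' i.succ_ne_zero
      (by have := Finset.mem_range.1 hi; omega) hP.2 e), by rw [smul_comm, hP.2, smul_zero]⟩
  have wm : w ∈ π.O := (π.O.valuation_le_one_iff w).1 hw.le
  set I : Ideal π.O := Ideal.span {⟨w, wm⟩} with hI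
  have hm : ∀ a : π.O, Ideal.Quotient.mk I a = 0 ↔ π.O.valuation a ≤ π.O.valuation w := fun a => by
    rw [Ideal.Quotient.eq_zero_iff_mem, hI, Ideal.mem_span_singleton, π.O.valuation_le_iff]
    exact ⟨fun ⟨c, e⟩ => ⟨c, by rw [e, mul_comm]; rfl⟩,
      fun ⟨c, e⟩ => ⟨c, Subtype.ext (by rw [← e, mul_comm]; rfl)⟩⟩
  have : Nontrivial (π.O ⧸ I) := ⟨⟨1, 0, fun e => by
    have := (hm 1).1 (by rw [map_one, e])
    rw [OneMemClass.coe_one, map_one] at this
    exact absurd hw (not_lt.2 this)⟩⟩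
  set φ := Ideal.Quotient.mk I with hφ
  have dist : ∀ i ∈ Finset.range M, ∀ j ∈ Finset.range M, i ≠ j →
      IsUnit (φ (toO π.O (xc (F ((i + 1) • P)))) - φ (toO π.O (xc (F ((j + 1) • P))))) := by
    intro i hi j hj hij
    rw [← map_sub]
    refine (unit_of_ev (b := xc ((i + 1) • P) - xc ((j + 1) • P)) ?_
      (sub_ne_zero.2 fun e => ?_)).map φ
    · have e1 := h.ev (hQ i hi).2 (hQ i hi).1
      have e2 := h.ev (hQ j hj).2 (hQ j hj).1
      rw [AddSubgroupClass.coe_sub, coe_toO e1.mem, coe_toO e2.mem]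
      exact e1.sub e2
    · have hi' := Finset.mem_range.1 hi
      have hj' := Finset.mem_range.1 hj
      rcases eq_or_neg (hQ i hi).1 (hQ j hj).1 e with e | e
      · have := Fact.mk hq'
        have e1 := nsmul_eq_nsmul_iff_modEq.1 e
        rw [addOrderOf_eq_prime hP.2 hP.1] at e1
        exact hij (by have := e1.eq_of_lt_of_lt (by omega) (by omega); omega)
      · rw [eq_neg_iff_add_eq_zero, ← add_nsmul] at e
        exact hP.1 (eq_zero_of_lt hq' (by omega) (by omega) hP.2 e)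
  have key : ∀ {l : ℕ}, Tm A' B' l → l < q → l * l + l ^ 2 ≤ M → ∀ D ∈ subs A B l,
      ∀ (A₁ B₁ v : L) (r₁ : Rd π A₁ B₁ A' B') (u : κ), VD D v A₁ B₁ → Ev π v u → u ^ 2 = -l →
      (∀ P, vm (D.image r.red) u A' B' (vm (D.image r.red) u A' B' P) = -(l • P)) →
      Tc r r₁ w →
      (∀ P, P ≠ 0 ∧ q • P = 0 →
        vm (D.image r.red) u A' B' P ≠ 0 ∧ q • vm (D.image r.red) u A' B' P = 0) ∧
      ∀ Q : ℕ → Pt A' B', (∀ i ∈ Finset.range M, Q i ≠ 0 ∧ q • Q i = 0) →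
        FD (Finset.range M) (fun i => φ (toO π.O (xc (F (Q i)))))
          (fun i => φ (toO π.O (xc (F (vm (D.image r.red) u A' B' (Q i)))))) l (-l) := by
    intro l tl lq lM D hD A₁ B₁ v r₁ u d₁ hv hu s hw1
    obtain ⟨c1, c2⟩ := (tl.up r).mem_subs.1 hD
    have hc : (D.card : κ) ≠ 0 := c2 ▸ tl.ne
    have u0 : u ≠ 0 := fun e => tl.ne (by
      rw [e] at hu
      exact neg_eq_zero.1 (by rw [← hu]; ring))
    have d := d₁.red r r₁ hv u0 (red_sub_ne r c1 hc)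
    have hE : (D.image r.red).card = l := by rw [card_red r c1 hc, c2]
    have k1 := fun P hP => (h.vm_tor tl lq hE d (P := P) hP).2
    have k2 := fun (Q : ℕ → Pt A' B') hQ => Msq2A.iso r₁ h tl lq hD d₁ hv u0 hw1 φ
      (fun a ha => (hm a).2 ha) (Finset.range M) Q hQ
    have f1 := h1 _ _ _ _ _ _ _ _ _ _ (k2 _ hQ) (k2 _ fun i hi => k1 _ (hQ i hi))
    have f2 := fd_map φ (h.mul tl lq _ _ hQ) (fun i hi => by
      rw [← h.neg (by rw [smul_comm, (hQ i hi).2, smul_zero]), ← s])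
    have f3 := h2 _ _ _ _ _ _ _ _ _ dist (by rwa [Finset.card_range]) f1 f2
    have f4 : IsUnit (φ (toO π.O v ^ 2 - l)) := by
      refine (unit_of_ev (b := u ^ 2 - l) ?_ ?_).map φ
      · exact ((hv.pow 2).sub (Ev.nat π l)).congr (by simp [coe_toO hv.mem]) rfl
      · rw [hu, show (-l - l : κ) = -(2 * l) by ring]
        exact neg_ne_zero.2 (mul_ne_zero tl.good.two tl.ne)
    have f5 : φ (toO π.O v ^ 2) = -l := by
      rw [map_sub, map_natCast] at f4
      rw [map_pow _ (l : π.O), map_natCast] at f3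
      exact f4.mul_left_cancel (by linear_combination f3)
    exact ⟨k1, fun Q hQ => f5 ▸ k2 Q hQ⟩
  obtain ⟨k1, k2⟩ := key tl (by omega) (by omega) D hD _ _ v r₁ u d ev hu s hw1
  obtain ⟨k1', k2'⟩ := key tl' (by omega) (by omega) D' hD' _ _ v' r₂ u' d' ev' hu' s' hw2
  have g1 := h1 _ _ _ _ _ _ _ _ _ _ (k2' _ hQ) (k2 _ fun i hi => k1' _ (hQ i hi))
  have g2 := h1 _ _ _ _ _ _ _ _ _ _ (k2 _ hQ) (k2' _ fun i hi => k1 _ (hQ i hi))
  have tz : ∀ Q : Pt A' B', t • Q = t.natAbs • Q ∨ t • Q = -(t.natAbs • Q) := fun Q => by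
    rcases Int.natAbs_eq t with e | e
    · exact Or.inl (by rw [← natCast_zsmul, ← e])
    · exact Or.inr (by rw [← natCast_zsmul, ← neg_zsmul, ← e])
  have tn : ∀ Q : Pt A' B', Q ≠ 0 ∧ q • Q = 0 → t.natAbs • Q ≠ 0 ∧ q • t.natAbs • Q = 0 :=
    fun Q hQ => ⟨fun e => hQ.1 (eq_zero_of_lt hq' tt.pos (by omega) hQ.2 e),
      by rw [smul_comm, hQ.2, smul_zero]⟩
  have g3 := fd_map φ (h.mul tt (by omega) _ _ hQ)
    (ξ' := fun i => φ (toO π.O (xc (F (t • (i + 1) • P))))) (fun i hi => by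
      rcases tz ((i + 1) • P) with e | e
      · rw [e]
      · rw [e, h.neg (tn _ (hQ i hi)).2])
  have g4 := h3 _ _ _ _ _ _ _ _ _ _ _ _ _ (φ (toO π.O A)) (φ (toO π.O B)) dist
    (by rw [Finset.card_range]; omega) g1 g2 g3 fun i hi => by
      have := congrArg φ (h.col (k1 _ (k1' _ (hQ i hi))) (k1' _ (k1 _ (hQ i hi)))
        (P₃ := t • (i + 1) • P) (by
          obtain ⟨n1, n2⟩ := tn _ (hQ i hi)
          rcases tz ((i + 1) • P) with e | e <;> rw [e]
          · exact ⟨n1, n2⟩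
          · exact ⟨neg_ne_zero.2 n1, by rw [smul_neg, n2, neg_zero]⟩) (st _))
      simpa only [map_pow, map_sub, map_add, map_mul, map_ofNat] using this
  have g5 : IsUnit (t : π.O ⧸ I) := by
    have := (unit_of_ev (π := π) (a := (t : π.O)) ((Ev.int π t).congr (by simp) rfl) t0).map φ
    rwa [map_intCast] at this
  have g6 : φ ((t.natAbs : π.O) ^ 2) = (t : π.O ⧸ I) ^ 2 := by
    rw [map_pow, map_natCast, ← Int.cast_natCast, ← Int.cast_pow, Int.natAbs_sq, Int.cast_pow]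
  rw [g6] at g4
  have g7 := (hm ((t ^ 2 - 4 * l * l' : ℤ) : π.O)).1 (by
    rw [map_intCast]
    push_cast
    exact (g5.pow 2).mul_left_cancel (by linear_combination g4))
  rwa [SubringClass.coe_intCast] at g7

end Pool.Agent.MP_c481b3_nt.H79
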