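import Pool.Agent.MP_c481b3_nt.H79.SpecA
import Pool.Agent.MP_c481b3_nt.H31F.All
import Pool.Agent.MP_c481b3_nt.H31F.K4
import Pool.Agent.MP_c481b3_nt.H31F.Phi

/-! The roots of odd multiplicity of the diagonal polynomial. -/

set_option autoImplicit false

namespace Pool.Agent.MP_c481b3_nt.H79

open UpperHalfPlane hiding I
open Polynomial Pool.Agent.MP_c481b3_nt.H31F Filter Topology Finset
open scoped Manifold

namespace MultA

/-- the order of vanishing -/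
noncomputable def od (f : ℍ → ℂ) (τ : ℍ) : ℕ∞ := analyticOrderAt (fun z : ℂ => f (ofComplex z)) τ

variable {f g : ℍ → ℂ} {τ : ℍ} {Λ Λ' : M2}

lemma an (hf : Hol f) (τ : ℍ) : AnalyticAt ℂ (fun z : ℂ => f (ofComplex z)) τ :=
  (UpperHalfPlane.mdifferentiable_iff.1 hf).analyticAt (isOpen_upperHalfPlaneSet.mem_nhds τ.im_pos)

lemma od_mul (hf : Hol f) (hg : Hol g) : od (fun s => f s * g s) τ = od f τ + od g τ :=
  analyticOrderAt_mul (an hf τ) (an hg τ)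

lemma od_zero (hf : Hol f) : od f τ = 0 ↔ f τ ≠ 0 := by
  rw [od, (an hf τ).analyticOrderAt_eq_zero, ofComplex_apply]

lemma od_unit (hf : Hol f) (hg : Hol g) (h : g τ ≠ 0) : od (fun s => f s * g s) τ = od f τ := by
  rw [od_mul hf hg, (od_zero hg).2 h, add_zero]

lemma od_pow (hf : Hol f) (n : ℕ) : od (fun s => f s ^ n) τ = n • od f τ :=
  analyticOrderAt_pow (an hf τ) n

lemma od_prod {ι : Type} (s : Finset ι) (F : ι → ℍ → ℂ) (hF : ∀ i ∈ s, Hol (F i)) :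
    Hol (fun x => ∏ i ∈ s, F i x) ∧ od (fun x => ∏ i ∈ s, F i x) τ = ∑ i ∈ s, od (F i) τ := by
  classical
  induction s using Finset.induction_on with
  | empty => exact ⟨mdifferentiable_const, (od_zero mdifferentiable_const).2 one_ne_zero⟩
  | insert a s ha ih =>
    have h1 := ih fun i hi => hF i (mem_insert_of_mem hi)
    have h2 := hF a (mem_insert_self _ _)
    simp only [prod_insert ha, sum_insert ha]
    exact ⟨h2.mul h1.1, by rw [od_mul h2 h1.1, h1.2]⟩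

lemma hol_eval (hf : Hol f) (P : ℂ[X]) : Hol fun s => P.eval (f s) :=
  P.differentiable.mdifferentiable.comp hf

lemma fac (h : 0 < Λ.det) (hτ : act Λ τ = τ) : ∃ v : ℂ → ℂ, AnalyticAt ℂ v τ ∧
    v τ = Λ.det / den Λ τ ^ 2 ∧
    ∀ᶠ z in 𝓝 (τ : ℂ), (act Λ (ofComplex z) : ℂ) - τ = (z - τ) * v z := by
  have h0 := den_ne h τ
  refine ⟨fun z => Λ.det / (den Λ (ofComplex z) * den Λ τ),
    analyticAt_const.div ((an (hol_den Λ) τ).mul analyticAt_const)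
      (mul_ne_zero (den_ne h _) h0), by simp [pow_two], ?_⟩
  filter_upwards [isOpen_upperHalfPlaneSet.mem_nhds τ.im_pos] with z hz
  have h1 := den_ne h (ofComplex z)
  have h2 := (act_eq_self h).1 hτ
  have h3 : ((ofComplex z : ℍ) : ℂ) = z := by rw [ofComplex_apply_of_im_pos hz]
  rw [coe_act h, Matrix.det_fin_two]
  field_simp
  simp only [den, h3] at h2 ⊢
  push_cast
  linear_combination (Λ 1 0 * z + Λ 1 1) * h2

lemma an_act (h : 0 < Λ.det) (τ : ℍ) : AnalyticAt ℂ (fun z : ℂ => (act Λ (ofComplex z) : ℂ)) τ :=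
  an (Hol.act (f := fun s => (s : ℂ)) mdifferentiable_coe h) τ

lemma od_act (hf : Hol f) (h : 0 < Λ.det) (hτ : act Λ τ = τ) :
    od (fun s => f (act Λ s)) τ = od f τ := by
  obtain ⟨v, h1, h2, h3⟩ := fac h hτ
  have e : (act Λ (ofComplex (τ : ℂ)) : ℂ) = τ := by rw [ofComplex_apply, hτ]
  have h4 := AnalyticAt.analyticOrderAt_comp (f := fun z : ℂ => f (ofComplex z))
    (e.symm ▸ an hf τ) (an_act h τ)
  have h5 : analyticOrderAt (fun z : ℂ => (act Λ (ofComplex z) : ℂ) - τ) τ = (1 : ℕ) :=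
    ((an_act h τ).sub (analyticAt_const (v := (τ : ℂ)))).analyticOrderAt_eq_natCast.2
    ⟨v, h1, h2 ▸ div_ne_zero (by exact_mod_cast h.ne') (pow_ne_zero 2 (den_ne h τ)),
      h3.mono fun z hz => by rw [pow_one]; exact hz⟩
  simp only [hτ, Function.comp_def, ofComplex_apply] at h4
  rw [od, h4, h5, Nat.cast_one, mul_one, od]

lemma den_sq (h : 0 < Λ.det) (hτ : act Λ τ = τ) (ht : Λ.trace = 0) : den Λ τ ^ 2 = -Λ.det := by
  have h2 := (act_eq_self h).1 hτ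
  have h3 : (Λ 0 0 : ℂ) + Λ 1 1 = 0 := by exact_mod_cast (Matrix.trace_fin_two Λ).symm.trans ht
  rw [Matrix.det_fin_two]
  simp only [den] at h2 ⊢
  push_cast
  linear_combination -Λ 1 0 * h2 + (Λ 1 0 * τ + Λ 1 1) * h3

lemma od_odd (hf : Hol f) (h : 0 < Λ.det) (hτ : act Λ τ = τ) (ht : Λ.trace = 0) {k : ℕ}
    (hk : Odd k) (ho : od (fun s => f s - f τ) τ = k) :
    od (fun s => f s - f (act Λ s)) τ = k := by
  obtain ⟨v, h1, h2, h3⟩ := fac h hτ
  have d0 : (Λ.det : ℂ) ≠ 0 := by exact_mod_cast h.ne'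
  rw [den_sq h hτ ht, div_neg, div_self d0] at h2
  obtain ⟨u, u1, u2, u3⟩ := (an (hf.sub mdifferentiable_const) τ).analyticOrderAt_eq_natCast.1 ho
  have e : (act Λ (ofComplex (τ : ℂ)) : ℂ) = τ := by rw [ofComplex_apply, hτ]
  have hc : Tendsto (fun z : ℂ => (act Λ (ofComplex z) : ℂ)) (𝓝 τ) (𝓝 τ) := by
    simpa only [ContinuousAt, e] using (an_act h τ).continuousAt
  refine (an (hf.sub (hf.act h)) τ).analyticOrderAt_eq_natCast.2
    ⟨fun z => u z - v z ^ k * u (act Λ (ofComplex z)),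
      u1.sub ((h1.pow k).mul (AnalyticAt.comp (g := u) (e.symm ▸ u1) (an_act h τ))), ?_, ?_⟩
  · simp only [e, h2, hk.neg_one_pow]
    intro h0
    exact u2 (by linear_combination h0 / 2)
  · filter_upwards [u3, hc.eventually u3, h3] with z a1 a2 a3
    simp only [Pi.sub_apply, ofComplex_apply, smul_eq_mul, a3, mul_pow] at a1 a2 ⊢
    linear_combination a1 - a2

/-- the matrices that fix the point and have the given sign -/
structure SS (n : ℕ) (e : ℤ) (τ : ℍ) (Λ : M2) : Prop where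
  det : Λ.det = n
  fix : act Λ τ = τ
  sg : eps Λ = e

/-- the negative of the adjugate -/
def io (Λ : M2) : M2 := !![-Λ 1 1, Λ 0 1; Λ 1 0, -Λ 0 0]

variable {n : ℕ} {e : ℤ}

lemma SS.pos (h : SS n e τ Λ) (hn : Odd n) : 0 < Λ.det := by
  rw [h.det]; exact_mod_cast hn.pos

lemma SS.neg (h : SS n e τ Λ) (hn : Odd n) : SS n e τ (-Λ) := by
  have h1 : (-Λ).det = Λ.det := by simp [Matrix.det_fin_two]
  refine ⟨h1.trans h.det, (act_eq_self (h1 ▸ h.pos hn)).2 ?_, by simp [← h.sg, eps]⟩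
  have := (act_eq_self (h.pos hn)).1 h.fix
  simp only [den, Matrix.neg_apply] at this ⊢
  push_cast
  linear_combination -this

lemma det_io : (io Λ).det = Λ.det := by simp [io, Matrix.det_fin_two, mul_comm]

lemma SS.inv (h : SS n e τ Λ) (hn : Odd n) : SS n e τ (io Λ) := by
  refine ⟨det_io.trans h.det, (act_eq_self ((h.pos hn).trans_eq det_io.symm)).2 ?_, h.sg ▸ ?_⟩
  · have := (act_eq_self (h.pos hn)).1 h.fix
    simp [den, io] at this ⊢
    linear_combination this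
  · have h1 := MatAux.odd_det (M := Λ) (h.det ▸ hn.natCast)
    simp only [MatAux.eps_eq, io, Matrix.of_apply, Matrix.cons_val', Matrix.cons_val_zero,
      Matrix.cons_val_one, Matrix.cons_val_fin_one]
    push_cast
    revert h1
    generalize (Λ 0 0 : ZMod 2) = a, (Λ 0 1 : ZMod 2) = b, (Λ 1 0 : ZMod 2) = c,
      (Λ 1 1 : ZMod 2) = d
    revert a b c d
    decide

lemma act_io (h : 0 < Λ.det) (s : ℍ) : act (io Λ) (act Λ s) = s := by
  rw [← act_mul (h.trans_eq det_io.symm) h, act_eq_self (det_mul_pos (h.trans_eq det_io.symm) h)]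
  simp [den, io, Matrix.mul_apply, Fin.sum_univ_two]
  ring

lemma io_io : io (io Λ) = Λ := by
  ext i j
  fin_cases i <;> fin_cases j <;> simp [io]

lemma SS.ne {l m : ℕ} (h : SS (l * m ^ 2) e τ Λ) (hn : Odd (l * m ^ 2)) (hl : l.Prime)
    (hm : ¬l ∣ m) : Λ 1 0 ≠ 0 := fun h0 => by
  have h1 := congrArg Complex.im ((act_eq_self (h.pos hn)).1 h.fix)
  have h2 : Λ 0 0 = Λ 1 1 := by simpa [den, h0, τ.im_pos.ne'] using h1
  have h3 := congrArg Int.natAbs h.det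
  rw [Matrix.det_fin_two, h0, h2, mul_zero, sub_zero, Int.natAbs_mul, Int.natAbs_natCast,
    ← pow_two] at h3
  obtain ⟨c, hc⟩ := hl.dvd_of_dvd_pow (h3 ▸ dvd_mul_right l _ : l ∣ (Λ 1 1).natAbs ^ 2)
  rw [hc, mul_pow, pow_two l, mul_assoc] at h3
  exact hm (hl.dvd_of_dvd_pow (Nat.eq_of_mul_eq_mul_left hl.pos h3 ▸ dvd_mul_right l _))

lemma SS.uniq (h : SS n e τ Λ) (h' : SS n e τ Λ') (hn : Odd n) (ht : Λ.trace = 0)
    (ht' : Λ'.trace = 0) (hc : 0 < Λ 1 0) (hc' : 0 < Λ' 1 0) : Λ = Λ' := by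
  have h1 := den_sq (h.pos hn) h.fix ht
  rw [h.det, ← h'.det, ← den_sq (h'.pos hn) h'.fix ht', sq_eq_sq_iff_eq_or_eq_neg] at h1
  have h2 := h.det.trans h'.det.symm
  simp only [Matrix.trace_fin_two, Matrix.det_fin_two] at ht ht' h2
  have h3 : Λ 1 0 = Λ' 1 0 ∧ Λ 1 1 = Λ' 1 1 := by
    rcases h1 with h1 | h1
    · have h4 : Λ 1 0 = Λ' 1 0 := by simpa [den, τ.im_pos.ne'] using congrArg Complex.im h1
      exact ⟨h4, by simpa [den, h4] using h1⟩
    · have h4 := congrArg Complex.im h1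
      have h5 : (0 : ℝ) < Λ 1 0 := by exact_mod_cast hc
      have h6 : (0 : ℝ) < Λ' 1 0 := by exact_mod_cast hc'
      simp [den] at h4
      nlinarith [mul_pos h5 τ.im_pos, mul_pos h6 τ.im_pos]
  have h4 : Λ 0 0 = Λ' 0 0 := by omega
  have h5 : Λ 0 1 = Λ' 0 1 := mul_right_cancel₀ hc'.ne' (by
    rw [h3.1, h3.2, h4] at h2; linarith)
  ext i j
  fin_cases i <;> fin_cases j <;> simp [h3.1, h3.2, h4, h5]

lemma eps_cases (M : M2) : eps M = 1 ∨ eps M = -1 := by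
  unfold eps; split_ifs <;> simp

/-- the triangular matrix belongs to the given one -/
def Rl (H Λ : M2) : Prop := ∃ γ : M2, γ.det = 1 ∧ Λ = γ * H

lemma Rl.val {H : M2} (h : Rl H Λ) (hH : H ∈ Hk 2 n) (hn : Odd n) (s : ℍ) :
    YY (act Λ s) = eps Λ * YY (act H s) := by
  obtain ⟨γ, h1, rfl⟩ := h
  have h2 := (MatAux.det_mem hH).2
  rw [act_mul (h1 ▸ one_pos) (by rw [h2]; exact_mod_cast hn.pos), b1.y1.tY _ _ h1,
    MatAux.epsm _ _ (h1 ▸ odd_one) (h2 ▸ hn.natCast), MatAux.eps_mem hH, mul_one]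

lemma Rl.inj {H H' : M2} (h : Rl H Λ) (h' : Rl H' Λ) (hH : H ∈ Hk 2 n) (hH' : H' ∈ Hk 2 n)
    (hn : Odd n) : H = H' := by
  obtain ⟨γ, h1, rfl⟩ := h
  obtain ⟨γ', h2, h3⟩ := h'
  refine MatAux.uniq 2 n (γ'.adjugate * γ) H H' (Nat.coprime_two_left.2 hn)
    (by simp [Matrix.det_adjugate, h1, h2]) hH hH' ?_
  rw [mul_assoc, h3, ← mul_assoc, Matrix.adjugate_mul, h2, one_smul, one_mul]

lemma Rl.eq {H : M2} (h : Rl H Λ) (h' : Rl H Λ') (s : SS n e τ Λ) (s' : SS n e τ Λ') (hn : Odd n)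
    (hc : 0 < Λ 1 0) (hc' : 0 < Λ' 1 0) (ha : ∀ γ : M2, γ.det = 1 → act γ τ = τ → γ = 1 ∨ γ = -1) :
    Λ = Λ' := by
  obtain ⟨γ, h1, h3⟩ := h
  obtain ⟨γ', h2, h4⟩ := h'
  have h5 : (γ' * γ.adjugate).det = 1 := by simp [Matrix.det_adjugate, h1, h2]
  have h6 : Λ' = γ' * γ.adjugate * Λ := by
    rw [h3, mul_assoc, ← mul_assoc _ γ, Matrix.adjugate_mul, h1, one_smul, one_mul, h4]
  have h7 := s'.fix
  rw [h6, act_mul (h5 ▸ one_pos) (s.pos hn), s.fix] at h7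
  rcases ha _ h5 h7 with h8 | h8
  · rw [h6, h8, one_mul]
  · rw [h6, h8] at hc'
    simp at hc'
    omega

lemma par {T : Finset M2} {G : M2 → ℕ∞} {μ k : ℕ} (hk : Odd k) (h : μ • (k : ℕ∞) = ∑ x ∈ T, G x)
    (h1 : ∀ x ∈ T, io x ∈ T ∧ G (io x) = G x) (h2 : ∀ x ∈ T, x.trace = 0 → G x = k)
    (h3 : ∀ x ∈ T, ∀ y ∈ T, x.trace = 0 → y.trace = 0 → x = y) :
    Odd μ ↔ ∃ x ∈ T, x.trace = 0 := by
  have f1 : ∀ x ∈ T, ((G x).toNat : ℕ∞) = G x := fun x hx => ENat.natCast_toNat fun e => by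
    have := single_le_sum (f := G) (fun _ _ => zero_le) hx
    rw [e, ← h, nsmul_eq_mul, ← Nat.cast_mul] at this
    exact ENat.natCast_ne_top _ (top_le_iff.1 this)
  rw [← sum_congr rfl f1, nsmul_eq_mul, ← Nat.cast_mul, ← Nat.cast_sum, Nat.cast_inj] at h
  have f2 : ∑ x ∈ T with ¬x.trace = 0, ((G x).toNat : ZMod 2) = 0 := by
    refine sum_involution (fun x _ => io x) (fun x hx => ?_) (fun x hx _ e => ?_)
      (fun x hx => ?_) fun x _ => io_io
    · rw [(h1 x (mem_filter.1 hx).1).2, CharTwo.add_self_eq_zero]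
    · have := congrFun (congrFun e 0) 0
      simp [io] at this
      exact (mem_filter.1 hx).2 (by rw [Matrix.trace_fin_two]; omega)
    · rw [mem_filter] at hx ⊢
      refine ⟨(h1 x hx.1).1, fun e => hx.2 ?_⟩
      simp [io, Matrix.trace_fin_two] at e ⊢
      omega
  have f3 := congrArg (Nat.cast : ℕ → ZMod 2) h
  rw [Nat.cast_mul, Nat.cast_sum, ← sum_filter_add_sum_filter_not T (·.trace = 0), f2, add_zero,
    ZMod.natCast_eq_one_iff_odd.2 hk, mul_one] at f3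
  rw [← ZMod.natCast_eq_one_iff_odd, f3]
  by_cases hx : ∃ x ∈ T, x.trace = 0
  · obtain ⟨x, x1, x2⟩ := id hx
    rw [sum_eq_single_of_mem x (mem_filter.2 ⟨x1, x2⟩) fun y hy e =>
      absurd (h3 y (mem_filter.1 hy).1 x x1 (mem_filter.1 hy).2 x2) e, h2 x x1 x2,
      ENat.toNat_natCast, ZMod.natCast_eq_one_iff_odd]
    exact iff_of_true hk hx
  · rw [sum_eq_zero fun y hy => absurd ⟨y, mem_filter.1 hy⟩ hx]
    exact iff_of_false zero_ne_one hx

lemma main (hO : ORDY) (hN : NOAUT) {l m : ℕ} {P : ℂ[X]} (hl : l.Prime) (h12 : l % 12 = 11)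
    (hm : Odd m) (hlm : ¬l ∣ m) (he : e ^ 2 = 1) (h0 : P ≠ 0)
    (hP : ∀ s, P.eval (JJ s) = ∏ M ∈ Hk 2 (l * m ^ 2), (e * YY s - YY (act M s))) (τ : ℍ) :
    Odd (P.rootMultiplicity (JJ τ)) ↔ ∃ Q, SS (l * m ^ 2) e τ Q ∧ Q.trace = 0 := by
  classical
  have hn : Odd (l * m ^ 2) := (Nat.odd_iff.2 (by omega)).mul hm.pow
  have he' : (e : ℂ) ^ 2 = 1 := by exact_mod_cast he
  have hY := b1.y1.hY
  have hd : ∀ H ∈ Hk 2 (l * m ^ 2), 0 < H.det := fun H hH => by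
    rw [(MatAux.det_mem hH).2]; exact_mod_cast hn.pos
  set Z := (Hk 2 (l * m ^ 2)).filter fun H => e * YY τ - YY (act H τ) = 0 with hZ
  have L1 : ∀ Λ, SS (l * m ^ 2) e τ Λ → ∃ H ∈ Z, Rl H Λ := fun Λ h => by
    obtain ⟨γ, H, hH, h1⟩ := MatAux.hnf 2 _ Λ hn.pos (Nat.coprime_two_left.2 hn) h.det
    have := Rl.val ⟨γ, h1⟩ hH hn τ
    rw [h.fix, h.sg] at this
    exact ⟨H, mem_filter.2 ⟨hH, by linear_combination e * this + YY (act H τ) * he'⟩, γ, h1⟩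
  have nm : ∀ Λ, SS (l * m ^ 2) e τ Λ → 0 < Λ 1 0 ∨ 0 < (-Λ) 1 0 := fun Λ h => by
    have := h.ne hn hl hlm
    rw [Matrix.neg_apply]
    omega
  have L2 : ∀ H ∈ Z, ∃ Λ, (SS (l * m ^ 2) e τ Λ ∧ 0 < Λ 1 0) ∧ Rl H Λ := fun H hH => by
    obtain ⟨hH, h1⟩ := mem_filter.1 hH
    obtain ⟨γ, h2, h3⟩ := k4_of b1.y1 u1 (act H τ) τ (by
      rw [JJ, JJ, ← sub_eq_zero.1 h1, mul_pow, he', one_mul])
    have h4 : (γ * H).det = (l * m ^ 2 : ℕ) := by
      rw [Matrix.det_mul, h2, one_mul, (MatAux.det_mem hH).2]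
    rw [← act_mul (h2 ▸ one_pos) (hd H hH)] at h3
    have h5 := Rl.val ⟨γ, h2, rfl⟩ hH hn τ
    rw [h3, ← sub_eq_zero.1 h1] at h5
    have h6 : (eps (γ * H) : ℂ) = e := mul_right_cancel₀ (hN l m τ _ hl h12 hlm h4 h3).1 (by
      linear_combination -e * h5 - eps (γ * H) * YY τ * he')
    have h7 : SS (l * m ^ 2) e τ (γ * H) := ⟨h4, h3, by exact_mod_cast h6⟩
    rcases nm _ h7 with h8 | h8
    · exact ⟨_, ⟨h7, h8⟩, γ, h2, rfl⟩
    · exact ⟨_, ⟨h7.neg hn, h8⟩, -γ, by simp [Matrix.det_neg, h2], (neg_mul _ _).symm⟩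
  rcases Z.eq_empty_or_nonempty with hz | ⟨H₀, hz⟩
  · rw [rootMultiplicity_eq_zero fun h => ?_]
    · refine iff_of_false (by simp) fun ⟨Q, hQ, _⟩ => ?_
      obtain ⟨H, hH, _⟩ := L1 Q hQ
      exact notMem_empty H (hz ▸ hH)
    · rw [IsRoot, hP, Finset.prod_eq_zero_iff] at h
      obtain ⟨H, hH⟩ := h
      exact notMem_empty H (hz ▸ mem_filter.2 hH)
  obtain ⟨Λ₀, ⟨s₀, -⟩, -⟩ := L2 H₀ hz
  obtain ⟨y0, ha⟩ := hN l m τ Λ₀ hl h12 hlm s₀.det s₀.fix
  obtain ⟨k, hk, ho⟩ := hO τ y0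
  choose! lam hs hr using L2
  have hT : ∀ Λ, Λ ∈ Z.image lam ↔ SS (l * m ^ 2) e τ Λ ∧ 0 < Λ 1 0 := fun Λ => by
    refine ⟨fun h => ?_, fun h => ?_⟩
    · obtain ⟨H, hH, rfl⟩ := mem_image.1 h
      exact hs H hH
    · obtain ⟨H, hH, h1⟩ := L1 Λ h.1
      exact mem_image.2 ⟨H, hH, (hr H hH).eq h1 (hs H hH).1 h.1 hn (hs H hH).2 h.2 ha⟩
  have hF : ∀ H ∈ Hk 2 (l * m ^ 2), Hol fun s => e * YY s - YY (act H s) := fun H hH =>
    (mdifferentiable_const.mul hY).sub (hY.act (hd H hH))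
  have hJ : Hol JJ := (hY.pow 2).add mdifferentiable_const
  obtain ⟨Q, q1, q2⟩ := exists_eq_pow_rootMultiplicity_mul_and_not_dvd P h0 (JJ τ)
  rw [dvd_iff_isRoot] at q2
  have e1 : od (fun s => JJ s - JJ τ) τ = k := by
    have : (fun s => JJ s - JJ τ) = fun s => (YY s - YY τ) * (YY s + YY τ) := by
      funext s; simp only [JJ]; ring
    rw [this]
    exact (od_unit (hY.sub mdifferentiable_const) (hY.add mdifferentiable_const)
      (add_self_eq_zero.not.2 y0)).trans ho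
  have e2 : od (fun s => P.eval (JJ s)) τ = P.rootMultiplicity (JJ τ) • (k : ℕ∞) := by
    have : (fun s => P.eval (JJ s)) =
        fun s => (JJ s - JJ τ) ^ P.rootMultiplicity (JJ τ) * Q.eval (JJ s) := by
      funext s
      conv_lhs => rw [q1]
      simp
    rw [this, ← e1]
    exact (od_unit ((hJ.sub mdifferentiable_const).pow _) (hol_eval hJ Q) q2).trans
      (od_pow (hJ.sub mdifferentiable_const) _)
  have e3 : ∀ H ∈ Z, od (fun s => e * YY s - YY (act H s)) τ =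
      od (fun s => YY s - YY (act (lam H) s)) τ := fun H hH => by
    have : (fun s => e * YY s - YY (act H s)) = fun s => (YY s - YY (act (lam H) s)) * e := by
      funext s
      rw [(hr H hH).val (mem_filter.1 hH).1 hn, (hs H hH).1.sg]
      linear_combination YY (act H s) * he'
    rw [this]
    exact od_unit (hY.sub (hY.act ((hs H hH).1.pos hn))) mdifferentiable_const
      (left_ne_zero_of_mul_eq_one ((pow_two _).symm.trans he'))
  rw [funext hP, (od_prod _ _ hF).2, ← sum_subset (filter_subset _ _ : Z ⊆ _) fun H hH h1 =>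
    (od_zero (hF H hH)).2 fun h2 => h1 (mem_filter.2 ⟨hH, h2⟩), sum_congr rfl e3,
    ← sum_image (g := lam) (f := fun Λ => od (fun s => YY s - YY (act Λ s)) τ) fun H hH H' hH' h =>
      (hr H hH).inj (h ▸ hr H' hH') (mem_filter.1 hH).1 (mem_filter.1 hH').1 hn] at e2
  rw [par hk e2.symm (fun x hx => ?_) (fun x hx ht => ?_) fun x hx y hy t1 t2 => ?_]
  · refine ⟨fun ⟨x, hx, ht⟩ => ⟨x, ((hT x).1 hx).1, ht⟩, fun ⟨x, hx, ht⟩ => ?_⟩
    rcases nm x hx with h | h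
    · exact ⟨x, (hT x).2 ⟨hx, h⟩, ht⟩
    · exact ⟨-x, (hT _).2 ⟨hx.neg hn, h⟩, by rw [Matrix.trace_neg, ht, neg_zero]⟩
  · rw [hT] at hx
    refine ⟨(hT _).2 ⟨hx.1.inv hn, hx.2⟩, ?_⟩
    refine (od_act (hY.sub (hY.act ((hx.1.inv hn).pos hn))) (hx.1.pos hn) hx.1.fix).symm.trans ?_
    rw [od, od, ← analyticOrderAt_neg]
    congr 1
    funext z
    simp [act_io (hx.1.pos hn)]
  · rw [hT] at hx
    exact od_odd hY (hx.1.pos hn) hx.1.fix ht hk ho
  · rw [hT] at hx hy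
    exact hx.1.uniq hy.1 hn t1 t2 hx.2 hy.2

end MultA

theorem mult_of : ORDY → NOAUT → MULT := by
  intro hO hN l m e Ψ hl h12 hm hlm he hΨ h0 t
  have h := MultA.main hO hN hl h12 hm hlm he
    ((Polynomial.map_ne_zero_iff (RingHom.injective_int (Int.castRingHom ℂ))).2 h0)
    fun s => by rw [← hΨ s, eval_map, aeval_def, algebraMap_int_eq]
  constructor
  · intro ht
    obtain ⟨y, hy⟩ := IsAlgClosed.exists_pow_nat_eq (t - 1728) two_pos
    obtain ⟨τ, rfl⟩ := surj_of b1 b2.lv y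
    obtain rfl : t = JJ τ := by rw [JJ, hy, sub_add_cancel]
    obtain ⟨Q, s, hQ⟩ := (h τ).1 ht
    exact ⟨τ, Q, rfl, s.det, hQ, s.fix, s.sg⟩
  · rintro ⟨τ, Q, rfl, h1, h2, h3, h4⟩
    exact (h τ).2 ⟨Q, ⟨h1, h3, h4⟩, h2⟩

end Pool.Agent.MP_c481b3_nt.H79
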