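import Pool.Agent.MP_c481b3_nt.H79.SpecA
import Pool.Agent.MP_c481b3_nt.H31F.All
import Pool.Agent.MP_c481b3_nt.H31F.K4

/-! Row Noaut: no extra automorphisms at a fixed point of determinant `l m ^ 2`. -/

set_option autoImplicit false

namespace Pool.Agent.MP_c481b3_nt.H79

open UpperHalfPlane hiding I
open Pool.Agent.MP_c481b3_nt.H31F

namespace NoautA

theorem fix_eq {M : M2} (h : 0 < M.det) {τ : ℍ} (hτ : act M τ = τ) :
    (M 0 0 : ℝ) - M 1 1 = 2 * M 1 0 * τ.re ∧ (M 0 1 : ℝ) = -M 1 0 * (τ.re ^ 2 + τ.im ^ 2) ∧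
      4 * (M.det : ℝ) - (M 0 0 + M 1 1) ^ 2 = 4 * M 1 0 ^ 2 * τ.im ^ 2 := by
  rw [act_eq_self h, den] at hτ
  have h1 := congrArg Complex.re hτ
  have h2 := congrArg Complex.im hτ
  simp at h1 h2
  have h3 : (M 0 0 : ℝ) - M 1 1 = 2 * M 1 0 * τ.re := by
    apply mul_right_cancel₀ τ.im_pos.ne'
    linear_combination h2
  have h4 : (M 0 1 : ℝ) = -M 1 0 * (τ.re ^ 2 + τ.im ^ 2) := by
    linear_combination h1 - τ.re * h3
  refine ⟨h3, h4, ?_⟩
  rw [Matrix.det_fin_two]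
  push_cast
  linear_combination (-4 * (M 1 0 : ℝ)) * h4 - ((M 0 0 : ℝ) - M 1 1 + 2 * M 1 0 * τ.re) * h3

theorem descent (l : ℕ) (hl : l.Prime) (k : ℤ) (hk : ∀ x : ZMod l, x ^ 2 ≠ -k) :
    ∀ (n : ℕ) (w X Y : ℤ), w.natAbs = n → l * w ^ 2 = X ^ 2 + k * Y ^ 2 → w = 0 := by
  have := Fact.mk hl
  have hp : Prime (l : ℤ) := Nat.prime_iff_prime_int.mp hl
  intro n
  induction n using Nat.strong_induction_on with
  | _ n ih =>
    intro w X Y hn h
    have h0 : (X : ZMod l) ^ 2 + k * (Y : ZMod l) ^ 2 = 0 := by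
      have := congrArg (Int.cast : ℤ → ZMod l) h
      push_cast at this
      rw [← this, ZMod.natCast_self, zero_mul]
    have hY : (Y : ZMod l) = 0 := by
      by_contra hY
      refine hk (X / Y) ?_
      field_simp
      linear_combination h0
    have hX : (X : ZMod l) = 0 := by
      rw [hY] at h0
      simpa using h0
    obtain ⟨Y', rfl⟩ := (ZMod.intCast_zmod_eq_zero_iff_dvd Y l).mp hY
    obtain ⟨X', rfl⟩ := (ZMod.intCast_zmod_eq_zero_iff_dvd X l).mp hX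
    have h1 : w ^ 2 = l * (X' ^ 2 + k * Y' ^ 2) := by
      apply mul_left_cancel₀ hp.ne_zero
      linear_combination h
    obtain ⟨w', rfl⟩ := hp.dvd_of_dvd_pow (Dvd.intro _ h1.symm)
    have h2 : l * w' ^ 2 = X' ^ 2 + k * Y' ^ 2 := by
      apply mul_left_cancel₀ hp.ne_zero
      linear_combination h1
    by_cases hw : w' = 0
    · rw [hw, mul_zero]
    · refine absurd (ih w'.natAbs ?_ w' X' Y' rfl h2) hw
      rw [← hn, Int.natAbs_mul, Int.natAbs_natCast]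
      have := hl.two_le
      have := Int.natAbs_pos.mpr hw
      nlinarith

theorem non_one {l : ℕ} (hl : l.Prime) (h : l % 12 = 11) (x : ZMod l) :
    x ^ 2 ≠ -((1 : ℤ) : ZMod l) := by
  have := Fact.mk hl
  intro hx
  exact ZMod.mod_four_ne_three_of_sq_eq_neg_one (y := x) (by simpa using hx) (by omega)

theorem non_three {l : ℕ} (hl : l.Prime) (h : l % 12 = 11) (x : ZMod l) :
    x ^ 2 ≠ -((3 : ℤ) : ZMod l) := by
  have := Fact.mk hl
  intro hx
  have hn : ∀ n : ℕ, 0 < n → n < 11 → ((n : ℕ) : ZMod l) ≠ 0 := fun n h1 h2 h3 => by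
    have := Nat.le_of_dvd h1 ((ZMod.natCast_eq_zero_iff n l).mp h3)
    omega
  have h2 : (2 : ZMod l) ≠ 0 := by simpa using hn 2 (by norm_num) (by norm_num)
  have h3 : (3 : ZMod l) ≠ 0 := by simpa using hn 3 (by norm_num) (by norm_num)
  obtain ⟨w, hw⟩ : ∃ w : ZMod l, 2 * w = x - 1 := ⟨(x - 1) / 2, by field_simp⟩
  have h4 : w ^ 2 + w + 1 = 0 := by
    apply mul_left_cancel₀ (pow_ne_zero 2 h2)
    push_cast at hx
    linear_combination hx + (2 * w + x + 1) * hw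
  have h5 : w ^ 3 = 1 := by linear_combination (w - 1) * h4
  have h6 : w ≠ 0 := fun h0 => by simp [h0] at h4
  have h7 := ZMod.pow_card_sub_one_eq_one h6
  obtain ⟨q, hq⟩ : ∃ q, l - 1 = 3 * q + 1 := ⟨(l - 2) / 3, by omega⟩
  rw [hq, pow_succ, pow_mul, h5, one_pow, one_mul] at h7
  rw [h7] at h4
  exact h3 (by linear_combination h4)

theorem stab (l m : ℕ) (τ : ℍ) (Λ : M2) (hl : l.Prime) (h12 : l % 12 = 11) (hm : ¬l ∣ m)
    (hd : Λ.det = (l * m ^ 2 : ℕ)) (hΛ : act Λ τ = τ) (γ : M2) (hγ : γ.det = 1)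
    (hf : act γ τ = τ) : γ = 1 ∨ γ = -1 := by
  have hm0 : m ≠ 0 := fun h => hm (h ▸ dvd_zero l)
  have hpos : 0 < Λ.det := by
    rw [hd]
    exact_mod_cast Nat.mul_pos hl.pos (by positivity)
  obtain ⟨-, -, a3⟩ := fix_eq hpos hΛ
  obtain ⟨g1, g2, g3⟩ := fix_eq (by rw [hγ]; exact one_pos) hf
  by_cases hc : γ 1 0 = 0
  · rw [hc] at g1 g2
    have e1 : γ 0 0 = γ 1 1 := by
      have : (γ 0 0 : ℝ) = γ 1 1 := by simpa [sub_eq_zero] using g1
      exact_mod_cast this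
    have e2 : γ 0 1 = 0 := by
      have : (γ 0 1 : ℝ) = 0 := by simpa using g2
      exact_mod_cast this
    rw [Matrix.det_fin_two, hc, e1, mul_zero, sub_zero] at hγ
    rcases Int.eq_one_or_neg_one_of_mul_eq_one hγ with e3 | e3
    · left
      ext i j
      fin_cases i <;> fin_cases j <;> simp [hc, e1, e2, e3]
    · right
      ext i j
      fin_cases i <;> fin_cases j <;> simp [hc, e1, e2, e3]
  · exfalso
    rw [hγ] at g3
    rw [hd] at a3
    have key : (l : ℤ) * (2 * m * γ 1 0) ^ 2 = ((Λ 0 0 + Λ 1 1) * γ 1 0) ^ 2 +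
        (4 - (γ 0 0 + γ 1 1) ^ 2) * Λ 1 0 ^ 2 := by
      have : (l : ℝ) * (2 * m * γ 1 0) ^ 2 = ((Λ 0 0 + Λ 1 1) * γ 1 0) ^ 2 +
          (4 - (γ 0 0 + γ 1 1) ^ 2) * Λ 1 0 ^ 2 := by
        push_cast at a3 g3
        linear_combination (γ 1 0 : ℝ) ^ 2 * a3 - (Λ 1 0 : ℝ) ^ 2 * g3
      exact_mod_cast this
    have ht : (γ 0 0 + γ 1 1) ^ 2 < 4 := by
      have h1 : (γ 1 0 : ℝ) ≠ 0 := by exact_mod_cast hc
      have h2 := τ.im_pos
      have h3 : 0 < 4 * (γ 1 0 : ℝ) ^ 2 * τ.im ^ 2 := by positivity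
      have : ((γ 0 0 : ℝ) + γ 1 1) ^ 2 < 4 := by
        push_cast at g3
        linarith
      exact_mod_cast this
    have hw : (2 * m * γ 1 0 : ℤ) ≠ 0 :=
      mul_ne_zero (mul_ne_zero two_ne_zero (by exact_mod_cast hm0)) hc
    generalize γ 0 0 + γ 1 1 = t at key ht
    have t1 : -1 ≤ t := by nlinarith
    have t2 : t ≤ 1 := by nlinarith
    interval_cases t
    · exact hw (descent l hl 3 (non_three hl h12) _ _ ((Λ 0 0 + Λ 1 1) * γ 1 0) (Λ 1 0) rfl
        (by linear_combination key))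
    · exact hw (descent l hl 1 (non_one hl h12) _ _ ((Λ 0 0 + Λ 1 1) * γ 1 0) (2 * Λ 1 0) rfl
        (by linear_combination key))
    · exact hw (descent l hl 3 (non_three hl h12) _ _ ((Λ 0 0 + Λ 1 1) * γ 1 0) (Λ 1 0) rfl
        (by linear_combination key))

end NoautA

theorem noaut : NOAUT := by
  intro l m τ Λ hl h12 hm hd hΛ
  refine ⟨fun h0 => ?_, NoautA.stab l m τ Λ hl h12 hm hd hΛ⟩
  have hS : (!![0, -1; 1, 0] : M2).det = 1 := by simp
  have hS0 : 0 < (!![0, -1; 1, 0] : M2).det := hS ▸ one_pos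
  have hi : act !![0, -1; 1, 0] UpperHalfPlane.I = UpperHalfPlane.I := by
    rw [act_eq_self hS0]
    simp [den]
  have hY : YY UpperHalfPlane.I = 0 := by
    have h1 := b1.y1.tY _ UpperHalfPlane.I hS
    have h2 : eps !![0, -1; 1, 0] = -1 := by decide
    rw [hi, h2] at h1
    push_cast at h1
    linear_combination (1 / 2 : ℂ) * h1
  obtain ⟨γ, hγ, hτ⟩ := k4_of b1.y1 u1 UpperHalfPlane.I τ (by rw [JJ, JJ, h0, hY])
  have hγ0 : 0 < γ.det := hγ ▸ one_pos
  have ha : γ.adjugate.det = 1 := by rw [Matrix.det_adjugate, hγ, one_pow]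
  have ha0 : 0 < γ.adjugate.det := ha ▸ one_pos
  have hb : act γ.adjugate τ = UpperHalfPlane.I := by
    rw [← hτ, ← act_mul ha0 hγ0, Matrix.adjugate_mul, hγ, one_smul, act_one]
  have hfix : act (γ * !![0, -1; 1, 0] * γ.adjugate) τ = τ := by
    rw [act_mul (det_mul_pos hγ0 hS0) ha0, act_mul hγ0 hS0, hb, hi, hτ]
  have htr : (γ * !![0, -1; 1, 0] * γ.adjugate).trace = 0 := by
    rw [Matrix.trace_mul_cycle, Matrix.adjugate_mul, hγ, one_smul, one_mul]
    simp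
  rcases NoautA.stab l m τ Λ hl h12 hm hd hΛ _
    (by rw [Matrix.det_mul, Matrix.det_mul, hγ, hS, ha, mul_one, mul_one]) hfix with e | e
  · rw [e] at htr
    simp at htr
  · rw [e] at htr
    simp at htr

end Pool.Agent.MP_c481b3_nt.H79
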