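import Pool.Agent.MP_c481b3_nt.H79.SpecA
import Pool.Agent.MP_c481b3_nt.H31F.All
import Pool.Agent.MP_c481b3_nt.H31F.Vls
import Pool.Agent.MP_c481b3_nt.H31F.Intj

/-! The diagonal of the oriented modular polynomial is primitive. -/

set_option autoImplicit false

namespace Pool.Agent.MP_c481b3_nt.H79

open UpperHalfPlane hiding I
open Polynomial Pool.Agent.MP_c481b3_nt.H31F Pool.Agent.MP_c481b3_nt.H31F.IntjAux

namespace NzA

lemma factor (O : ValuationSubring ℂ) {n : ℕ} (hn : 0 < n) (hs : ¬IsSquare n) {e : ℤ}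
    (he : e ^ 2 = 1) (H : M2) (hH : H ∈ Hk 2 n) : ∃ G : LS ℂ,
      O.valuation G.leadingCoeff = 1 ∧ Asy n (fun τ => e * YY τ - YY (act H τ)) G := by
  obtain ⟨a, c, t, ha, hc, hac, -, rfl⟩ := (b2.mat.mem 2 n H).1 hH
  have haa : 0 < a * a := Nat.mul_pos ha ha
  obtain ⟨hC, hA, hM, -⟩ := b2.ring n hn
  set u := ru ((((2 * t : ℕ) : ℤ) : ℚ) / ((c : ℚ) * ((1 : ℕ) : ℚ))) with hu
  have h2 := b2.sub 1 n a c (a * a) ((2 * t : ℕ) : ℤ) one_pos hn ha hc (by rw [← hac]; ring) YY _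
    b2.y2.aY
  have h3 := asyY b2 hn
  have h4 := hA _ _ _ _ (hM _ _ _ _ (hC e) h3) (hM _ _ _ _ (hC (-1)) h2)
  have t0 : Top (Yc ℂ) (-1) 1 := by
    have := top_aeval b2 X
    rwa [natDegree_X, leadingCoeff_X, aeval_X] at this
  have t1 : Top (HahnSeries.C (e : ℂ) * sb 1 n (Yc ℂ)) (n * -1) e := by
    have := t0.sb hn 1
    refine ⟨?_, fun m hm => ?_⟩
    · rw [HahnSeries.C_mul_eq_smul, HahnSeries.coeff_smul, this.1]
      simp
    · rw [HahnSeries.C_mul_eq_smul, HahnSeries.coeff_smul, this.2 m hm, smul_zero]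
  have t2 := t0.sb haa u
  have hne : a * a ≠ n := fun x => hs ⟨a, x.symm⟩
  have e1 : e = 1 ∨ e = -1 := sq_eq_one_iff.1 he
  refine ⟨HahnSeries.C (e : ℂ) * sb 1 n (Yc ℂ) - sb u (a * a) (Yc ℂ), ?_, ?_⟩
  · rcases hne.lt_or_gt with x | x
    · rw [(t1.sub_left t2 (by omega)).lc (by rcases e1 with y | y <;> simp [y])]
      rcases e1 with y | y <;> simp [y]
    · rw [(t1.sub_right t2 (by omega)).lc (by simp), mul_one, Valuation.map_neg,
        Units.val_zpow_eq_zpow_val, map_zpow₀, hu, val_ru b2, one_zpow]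
  · have e2 : (fun τ => e * YY τ - YY (act !![(a : ℤ), ((2 * t : ℕ) : ℤ); 0, (c : ℤ)] τ)) = fun τ =>
        e * YY τ + -1 * YY (act !![(a : ℤ), ((2 * t : ℕ) : ℤ); 0, (c : ℤ)] τ) := by
      funext τ; ring
    have e3 : HahnSeries.C (e : ℂ) * sb 1 n (Yc ℂ) - sb u (a * a) (Yc ℂ) =
        HahnSeries.C (e : ℂ) * sb 1 n (Yc ℂ) + HahnSeries.C (-1) * sb u (a * a) (Yc ℂ) := by
      simp only [map_neg, map_one]; ring
    rw [e2, e3]
    exact h4

end NzA

theorem nz : NZ := by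
  intro n q Φ e ho hs hΦ he hq h0
  have hn : 0 < n := ho.pos
  obtain ⟨O, hO⟩ := vls.val q hq
  choose! G hv hA using NzA.factor O hn hs he
  obtain ⟨-, -, -, -, hU, -, hE, hP⟩ := b2.ring n hn
  have h2 := (hP M2 (Hk 2 n) (fun H τ => e * YY τ - YY (act H τ)) G hA).2
  set T : ℤ[X] := ev2 Φ ((e : ℤ[X]) * X) X with hT
  have h3 := hE _ _ (T.map (Int.castRingHom ℂ)) (asyY b2 hn)
  have e1 : (fun τ => (T.map (Int.castRingHom ℂ)).eval (YY τ)) =
      fun τ => ∏ H ∈ Hk 2 n, (e * YY τ - YY (act H τ)) := by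
    funext τ
    rw [← hΦ τ, eval_map, ← coe_eval₂RingHom, hT, map_ev2, map_mul, map_intCast]
    simp
  rw [e1] at h3
  have p4 := hU _ _ _ h2 h3
  have hv' : O.valuation (∏ H ∈ Hk 2 n, G H).leadingCoeff = 1 := by
    rw [lc_prod, map_prod, Finset.prod_eq_one hv]
  have hP0 : T.map (Int.castRingHom ℂ) ≠ 0 := by
    intro x
    rw [p4, x] at hv'
    simp at hv'
  have t := (top_aeval b2 (T.map (Int.castRingHom ℂ))).sb hn 1
  rw [sb_aeval hn, ← p4] at t
  rw [t.lc (by simpa using hP0)] at hv'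
  have h5 : T.map (Int.castRingHom (ZMod q)) = 0 := by
    rw [← coe_mapRingHom, hT, map_ev2]
    simpa using h0
  have h6 : (q : ℤ) ∣ T.leadingCoeff := by
    rw [← ZMod.intCast_zmod_eq_zero_iff_dvd]
    simpa using congrArg (coeff · T.natDegree) h5
  obtain ⟨k, hk⟩ := h6
  rw [leadingCoeff_map_of_injective (Int.castRingHom ℂ).injective_int, hk] at hv'
  have h7 : O.valuation (k : ℂ) ≤ 1 := (O.valuation_le_one_iff _).2 (intCast_mem O k)
  have h8 : O.valuation (q : ℂ) * O.valuation (k : ℂ) = 1 := by simpa using hv'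
  exact absurd h8 (mul_lt_one_of_lt_of_le hO h7).ne

end Pool.Agent.MP_c481b3_nt.H79
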