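import Pool.Agent.MP_c481b3_nt.H79.SpecB

/-! An anticommuting element of odd norm, by descent on the power of two in the norm. -/

set_option autoImplicit false

namespace Pool.Agent.MP_c481b3_nt.H79

open Pool.Agent.MP_c481b3_nt.H28

namespace OddA

theorem val {a b c : ℤ} {j k : ℕ} (e : 2 ^ j * b = c * a) (hc : ¬2 ^ j ∣ c) (hb : 2 ^ k ∣ b) :
    2 ^ (k + 1) ∣ a := by
  obtain ⟨i, d, hd, rfl⟩ := WfDvdMonoid.max_power_factor (a₀ := c) (by rintro rfl; simp at hc)
    Int.prime_two.irreducible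
  have hi : i < j := lt_of_not_ge fun h => hc ((pow_dvd_pow 2 h).mul_right d)
  refine Int.prime_two.pow_dvd_of_dvd_mul_left _ hd
    ((mul_dvd_mul_iff_left (pow_ne_zero i two_ne_zero)).1 ?_)
  rw [← mul_assoc, ← e, ← pow_add]
  exact (pow_dvd_pow 2 (by omega)).trans (pow_add (2 : ℤ) j k ▸ mul_dvd_mul_left _ hb)

theorem four {G : Type} [AddCommGroup G] (hc : Nat.card {P : G // 2 • P = 0} = 2 ^ 2) {Q S : G}
    (hQ : 2 • Q = 0) (hS : 2 • S = 0) (S0 : S ≠ 0) (Q0 : Q ≠ 0) (QS : Q ≠ S) {P : G}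
    (hP : 2 • P = 0) : P = 0 ∨ P = S ∨ P = Q ∨ P = Q + S := by
  have c : {P : G | 2 • P = 0}.ncard = 4 := hc
  have n1 : Q + S ≠ 0 := fun h => QS (add_right_cancel (h.trans ((two_nsmul S).symm.trans hS).symm))
  have e : ({0, S, Q, Q + S} : Set G) = {P : G | 2 • P = 0} := by
    refine Set.eq_of_subset_of_ncard_le ?_ ?_ (Set.finite_of_ncard_ne_zero (by omega))
    · rintro x (rfl | rfl | rfl | rfl)
      exacts [smul_zero 2, hS, hQ, by rw [Set.mem_ofPred_eq, smul_add, hQ, hS, add_zero]]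
    · rw [c, Set.ncard_insert_of_notMem (by simp [S0.symm, Q0.symm, n1.symm]),
        Set.ncard_insert_of_notMem (by simp [QS.symm, Q0]), Set.ncard_pair (by simp [S0])]
  exact (Set.ext_iff.1 e P).2 hP

variable {R : Type} [Ring R] {N : R → ℤ} {π : R}

theorem half (h : CompRing R N) {a b : R} (e : 2 * a = 2 * b) : a = b :=
  h.cancel (by simpa using h.int_ne two_ne_zero) e

theorem an_half (h : CompRing R N) {a ψ : R} (e : a = 2 * ψ) (ha : a * π = -(π * a)) :
    ψ * π = -(π * ψ) := half h (by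
  rw [← mul_assoc, ← e, ha, e]; noncomm_ring)

theorem an_lin {φ : R} (ha : φ * π = -(π * φ)) (a : ℤ) :
    (π - a) * φ * π = -(π * ((π - a) * φ)) := by
  rw [mul_assoc, ha, mul_neg, ← mul_assoc, ← mul_assoc, sub_mul, mul_sub, (Int.cast_commute a π).eq]

end OddA

open OddA in
theorem odd : ODD := by
  rintro G R _ _ _ N h p π hp p2 hπ hG ⟨φ, φ0, hφ⟩
  obtain ⟨hc, hd⟩ := hG 2 (Or.inl rfl)
  simp only [Nat.cast_ofNat] at hd
  have π0 : π ≠ 0 := fun e => h.int_ne (n := p) (by exact_mod_cast hp.ne_zero) (by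
    rw [e, mul_zero, zero_eq_neg] at hπ; exact_mod_cast hπ)
  have n2 : ∀ a, N (2 * a) = 2 ^ 2 * N a := fun a => by simpa using h.int_mul 2 a
  have nl : ∀ a : ℤ, N (π - a) = p + a ^ 2 := fun a => by
    rw [h.sub, h.norm_of_sq (n := p) (by positivity) (by rw [hπ, Int.cast_natCast]), h.int,
      ← mul_one (a : R), h.pol_int', h.tr_anti φ0 (by rw [hφ, neg_neg])]
    ring
  have st : ∀ (θ : R) {P : G}, 2 • P = 0 → 2 • θ • P = 0 := fun θ P hP => by
    rw [smul_comm, hP, smul_zero]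
  have ev : ∀ {n : ℤ} {P : G}, Even n → 2 • P = 0 → (n : R) • P = 0 := by
    rintro _ P ⟨m, rfl⟩ hP
    rw [Int.cast_add, add_smul, ← two_nsmul, st _ hP]
  have nil : ∀ {θ : R} {P : G}, θ * π = -(π * θ) → Even (N θ) → 2 • P = 0 → θ • θ • P = 0 :=
    fun a b c => by rw [← mul_smul, h.sq_anti π0 a, neg_smul, ev b c, neg_zero]
  obtain ⟨k, hk⟩ : ∃ k, ¬2 ^ k ∣ N φ := by
    obtain ⟨i, d, hd, e⟩ := WfDvdMonoid.max_power_factor (h.pos φ0).ne' Int.prime_two.irreducible
    exact ⟨i + 1, fun hh => hd ((mul_dvd_mul_iff_left (pow_ne_zero i two_ne_zero)).1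
      (by rwa [← e, ← pow_succ]))⟩
  clear φ0
  induction k generalizing φ with
  | zero => exact absurd (by simp) hk
  | succ k ih =>
    rcases Int.even_or_odd (N φ) with he | ho
    swap
    · exact ⟨φ, hφ, ho⟩
    by_cases hz : ∀ P : G, 2 • P = 0 → φ • P = 0
    · obtain ⟨ψ, e⟩ := hd φ hz
      exact ih ψ (an_half h e hφ) fun hh => hk (val (j := 2) (c := 1) (by rw [e, n2, one_mul])
        (by norm_num) hh)
    push Not at hz
    obtain ⟨Q, hQ, S0⟩ := hz
    obtain ⟨S, hS⟩ : ∃ S, φ • Q = S := ⟨_, rfl⟩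
    have S2 : 2 • S = 0 := hS ▸ st φ hQ
    have φS : φ • S = 0 := hS ▸ nil hφ he hQ
    rw [hS] at S0
    have all := fun P => four hc hQ S2 S0 (fun e => S0 (by rw [← hS, e, smul_zero]))
      (fun e => S0 (by rw [← hS, e, φS])) (P := P)
    have ker : ∀ P : G, 2 • P = 0 → φ • P = 0 → P = 0 ∨ P = S := fun P a b => by
      rcases all P a with e | e | e | e
      exacts [Or.inl e, Or.inr e, absurd (by rw [← hS, ← e, b]) S0,
        absurd (by rwa [e, smul_add, φS, add_zero, hS] at b) S0]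
    have kill : ∀ θ : R, θ • Q = 0 → θ • S = 0 → ∃ ψ, θ = 2 * ψ := fun θ a b =>
      hd θ fun P hP => by rcases all P hP with e | e | e | e <;> simp [e, a, b]
    have πS : π • S = S := by
      refine (ker _ (st π S2) (by rw [← mul_smul, hφ, neg_smul, mul_smul, φS]; simp)).resolve_left
        fun e => S0 ?_
      obtain ⟨m, hm⟩ := hp.odd_of_ne_two p2
      have e1 := ev (n := p - 1) (P := S) ⟨m, by rw [hm]; push_cast; ring⟩ S2
      have e2 : (p : R) • S = 0 := by rw [← neg_eq_zero, ← neg_smul, ← hπ, mul_smul, e, smul_zero]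
      rw [Int.cast_sub, sub_smul, Int.cast_natCast, e2, Int.cast_one, one_smul] at e1
      simpa using e1
    obtain ⟨ψ, e⟩ := kill ((π - (1 : ℤ)) * φ) (by simp [mul_smul, hS, sub_smul, πS])
      (by rw [mul_smul, φS, smul_zero])
    have hψ := an_half h e (an_lin hφ 1)
    rcases Int.even_or_odd (N ψ) with he' | ho
    swap
    · exact ⟨ψ, hψ, ho⟩
    obtain ⟨m, hm⟩ := he
    have sq : φ * φ = -(2 * m) := by rw [h.sq_anti π0 hφ, hm, Int.cast_add, two_mul]
    rw [Int.cast_one] at e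
    have c1 : ψ * φ = -((π - 1) * m) := half h (by
      rw [← mul_assoc, ← e, mul_assoc, sq]; noncomm_ring)
    have c2 : φ * ψ = (π - 1) * m + 2 * m := half h (by
      have : 2 * (φ * ψ) = φ * π * φ - φ * φ := by
        rw [show 2 * (φ * ψ) = φ * (2 * ψ) by noncomm_ring, ← e]; noncomm_ring
      rw [this, hφ, neg_mul, mul_assoc, sq]; noncomm_ring)
    have two : ∀ {P : G}, 2 • P = 0 → (2 : R) • P = 0 := fun a => by rw [two_smul, ← two_nsmul, a]
    obtain ⟨T, hT⟩ : ∃ T, ((π - 1) * m) • Q = T := ⟨_, rfl⟩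
    have T2 : 2 • T = 0 := hT ▸ st _ hQ
    have ψS : ψ • S = -T := by rw [← hS, ← mul_smul, c1, neg_smul, hT]
    have φψ : φ • ψ • Q = T := by
      rw [← mul_smul, c2, add_smul, hT, mul_smul, two (st _ hQ), add_zero]
    have T0 : T = 0 := (ker T T2 (φψ ▸ nil hφ ⟨m, hm⟩ (st ψ hQ))).resolve_right fun eT => S0 (by
      have := nil hψ he' S2
      rwa [ψS, eT, smul_neg, ψS, eT, neg_neg] at this)
    rw [T0] at φψ
    rw [T0, neg_zero] at ψS
    obtain ⟨c, χ, e'⟩ : ∃ (c : ℤ) (χ : R), ψ - c * φ = 2 * χ := by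
      rcases ker _ (st ψ hQ) φψ with a | a
      · exact ⟨0, by simpa using kill ψ a ψS⟩
      · have := kill (ψ - φ) (by rw [sub_smul, a, hS, sub_self])
          (by rw [sub_smul, ψS, φS, sub_self])
        exact ⟨1, by simpa using this⟩
    have fin : ∀ (c : ℤ) (χ : R), ψ - c * φ = 2 * χ → ¬2 ^ 4 ∣ (p : ℤ) + (1 + 2 * c) ^ 2 →
        ∃ φ, φ * π = -(π * φ) ∧ Odd (N φ) := fun c χ e' hn => by
      have e2 : (π - (1 + 2 * c : ℤ)) * φ = 2 * (2 * χ) := by
        rw [← e', mul_sub, ← e]; push_cast; noncomm_ring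
      refine ih χ (an_half h rfl (an_half h e2 (an_lin hφ _))) fun hh => hk (val ?_ hn hh)
      rw [← nl, ← h.mul, e2, n2, n2]; ring
    by_cases h16 : 2 ^ 4 ∣ (p : ℤ) + (1 + 2 * c) ^ 2
    · refine fin (c + 2) (χ - φ) (by rw [mul_sub, ← e']; push_cast; noncomm_ring) fun hh => ?_
      have := dvd_sub hh h16
      rw [show (p : ℤ) + (1 + 2 * (c + 2)) ^ 2 - (p + (1 + 2 * c) ^ 2) = 16 * c + 24 by ring] at this
      omega
    · exact fin c χ e' h16

end Pool.Agent.MP_c481b3_nt.H79
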