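import Pool.Agent.MP_c481b3_nt.H79.SpecH

/-! Primes of odd degree from norms of odd valuation. -/

set_option autoImplicit false

namespace Pool.Agent.MP_c481b3_nt.H79

open Polynomial NumberField
open scoped IntermediateField

namespace OdpA

variable {K : Type} [Field K] [NumberField K]

theorem mem_of_dvd {q : ℕ} (hq : q.Prime) {P : Ideal (𝓞 K)} (hP : P.IsPrime) (h0 : P ≠ ⊥)
    (h : q ∣ Ideal.absNorm P) : (q : 𝓞 K) ∈ P := by
  have := Fact.mk hq
  have hf : Finite (𝓞 K ⧸ P) := Ideal.finiteQuotientOfFreeOfNeBot P h0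
  rw [Ideal.absNorm_apply, Submodule.cardQuot_apply] at h
  obtain ⟨x, hx⟩ := exists_prime_addOrderOf_dvd_card' q h
  have h1 : (q : 𝓞 K ⧸ P) * x = 0 := by
    rw [← nsmul_eq_mul, ← hx]
    exact addOrderOf_nsmul_eq_zero x
  rcases mul_eq_zero.1 h1 with h2 | rfl
  · rwa [← Ideal.Quotient.eq_zero_iff_mem, map_natCast]
  · rw [addOrderOf_zero] at hx
    exact absurd hx.symm hq.ne_one

theorem nr (j : K) (F : ℤ[X]) :
    ((Algebra.norm ℚ (aeval (IntermediateField.AdjoinSimple.gen ℚ j) F) : ℚ) : ℂ) =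
      Nr (minpoly ℚ j) F := by
  classical
  have hj : IsIntegral ℚ j := Algebra.IsIntegral.isIntegral j
  have hn : ((minpoly ℚ j).aroots ℂ).Nodup :=
    nodup_roots (Separable.map (Algebra.IsSeparable.isSeparable ℚ j))
  have e := Algebra.norm_eq_prod_embeddings ℚ ℂ (aeval (IntermediateField.AdjoinSimple.gen ℚ j) F)
  rw [eq_ratCast] at e
  rw [e, Nr]
  let E := IntermediateField.algHomAdjoinIntegralEquiv (K := ℂ) ℚ hj
  have h1 : (((minpoly ℚ j).aroots ℂ).map fun ρ => aeval ρ F).prod =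
      ∏ ρ ∈ ((minpoly ℚ j).aroots ℂ).toFinset, aeval ρ F := by
    rw [Finset.prod_eq_multiset_prod, Multiset.toFinset_val, hn.dedup]
  rw [h1, Finset.prod_subtype (p := fun x => x ∈ (minpoly ℚ j).aroots ℂ)
    (F := Fintype.ofEquiv _ E) _ (fun x => Multiset.mem_toFinset) fun ρ => aeval ρ F]
  symm
  refine @Fintype.prod_equiv _ _ _ (Fintype.ofEquiv _ E) _ _ E.symm _ _ fun x => ?_
  have h2 := IntermediateField.algHomAdjoinIntegralEquiv_symm_apply_gen (K := ℂ) ℚ hj x
  rw [← h2]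
  exact aeval_algHom_apply ((E.symm x).restrictScalars ℤ) _ F

end OdpA

theorem odp : ODP := by
  intro K _ _ q I hq
  have := Fact.mk hq
  induction I using UniqueFactorizationMonoid.induction_on_prime with
  | h₁ => intro h; simp at h
  | h₂ I hI => intro h; rw [Ideal.isUnit_iff.1 hI] at h; simp at h
  | h₃ I P hI hP ih =>
    intro h
    have n1 : Ideal.absNorm P ≠ 0 := fun e => hP.ne_zero (Ideal.absNorm_eq_zero_iff.1 e)
    have n2 : Ideal.absNorm I ≠ 0 := fun e => hI (Ideal.absNorm_eq_zero_iff.1 e)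
    rw [map_mul, padicValNat.mul n1 n2, Nat.odd_add] at h
    by_cases ho : Odd (padicValNat q (Ideal.absNorm P))
    · have hp : P.IsPrime := Ideal.isPrime_of_prime hP
      exact ⟨P, ⟨hp.isMaximal hP.ne_zero, OdpA.mem_of_dvd hq hp hP.ne_zero
        (dvd_of_one_le_padicValNat ho.pos), ho⟩, Ideal.mul_le_left⟩
    · obtain ⟨Q, h1, h2⟩ := ih (Nat.not_even_iff_odd.1 fun he => ho (h.2 he))
      exact ⟨Q, h1, Ideal.mul_le_right.trans h2⟩

theorem odn_of : ODP → ODN := by
  intro H K _ _ j x q d F w hj hq hd hx hw ho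
  have := Fact.mk hq
  have hw0 : w ≠ 0 := by
    rintro rfl
    simp at ho
  have hd0 : (d : ℚ) ≠ 0 := by
    rintro h
    exact hd (by rw [Nat.cast_eq_zero.1 h]; exact dvd_zero q)
  have e1 : Algebra.norm ℚ (aeval (IntermediateField.AdjoinSimple.gen ℚ j) F) = w :=
    Rat.cast_injective (α := ℂ) ((OdpA.nr j F).trans hw.symm)
  have e2 : aeval j F = algebraMap ℚ⟮j⟯ K (aeval (IntermediateField.AdjoinSimple.gen ℚ j) F) := by
    rw [← aeval_algebraMap_apply, IntermediateField.AdjoinSimple.algebraMap_gen]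
  have e3 : ((Algebra.norm ℤ x : ℤ) : ℚ) =
      d ^ Module.finrank ℚ K * w ^ Module.finrank ℚ⟮j⟯ K := by
    rw [Algebra.coe_norm_int, hx, map_mul, ← map_natCast (algebraMap ℚ K), Algebra.norm_algebraMap,
      e2, ← Algebra.norm_norm (S := ℚ⟮j⟯), Algebra.norm_algebraMap, map_pow, e1]
  have e4 := congrArg (padicValRat q) e3
  rw [padicValRat.of_int, padicValRat.mul (pow_ne_zero _ hd0) (pow_ne_zero _ hw0), padicValRat.pow,
    padicValRat.pow, padicValRat.of_nat, padicValNat.eq_zero_of_not_dvd hd] at e4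
  obtain ⟨P, h1, h2⟩ := H K q (Ideal.span {x}) hq (by
    rw [Ideal.absNorm_span_singleton, ← Int.odd_coe_nat]
    change Odd ((padicValInt q (Algebra.norm ℤ x) : ℕ) : ℤ)
    rw [e4, Nat.cast_zero, mul_zero, zero_add]
    exact ((Int.odd_coe_nat _).2 hj).mul ho)
  exact ⟨P, h1, h2 (Ideal.mem_span_singleton_self x)⟩

end Pool.Agent.MP_c481b3_nt.H79
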