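import Pool.Agent.MP_c481b3_nt.H79.Ssf
import Pool.Agent.MP_c481b3_nt.H79.Iu
import Pool.Agent.MP_c481b3_nt.H28.GlobalPar

/-! The primes with trace zero have degree one. -/

set_option autoImplicit false

namespace Pool.Agent.MP_c481b3_nt.H79

open Pool.Agent.MP_c481b3_nt.H81 Pool.Agent.MP_c481b3_nt.H28 NumberField
open scoped IntermediateField

namespace OneA

lemma core {k : Type} [Field k] [DecidableEq k] [IsAlgClosed k] [DecidableEq (RatFunc k)]
    [DecidableEq (LL k)] {A B : k} (hG : Good A B) (h3 : (3 : k) ≠ 0) (q : ℕ) [Fact q.Prime]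
    [CharP k q] {n : ℕ} (hA : A ^ q ^ n = A) (hB : B ^ q ^ n = B) (n0 : n ≠ 0) (A0 : A ≠ 0)
    (B0 : B ≠ 0) (ha : pol NE (frE hG q n hA hB) 1 = 0) : jj A B ^ q = jj A B := by
  have cr := compRing h3 hG
  have ch := cr.char (frE hG q n hA hB)
  rw [ha, NE_frE] at ch
  have nt : ∀ P : Pt A B, q • P = 0 → P = 0 := fun P hP => by
    obtain ⟨m, rfl⟩ := Nat.exists_eq_succ_of_ne_zero n0
    have h1 := congrArg (fun φ : EE hG => φ.1 P) ch
    simp only [EE_mul, EE_sub, EE_int] at h1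
    rw [pow_succ, mul_zsmul, natCast_zsmul, hP, zsmul_zero, zero_zsmul, sub_zero] at h1
    by_contra p0
    exact Sc.map_ne _ (Sc.map_ne _ p0) h1
  obtain ⟨m, hm⟩ : Odd n := Nat.not_even_iff_odd.1 fun ⟨m, hm⟩ => by
    obtain ⟨e, e1, e2⟩ := ssf k A B hG q n m hA hB (by omega) h3 A0 B0 nt
    rw [e2, ← mul_one ((e * q ^ m : ℤ) : EE hG), cr.pol_int, CompRing.pol_self cr, cr.one] at ha
    have q0 : (q : ℤ) ^ m ≠ 0 := pow_ne_zero _ (by exact_mod_cast (Fact.out : q.Prime).ne_zero)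
    rcases sq_eq_one_iff.1 e1 with rfl | rfl <;> omega
  obtain ⟨u, u2, u3, -⟩ := SsfA.core (hG := hG) (q := q) (n := 2) (m := 1) rfl h3 nt
  have u0 : u ≠ 0 := by rintro rfl; simp [A0] at u2
  obtain ⟨v, rfl⟩ := IsAlgClosed.exists_pow_nat_eq u two_pos
  have j2 : jj A B ^ q ^ 2 = jj A B := by
    conv_rhs => rw [u2, u3, ← pow_mul, ← pow_mul]
    exact (jj_map (iterateFrobenius k q 2) A B).trans (jj_scale (by simpa using u0) _ _).symm
  have jn : jj A B ^ q ^ n = jj A B := by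
    conv_rhs => rw [← hA, ← hB]
    exact jj_map (iterateFrobenius k q n) A B
  rwa [hm, pow_succ, pow_mul (jj A B), fix_mul q 2 j2 m] at jn

end OneA

theorem one {K : Type} [Field K] [NumberField K] {A B : 𝓞 K} (h0 : A * B * (Wc A B).Δ ≠ 0)
    (hj : ℚ⟮jj (A : K) B⟯ = ⊤) (h : (Z0 A B).Infinite) :
    {P | P ∈ Z0 A B ∧ (Ideal.absNorm P).Prime}.Infinite := by
  classical
  obtain ⟨d, hd⟩ := degOne K (6912 * A ^ 3) (4 * A ^ 3 + 27 * B ^ 2) (by
    rw [← hj, jj]; push_cast; rfl)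
  have x0 : A * B * (Wc A B).Δ * (d + 5).factorial ≠ 0 :=
    mul_ne_zero h0 (Nat.cast_ne_zero.2 (Nat.factorial_ne_zero _))
  refine (h.sdiff ((Ideal.finite_factors (mt Ideal.span_singleton_eq_bot.1 x0)).image
    (·.asIdeal))).mono ?_
  rintro P ⟨⟨hP, hΔ, ha⟩, hn⟩
  refine ⟨⟨hP, hΔ, ha⟩, ?_⟩
  have n : P ≠ ⊥ := Ring.ne_bot_of_isMaximal_of_not_isField hP (RingOfIntegers.not_isField K)
  replace hn : A * B * (Wc A B).Δ * (d + 5).factorial ∉ P := fun e =>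
    hn ⟨⟨P, hP.isPrime, n⟩, Ideal.dvd_span_singleton.2 e, rfl⟩
  let := Ideal.Quotient.field P
  have : Finite (𝓞 K ⧸ P) := P.finiteQuotientOfFreeOfNeBot n
  obtain ⟨q, hq⟩ := CharP.exists (𝓞 K ⧸ P)
  have pq : q.Prime := CharP.char_is_prime (𝓞 K ⧸ P) q
  have := Fact.mk pq
  let φ : 𝓞 K →+* AlgebraicClosure (𝓞 K ⧸ P) := (algebraMap _ _).comp (Ideal.Quotient.mk P)
  have ker : ∀ r, φ r = 0 ↔ r ∈ P := fun r =>
    (map_eq_zero (algebraMap (𝓞 K ⧸ P) _)).trans Ideal.Quotient.eq_zero_iff_mem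
  have m : (q : 𝓞 K) ∈ P := (ker q).1 (by simp)
  have dq : d + 5 < q := not_le.1 fun e => by
    obtain ⟨c, hc⟩ := (pq.dvd_factorial).2 e
    exact hn (P.mul_mem_left _ (by rw [hc, Nat.cast_mul]; exact P.mul_mem_right _ m))
  have h3 := (small_ne (AlgebraicClosure (𝓞 K ⧸ P)) (p := q) (by omega)).2
  obtain ⟨f, G, hA, hB, f0, -, tr⟩ := loc_hom q h3 φ hP ker hΔ
  have e := OneA.core G h3 q hA hB f0
    (fun e => hn (by rw [mul_assoc, mul_assoc]; exact P.mul_mem_right _ ((ker A).1 e)))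
    (fun e => hn (by rw [mul_assoc]; exact P.mul_mem_right _ (P.mul_mem_left _ ((ker B).1 e))))
    (tr.trans ha)
  rw [jj, div_pow, div_eq_div_iff (pow_ne_zero _ G.disc) G.disc] at e
  rw [hd q P pq (by omega) hP m (fun e => G.disc (by simpa [map_ofNat] using (ker _).2 e))
    ((ker _).1 (by simpa [map_ofNat, sub_eq_zero] using e))]
  exact pq

end Pool.Agent.MP_c481b3_nt.H79
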