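import Pool.Agent.MP_c481b3_nt.H79.SpecA
import Pool.Agent.MP_c481b3_nt.H31F.All

/-! The order of `YY` at a point is odd. -/

set_option autoImplicit false

namespace Pool.Agent.MP_c481b3_nt.H79

open UpperHalfPlane hiding I
open Polynomial Pool.Agent.MP_c481b3_nt.H31F Filter Topology
open scoped Real

namespace OrdyA

lemma odd_of {g d : ℂ → ℂ} {x c : ℂ} (P : ℂ[X]) (hg : AnalyticAt ℂ g x) (hd : AnalyticAt ℂ d x)
    (hd0 : d x ≠ 0) (hc : c ≠ 0)
    (h : (fun z => (c * deriv g z) ^ 3) =ᶠ[𝓝 x] fun z => P.eval (g z) * d z)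
    (hf : analyticOrderAt (g · - g x) x ≠ ⊤) :
    ∃ e : ℕ, Odd e ∧ analyticOrderAt (g · - g x) x = e := by
  have hP : AnalyticAt ℂ (fun y => P.eval y) (g x) :=
    (P.differentiable.differentiableOn.analyticOnNhd isOpen_univ) _ (Set.mem_univ _)
  have h1 := hg.analyticOrderAt_deriv_add_one
  have h2 : analyticOrderAt (fun z => (c * deriv g z) ^ 3) x = 3 • analyticOrderAt (deriv g) x := by
    have a : analyticOrderAt ((fun _ => c) * deriv g) x = analyticOrderAt (deriv g) x := by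
      rw [analyticOrderAt_mul analyticAt_const hg.deriv,
        analyticAt_const.analyticOrderAt_eq_zero.2 hc, zero_add]
    rw [← a]
    exact analyticOrderAt_pow (analyticAt_const.mul hg.deriv) 3
  have h3 : analyticOrderAt (fun z => P.eval (g z) * d z) x =
      analyticOrderAt (fun y => P.eval y) (g x) * analyticOrderAt (g · - g x) x := by
    rw [← hP.analyticOrderAt_comp hg, ← add_zero (analyticOrderAt (_ ∘ g) x),
      ← hd.analyticOrderAt_eq_zero.2 hd0]
    exact analyticOrderAt_mul (hP.comp hg) hd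
  have h4 := h2.symm.trans ((analyticOrderAt_congr h).trans h3)
  rw [← h1] at hf h4 ⊢
  obtain ⟨s, hs⟩ := ENat.ne_top_iff_exists.1 (fun e : analyticOrderAt (deriv g) x = ⊤ =>
    hf (by rw [e, top_add]))
  rw [← hs] at h4 ⊢
  refine ⟨s + 1, ?_, by simp⟩
  generalize analyticOrderAt (fun y => P.eval y) (g x) = m at h4
  cases m with
  | top =>
    rw [ENat.top_mul (by simp)] at h4
    exact absurd h4 (by rw [nsmul_eq_mul]; exact_mod_cast ENat.natCast_ne_top (3 * s))
  | coe m =>
    have h5 : 3 * s = m * (s + 1) := by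
      rw [nsmul_eq_mul] at h4
      exact_mod_cast h4
    by_contra ho
    have h6 : Even (m * (s + 1)) := (Nat.not_odd_iff_even.1 ho).mul_left m
    rw [← h5] at h6
    rw [Nat.not_odd_iff_even] at ho
    grind

lemma exists_poly : ∃ P : ℂ[X], ∀ τ, dv YY τ ^ 3 = P.eval (YY τ) * dl τ := by
  have b := b1
  have hD : Dc ℂ ≠ 0 := (b.pol.unit ℂ).2.ne_zero
  have mul := (b.ring 1 one_pos).2.2.1
  have ai := (b.ring 1 one_pos).2.2.2.1 _ _ b.y2.ad hD
  have hi : Hol fun τ => (dl τ)⁻¹ := fun τ => (b.y1.hd τ).inv (b.y1.ne τ)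
  obtain ⟨P, -, -, p, -⟩ := (b2.lv 1 ⊤ _ _ one_pos
    (((b.y1.hD.mul b.y1.hD).mul b.y1.hD).mul hi)
    (mul _ _ _ _ (mul _ _ _ _ (mul _ _ _ _ b.y2.aD b.y2.aD) b.y2.aD) ai)
    (mem_ovr.2 fun _ => trivial)).1 2 (by
    intro γ τ hγ
    have := den_ne (M := γ) (by omega) τ
    have : ((eps γ : ℤ) : ℂ) ≠ 0 := fun e => by simpa [e] using LvAux.eps_sq γ
    have := b.y1.ne τ
    show dv YY (act γ τ) * dv YY (act γ τ) * dv YY (act γ τ) * (dl (act γ τ))⁻¹
      = eps γ ^ 2 * (dv YY τ * dv YY τ * dv YY τ * (dl τ)⁻¹)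
    rw [b.y1.tD γ τ hγ, b.y1.td γ τ hγ]
    field_simp)
  refine ⟨P, fun τ => ?_⟩
  have := b.y1.ne τ
  rw [← p τ]
  show _ = dv YY τ * dv YY τ * dv YY τ * (dl τ)⁻¹ * dl τ
  field_simp

lemma ana {f : ℍ → ℂ} (h : Hol f) : AnalyticOnNhd ℂ (f ∘ ofComplex) {z | 0 < z.im} :=
  (UpperHalfPlane.mdifferentiable_iff.1 h).analyticOnNhd (isOpen_lt continuous_const Complex.continuous_im)

end OrdyA

open OrdyA in
theorem ordy : ORDY := by
  intro τ hτ
  obtain ⟨P, hP⟩ := exists_poly
  have hY := ana b1.y1.hY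
  have key := odd_of (g := YY ∘ ofComplex) (d := dl ∘ ofComplex) (x := τ)
    (c := 2 * (2 * π * Complex.I)⁻¹) P (hY _ τ.im_pos) (ana b1.y1.hd _ τ.im_pos)
    (by simpa using b1.y1.ne τ) (by simp) (by
      filter_upwards [(isOpen_lt continuous_const Complex.continuous_im).mem_nhds τ.im_pos]
        with z hz
      have := hP ⟨z, hz⟩
      simp only [dv, Derivative.normalizedDerivOfComplex] at this
      simp only [Function.comp, ofComplex_apply_of_im_pos hz]
      rw [← this, mul_assoc]) (by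
      refine (hY.sub analyticOnNhd_const).analyticOrderAt_ne_top_of_isPreconnected
        (convex_halfSpace_im_gt 0).isPreconnected (act !![1, 1; 0, 1] τ).im_pos τ.im_pos ?_
      rw [analyticOrderAt_eq_zero.2 (Or.inr ?_)]
      · simp
      · simp only [Pi.sub_apply, Function.comp, ofComplex_apply]
        rw [b1.y1.tY _ _ (by simp)]
        have : eps !![1, 1; 0, 1] = -1 := by simp [eps]
        rw [this]
        intro e
        exact hτ (by push_cast at e; linear_combination -e / 2))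
  simpa only [Function.comp, ofComplex_apply] using key

end Pool.Agent.MP_c481b3_nt.H79
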