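import Pool.Agent.MP_c481b3_nt.H79.SpecP

/-! The complex numbers as an algebraic closure of the `p`-adic numbers. -/

set_option autoImplicit false

namespace Pool.Agent.MP_c481b3_nt.H79

open Polynomial
open scoped NNReal IntermediateField

namespace PadA

variable (p : ℕ) [Fact p.Prime]

open Cardinal in
lemma card_padic : #ℚ_[p] = continuum := by
  refine le_antisymm ?_ (continuum_le_cardinal_of_nontriviallyNormedField _)
  have h1 : #ℚ_[p] ≤ #(PadicSeq p) := mk_quotient_le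
  have h2 : #(PadicSeq p) ≤ #(ℕ → ℚ) := mk_subtype_le _
  refine h1.trans (h2.trans ?_)
  simp

open Cardinal in
lemma exists_equiv : Nonempty (PadicAlgCl p ≃+* ℂ) := by
  have h1 : #(PadicAlgCl p) = continuum := by
    refine le_antisymm ?_ ?_
    · refine (Algebra.IsAlgebraic.cardinalMk_le_max ℚ_[p] _).trans ?_
      rw [card_padic]
      exact max_le le_rfl aleph0_le_continuum
    · rw [← card_padic p]
      exact mk_le_of_injective (algebraMap ℚ_[p] (PadicAlgCl p)).injective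
  exact IsAlgClosed.ringEquiv_of_equiv_of_charZero
    (by rw [h1]; exact aleph0_lt_continuum) (Cardinal.eq.1 (by rw [h1, mk_complex]))

/-- elements fixed by the stabiliser of a square root -/
lemma quad {k K : Type} [Field k] [Field K] [Algebra k K] [IsGalois k K] (s z : K) (a : k)
    (hs : s ^ 2 = algebraMap k K a) (h : ∀ τ : K ≃ₐ[k] K, τ s = s → τ z = z) :
    ∃ x y : k, z = algebraMap k K x + algebraMap k K y * s := by
  have h1 : z ∈ k⟮s⟯ := by
    rw [← InfiniteGalois.fixedField_fixingSubgroup k⟮s⟯, IntermediateField.mem_fixedField_iff]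
    exact fun τ hτ => h τ ((IntermediateField.mem_fixingSubgroup_iff _ τ).1 hτ s
      (IntermediateField.mem_adjoin_simple_self k s))
  have h2 : z ∈ Algebra.adjoin k {s} := by
    rw [← IntermediateField.adjoin_simple_toSubalgebra_of_isAlgebraic
      (Algebra.IsAlgebraic.isAlgebraic s)]
    exact h1
  clear h h1
  induction h2 using Algebra.adjoin_induction with
  | mem x hx => exact ⟨0, 1, by simpa using hx⟩
  | algebraMap r => exact ⟨r, 0, by simp⟩
  | add x y _ _ hx hy =>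
    obtain ⟨x1, x2, rfl⟩ := hx
    obtain ⟨y1, y2, rfl⟩ := hy
    exact ⟨x1 + y1, x2 + y2, by simp only [map_add]; ring⟩
  | mul x y _ _ hx hy =>
    obtain ⟨x1, x2, rfl⟩ := hx
    obtain ⟨y1, y2, rfl⟩ := hy
    refine ⟨x1 * y1 + x2 * y2 * a, x1 * y2 + x2 * y1, ?_⟩
    simp only [map_add, map_mul]
    linear_combination algebraMap k K x2 * algebraMap k K y2 * hs

end PadA

open PadA in
theorem pad : PAD := by
  intro p _
  obtain ⟨e⟩ := exists_equiv p
  obtain ⟨v, hv⟩ : ∃ v : Valuation ℂ ℝ≥0, ∀ z, (v z : ℝ) = ‖e.symm z‖ :=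
    ⟨(Valued.v : Valuation (PadicAlgCl p) ℝ≥0).comap (e.symm : ℂ →+* PadicAlgCl p), fun _ => rfl⟩
  have key : ∀ a b, v.valuationSubring.valuation a ≤ v.valuationSubring.valuation b ↔
      ‖e.symm a‖ ≤ ‖e.symm b‖ := fun a b => by
    rw [← v.isEquiv_valuation_valuationSubring a b, ← hv, ← hv, NNReal.coe_le_coe]
  obtain ⟨ι, hι⟩ : ∃ ι : ℚ_[p] →+* ℂ,
      ι = (e : PadicAlgCl p →+* ℂ).comp (algebraMap ℚ_[p] (PadicAlgCl p)) := ⟨_, rfl⟩
  have h1 : ∀ x, ι x = e (algebraMap ℚ_[p] (PadicAlgCl p) x) := fun x => by rw [hι]; rfl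
  have h2 : ∀ x, e.symm (ι x) = algebraMap ℚ_[p] (PadicAlgCl p) x := fun x => by
    rw [h1, e.symm_apply_apply]
  have gal : ∀ τ : PadicAlgCl p ≃ₐ[ℚ_[p]] PadicAlgCl p, ∃ σ : ℂ ≃+* ℂ, Fx ι σ ∧
      ∀ z, e.symm (σ z) = τ (e.symm z) := fun τ =>
    ⟨e.symm.trans (τ.toRingEquiv.trans e), fun x => by simp [h1], fun z => by simp⟩
  have fix2 : ∀ (s z : ℂ) (a : ℚ_[p]), s ^ 2 = ι a → (∀ σ, Fx ι σ → σ s = s → σ z = z) →
      ∃ x y, z = ι x + ι y * s := fun s z a hs h => by
    obtain ⟨x, y, hz⟩ := quad (e.symm s) (e.symm z) a (by rw [← map_pow, hs, h2]) fun τ hτ => by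
      obtain ⟨σ, a1, a2⟩ := gal τ
      rw [← a2, h σ a1 (e.symm.injective (by rw [a2, hτ]))]
    exact ⟨x, y, e.symm.injective (by rw [map_add, map_mul, h2, h2, hz])⟩
  refine ⟨v.valuationSubring, ι, fun x y => ?_, fun σ hσ z => ?_, fun z h => ?_, fix2,
    fun z h => ?_, fun z => ?_⟩
  · rw [key, h2, h2, norm_algebraMap', norm_algebraMap']
  · have := spectralNorm_eq_of_equiv (K := ℚ_[p]) (L := PadicAlgCl p)
      (AlgEquiv.ofRingEquiv (f := e.trans (σ.trans e.symm)) fun x => by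
        change e.symm (σ (e _)) = _
        rw [← h1, hσ, h2]) (e.symm z)
    have e1 : ‖e.symm z‖ = ‖e.symm (σ z)‖ := by simpa using this
    exact le_antisymm ((key _ _).2 e1.ge) ((key _ _).2 e1.le)
  · obtain ⟨x, y, hz⟩ := fix2 0 z 0 (by simp) fun σ hσ _ => h σ hσ
    exact ⟨x, by simpa using hz⟩
  · have hp : ‖(p : PadicAlgCl p)‖ < 1 := by
      rw [← map_natCast (algebraMap ℚ_[p] (PadicAlgCl p)), norm_algebraMap']
      exact Padic.norm_p_lt_one
    by_contra h0
    have h3 : 0 < ‖e.symm z‖ := norm_pos_iff.2 (by simpa using h0)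
    obtain ⟨k, hk⟩ := exists_pow_lt_of_lt_one h3 hp
    have h4 := h k
    rw [← map_pow, key, map_pow, map_natCast, norm_pow] at h4
    exact absurd hk (not_lt.2 h4)
  · obtain ⟨g, g0, g1⟩ := Algebra.IsAlgebraic.isAlgebraic (R := ℚ_[p]) (e.symm z)
    refine ⟨g, g0, ?_⟩
    have := hom_eval₂ g (algebraMap ℚ_[p] (PadicAlgCl p)) (e : PadicAlgCl p →+* ℂ) (e.symm z)
    rw [← aeval_def, g1, map_zero, ← hι] at this
    simpa using this.symm

end Pool.Agent.MP_c481b3_nt.H79
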