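import Pool.Agent.MP_c481b3_nt.H79.SpecA
import Pool.Agent.MP_c481b3_nt.H31F.All
import Pool.Agent.MP_c481b3_nt.H31F.Tm
import Pool.Agent.MP_c481b3_nt.H31F.Vls
import Pool.Agent.MP_c481b3_nt.H31F.Phi
import Pool.Agent.MP_c481b3_nt.H31F.Can1

/-! Existence of the oriented modular polynomials. -/

set_option autoImplicit false

namespace Pool.Agent.MP_c481b3_nt.H79

open UpperHalfPlane hiding I
open Polynomial Finset Pool.Agent.MP_c481b3_nt.H31F

namespace Phi2A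

/-- the polynomial with the conjugates as roots -/
noncomputable def FF (m : ℕ) : (ℍ → ℂ)[X] := ∏ M ∈ Hk 2 m, (X - C fun τ => YY (act M τ))

/-- evaluation at the function -/
noncomputable def ph (R : Type) [CommRing R] [Algebra R ℂ] : R[X] →+* (ℍ → ℂ) :=
  RingHom.pi fun τ => eval₂RingHom (algebraMap R ℂ) (YY τ)

lemma ph_apply {R : Type} [CommRing R] [Algebra R ℂ] (P : R[X]) (τ : ℍ) :
    ph R P τ = aeval (YY τ) P := rfl

lemma rat {m : ℕ} (hm : Odd m) : FF m ∈ lifts (ph ℚ) := by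
  have := PhiAux.newton (liftsRing (ph ℚ)) (fun k hk x hx => ?_)
    (fun H : Hk 2 m => (C fun τ => YY (act H τ) : (ℍ → ℂ)[X])) (fun k => ?_) (X_mem_lifts _)
  · rw [prod_coe_sort (Hk 2 m) fun M => (X - C fun τ => YY (act M τ) : (ℍ → ℂ)[X])] at this
    exact this
  · have h1 : C (ph ℚ (C (k : ℚ)⁻¹)) * (k * x) ∈ liftsRing (ph ℚ) := mul_mem (C_mem_lifts _ _) hx
    rwa [← mul_assoc, ← C_eq_natCast, ← C_mul, ← map_natCast (ph ℚ), ← map_mul, ← C_eq_natCast,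
      ← C_mul, inv_mul_cancel₀ (Nat.cast_ne_zero.2 hk), map_one, map_one, map_one, one_mul] at h1
  · obtain ⟨T, -, h, -⟩ := TmAux.main b1 b2.lv hm k
    have e : ∑ H : Hk 2 m, (C fun τ => YY (act H τ) : (ℍ → ℂ)[X]) ^ k =
        C (ph ℚ (T.map (algebraMap ℤ ℚ))) := by
      simp only [← C_pow, ← map_sum]
      congr 1
      funext τ
      rw [ph_apply, aeval_map_algebraMap, ← h, ← sum_coe_sort (Hk 2 m)]
      simp only [Finset.sum_apply, Pi.pow_apply]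
    rw [e]
    exact C_mem_lifts _ _

lemma mem {m : ℕ} (hm : 0 < m) (O : ValuationSubring ℂ) (i : ℕ) :
    (FF m).coeff i ∈ Can1Aux.MM b2 O hm := by
  have : FF m ∈ liftsRing (Can1Aux.MM b2 O hm).subtype := by
    refine prod_mem fun M hM => sub_mem (X_mem_lifts _) (C'_mem_lifts ⟨⟨_, ?_⟩, rfl⟩)
    refine (b2.my.2 O m M hm (TmAux.det_pos b1 hM) ?_).1
    obtain ⟨a, d, c, -, -, rfl, -, rfl⟩ := (b1.mat.mem 2 m M).1 hM
    rw [Matrix.det_fin_two_of]
    simp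
  obtain ⟨x, hx⟩ := (lifts_iff_coeff_lifts _).1 this i
  exact hx ▸ x.2

lemma int {m : ℕ} (hm : Odd m) : FF m ∈ lifts (ph ℤ) := by
  refine (lifts_iff_coeff_lifts _).2 fun i => ?_
  obtain ⟨P, hP⟩ := (lifts_iff_coeff_lifts _).1 (rat hm) i
  have h1 : P ∈ lifts (algebraMap ℤ ℚ) := (lifts_iff_coeff_lifts _).2 fun n => by
    have k : IsIntegral ℤ (algebraMap ℚ ℂ (P.coeff n)) := (vls.int _).2 fun O => by
      obtain ⟨G, g1, g2⟩ := Can1Aux.mm_le (mem hm.pos O i)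
      have g3 := (b1.ring m hm.pos).2.2.2.2.2.2.1 _ _ (P.map (algebraMap ℚ ℂ))
        (LvAux.asyY b1 hm.pos)
      simp only [eval_map_algebraMap] at g3
      rw [← hP] at g2
      rw [(b1.ring m hm.pos).2.2.2.2.1 _ _ _ g2 g3, LvAux.ex_aeval hm.pos] at g1
      have g4 := b1.pol.int O.toSubring (P.map (algebraMap ℚ ℂ)) (mem_ovr.2 fun j => by
        rw [← coeff_ex_mul hm.pos]; exact mem_ovr.1 g1 _) n
      rwa [coeff_map] at g4
    exact IsIntegrallyClosed.isIntegral_iff.1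
      ((isIntegral_algebraMap_iff (algebraMap ℚ ℂ).injective).1 k)
  obtain ⟨T, rfl⟩ := h1
  refine ⟨T, hP ▸ funext fun τ => ?_⟩
  rw [ph_apply, ph_apply, coe_mapRingHom, aeval_map_algebraMap]

end Phi2A

open Phi2A in
theorem phi2 : PHI2 := by
  intro m hm
  obtain ⟨Φ, hΦ⟩ := int hm
  have h1 : IsPhi m Φ := fun τ x => by
    have e : eval₂RingHom (Int.castRingHom ℂ) (YY τ) = (Pi.evalRingHom _ τ).comp (ph ℤ) := rfl
    rw [coe_mapRingHom] at hΦ
    rw [ev2, e, ← Polynomial.map_map, hΦ, FF, Polynomial.map_prod, eval_prod]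
    simp
  refine ⟨Φ, h1, fun x y => ?_⟩
  obtain ⟨τ, rfl⟩ := surj_of b1 b2.lv y
  have hT : (!![1, 1; 0, 1] : M2).det = 1 := by simp
  have eT : eps !![1, 1; 0, 1] = -1 := by simp [eps]
  have e1 : -YY τ = YY (act !![1, 1; 0, 1] τ) := by rw [b1.y1.tY _ _ hT, eT]; simp
  obtain ⟨σ, s1, s2⟩ := b1.mat.perm 2 m _ (Nat.coprime_two_left.2 hm) hT
  rw [e1, h1, h1, ← prod_neg]
  refine prod_nbij σ s1.mapsTo s1.injOn s1.surjOn fun H hH => ?_
  obtain ⟨γ', g1, g2, g3⟩ := s2 H hH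
  rw [← act_mul (TmAux.det_pos b1 hH) (hT ▸ one_pos), g2,
    act_mul (g1 ▸ one_pos) (TmAux.det_pos b1 (s1.mapsTo hH)), b1.y1.tY _ _ g1, g3 rfl, eT]
  push_cast
  ring

end Pool.Agent.MP_c481b3_nt.H79
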