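import Pool.Agent.MP_c481b3_nt.H79.SpecG
import Pool.Agent.MP_c481b3_nt.H28.PolyAux

/-! The polynomial of the singular moduli of a given type. -/

set_option autoImplicit false

namespace Pool.Agent.MP_c481b3_nt.H79

open Pool.Agent.MP_c481b3_nt.H81 Pool.Agent.MP_c481b3_nt.H28 Polynomial NumberField

theorem poly_of : KRON → MULT → BRA → POLY := by
  classical
  intro hK hM hB l r i ε hl l12 hr r2 lr
  have := Fact.mk hl
  have l2 : l ≠ 2 := by omega
  obtain ⟨e, e2, he⟩ : ∃ e : ℤ, e ^ 2 = 1 ∧ (e = 1) = ε := by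
    by_cases h : ε
    · exact ⟨1, by simp, by simp [h]⟩
    · exact ⟨-1, by simp, by simp [h]⟩
  obtain ⟨Ψ, h1, h2, c, S, c2, h3⟩ := hK l r i e hl l2 hr r2 lr e2
  have p0 : Ψ ≠ 0 := fun h => h2 l hl (by simp [h])
  obtain ⟨F, G, rfl, h4⟩ := exists_sqfree Ψ p0
  have f0 : F ≠ 0 := right_ne_zero_of_mul p0
  have om : Odd (r ^ i) := (hr.odd_of_ne_two r2).pow
  have nd : (F.aroots ℂ).Nodup := by
    have sq : Squarefree (F.map (algebraMap ℤ ℚ)) := fun x hx => by
      by_contra hu
      have x0 : x ≠ 0 := fun h => (Polynomial.map_ne_zero_iff (algebraMap ℤ ℚ).injective_int).2 f0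
        (by simpa [h] using hx)
      exact h4 x (natDegree_pos_iff_degree_pos.2 (degree_pos_of_ne_zero_of_nonunit x0 hu))
        (by rwa [sq])
    have := nodup_roots ((PerfectField.separable_iff_squarefree.2 sq).map (f := algebraMap ℚ ℂ))
    rwa [Polynomial.map_map, Subsingleton.elim ((algebraMap ℚ ℂ).comp _) (algebraMap ℤ ℂ)] at this
  refine ⟨F, fun q hq h => h2 q hq (by rw [Polynomial.map_mul, h, mul_zero]), ⟨c, ?_⟩, nd,
    fun t => ?_⟩
  · have s0 : S ≠ 0 := fun h => by
      rw [h, Polynomial.map_mul, Polynomial.map_mul, zero_pow two_ne_zero, map_C] at h3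
      refine mul_ne_zero (mul_ne_zero (C_ne_zero.2 fun h => ?_) ?_) (h2 l hl) h3
      · have := congrArg (Int.castRingHom (ZMod l)) c2
        rw [map_pow, h] at this
        simp at this
      · exact ((monic_X_sub_C (1728 : ℤ)).map _).ne_zero
    obtain ⟨R, Z, h⟩ := square_mod hl (P := C c * (X - 1728) * F) (G := G) s0
      (by rw [← h3]; congr 1; ring)
    exact ⟨R, Z, c2, h⟩
  · have i0 := (Polynomial.map_ne_zero_iff (Int.castRingHom ℂ).injective_int).2 p0
    rw [← he, ← hB _ e t ((hl.odd_of_ne_two l2).mul om.pow) e2, ← hM l (r ^ i) e _ hl l12 om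
      (fun h => lr ((Nat.prime_dvd_prime_iff_eq hl hr).1 (hl.dvd_of_dvd_pow h))) e2 h1 p0 t]
    rw [Polynomial.map_mul, Polynomial.map_pow] at i0 ⊢
    have c1 := Multiset.nodup_iff_count_le_one.1 nd t
    rw [sq (G.map _)] at i0 ⊢
    rw [rootMultiplicity_mul i0, rootMultiplicity_mul (left_ne_zero_of_mul i0),
      ← Multiset.count_pos, ← count_roots (F.map _), Nat.odd_iff]
    change (F.map (Int.castRingHom ℂ)).roots.count t ≤ 1 at c1
    change 0 < (F.map (Int.castRingHom ℂ)).roots.count t ↔ _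
    omega

end Pool.Agent.MP_c481b3_nt.H79
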