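import Pool.Agent.MP_c481b3_nt.H79.SpecN
import Pool.Agent.MP_c481b3_nt.H79.Iu

/-! The action on the rational points of the disc of any curve. -/

set_option autoImplicit false

namespace Pool.Agent.MP_c481b3_nt.H79

open Pool.Agent.MP_c481b3_nt.H81 Pool.Agent.MP_c481b3_nt.H28

namespace RatNA

variable {p : ℕ} [Fact p.Prime] (X : Fam p)

/-- a subgroup of the right order that reduces into the kernel reduces onto it -/
lemma ker_eq {θ : X.E} (hθ : ¬(p : ℤ) ∣ NE θ) {t : ℂ} (ht : X.Dk t) {D : Finset (X.P t)}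
    (hD : IsSub D) (hc : (D.card : ℤ) = NE θ) (h : ∀ P ∈ D, θ.1 (ht.rd.red P) = 0) :
    ¬p ∣ D.card ∧ ∀ Q, Q ∈ D.image ht.rd.red ↔ θ.1 Q = 0 := by
  have h0 : ¬p ∣ D.card := fun e => hθ (hc ▸ Int.natCast_dvd_natCast.2 e)
  obtain ⟨K, d, e1, e2⟩ := exists_vd X.three θ (X.sep hθ)
  have k : ∀ Q, θ.1 Q = 0 ↔ Q ∈ K := fun Q => by rw [← d.hom_eq_zero X.three, ← e2]; rfl
  have e : D.image ht.rd.red = K := Finset.eq_of_subset_of_card_le (fun Q hQ => by
    obtain ⟨P, hP, rfl⟩ := Finset.mem_image.1 hQ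
    exact (k _).1 (h P hP)) (by
      rw [card_red ht.rd hD (X.nat_ne.2 h0)]
      exact_mod_cast (e1.trans hc.symm).le)
  exact ⟨h0, fun Q => by rw [e, k]⟩

lemma st_pow {θ : X.E} (hθ : X.St θ) (m : ℕ) {Q : Pt X.A X.B} (h : θ.1 Q = 0) :
    θ.1 ((X.π ^ m).1 Q) = 0 := by
  induction m with
  | zero => exact h
  | succ m ih =>
    rw [pow_succ', EE_mul, ← EE_mul]
    rcases hθ.2 with e | e
    · rw [e, EE_mul, ih, map_zero]
    · rw [e, EE_neg, EE_mul, ih, map_zero, neg_zero]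

/-- the square of the multiplier lies in the prime field -/
lemma c_sq {θ : X.E} (hθ : X.St θ) (m : ℕ) :
    (cE X.good θ ^ p ^ m) ^ 2 = cE X.good θ ^ 2 := by
  have c0 := X.sep hθ.1
  have a : (cE X.good θ ^ p) ^ 2 = cE X.good θ ^ 2 := by
    rcases hθ.2 with e | e
    · obtain ⟨ψ, h1, h2⟩ := exists_conj X.good X.three p 1 X.hA X.hB θ c0
      rw [pow_one] at h2
      rw [← h2, X.cr.cancel' (frE_ne X.good X.three p 1 X.hA X.hB) (e.trans h1)]
    · have := c_anti X.good X.three p 1 X.hA X.hB c0 e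
      rw [pow_one] at this
      rw [this, neg_sq]
  induction m with
  | zero => simp
  | succ m ih => rw [pow_succ p, pow_mul, pow_right_comm, ih, pow_right_comm, a]

lemma fixed (L : X.Lift) (F : X.Frb) {θ : X.E} (hθ : X.St θ) {t : ℂ} (ht : X.Dk t) (σ : ℂ ≃+* ℂ)
    (hσ : Fx X.ι σ) (e : (σ : ℂ →+* ℂ) t = t) : σ (X.h θ t) = X.h θ t := by
  obtain ⟨_, h', C, u, d, hc, ev, hr⟩ := L.lf θ t hθ.1 ht
  have hC : ∀ P ∈ C, θ.1 (ht.rd.red P) = 0 := fun P hP => by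
    rw [← hr, d.eq_zero.2 hP, map_zero]
  obtain ⟨n0, k⟩ := ker_eq X hθ.1 ht d.sub hc hC
  obtain ⟨m, m1, m2⟩ := F σ t ht e C.card u hσ n0 ev.mem
  have st : ∀ P ∈ C, ht.cj σ e P ∈ C := fun P hP => by
    have h1 := d.sub.nsmul_card hP
    obtain ⟨Q, hQ, h2⟩ := Finset.mem_image.1
      ((k _).2 ((congrArg θ.1 (m2 P h1)).trans (st_pow X hθ m (hC P hP))))
    rwa [← red_inj ht.rd (X.nat_ne.2 n0) (d.sub.nsmul_card hQ)
      (by rw [← map_nsmul, h1, map_zero]) h2]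
  have im : C.image (ht.cj σ e) = C :=
    Finset.eq_of_subset_of_card_le (Finset.image_subset_iff.2 st)
      (Finset.card_image_of_injective _ (Sc.injective _)).ge
  obtain ⟨b1, b2⟩ := vA_image (σ : ℂ →+* ℂ) (by rw [X.map_fA, e]) (by rw [X.map_fB, e])
    ht.good d.sub
  replace b1 := (congrArg vA im).symm.trans b1
  replace b2 := (congrArg vB im).symm.trans b2
  rw [d.hA, map_mul, map_pow, X.map_fA] at b1
  rw [d.hB, map_mul, map_pow, X.map_fB] at b2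
  have c0 := X.sep hθ.1
  have u0 := d.hu
  have w := ((((Ev.of_lt (π := resPlc X.O) m1).add (ev.pow (p ^ m))).congr (sub_add_cancel _ _)
    (zero_add _)).div ev c0).pow 2
  rw [div_pow (cE X.good θ ^ p ^ m), c_sq X hθ, div_self (pow_ne_zero 2 c0)] at w
  refine (Fam.uni h' w ?_ ?_).symm
  · field_simp
    exact (mul_comm _ _).trans b1
  · field_simp
    exact (mul_comm _ _).trans b2

end RatNA

theorem rat2_of : LIFT2 → FRB2 → RAT2 := fun hL hF p _ X θ x hθ hx => by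
  have ht := X.dk_io.2 hx
  obtain ⟨-, h', -⟩ := (hL p X).lf θ _ hθ.1 ht
  obtain ⟨y, hy⟩ := X.pad.fix _ fun σ hσ => RatNA.fixed X (hL p X) (hF p X) hθ ht σ hσ (hσ _)
  exact Classical.epsilon_spec (p := fun y => X.io y = X.h θ (X.io x))
    ⟨⟨y, (X.pad.mem y).1 (hy ▸ h'.mem)⟩, hy.symm⟩

end Pool.Agent.MP_c481b3_nt.H79
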