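import Pool.Agent.MP_c481b3_nt.H79.SpecG

/-! Quadratic reciprocity for a positive rational number. -/

set_option autoImplicit false

namespace Pool.Agent.MP_c481b3_nt.H79

namespace RecA

theorem recip_prime {l q : ℕ} (h8 : l % 8 = 7) (hq : q.Prime) :
    jacobiSym (q : ℤ) l = jacobiSym (-(l : ℤ)) q := by
  have hl : Odd l := Nat.odd_iff.2 (by omega)
  rcases hq.eq_two_or_odd' with rfl | ho
  · have h1 : jacobiSym ((2 : ℕ) : ℤ) l = 1 := by
      rw [Nat.cast_ofNat, jacobiSym.at_two hl, ZMod.χ₈_nat_eq_if_mod_eight]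
      have : ¬ l % 2 = 0 := by omega
      simp [this, h8]
    have h2 : jacobiSym (-(l : ℤ)) 2 = jacobiSym 1 2 := jacobiSym.mod_left' (by omega)
    rw [h1, h2, jacobiSym.one_left]
  · rw [jacobiSym.neg _ ho]
    have h4 : q % 4 = 1 ∨ q % 4 = 3 := by have := Nat.odd_iff.1 ho; omega
    rcases h4 with h4 | h4
    · rw [ZMod.χ₄_nat_one_mod_four h4, one_mul,
        jacobiSym.quadratic_reciprocity_one_mod_four h4 hl]
    · rw [ZMod.χ₄_nat_three_mod_four h4,
        jacobiSym.quadratic_reciprocity_three_mod_four h4 (by omega)]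
      ring

theorem sym_eq {l p : ℕ} (hl : l.Prime) (h8 : l % 8 = 7) (hp : p.Prime)
    (hj : jacobiSym (-(l : ℤ)) p = -1) (n : ℕ) : n ≠ 0 → ¬ l ∣ n →
      (∀ q : ℕ, q.Prime → q ∣ n → q ≠ p → jacobiSym (-(l : ℤ)) q ≠ -1) →
      jacobiSym (n : ℤ) l = (-1) ^ padicValNat p n := by
  have := Fact.mk hp
  induction n using induction_on_primes with
  | zero => intro h; exact absurd rfl h
  | one => intro _ _ _; simp
  | prime_mul q a hq ih =>
    intro h0 hla hq'
    have ha : a ≠ 0 := right_ne_zero_of_mul h0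
    have e := ih ha (fun h => hla (h.mul_left _)) fun r hr hra => hq' r hr (hra.mul_left _)
    have := Fact.mk hq
    rw [Nat.cast_mul, jacobiSym.mul_left, e, padicValNat.mul hq.ne_zero ha, pow_add]
    congr 1
    by_cases h : q = p
    · subst h
      rw [recip_prime h8 hq, hj, padicValNat_self, pow_one]
    · rw [padicValNat_primes (Ne.symm h), pow_zero]
      have hc : Int.gcd (q : ℤ) (l : ℤ) = 1 := by
        rw [Int.gcd_natCast_natCast]
        exact ((Nat.Prime.coprime_iff_not_dvd hl).2 fun h' => hla (h'.mul_right _)).symm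
      rcases jacobiSym.eq_one_or_neg_one hc with h1 | h1
      · exact h1
      · exact absurd (recip_prime h8 hq ▸ h1) (hq' q hq (Dvd.intro _ rfl) h)

theorem unit_of {l : ℕ} [hl : Fact l.Prime] {x : ℚ} (h : padicNorm l x = 1) :
    ¬ (l : ℤ) ∣ x.num ∧ ¬ (l : ℤ) ∣ (x.den : ℤ) := by
  have e : padicNorm l (x.num : ℚ) = padicNorm l ((x.den : ℤ) : ℚ) := by
    rw [← Rat.mul_den_eq_num x, padicNorm.mul, h, one_mul, Int.cast_natCast]
  have i : (l : ℤ) ∣ x.num ↔ (l : ℤ) ∣ (x.den : ℤ) := by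
    rw [← padicNorm.int_lt_one_iff, ← padicNorm.int_lt_one_iff, e]
  have n : ¬ ((l : ℤ) ∣ x.num ∧ (l : ℤ) ∣ (x.den : ℤ)) := fun ⟨h1, h2⟩ => by
    have h3 : l ∣ Nat.gcd x.num.natAbs x.den :=
      Nat.dvd_gcd (Int.natCast_dvd.1 h1) (Int.natCast_dvd_natCast.1 h2)
    rw [x.reduced] at h3
    exact hl.out.one_lt.ne' (Nat.dvd_one.1 h3)
  tauto

theorem gcd_one {l : ℕ} (hl : l.Prime) {a : ℤ} (h : ¬ (l : ℤ) ∣ a) : Int.gcd a (l : ℤ) = 1 := by
  rw [Int.gcd_comm]
  exact (Nat.Prime.coprime_iff_not_dvd hl).2 fun h' => h (Int.natCast_dvd.2 h')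

theorem sym_one {l : ℕ} [hl : Fact l.Prime] {w u : ℚ} (hw : padicNorm l w = 1)
    (hu : padicNorm l (w - u ^ 2) < 1) : jacobiSym (w.num * w.den) l = 1 := by
  have h2 : padicNorm l (u ^ 2) = 1 := by
    have e : u ^ 2 = w + -(w - u ^ 2) := by ring
    rw [e, padicNorm.add_eq_max_of_ne (by rw [padicNorm.neg, hw]; exact hu.ne'), padicNorm.neg, hw]
    exact max_eq_left hu.le
  have h1 : padicNorm l u = 1 := by
    rw [sq, padicNorm.mul] at h2
    have := padicNorm.nonneg (p := l) u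
    nlinarith
  obtain ⟨-, hb⟩ := unit_of hw
  obtain ⟨hc, hd⟩ := unit_of h1
  have e : ((w.num * (u.den : ℤ) ^ 2 - w.den * u.num ^ 2 : ℤ) : ℚ)
      = (w - u ^ 2) * ((w.den * u.den ^ 2 : ℤ) : ℚ) := by
    push_cast
    rw [← Rat.mul_den_eq_num w, ← Rat.mul_den_eq_num u]
    ring
  have hdv : (l : ℤ) ∣ w.num * (u.den : ℤ) ^ 2 - w.den * u.num ^ 2 := by
    rw [← padicNorm.int_lt_one_iff, e, padicNorm.mul]
    exact mul_lt_one_of_nonneg_of_lt_one_left (padicNorm.nonneg _) hu (padicNorm.of_int _)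
  have hm : (w.num * w.den * (u.den : ℤ) ^ 2) % (l : ℤ) = ((w.den * u.num) ^ 2) % (l : ℤ) := by
    refine Int.ModEq.symm (Int.modEq_iff_dvd.2 ?_)
    have e2 : w.num * w.den * (u.den : ℤ) ^ 2 - (w.den * u.num) ^ 2
        = w.den * (w.num * (u.den : ℤ) ^ 2 - w.den * u.num ^ 2) := by ring
    rw [e2]
    exact hdv.mul_left _
  have hp : Prime (l : ℤ) := Nat.prime_iff_prime_int.1 hl.out
  have h3 := jacobiSym.mod_left' hm
  rwa [jacobiSym.mul_left, jacobiSym.sq_one' (gcd_one hl.out hd), mul_one,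
    jacobiSym.sq_one' (gcd_one hl.out fun h => (hp.dvd_or_dvd h).elim hb hc)] at h3

end RecA

open RecA in
theorem rec0 : REC := by
  intro l p w u hl h8 hp hj hw0 hw hu hodd
  have := Fact.mk hl
  have := Fact.mk hp
  by_contra hne
  push Not at hne
  obtain ⟨ha, hb⟩ := unit_of hw
  have hn : 0 < w.num := Rat.num_pos.2 hw0
  have ha0 : w.num.natAbs ≠ 0 := Int.natAbs_ne_zero.2 hn.ne'
  have h1 := sym_one hw hu
  have h2 := sym_eq hl h8 hp hj (w.num.natAbs * w.den) (mul_ne_zero ha0 w.den_nz)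
    (fun h => (hl.dvd_mul.1 h).elim (fun h => ha (Int.natCast_dvd.2 h))
      fun h => hb (Int.natCast_dvd_natCast.2 h)) fun q hq hqd hqp hqj => by
    have := Fact.mk hq
    have h0 := hne q hq hqp hqj
    rw [padicValRat_def, padicValInt, sub_eq_zero, Nat.cast_inj] at h0
    have i : q ∣ w.num.natAbs ↔ q ∣ w.den := by
      rw [dvd_iff_padicValNat_ne_zero ha0, dvd_iff_padicValNat_ne_zero w.den_nz, h0]
    have h3 : q ∣ Nat.gcd w.num.natAbs w.den := by
      rcases hq.dvd_mul.1 hqd with h | h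
      exacts [Nat.dvd_gcd h (i.1 h), Nat.dvd_gcd (i.2 h) h]
    rw [w.reduced] at h3
    exact hq.one_lt.ne' (Nat.dvd_one.1 h3)
  rw [Nat.cast_mul, Int.natAbs_of_nonneg hn.le, h1, padicValNat.mul ha0 w.den_nz] at h2
  rw [padicValRat_def, padicValInt] at hodd
  have h4 : Odd (padicValNat p w.num.natAbs + padicValNat p w.den) := by
    rw [Int.odd_iff] at hodd
    rw [Nat.odd_iff]
    omega
  rw [h4.neg_one_pow] at h2
  exact absurd h2 (by decide)

end Pool.Agent.MP_c481b3_nt.H79
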