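import Pool.Agent.MP_c481b3_nt.H79.SpecB
import Pool.Agent.MP_c481b3_nt.H28.SeedAlg
import Pool.Agent.MP_c481b3_nt.H28.WeberAlg
import Pool.Agent.MP_c481b3_nt.H28.AbsDir

/-! Two anticommuting elements of prime norm in general position. -/

set_option autoImplicit false

namespace Pool.Agent.MP_c481b3_nt.H79

open Pool.Agent.MP_c481b3_nt.H28

namespace SalgA

open CompRing
open Seed (crt form_dvd dvd_shift dvd_shift' cop_prime not_dvd_prime exists_xy)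

variable {R : Type} [Ring R] {N : R → ℤ} {p : ℕ} {π : R}

/-- the hypotheses at the seed prime -/
structure Ctx (N : R → ℤ) (p : ℕ) (π : R) : Prop where
  h : CompRing R N
  hp : p.Prime
  h4 : p ≠ 2
  sq : π * π = -(p : R)
  h1 : ∃ φ, Seed.An π φ ∧ ¬(p : ℤ) ∣ N φ
  h2 : ∀ φ, Seed.An π φ → ¬(p : ℤ) ∣ N φ → ¬IsSquare ((-N φ : ℤ) : ZMod p)
  h3 : ∀ (r : ℕ) (φ : R), r.Prime → r ≠ p → Seed.An π φ → (r : ℤ) ∣ N φ →
    (∃ ψ, φ = r * ψ) ∨ ∃ (m : ℤ) (ψ : R), (r : ℤ) ∣ m ^ 2 + p ∧ (π - m) * φ = r * ψ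
  h5 : ∃ φ, Seed.An π φ ∧ Odd (N φ)

namespace Ctx

variable (c : Ctx N p π)
include c

theorem ppos : (0 : ℤ) < p := by exact_mod_cast c.hp.pos

theorem pprime : Prime (p : ℤ) := Nat.prime_iff_prime_int.1 c.hp

theorem not_dvd_two : ¬(p : ℤ) ∣ 2 :=
  not_dvd_prime (p := 2) c.hp Nat.prime_two c.h4

theorem npi : N π = p := c.h.norm_of_sq c.ppos.le (by rw [c.sq, Int.cast_natCast])

theorem pi_ne : π ≠ 0 := fun e => by
  have := c.npi
  rw [e, c.h.zero] at this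
  exact c.ppos.ne this

theorem tr_pi : pol N π 1 = 0 := by
  have a := c.h.char π
  rw [c.sq, c.npi, Int.cast_natCast, eq_sub_iff_add_eq, neg_add_cancel] at a
  by_contra h0
  exact c.h.mul_ne (c.h.int_ne h0) c.pi_ne a.symm

theorem pol_pi_int (n : ℤ) : pol N π n = 0 := by
  have := c.h.pol_int' n 1 π
  rwa [mul_one, c.tr_pi, mul_zero] at this

theorem nlin (x y : ℤ) : N (x + y * π) = x ^ 2 + p * y ^ 2 := by
  rw [CompRing.add N, c.h.int, c.h.int_mul, c.npi, c.h.pol_int', pol_comm, c.pol_pi_int]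
  ring

theorem tr {a : R} (ha : Seed.An π a) : pol N a 1 = 0 := c.h.tr_anti c.pi_ne ha

theorem sqa {a : R} (ha : Seed.An π a) : a * a = -(N a : R) := c.h.sq_anti c.pi_ne ha

theorem descent {r : ℕ} (hr : r.Prime) (hrp : r ≠ p) (hr2 : r ≠ 2) (n : ℕ) :
    ∀ φ, Seed.An π φ → ¬(r : ℤ) ^ n ∣ N φ → ∃ ψ, Seed.An π ψ ∧ ¬(r : ℤ) ∣ N ψ := by
  have hr' : Prime (r : ℤ) := Nat.prime_iff_prime_int.1 hr
  have r0 : (r : ℤ) ≠ 0 := hr'.ne_zero
  induction n with
  | zero => exact fun φ _ h => absurd (by simp) h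
  | succ n ih =>
    intro φ hφ hn
    by_cases hd : (r : ℤ) ∣ N φ
    swap
    · exact ⟨φ, hφ, hd⟩
    have key : ∀ (m : ℤ) (ψ : R), (r : ℤ) ∣ m ^ 2 + p → ¬(r : ℤ) ^ 2 ∣ m ^ 2 + p →
        (π - m) * φ = r * ψ → ∃ ψ, Seed.An π ψ ∧ ¬(r : ℤ) ∣ N ψ := by
      rintro m ψ ⟨k, hk⟩ h2 e
      have e1 : (((-m : ℤ) : R) + ((1 : ℤ) : R) * π) * φ = ((r : ℤ) : R) * ψ := by
        rw [Int.cast_natCast, ← e, Int.cast_one, one_mul, Int.cast_neg, neg_add_eq_sub]
      refine ih ψ (Seed.An.of_int c.h r0 (e1 ▸ hφ.lin _ _)) fun h => hn ?_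
      have e2 := congrArg N e1
      rw [c.h.mul, c.nlin, c.h.int_mul] at e2
      have e3 : k * N φ = r * N ψ := mul_left_cancel₀ r0 (by linear_combination e2 - N φ * hk)
      have hk' : ¬(r : ℤ) ∣ k := fun ⟨j, hj⟩ => h2 ⟨j, by rw [hk, hj]; ring⟩
      refine (cop_prime hr hk').pow_left.dvd_of_dvd_mul_left ?_
      rw [e3, pow_succ']
      exact mul_dvd_mul_left _ h
    rcases c.h3 r φ hr hrp hφ hd with ⟨ψ, e⟩ | ⟨m, ψ, hm, e⟩
    · rw [← Int.cast_natCast] at e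
      refine ih ψ (Seed.An.of_int c.h r0 (e ▸ hφ)) fun h => hn ?_
      rw [e, c.h.int_mul, pow_succ', pow_two, mul_assoc]
      exact mul_dvd_mul_left _ (h.mul_left _)
    · by_cases h2 : (r : ℤ) ^ 2 ∣ m ^ 2 + p
      swap
      · exact key m ψ hm h2 e
      refine key (m + r) (ψ - φ) ?_ (fun h3 => ?_) ?_
      · obtain ⟨k, hk⟩ := hm
        exact ⟨k + 2 * m + r, by linear_combination hk⟩
      · obtain ⟨k, hk⟩ := h2
        obtain ⟨j, hj⟩ := h3
        have h4 : 2 * m = r * (j - k - 1) :=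
          mul_left_cancel₀ r0 (by linear_combination hj - hk)
        rcases hr'.dvd_or_dvd ⟨_, h4⟩ with h5 | ⟨i, hi⟩
        · exact not_dvd_prime hr Nat.prime_two hr2 h5
        · exact not_dvd_prime hr c.hp hrp
            ⟨r * k - r * i ^ 2, by linear_combination hk - (m + r * i) * hi⟩
      · rw [Int.cast_add, Int.cast_natCast, ← sub_sub, sub_mul, e, mul_sub]

theorem exists_not_dvd {r : ℕ} (hr : r.Prime) : ∃ ψ, Seed.An π ψ ∧ ¬(r : ℤ) ∣ N ψ := by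
  by_cases hrp : r = p
  · exact hrp ▸ c.h1
  by_cases hr2 : r = 2
  · obtain ⟨φ, hφ, h0⟩ := c.h5
    subst hr2
    exact ⟨φ, hφ, fun h => Int.not_even_iff_odd.2 h0 (even_iff_two_dvd.2 h)⟩
  obtain ⟨φ, hφ, h0⟩ := c.h1
  have h1 : 0 < N φ := lt_of_le_of_ne (c.h.nonneg φ) fun e => h0 (e ▸ dvd_zero _)
  refine c.descent hr hrp hr2 (N φ).toNat φ hφ fun h => ?_
  have h2 := Int.le_of_dvd h1 h
  have h3 : ((N φ).toNat : ℤ) < (r : ℤ) ^ (N φ).toNat := by
    exact_mod_cast Nat.lt_pow_self hr.one_lt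
  omega

theorem exists_cop (n : ℕ) : n ≠ 0 → ∃ φ, Seed.An π φ ∧ IsCoprime (N φ) n := by
  induction n using induction_on_primes with
  | zero => exact fun h => absurd rfl h
  | one => exact fun _ => ⟨0, by simp [Seed.An], by simpa using isCoprime_one_right⟩
  | prime_mul r a hr ih =>
    intro h0
    obtain ⟨φ, hφ, hc⟩ := ih (right_ne_zero_of_mul h0)
    rw [Nat.cast_mul]
    by_cases hd : (r : ℤ) ∣ a
    · exact ⟨φ, hφ, (hc.of_isCoprime_of_dvd_right hd).mul_right hc⟩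
    obtain ⟨ψ, hψ, hr'⟩ := c.exists_not_dvd hr
    have h1 := cop_prime hr hd
    refine ⟨(r : ℤ) * φ + (a : ℤ) * ψ, (hφ.int _).add (hψ.int _), ?_⟩
    rw [CompRing.add N, c.h.int_mul, c.h.int_mul, c.h.pol_int, c.h.pol_int']
    refine IsCoprime.mul_right ?_ ?_
    · have := ((h1.symm.pow_left (m := 2)).mul_left (cop_prime hr hr').symm).add_mul_left_left
        (r * N φ + a * pol N φ ψ)
      rwa [show (a : ℤ) ^ 2 * N ψ + r * (r * N φ + a * pol N φ ψ) =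
        r ^ 2 * N φ + r * (a * pol N φ ψ) + a ^ 2 * N ψ by ring] at this
    · have := ((h1.pow_left (m := 2)).mul_left hc).add_mul_left_left (r * pol N φ ψ + a * N ψ)
      rwa [show (r : ℤ) ^ 2 * N φ + a * (r * pol N φ ψ + a * N ψ) =
        r ^ 2 * N φ + r * (a * pol N φ ψ) + a ^ 2 * N ψ by ring] at this

theorem pol_pi_self (a : R) : pol N a (π * a) = 0 := by
  have := c.h.pol_mul' a 1 π
  rwa [one_mul, pol_comm 1 π, c.tr_pi, mul_zero] at this

theorem exists_strict {a : R} (ha : Seed.An π a) (h0 : 0 < N a) :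
    ∃ χ, Seed.An π χ ∧ IsCoprime (N χ) (N a) ∧ pol N a χ ^ 2 < 4 * N a * N χ := by
  obtain ⟨χ, hχ, hc⟩ := c.exists_cop (N a).toNat (by omega)
  rw [Int.toNat_of_nonneg h0.le] at hc
  have key : ∀ s : ℤ, 0 < s * pol N χ (π * a) + s ^ 2 * (N a * (p * N a)) →
      ∃ χ, Seed.An π χ ∧ IsCoprime (N χ) (N a) ∧ pol N a χ ^ 2 < 4 * N a * N χ := by
    intro s hs
    have e : N (χ + ((s * N a : ℤ) : R) * (π * a)) =
        N χ + N a * (s * pol N χ (π * a) + s ^ 2 * (N a * (p * N a))) := by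
      rw [CompRing.add N, c.h.int_mul, c.h.pol_int', c.h.mul, c.npi]
      ring
    refine ⟨χ + ((s * N a : ℤ) : R) * (π * a), hχ.add (ha.pi.int _), ?_, ?_⟩
    · rw [e]
      exact hc.add_mul_left_left _
    · rw [e, c.h.pol_add', c.h.pol_int', c.pol_pi_self, mul_zero, add_zero]
      have := c.h.cauchy a χ
      have := mul_pos h0 (mul_pos h0 hs)
      nlinarith
  have hpos : 0 < N a * (p * N a) := mul_pos h0 (mul_pos c.ppos h0)
  rcases le_total 0 (pol N χ (π * a)) with h | h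
  · exact key 1 (by linarith)
  · exact key (-1) (by linarith)

theorem exists_prime (hW : Weber) {a : R} (ha : Seed.An π a) {m : ℤ} (hm : m ≠ 0) (h0 : 0 < N a)
    (hc : IsCoprime (N a) m) (B : ℕ) :
    ∃ (l : ℕ) (x k : ℤ) (u : R), l.Prime ∧ B < l ∧ Seed.An π u ∧ N (x * a + m * u) = l ∧
      (l : ℤ) = x ^ 2 * N a + m * k := by
  obtain ⟨χ, hχ, h1, h2⟩ := c.exists_strict ha h0
  have hinf := hW (N a) (m * pol N a χ) (m ^ 2 * N χ) h0
    (by have := sq_pos_of_ne_zero hm; nlinarith)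
    fun r h3 _ h5 => (hc.pow_right.mul_right h1.symm).isUnit_of_dvd' h3 h5
  obtain ⟨l, ⟨hl, x, y, e⟩, hB⟩ := hinf.exists_gt B
  refine ⟨l, x, x * y * pol N a χ + m * y ^ 2 * N χ, y * χ, hl, hB, hχ.int y, ?_, ?_⟩
  · rw [CompRing.add N, c.h.int_mul, c.h.int_mul, c.h.int_mul, c.h.pol_int, c.h.pol_int',
      c.h.pol_int', e]
    ring
  · rw [e]
    ring

theorem nonres {a : R} (ha : Seed.An π a) {l : ℕ} (hl : l.Prime) (hlp : l ≠ p) (e : N a = l) :
    jacobiSym (-(l : ℤ)) p = -1 := by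
  have := Fact.mk c.hp
  have := c.h2 a ha (e ▸ not_dvd_prime c.hp hl hlp.symm)
  rw [e] at this
  exact ZMod.nonsquare_iff_jacobiSym_eq_neg_one.2 this

theorem three_mod_four (hp4 : p % 4 = 1) {a : R} (ha : Seed.An π a) {l : ℕ} (hl : l.Prime)
    (hlp : l ≠ p) (h2 : l ≠ 2) (e : N a = l) : l % 4 = 3 := by
  have hl' : Prime (l : ℤ) := Nat.prime_iff_prime_int.1 hl
  have hodd : Odd l := hl.odd_of_ne_two h2
  have hpodd : Odd p := Nat.odd_iff.2 (by omega)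
  have h1 := c.nonres ha hl hlp e
  rw [jacobiSym.neg _ hpodd, ZMod.χ₄_nat_one_mod_four hp4, one_mul,
    ← jacobiSym.quadratic_reciprocity_one_mod_four hp4 hodd] at h1
  rcases c.h3 l a hl hlp ha (e ▸ dvd_rfl) with ⟨ψ, e1⟩ | ⟨m, ψ, ⟨k, hk⟩, -⟩
  · rw [e1, c.h.mul, c.h.nat, pow_two, mul_assoc] at e
    have h3 : (l : ℤ) * N ψ = 1 := mul_left_cancel₀ hl'.ne_zero (by rw [e, mul_one])
    exact absurd (IsUnit.of_mul_eq_one _ h3) hl'.not_isUnit
  have hm : ¬(l : ℤ) ∣ m := fun ⟨i, hi⟩ => not_dvd_prime hl c.hp hlp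
    ⟨k - l * i ^ 2, by linear_combination hk - (m + l * i) * hi⟩
  have h3 : jacobiSym (-(p : ℤ)) l = 1 := by
    rw [jacobiSym.mod_left' (a₂ := m ^ 2) (Int.modEq_iff_dvd.2 ⟨k, by linear_combination hk⟩)]
    exact jacobiSym.sq_one' (Int.isCoprime_iff_gcd_eq_one.1 (cop_prime hl hm).symm)
  rw [jacobiSym.neg _ hodd, h1] at h3
  by_contra h4
  rw [ZMod.χ₄_nat_one_mod_four (by have := Nat.odd_iff.1 hodd; omega)] at h3
  norm_num at h3

theorem pol_mul_one {a b : R} (ha : Seed.An π a) : pol N (a * b) 1 = -pol N a b := by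
  have := c.h.pol_four a b 1 1
  rw [one_mul, mul_one, one_mul, c.tr ha, zero_mul] at this
  omega

/-- the product of two anticommuting elements lies in the plane of `1` and `π` -/
theorem plane {a b : R} (ha : Seed.An π a) (hb : Seed.An π b) :
    (p : R) * (((2 : ℤ) : R) * (a * b) + (pol N a b : ℤ)) = (pol N π (a * b) : ℤ) * π ∧
      p * (4 * N a * N b - pol N a b ^ 2) = pol N π (a * b) ^ 2 := by
  set θ : R := ((2 : ℤ) : R) * (a * b) + (pol N a b : ℤ) with hθ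
  have t1 : ∀ n : ℤ, pol N (n : R) 1 = 2 * n := fun n => by
    have := c.h.pol_int n 1 1
    rw [mul_one, c.h.pol_self, c.h.one] at this
    omega
  have h1 : pol N θ 1 = 0 := by
    rw [hθ, c.h.pol_add, c.h.pol_int, c.pol_mul_one ha, t1]
    ring
  have h2 : θ * π = π * θ := by
    rw [hθ, add_mul, mul_add, mul_assoc, ha.comm hb, (Int.cast_commute 2 π).left_comm,
      (Int.cast_commute _ π).eq]
  have h3 := c.h.anticomm c.tr_pi h1
  rw [h2, hθ, c.h.pol_add', c.h.pol_int', c.pol_pi_int, add_zero, ← hθ] at h3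
  have h4 : π * θ = ((-pol N π (a * b) : ℤ) : R) := by
    refine c.h.cancel (c.h.int_ne two_ne_zero) ?_
    rw [← Int.cast_mul, mul_neg, Int.cast_neg, ← h3, Int.cast_ofNat, two_mul]
  have h5 : N θ = 4 * N a * N b - pol N a b ^ 2 := by
    have := c.h.pol_int' (pol N a b) 1 (a * b)
    rw [mul_one, c.pol_mul_one ha] at this
    rw [hθ, CompRing.add N, c.h.int_mul, c.h.int, c.h.pol_int, this, c.h.mul]
    ring
  constructor
  · have h6 := congrArg (π * ·) h4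
    simp only [← mul_assoc, c.sq, Int.cast_neg, mul_neg, neg_mul, neg_inj] at h6
    rw [h6, (Int.cast_commute _ π).eq]
  · have h6 := congrArg N h4
    rw [c.h.mul, c.npi, c.h.int, h5] at h6
    rw [h6]
    ring

theorem p_dvd {a b : R} (ha : Seed.An π a) (hb : Seed.An π b) : (p : ℤ) ∣ pol N π (a * b) :=
  c.pprime.dvd_of_dvd_pow (n := 2) ⟨_, (c.plane ha hb).2.symm⟩

theorem pos_of_cop {a : R} {m : ℤ} (hc : IsCoprime (N a) (8 * m)) : 0 < N a :=
  lt_of_le_of_ne (c.h.nonneg a) fun e => by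
    obtain ⟨u, v, h⟩ := hc
    rw [← e] at h
    have : 8 * (v * m) = 1 := by linear_combination h
    omega

theorem mod_four (hW : Weber) (hp4 : p % 4 = 1) {a : R} (ha : Seed.An π a) (hc : IsCoprime (N a) 8) :
    N a % 4 = 3 := by
  obtain ⟨l, x, k, u, hl, hB, hu, e, e1⟩ := c.exists_prime hW ha (m := 8) (by norm_num)
    (c.pos_of_cop (m := 1) (by simpa using hc)) hc (p + 2)
  have h1 := c.three_mod_four hp4 ((ha.int x).add (hu.int 8)) hl (by omega) (by omega) e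
  obtain ⟨y, rfl | rfl⟩ := Int.even_or_odd' x
  · have : (l : ℤ) = 4 * (y ^ 2 * N a + 2 * k) := by linear_combination e1
    omega
  · have : (l : ℤ) = 4 * ((y ^ 2 + y) * N a + 2 * k) + N a := by linear_combination e1
    omega

theorem mod_eight (hW : Weber) {a : R} (ha : Seed.An π a) (hc : IsCoprime (N a) 8) :
    ∃ b' b : ℤ, (8 : ℤ) ∣ (b' ^ 2 + p * b ^ 2) * N a - 7 := by
  have hp2 := c.hp.eq_two_or_odd.resolve_left c.h4
  by_cases hp4 : p % 4 = 1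
  · have h4 := c.mod_four hW hp4 ha hc
    obtain ⟨d, hd⟩ : ∃ d : ℤ, (p : ℤ) = 4 * d + 1 := ⟨p / 4, by omega⟩
    obtain ⟨j, hj | hj⟩ : ∃ j : ℤ, N a = 8 * j + 7 ∨ N a = 8 * j + 3 := ⟨N a / 8, by omega⟩
    · exact ⟨1, 0, j, by linear_combination hj⟩
    · exact ⟨1, 2, 2 * d * N a + 5 * j + 1, by linear_combination 4 * N a * hd + 5 * hj⟩
  · have h2 : N a % 2 = 1 := by
      obtain ⟨u, v, h⟩ := hc
      by_contra h3
      obtain ⟨k, hk⟩ : ∃ k, N a = 2 * k := ⟨N a / 2, by omega⟩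
      have : 2 * (u * k + 4 * v) = 1 := by linear_combination h - u * hk
      omega
    obtain ⟨d, hd⟩ : ∃ d : ℤ, (p : ℤ) = 8 * d + 3 ∨ (p : ℤ) = 8 * d + 7 := ⟨p / 8, by omega⟩
    obtain ⟨j, hj⟩ : ∃ j : ℤ, N a = 8 * j + 1 ∨ N a = 8 * j + 3 ∨ N a = 8 * j + 5 ∨
      N a = 8 * j + 7 := ⟨N a / 8, by omega⟩
    rcases hd with hd | hd <;> rcases hj with hj | hj | hj | hj <;> rw [hd, hj]
    · exact ⟨2, 1, d * (8 * j + 1) + 7 * j, by ring⟩
    · exact ⟨1, 2, 4 * d * (8 * j + 3) + 13 * j + 4, by ring⟩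
    · exact ⟨0, 1, d * (8 * j + 5) + 3 * j + 1, by ring⟩
    · exact ⟨1, 0, j, by ring⟩
    · exact ⟨0, 1, d * (8 * j + 1) + 7 * j, by ring⟩
    · exact ⟨1, 2, 4 * d * (8 * j + 3) + 29 * j + 10, by ring⟩
    · exact ⟨2, 1, d * (8 * j + 5) + 11 * j + 6, by ring⟩
    · exact ⟨1, 0, j, by ring⟩

theorem seed (hW : Weber) (M : ℕ) {a : R} (ha : Seed.An π a)
    (hc : IsCoprime (N a) (8 * (p * M.factorial))) (e : ℤ) (he : ¬(p : ℤ) ∣ 1 + p * e ^ 2) :
    ∃ (l : ℕ) (x : ℤ) (u : R), ¬(p : ℤ) ∣ x ∧ Seed.An π u ∧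
      Sd N p π M l (x * ((((1 : ℤ) : R) + e * π) * a) + (p : ℤ) * u) := by
  have h8 : IsCoprime (N a) 8 := hc.of_mul_right_left
  have hp8 : IsCoprime (8 : ℤ) p := ((cop_prime c.hp c.not_dvd_two).pow_right (n := 3)).symm
  obtain ⟨b', b, hb⟩ := c.mod_eight hW ha h8
  obtain ⟨x0, hx8, hxp⟩ := crt hp8 b' 1
  obtain ⟨y0, hy8, hyp⟩ := crt hp8 b e
  have hq : ∀ q : ℕ, q.Prime → q ≤ M → (q : ℤ) ∣ 8 * (p * M.factorial) := fun q hq hM =>
    ((Int.natCast_dvd_natCast.2 (hq.dvd_factorial.2 hM)).mul_left _).mul_left _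
  obtain ⟨x1, y1, hx1, hy1, hres⟩ := exists_xy c.hp (n := N a) x0 y0 M fun q hq' hM hd =>
    (Nat.prime_iff_prime_int.1 hq').not_isUnit (hc.isUnit_of_dvd' hd (hq q hq' hM))
  have n1 : N ((x1 + y1 * π) * a) = (x1 ^ 2 + p * y1 ^ 2) * N a := by rw [c.h.mul, c.nlin]
  have m8 : (8 : ℤ) ∣ (x1 ^ 2 + p * y1 ^ 2) * N a - 7 :=
    dvd_shift' (form_dvd p (N a) (dvd_shift' ((dvd_mul_right 8 _).trans hx1) hx8)
      (dvd_shift' ((dvd_mul_right 8 _).trans hy1) hy8)) hb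
  obtain ⟨s, hs⟩ : (p : ℤ) ∣ x1 - 1 := dvd_shift' ((dvd_mul_left _ 8).trans hx1) hxp
  obtain ⟨w, hw⟩ : (p : ℤ) ∣ y1 - e := dvd_shift' ((dvd_mul_left _ 8).trans hy1) hyp
  have hc1 : IsCoprime ((x1 ^ 2 + p * y1 ^ 2) * N a) (8 * (p * M.factorial)) := by
    rw [Int.isCoprime_iff_gcd_eq_one]
    by_contra h
    obtain ⟨q, hq', hd⟩ := Nat.exists_prime_and_dvd h
    have d1 := (Int.natCast_dvd_natCast.2 hd).trans (Int.gcd_dvd_left _ _)
    have d2 := (Int.natCast_dvd_natCast.2 hd).trans (Int.gcd_dvd_right _ _)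
    have q' := Nat.prime_iff_prime_int.1 hq'
    by_cases q2 : q = 2
    · subst q2
      omega
    by_cases qp : q = p
    · subst qp
      rcases q'.dvd_or_dvd d1 with h1 | ⟨j, hj⟩
      · obtain ⟨j, hj⟩ := h1
        exact q'.not_dvd_one ⟨j - y1 ^ 2 - s * (x1 + 1), by linear_combination hj - (x1 + 1) * hs⟩
      · exact q'.not_isUnit (hc.isUnit_of_dvd' ⟨j, hj⟩ d2)
    have d3 : (q : ℤ) ∣ M.factorial := ((q'.dvd_or_dvd ((q'.dvd_or_dvd d2).resolve_left fun h =>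
      not_dvd_prime hq' Nat.prime_two q2 (q'.dvd_of_dvd_pow (n := 3) h))).resolve_left
        (not_dvd_prime hq' c.hp qp))
    exact q'.not_dvd_one ((dvd_add_right d1).1 (hres q hq'
      (hq'.dvd_factorial.1 (Int.natCast_dvd_natCast.1 d3)) q2 qp))
  rw [← n1] at hc1
  obtain ⟨l, x, k, u, hl, hB, hu, e1, e2⟩ := c.exists_prime hW (ha.lin x1 y1)
    (m := 8 * (p * M.factorial)) (mul_ne_zero (by norm_num) (mul_ne_zero c.ppos.ne'
      (by exact_mod_cast M.factorial_ne_zero))) (c.pos_of_cop hc1) hc1 (M + p + 2)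
  rw [n1] at e2
  have hx : ∀ q : ℕ, q.Prime → q ≠ l → (q : ℤ) ∣ 8 * (p * M.factorial) → ¬(q : ℤ) ∣ x :=
    fun q hq' hql h1 h2 => not_dvd_prime hq' hl hql (by
      rw [e2]
      exact dvd_add (((dvd_pow h2 two_ne_zero)).mul_right _) (h1.mul_right _))
  have e3 : (x : R) * ((x1 + y1 * π) * a) + ((8 * (p * M.factorial) : ℤ) : R) * u =
      x * ((((1 : ℤ) : R) + e * π) * a) +
        (p : ℤ) * (x * ((s + w * π) * a) + ((8 * M.factorial : ℤ) : R) * u) := by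
    rw [show x1 = 1 + p * s by linear_combination hs, show y1 = e + p * w by linear_combination hw,
      show (8 * (p * M.factorial) : ℤ) = p * (8 * M.factorial) by ring]
    simp only [add_mul, smul_mul_assoc, ← Int.smul_one_eq_cast, one_mul]
    module
  have han := ((ha.lin x1 y1).int x).add (hu.int (8 * (p * M.factorial)))
  rw [e3] at e1 han
  have hlp : l ≠ p := by omega
  refine ⟨l, x, _, hx p c.hp hlp.symm ((dvd_mul_right _ _).mul_left _),
    ((ha.lin s w).int x).add (hu.int (8 * M.factorial)), hl, by omega, ?_, fun q hq' hM q2 qp => ?_,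
    c.nonres han hl hlp e1, han, e1⟩
  · obtain ⟨j, hj⟩ := m8
    have h2 := hx 2 Nat.prime_two (by omega) ⟨4 * (p * M.factorial), by push_cast; ring⟩
    obtain ⟨y, rfl⟩ : Odd x := Int.not_even_iff_odd.1 fun h => h2 h.two_dvd
    obtain ⟨z, hz⟩ := Int.even_mul_succ_self y
    have : (l : ℤ) = 8 * ((2 * y + 1) ^ 2 * j + 7 * z + p * M.factorial * k) + 7 := by
      linear_combination e2 + (2 * y + 1) ^ 2 * hj + 28 * hz
    omega
  · obtain ⟨j, hj⟩ := hres q hq' hM q2 qp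
    obtain ⟨i, hi⟩ := hq q hq' hM
    rw [jacobiSym.mod_left' (a₂ := x ^ 2) (Int.modEq_iff_dvd.2 ⟨x ^ 2 * j + i * k, by
      linear_combination e2 + x ^ 2 * hj + k * hi⟩)]
    exact jacobiSym.sq_one' (Int.isCoprime_iff_gcd_eq_one.1
      (cop_prime hq' (hx q hq' (by omega) ⟨i, hi⟩)).symm)

theorem main (hW : Weber) (M : ℕ) : ∃ (l l' : ℕ) (φ φ' : R) (t : ℤ),
    Sd N p π M l φ ∧ Sd N p π M l' φ' ∧
      φ * φ' + φ' * φ = t ∧ ¬(p : ℤ) ∣ t ∧ ¬(p : ℤ) ^ 2 ∣ t ^ 2 - 4 * l * l' := by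
  obtain ⟨a, ha, hc⟩ := c.exists_cop (8 * (p * M.factorial))
    (mul_ne_zero (by norm_num) (mul_ne_zero c.hp.ne_zero M.factorial_ne_zero))
  push_cast at hc
  have h1 : ∀ e : ℤ, ¬(p : ℤ) ∣ 1 + p * e ^ 2 := fun e h =>
    c.pprime.not_dvd_one ((dvd_add_left (dvd_mul_right _ _)).1 h)
  obtain ⟨l, x, u, hx, hu, S⟩ := c.seed hW M ha hc 0 (h1 0)
  obtain ⟨l', x', u', hx', hu', S'⟩ := c.seed hW M ha hc 1 (h1 1)
  rw [Int.cast_zero, zero_mul, add_zero, Int.cast_one, one_mul] at S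
  rw [Int.cast_one, one_mul, add_mul, one_mul] at S'
  have hn : ¬(p : ℤ) ∣ 2 * x * x' * N a := fun h =>
    (c.pprime.dvd_or_dvd h).elim (fun h => (c.pprime.dvd_or_dvd h).elim
      (fun h => (c.pprime.dvd_or_dvd h).elim c.not_dvd_two hx) hx') fun h =>
      c.pprime.not_isUnit (hc.isUnit_of_dvd' h ((dvd_mul_right _ _).mul_left _))
  have hb : Seed.An π (a + π * a) := ha.add ha.pi
  refine ⟨l, l', _, _, _, S, S', (c.h.anticomm (c.tr S.anti) (c.tr S'.anti)).trans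
    (Int.cast_neg _).symm, fun h => hn ?_, fun h => hn ?_⟩
  · simp only [c.h.pol_add, c.h.pol_add', c.h.pol_int, c.h.pol_int', c.h.pol_self,
      c.pol_pi_self] at h
    obtain ⟨j, hj⟩ := h
    exact ⟨-j - (x * pol N a u' + x' * (pol N u a + pol N u (π * a)) + p * pol N u u'), by
      linear_combination -hj⟩
  · have h2 := (c.plane S.anti S'.anti).2
    rw [S.norm, S'.norm] at h2
    obtain ⟨i1, e1⟩ := c.p_dvd ha hu'
    obtain ⟨i2, e2⟩ := c.p_dvd hu hb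
    obtain ⟨i3, e3⟩ := c.p_dvd hu hu'
    have e4 : pol N π (a * (a + π * a)) = N a * (2 * p) := by
      rw [mul_add, ← mul_assoc, ha, neg_mul, mul_assoc, c.sqa ha, mul_neg, neg_neg,
        ← (Int.cast_commute _ π).eq, c.h.pol_add', c.h.pol_neg', c.pol_pi_int, c.h.pol_int',
        c.h.pol_self, c.npi]
      ring
    have e5 : ((x : R) * a + (p : ℤ) * u) * (x' * (a + π * a) + (p : ℤ) * u') =
        ((x * x' : ℤ) : R) * (a * (a + π * a)) + ((x * p : ℤ) : R) * (a * u') +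
          (((p * x' : ℤ) : R) * (u * (a + π * a)) + ((p * p : ℤ) : R) * (u * u')) := by
      generalize a + π * a = b
      simp only [← zsmul_eq_mul, add_mul, mul_add, smul_mul_assoc, mul_smul_comm]
      module
    obtain ⟨j, hj⟩ := h
    rw [neg_sq] at hj
    generalize pol N ((x : R) * a + (p : ℤ) * u) (x' * (a + π * a) + (p : ℤ) * u') = t at h2 hj
    rw [e5, c.h.pol_add', c.h.pol_add', c.h.pol_add', c.h.pol_int', c.h.pol_int', c.h.pol_int',
      c.h.pol_int', e1, e2, e3, e4] at h2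
    have h3 : (2 * x * x' * N a + p * (x * i1 + x' * i2 + p * i3)) ^ 2 = p * -j :=
      mul_left_cancel₀ (pow_ne_zero 2 c.ppos.ne') (by linear_combination -h2 - p * hj)
    exact (dvd_add_left (dvd_mul_right _ _)).1 (c.pprime.dvd_of_dvd_pow ⟨_, h3⟩)

end Ctx

end SalgA

theorem salg : SALG := fun _ _ _ h _ _ hp h4 hs h1 h5 h2 h3 M =>
  SalgA.Ctx.main ⟨h, hp, h4, hs, h1, h2, h3, h5⟩ (weber_of absDirichlet) M

end Pool.Agent.MP_c481b3_nt.H79
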