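import Pool.Agent.MP_c481b3_nt.H79.SpecB
import Pool.Agent.MP_c481b3_nt.H28.SeedGeo
import Pool.Agent.MP_c481b3_nt.H28.SpecD

/-! A separable endomorphism that anticommutes with Frobenius, for every odd characteristic. -/

set_option autoImplicit false

namespace Pool.Agent.MP_c481b3_nt.H79

open Pool.Agent.MP_c481b3_nt.H81 Pool.Agent.MP_c481b3_nt.H28 Polynomial

namespace SepA

variable {k : Type*} [Field k] [DecidableEq k] [IsAlgClosed k] {A B : k}
  [DecidableEq (RatFunc k)] [DecidableEq (LL k)] (hG : Good A B) (h3 : (3 : k) ≠ 0)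
  (p : ℕ) [Fact p.Prime] [CharP k p]

include h3

lemma exists_anti (hA : A ^ p ^ 1 = A) (hB : B ^ p ^ 1 = B)
    (hπ : frE hG p 1 hA hB * frE hG p 1 hA hB = -(p : EE hG)) :
    ∃ φ : EE hG, φ ≠ 0 ∧ φ * frE hG p 1 hA hB = -(frE hG p 1 hA hB * φ) := by
  have pp : p.Prime := Fact.out
  set π := frE hG p 1 hA hB with hπd
  obtain ⟨r, r1, hr, non⟩ := exists_inert2 pp.ne_zero (p ^ 4)
  have p4 : p < r := lt_of_le_of_lt (Nat.le_self_pow (by norm_num) p) r1
  have r0 : (r : k) ≠ 0 := by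
    rw [Ne, CharP.cast_eq_zero_iff k p, Nat.prime_dvd_prime_iff_eq pp hr]; omega
  have nr : ∀ m : ℤ, ¬(r : ℤ) ∣ m ^ 2 + p := by
    intro m hm
    have e := (ZMod.intCast_zmod_eq_zero_iff_dvd _ r).2 hm
    push_cast at e
    exact non ⟨m, by linear_combination -e⟩
  have r4 : r % 2 = 1 := Nat.odd_iff.1 (hr.odd_of_ne_two (by have := pp.two_le; omega))
  have t : Tm A B r := ⟨hG, h3, r0⟩
  have ro : ∀ D ∈ subs A B r, Odd D.card := fun D hD => by
    rw [(t.mem_subs.1 hD).2, Nat.odd_iff]; omega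
  set S := (X ^ (p * p) - X : k[X]).roots.toFinset with hS
  have q1 : 1 < p * p := by nlinarith [pp.two_le]
  have cS : S.card ≤ p * p := (Multiset.toFinset_card_le _).trans ((card_roots' _).trans
    (FiniteField.X_pow_card_sub_X_natDegree_eq k q1).le)
  have mS : ∀ x : k, (x ^ p ^ 1) ^ p ^ 1 = x → x ∈ S := fun x hx => by
    rw [hS, Multiset.mem_toFinset, mem_roots (FiniteField.X_pow_card_sub_X_ne_zero k q1)]
    simpa [pow_mul, sub_eq_zero] using hx
  obtain ⟨C₁, m1, C₂, m2, hne, e⟩ := Finset.exists_ne_map_eq_of_card_lt_of_maps_to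
    (s := subs A B r) (t := S ×ˢ S) (f := fun D => (vA D, vB D)) (by
      rw [t.card_subs hr, Finset.card_product]
      calc _ ≤ p * p * (p * p) := Nat.mul_le_mul cS cS
        _ = p ^ 4 := by ring
        _ < _ := by omega) (by
      intro D hD
      have c := (t.mem_subs.1 hD).1
      have e1 : (D.image (frP hG p 1 hA hB)).image (frP hG p 1 hA hB) = D := by
        refine Finset.eq_of_subset_of_card_le (fun P hP => ?_) ?_
        · rw [Finset.image_image] at hP
          obtain ⟨Q, hQ, rfl⟩ := Finset.mem_image.1 hP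
          change (π * π).1 Q ∈ D
          rw [hπ, EE_neg, EE_nat]
          exact c.neg (nsmul_mem_sub c hQ p)
        · rw [Finset.card_image_of_injective _ (frP_bij hG p 1 hA hB).1,
            Finset.card_image_of_injective _ (frP_bij hG p 1 hA hB).1]
      obtain ⟨a1, a2⟩ := vA_image (iterateFrobenius k p 1) hA hB hG c
      obtain ⟨b1, b2⟩ := vA_image (iterateFrobenius k p 1) hA hB hG
        (isSub_image (frP hG p 1 hA hB) c)
      change vA ((D.image (frP hG p 1 hA hB)).image (frP hG p 1 hA hB)) = _ at b1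
      change vB ((D.image (frP hG p 1 hA hB)).image (frP hG p 1 hA hB)) = _ at b2
      rw [e1] at b1 b2
      exact Finset.mem_coe.2 (Finset.mem_product.2 ⟨mS _ ((congrArg _ a1.symm).trans b1.symm),
        mS _ ((congrArg _ a2.symm).trans b2.symm)⟩))
  obtain ⟨s1, c1⟩ := t.mem_subs.1 m1
  obtain ⟨s2, c2⟩ := t.mem_subs.1 m2
  have d1 := vd_one hG h3 s1 (ro _ m1)
  have d2 := vd_one hG h3 s2 (ro _ m2)
  rw [← (Prod.mk.inj e).1, ← (Prod.mk.inj e).2] at d2
  have d3 := d2.dual t c2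
  have t2 : Tm A B (r * r) := ⟨hG, h3, by rw [Nat.cast_mul]; exact mul_ne_zero r0 r0⟩
  set D₂ := (tors A B r).image (d2.hom t.three) with hD₂
  set H := (tors A B (r * r)).filter fun P => d3.hom h3 (d1.hom h3 P) = 0 with hH
  have sH : IsSub H := isSub_ker ((d3.hom h3).comp (d1.hom h3)) t2.sub
  have mH : ∀ P, P ∈ H ↔ d1.hom h3 P ∈ D₂ := fun P => by
    rw [hH, Finset.mem_filter, d3.hom_eq_zero]
    refine ⟨fun h => h.2, fun h => ⟨t2.mem.2 ?_, h⟩⟩
    have := d3.sub.nsmul_card h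
    rw [d2.dual_card t c2, ← map_nsmul, d1.hom_eq_zero] at this
    rw [mul_nsmul', ← c1]
    exact s1.nsmul_card (c1 ▸ this)
  have iH : H.image (d1.hom h3) = D₂ := by
    ext Q
    rw [Finset.mem_image]
    refine ⟨fun ⟨P, hP, e⟩ => e ▸ (mH P).1 hP, fun hQ => ?_⟩
    obtain ⟨P, rfl⟩ := d1.surj h3 Q
    exact ⟨P, (mH P).2 hQ, rfl⟩
  have uH : C₁ ⊆ H := fun P hP => (mH P).2 (by rw [(d1.hom_eq_zero h3).2 hP]; exact d3.sub.zero)
  obtain ⟨α, hα, -, -⟩ := (d1.comp h3 sH uH (iH ▸ d3)).exists_end (hG := hG) h3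
  have kα : ∀ P, α.1 P = 0 ↔ P ∈ H := fun P => by rw [hα]; exact VD.hom_eq_zero _ h3
  refine ⟨α * π - π * α, fun e0 => ?_, ?_⟩
  · obtain ⟨Q, hQ⟩ : (C₁.erase 0).Nonempty := Finset.card_pos.1 (by
      rw [Finset.card_erase_of_mem s1.zero, c1]; have := hr.two_le; omega)
    obtain ⟨q0, q1⟩ := Finset.mem_erase.1 hQ
    have o1 : r • Q = 0 := c1 ▸ s1.nsmul_card q1
    have sK := isSub_inter t.sub sH
    have uK : C₁ ⊆ tors A B r ∩ H := Finset.subset_inter (t.subset s1 c1) uH
    have mK : π.1 Q ∈ tors A B r ∩ H := Finset.mem_inter.2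
      ⟨t.mem.2 (by rw [← map_nsmul, o1, map_zero]), by
        rw [← kα, ← EE_mul, sub_eq_zero.1 e0, EE_mul, (kα Q).2 (uH q1), map_zero]⟩
    have k1 := card_dvd sK t.sub Finset.inter_subset_left
    have k2 := Finset.card_le_card uK
    rw [t.card] at k1
    obtain ⟨i, i2, hi⟩ := (Nat.dvd_prime_pow hr).1 k1
    interval_cases i
    · have := hr.two_le
      rw [hi, c1, pow_zero] at k2
      omega
    · rw [← Finset.eq_of_subset_of_card_le uK (by rw [hi, c1, pow_one]), eq_gen hr s1 c1 q0 q1,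
        mem_gen hr.ne_zero o1] at mK
      obtain ⟨m, hm⟩ := mK
      exact nr m (eigen hG hπ hr q0 o1 hm)
    · have k3 := Finset.eq_of_subset_of_card_le
        (Finset.inter_subset_left (s₁ := tors A B r) (s₂ := H)) (by rw [hi, t.card])
      have k4 : (tors A B r).image (d1.hom t.three) = D₂ := by
        refine Finset.eq_of_subset_of_card_le (Finset.image_subset_iff.2 fun P hP => (mH P).1 ?_)
          (by rw [d1.dual_card t c1, d2.dual_card t c2])
        rw [← k3] at hP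
        exact (Finset.mem_inter.1 hP).2
      refine hne ?_
      rw [← d1.dual_dual t c1, ← d2.dual_dual t c2]
      refine Finset.image_congr fun P _ => ?_
      rw [VD.hom_apply, VD.hom_apply, k4]
  · have c : π * π * α = α * (π * π) := by rw [hπ, neg_mul, mul_neg, Nat.cast_comm]
    rw [sub_mul, mul_sub, mul_assoc α, ← c, ← mul_assoc π π, ← mul_assoc π α, neg_sub]

lemma exists_sep (hA : A ^ p ^ 1 = A) (hB : B ^ p ^ 1 = B)
    (hπ : frE hG p 1 hA hB * frE hG p 1 hA hB = -(p : EE hG)) :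
    ∃ φ : EE hG, φ * frE hG p 1 hA hB = -(frE hG p 1 hA hB * φ) ∧ ¬(p : ℤ) ∣ NE φ := by
  have c := compRing h3 hG
  have π0 := frE_ne hG h3 p 1 hA hB
  have key : ∀ (m : ℕ) (φ : EE hG), NE φ = m → φ ≠ 0 →
      φ * frE hG p 1 hA hB = -(frE hG p 1 hA hB * φ) →
      ∃ φ : EE hG, φ * frE hG p 1 hA hB = -(frE hG p 1 hA hB * φ) ∧ ¬(p : ℤ) ∣ NE φ := by
    intro m
    induction m using Nat.strong_induction_on with
    | _ m ih =>
      intro φ hm h0 h
      by_cases hc : cE hG φ = 0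
      · obtain ⟨ψ, rfl⟩ := div_frob hG p hA hB φ hc
        have ψ0 : ψ ≠ 0 := left_ne_zero_of_mul h0
        have a := c.pos ψ0
        rw [c.mul, NE_frE, pow_one] at hm
        have b : (2 : ℤ) ≤ p := by exact_mod_cast (Fact.out : p.Prime).two_le
        refine ih (NE ψ).toNat (by zify; rw [Int.toNat_of_nonneg a.le]; nlinarith) ψ
          (Int.toNat_of_nonneg a.le).symm ψ0 (c.cancel' π0 ?_)
        rw [h, neg_mul, mul_assoc]
      · refine ⟨φ, h, fun hd => hc ?_⟩
        have := congrArg (cE hG) (c.sq_anti π0 h)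
        rw [map_mul, map_neg, map_intCast, (CharP.intCast_eq_zero_iff k p _).2 hd, neg_zero] at this
        exact mul_self_eq_zero.1 this
  obtain ⟨φ, h0, h⟩ := exists_anti hG h3 p hA hB hπ
  exact key (NE φ).toNat φ (Int.toNat_of_nonneg (c.nonneg φ)).symm h0 h

end SepA

theorem sep : SEP := fun _ _ _ _ _ _ _ _ hG p _ _ hA hB h3 hπ =>
  SepA.exists_sep hG h3 p hA hB hπ

end Pool.Agent.MP_c481b3_nt.H79
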