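import Pool.Agent.MP_c481b3_nt.H79.SpecN
import Pool.Agent.MP_c481b3_nt.H79.Iu

/-! Joint lifts modulo `p ^ 2`, and fixed points of the action on the disc. -/

set_option autoImplicit false

namespace Pool.Agent.MP_c481b3_nt.H79

open Pool.Agent.MP_c481b3_nt.H81 Pool.Agent.MP_c481b3_nt.H28

namespace SepzNA
variable {p : ℕ} [Fact p.Prime] (X : Fam p)

/-- the reduction of a lifted isogeny -/
lemma red_vd {θ : X.E} {t t' u : ℂ} (hθ : ¬(p : ℤ) ∣ NE θ) (h : X.Dk t) (h' : X.Dk t')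
    {C : Finset (X.P t)} (d : VD C u (X.fA t') (X.fB t'))
    (c : (C.card : ℤ) = NE θ)
    (e : ∀ P, h'.rd.red (vm C u _ _ P) = θ.1 (h.rd.red P)) :
    VD (C.image h.rd.red) (cE X.good θ) X.A X.B ∧
      ∀ Q, vm (C.image h.rd.red) (cE X.good θ) X.A X.B Q = θ.1 Q := by
  have hn : (C.card : X.κ) ≠ 0 := by
    have := X.int_ne.2 hθ
    rwa [← c, Int.cast_natCast] at this
  obtain ⟨C₁, d₁, c₁, e₁⟩ := exists_vd X.three θ (X.sep hθ)
  have : C.image h.rd.red = C₁ := by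
    refine Finset.eq_of_subset_of_card_le (fun Q hQ => ?_) ?_
    · obtain ⟨P, hP, rfl⟩ := Finset.mem_image.1 hQ
      refine (d₁.hom_eq_zero X.three).1 ?_
      have e2 : θ.1 (h.rd.red P) = d₁.hom X.three (h.rd.red P) := by rw [e₁]; rfl
      rw [← e2, ← e, d.eq_zero.2 hP, map_zero]
    · rw [card_red h.rd d.sub hn]
      omega
  rw [this]
  exact ⟨d₁, fun Q => by rw [e₁]; rfl⟩

lemma norm_eq {θ : X.E} {n : ℕ} (e : θ * θ = -(n : X.E)) : NE θ = n :=
  X.cr.norm_of_sq (Int.natCast_nonneg n) (by rw [e, Int.cast_natCast])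

lemma c_sq {θ : X.E} {n : ℕ} (e : θ * θ = -(n : X.E)) : cE X.good θ ^ 2 = -(n : X.κ) := by
  have := congrArg (cE X.good) e
  rwa [map_mul, map_neg, map_natCast, ← sq] at this

/-- functions with an expansion do not increase distances -/
lemma ty_le {L : Type} [Field L] {O : ValuationSubring L} {S : Set L} {f : L → L} (h : Ty O S f)
    {x y : L} (hx : x ∈ S) (hy : y ∈ S) (m : y - x ∈ O) :
    O.valuation (f y - f x) ≤ O.valuation (y - x) := by
  obtain ⟨-, a, ha, b, hb, e⟩ := h x hx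
  have m' := (O.valuation_le_one_iff _).2 m
  rw [show f y - f x = (f y - f x - a * (y - x) - b * (y - x) ^ 2) + (a + b * (y - x)) * (y - x) by
    ring]
  refine O.valuation.map_add_le ((e y hy).trans (pow_le_of_le_one zero_le m' three_ne_zero)) ?_
  rw [map_mul]
  exact mul_le_of_le_one_left' ((O.valuation_le_one_iff _).2 (add_mem ha (mul_mem hb m)))

lemma tc (hC : X.Crd) {x y w : ℂ} (h : X.Dk x) (h' : X.Dk y)
    (e : X.O.valuation (x - y) ≤ X.O.valuation w) : Tc h.rd h'.rd w := by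
  intro q P P₁ hq a a₁ p0 r
  obtain ⟨f, f1, f2⟩ := hC q (h.rd.red P) (X.nat_ne.1 hq)
  rw [f1 x h P a rfl, f1 y h' P₁ a₁ r.symm]
  exact (ty_le (f2 (red_tors_ne h.rd hq p0 a) (by rw [← map_nsmul, a, map_zero])) h' h
    (sub_mem h.mem h'.mem)).trans e

end SepzNA

open SepzNA

theorem sepz2_of : LIFT2 → RAT2 → CRD → MSQ2 → SEPZ2 := by
  intro hL hR hC hM p _ X φ φ' l l' t x s s' q q' qt pt ht hx e1 e2
  have h : X.Dk (X.io x) := X.dk_io.2 hx
  have L := (hL p X).lf φ _ s.1 h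
  have L' := (hL p X).lf φ' _ s'.1 h
  rw [← hR p X φ x s hx, e1] at L
  rw [← hR p X φ' x s' hx] at L'
  generalize X.hz φ' x = y at L' e2
  obtain ⟨h1, h2, D, u, d, c, hu, e⟩ := L
  obtain ⟨h1', h', D', u', d', c', hu', e'⟩ := L'
  obtain ⟨-, r2⟩ := red_vd X s.1 h h d c e
  obtain ⟨-, r2'⟩ := red_vd X s'.1 h h' d' c' e'
  have n := norm_eq X q
  have n' := norm_eq X q'
  have tl : Tm X.A X.B l := X.tm fun a => s.1 (by rw [n]; exact_mod_cast a)
  have tl' : Tm X.A X.B l' := X.tm fun a => s'.1 (by rw [n']; exact_mod_cast a)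
  have w : (p : ℂ) ^ 2 = X.ι ((p : ℤ_[p]) ^ 2 : ℤ_[p]) := by simp
  have key := hM ℂ X.κ (resPlc X.O) _ _ _ _ _ _ X.A X.B h.rd h.rd h'.rd p l l' t Fact.out
    (CharP.cast_eq_zero _ _) tl tl' (X.int_ne.2 pt)
    D ((tl.up h.rd).mem_subs.2 ⟨d.sub, by omega⟩) D' ((tl'.up h.rd).mem_subs.2 ⟨d'.sub, by omega⟩)
    u u' _ _ d d' hu hu' (c_sq X q) (c_sq X q')
    (fun P => by rw [r2, r2, ← EE_mul, q, EE_neg, EE_nat])
    (fun P => by rw [r2', r2', ← EE_mul, q', EE_neg, EE_nat])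
    (fun P => by rw [r2, r2', r2, r2', ← EE_mul, ← EE_mul, ← EE_add, qt, EE_int])
    ((p : ℂ) ^ 2) (by
      rw [map_pow]
      exact pow_lt_one₀ zero_le X.pad.vp two_ne_zero)
    (tc X (hC p X) h h (by rw [sub_self, map_zero]; exact zero_le))
    (tc X (hC p X) h h' (by
      have := (X.pad.dvd _ _).2 e2
      rw [← w, PadicInt.coe_sub, map_sub, Valuation.map_sub_swap] at this
      exact this))
  refine ht ((PadicInt.pow_p_dvd_int_iff 2 _).1 ((X.pad.dvd _ _).1 ?_))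
  rw [← w, PadicInt.coe_intCast, map_intCast]
  exact key

theorem endl2_of : LIFT2 → ENDL2 := by
  classical
  intro hL p hp X θ n t h pn q e
  have nn := norm_eq X q
  have s : ¬(p : ℤ) ∣ NE θ := fun a => pn (by rw [nn] at a; exact_mod_cast a)
  have L := (hL p X).lf θ t s h
  rw [e] at L
  obtain ⟨h1, h2, C, u, d, c, hu, r⟩ := L
  have r' : ∀ P, h.rd.red (d.hom three_ne_zero P) = θ.1 (h.rd.red P) := r
  obtain ⟨ψ, f1, -, f3⟩ := (vd_iu three_ne_zero d).toE three_ne_zero d.good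
  have us : u ^ 2 = -(n : ℂ) := by
    by_contra a
    obtain ⟨C₁, d₁, -, e₁⟩ := exists_vd three_ne_zero (ψ * ψ + (n : EE d.good)) (by
      rw [map_add, map_mul, map_natCast, f3, ← sq]
      exact fun b => a (eq_neg_of_add_eq_zero_left b))
    have tm : Tm X.A X.B (p * C₁.card + 1) := X.tm fun b =>
      hp.out.one_lt.ne' (Nat.dvd_one.1 ((Nat.dvd_add_right (dvd_mul_right _ _)).1 b))
    have tu := tm.up h.rd
    have sub : tors _ _ (p * C₁.card + 1) ⊆ C₁ := fun P hP => by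
      refine (d₁.hom_eq_zero three_ne_zero).1 ?_
      have e2 : (ψ * ψ + (n : EE d.good)).1 P = d₁.hom three_ne_zero P := by rw [e₁]; rfl
      refine red_inj h.rd tm.ne (by rw [← map_nsmul, tu.mem.1 hP, map_zero]) (nsmul_zero _) ?_
      rw [← e2, EE_add, EE_mul, EE_nat, f1, f1, map_add, r', r', map_nsmul, ← EE_mul, q, EE_neg,
        EE_nat, map_zero, neg_add_cancel]
    have := Finset.card_le_card sub
    rw [tu.card] at this
    have b1 := Nat.le_mul_of_pos_left C₁.card hp.out.pos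
    have b2 := Nat.le_self_pow two_ne_zero (p * C₁.card + 1)
    omega
  have cx : Cx n u (d.hom three_ne_zero) := ⟨C, d, by omega, us, fun _ => rfl⟩
  have t2 : Tm X.A X.B 2 := ⟨X.good, X.three, by exact_mod_cast X.two⟩
  refine ⟨⟨_, _, u, _, cx, rfl, fun a P hP => ?_, fun a Q hQ => ?_⟩, u, _, cx, hu, r'⟩
  · refine red_inj h.rd t2.ne (by rw [← map_nsmul, hP, map_zero]) hP ?_
    rw [r', a _ (by rw [← map_nsmul, hP, map_zero])]
  · obtain ⟨P, hP, rfl⟩ := exists_lift h.rd t2 hQ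
    rw [← r', a P hP]

end Pool.Agent.MP_c481b3_nt.H79
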