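import Pool.Agent.MP_c481b3_nt.H79.SpecH

/-! A stable set splits in two conjugate halves. -/

set_option autoImplicit false

namespace Pool.Agent.MP_c481b3_nt.H79

namespace SplitA

variable {l : ℕ} [Fact l.Prime] {ι : ℚ_[l] →+* ℂ}

lemma fx_trans {σ τ : ℂ ≃+* ℂ} (h : Fx ι σ) (h' : Fx ι τ) : Fx ι (σ.trans τ) := fun x => by
  rw [RingEquiv.trans_apply, h, h']

lemma fx_symm {σ : ℂ ≃+* ℂ} (h : Fx ι σ) : Fx ι σ.symm := fun x => by
  rw [RingEquiv.symm_apply_eq, h]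

lemma not_sq (x : ℚ_[l]) : x ^ 2 ≠ -l := fun h => by
  have h1 : x ^ 4 = (l : ℚ_[l]) ^ 2 := by
    rw [show x ^ 4 = (x ^ 2) ^ 2 by ring, h, neg_sq]
  have h2 := congrArg Padic.valuation h1
  rw [Padic.valuation_pow, Padic.valuation_pow, Padic.valuation_p] at h2
  omega

/-- representatives of the orbits -/
lemma exists_rep (ι : ℚ_[l] →+* ℂ) : ∃ b : ℂ → ℂ, (∀ t, ∃ τ, Fx ι τ ∧ τ (b t) = t) ∧
    ∀ τ, Fx ι τ → ∀ t, b (τ t) = b t := by
  let r : Setoid ℂ := ⟨fun t t' => ∃ τ, Fx ι τ ∧ τ t = t',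
    fun t => ⟨RingEquiv.refl ℂ, fun _ => rfl, rfl⟩,
    fun ⟨τ, h, e⟩ => ⟨τ.symm, fx_symm h, by rw [← e, τ.symm_apply_apply]⟩,
    fun ⟨τ, h, e⟩ ⟨τ', h', e'⟩ => ⟨τ.trans τ', fx_trans h h', by rw [← e', ← e]; rfl⟩⟩
  refine ⟨fun t => (Quotient.mk r t).out, fun t => Quotient.mk_out (s := r) t, fun τ h t => ?_⟩
  exact congrArg Quotient.out (Quotient.sound (s := r) ⟨τ, h, rfl⟩).symm

end SplitA

open SplitA in
theorem split : SPLIT := by
  classical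
  intro l hl O ι s T hP hs hT hF
  have pm : ∀ τ : ℂ ≃+* ℂ, τ s = s ∨ τ s = -s := fun τ =>
    sq_eq_sq_iff_eq_or_eq_neg.1 (by rw [← map_pow, hs, map_neg, map_natCast])
  have s0 : s ≠ -s := fun h => by
    have h1 : s = 0 := by linear_combination h / 2
    rw [h1] at hs
    exact hl.out.ne_zero (by simpa using hs.symm)
  obtain ⟨σ, hσ, hσs⟩ : ∃ σ, Fx ι σ ∧ σ s = -s := by
    by_contra h
    obtain ⟨x, rfl⟩ := hP.fix s fun τ hτ => (pm τ).resolve_right fun e => h ⟨τ, hτ, e⟩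
    exact not_sq x (ι.injective (by rw [map_pow, hs, map_neg, map_natCast]))
  obtain ⟨b, b1, b2⟩ := exists_rep ι
  refine ⟨T.filter fun t => ∃ τ, Fx ι τ ∧ τ s = s ∧ τ (b t) = t, σ, hσ, hσs,
    fun τ hτ e t ht => ?_, ?_⟩
  · obtain ⟨h1, ρ, h2, h3, h4⟩ := Finset.mem_filter.1 ht
    exact Finset.mem_filter.2 ⟨hT τ hτ t h1, ρ.trans τ, fx_trans h2 hτ,
      by rw [RingEquiv.trans_apply, h3, e], by rw [RingEquiv.trans_apply, b2 τ hτ, h4]⟩
  · rw [← Multiset.filter_add_not (fun t => ∃ τ, Fx ι τ ∧ τ s = s ∧ τ (b t) = t) T.val,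
      Finset.filter_val]
    congr 1
    refine (Multiset.Nodup.ext (T.nodup.filter _) ((T.nodup.filter _).map σ.injective)).2
      fun t => ?_
    simp only [Multiset.mem_filter, Multiset.mem_map, Finset.mem_val]
    constructor
    · rintro ⟨h1, h2⟩
      obtain ⟨ρ, h3, h4⟩ := b1 t
      have h5 : ρ s = -s := (pm ρ).resolve_left fun e => h2 ⟨ρ, h3, e, h4⟩
      refine ⟨σ.symm t, ⟨hT _ (fx_symm hσ) t h1, ρ.trans σ.symm, fx_trans h3 (fx_symm hσ), ?_, ?_⟩,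
        σ.apply_symm_apply t⟩
      · rw [RingEquiv.trans_apply, h5, RingEquiv.symm_apply_eq, hσs]
      · rw [RingEquiv.trans_apply, b2 _ (fx_symm hσ), h4]
    · rintro ⟨h, ⟨h1, ρ, h2, h3, h4⟩, rfl⟩
      refine ⟨hT σ hσ h h1, fun ⟨τ, h5, h6, h7⟩ => s0 ?_⟩
      rw [b2 σ hσ] at h7
      have h8 := hF _ (fx_trans (fx_trans (fx_symm h5) h2) hσ) _ (hT σ hσ h h1) (by
        rw [RingEquiv.trans_apply, RingEquiv.trans_apply, ← h7, τ.symm_apply_apply, h4, h7])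
      have h9 : τ.symm s = s := by rw [RingEquiv.symm_apply_eq, h6]
      rw [RingEquiv.trans_apply, RingEquiv.trans_apply, h9, h3, hσs] at h8
      exact h8.symm

end Pool.Agent.MP_c481b3_nt.H79
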