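import Pool.Agent.MP_c481b3_nt.H79.SpecH
import Pool.Agent.MP_c481b3_nt.H28.Two
import Pool.Agent.MP_c481b3_nt.H28.Dual

/-! An even power of Frobenius on a supersingular curve is an integer. -/

set_option autoImplicit false

namespace Pool.Agent.MP_c481b3_nt.H79

open Pool.Agent.MP_c481b3_nt.H81 Pool.Agent.MP_c481b3_nt.H28 Polynomial

namespace SsfA

variable {k : Type} [Field k] [IsAlgClosed k]

lemma shape {r : k[X]} (hi : ∀ x, r.eval x = r.eval 0 → x = 0) :
    ∃ u w : k, ∀ x, r.eval x = u * x ^ r.natDegree + w := by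
  have d : (r - C (r.eval 0)).natDegree = r.natDegree := natDegree_sub_C
  have c : (r - C (r.eval 0)).roots.card = (r - C (r.eval 0)).natDegree :=
    IsAlgClosed.card_roots_eq_natDegree
  have e : (r - C (r.eval 0)).roots = Multiset.replicate r.natDegree 0 :=
    Multiset.eq_replicate.2 ⟨c.trans d, fun x hx => hi x (by
      simpa [sub_eq_zero] using isRoot_of_mem_roots hx)⟩
  refine ⟨(r - C (r.eval 0)).leadingCoeff, r.eval 0, fun x => ?_⟩
  have := congrArg (eval x) (C_leadingCoeff_mul_prod_multiset_X_sub_C c)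
  rw [e] at this
  simp only [Multiset.map_replicate, Multiset.prod_replicate, eval_mul, eval_C, eval_pow, eval_sub,
    eval_X, sub_zero] at this
  rw [this]; ring

variable [DecidableEq k] [DecidableEq (RatFunc k)] [DecidableEq (LL k)] {A B : k} {hG : Good A B}

lemma poly (θ : EE hG) (hi : ∀ P, θ.1 P = 0 → P = 0) (h0 : θ ≠ 0) :
    ∃ r : k[X], (r.natDegree : ℤ) = NE θ ∧ ∀ P, P ≠ 0 → xc (θ.1 P) = r.eval (xc P) := by
  obtain ⟨-, ψ, a⟩ := hOf_spec θ
  have h1 := hOf_ne h0
  have d : (Rr (hOf θ)).denom = 1 := by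
    refine (Rr (hOf θ)).monic_denom.degree_le_zero_iff_eq_one.1 (le_of_eq (by_contra fun e => ?_))
    obtain ⟨x, hx⟩ := IsAlgClosed.exists_root _ e
    obtain ⟨P, p0, rfl⟩ := exists_pt hG x
    exact p0 (hi P ((a.ker_iff h1 p0).2 hx))
  refine ⟨(Rr (hOf θ)).num, rfl, fun P hP => ?_⟩
  obtain ⟨π, c, e⟩ := exists_red hG hP
  have hd : (Rr (hOf θ)).denom.eval (xc P) ≠ 0 := by simp [d]
  have e1 : xc (θ.1 P) = xc (θ.1 ((c.rd hG).red ((G0 A B).pt hG))) := by
    rcases e with e | e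
    · rw [e]
    · rw [e, map_neg, xc_neg]
  have m : xc ((G0 A B).ev hG (hOf θ)) ∈ π.O := by rw [Gp.xc_ev]; exact (c.mem_iff _).2 hd
  have e2 := a.red π _ c ((G0 A B).pt hG)
  rw [a.gen] at e2
  rw [e1]
  refine (congrArg xc e2).symm.trans ?_
  rw [Rd.xc_red _ (Gp.ev_ne _ hG h1) m, Gp.xc_ev, G0_σ, c.ev_eq _ hd, d, eval_one, div_one]

lemma core {q n m : ℕ} [Fact q.Prime] [CharP k q] (hn : n = 2 * m) (h3 : (3 : k) ≠ 0)
    (hq : ∀ P : Pt A B, q • P = 0 → P = 0) : ∃ u : k, A = u ^ 2 * iterateFrobenius k q n A ∧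
    B = u ^ 3 * iterateFrobenius k q n B ∧ ∀ P, P ≠ 0 → ((q ^ m : ℕ) : EE hG).1 P ≠ 0 ∧
      xc (((q ^ m : ℕ) : EE hG).1 P) = u * xc P ^ q ^ n := by
  have pq : q.Prime := Fact.out
  have R := compRing h3 hG
  have hi : ∀ (m : ℕ) (P : Pt A B), q ^ m • P = 0 → P = 0 := fun m => by
    induction m with
    | zero => simp
    | succ m ih => exact fun P h => ih P (hq _ (by rwa [pow_succ, mul_nsmul] at h))
  set θ : EE hG := ((q ^ m : ℕ) : EE hG) with hθ
  have ht : ∀ P, θ.1 P = q ^ m • P := EE_nat _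
  have N : NE θ = (q ^ n : ℕ) := by rw [hθ, R.nat, hn]; push_cast; ring
  have d0 : q ^ n ≠ 0 := pow_ne_zero _ pq.ne_zero
  have nz : ∀ P, P ≠ 0 → θ.1 P ≠ 0 := fun P h e => h (hi m P ((ht P).symm.trans e))
  obtain ⟨r, r1, r2⟩ := poly θ (fun P h => by_contra fun e => nz P e h) fun e => by
    rw [e, R.zero] at N
    exact d0 (by exact_mod_cast N.symm)
  have r3 : r.natDegree = q ^ n := by exact_mod_cast r1.trans N
  obtain ⟨u, w, e⟩ := shape (r := r) fun x hx => by
    obtain ⟨P, p0, rfl⟩ := exists_pt hG x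
    obtain ⟨Q, q0, q1⟩ := exists_pt hG 0
    rw [← q1, ← r2 P p0, ← r2 Q q0] at hx
    rcases eq_or_neg (nz P p0) (nz Q q0) hx with h | h
    · rw [sub_eq_zero.1 (hi m (P - Q) (by rw [← ht, map_sub, h, sub_self])), q1]
    · rw [eq_neg_of_add_eq_zero_left (hi m (P + Q) (by rw [← ht, map_add, h, neg_add_cancel])),
        xc_neg, q1]
  rw [r3] at e
  have f : ∀ {a b c : k}, Rt A B a b c → a = u * iterateFrobenius k q n a + w := fun t => by
    obtain ⟨a1, a2, a3⟩ := t.two hG
    obtain ⟨j, hj⟩ := odd_char hG q m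
    have := r2 _ a1
    rwa [ht, hj, add_nsmul, mul_nsmul, a3, nsmul_zero, zero_add, one_nsmul, a2, e] at this
  obtain ⟨a, b, c, t⟩ := exists_rt A B
  have f1 := f t
  have f2 := f t.rot
  have f3 := f t.rot.rot
  have s1 := congrArg (iterateFrobenius k q n) t.s1
  have s2 := congrArg (iterateFrobenius k q n) t.s2
  have s3 := congrArg (iterateFrobenius k q n) t.s3
  simp only [map_add, map_mul, map_neg, map_zero] at s1 s2 s3
  have w0 : w = 0 := mul_left_cancel₀ h3 (by linear_combination t.s1 - f1 - f2 - f3 - u * s1)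
  rw [w0, add_zero] at f1 f2 f3
  refine ⟨u, ?_, ?_, fun P p0 => ⟨nz P p0, by rw [r2 P p0, e, w0, add_zero]⟩⟩
  · rw [s2]
    linear_combination t.s2 + (b + c) * f1 + (u * iterateFrobenius k q n a + c) * f2
      + u * (iterateFrobenius k q n a + iterateFrobenius k q n b) * f3
  · rw [s3]
    linear_combination t.s3 - b * c * f1 - u * iterateFrobenius k q n a * c * f2
      - u ^ 2 * iterateFrobenius k q n a * iterateFrobenius k q n b * f3

end SsfA

open SsfA in
theorem ssf : SSF := by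
  intro k _ _ _ _ _ A B hG q n m _ _ hA hB hn h3 A0 B0 hq
  have R := compRing h3 hG
  obtain ⟨u, u2, u3, r⟩ := core (hG := hG) hn h3 hq
  rw [show iterateFrobenius k q n A = A from hA] at u2
  rw [show iterateFrobenius k q n B = B from hB] at u3
  have u1 : u = 1 := by
    linear_combination mul_right_cancel₀ A0 ((one_mul A).trans u2) * u
      - mul_right_cancel₀ B0 ((one_mul B).trans u3)
  set θ : EE hG := ((q ^ m : ℕ) : EE hG) with hθ
  set φ := frE hG q n hA hB with hφ
  have z : (φ - θ) * (φ + θ) = 0 := EE_ext fun P => by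
    by_cases p0 : P = 0
    · rw [p0, map_zero, map_zero]
    have x1 : xc (φ.1 P) = xc (θ.1 P) := by
      rw [(r P p0).2, u1, one_mul]
      exact xc_frP hG q n hA hB P
    rcases eq_or_neg (Sc.map_ne _ p0) (r P p0).1 x1 with h | h
    · have : (φ - θ) * (φ + θ) = (φ + θ) * (φ - θ) := by
        rw [sub_mul, mul_add, mul_add, add_mul, mul_sub, mul_sub, (Nat.cast_commute (q ^ m) φ).eq]
        abel
      rw [this, EE_mul, EE_sub, show φ.1 P = θ.1 P from h, sub_self, map_zero]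
      rfl
    · rw [EE_mul, EE_add, show φ.1 P = -θ.1 P from h, neg_add_cancel, map_zero]
      rfl
  by_cases h : φ - θ = 0
  · exact ⟨1, rfl, by rw [sub_eq_zero.1 h, hθ]; simp⟩
  · refine ⟨-1, rfl, ?_⟩
    rw [eq_neg_of_add_eq_zero_left (by_contra fun h' => R.mul_ne h h' z : φ + θ = 0), hθ]
    simp

end Pool.Agent.MP_c481b3_nt.H79
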