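import Pool.Agent.MP_c481b3_nt.H79.SpecA
import Pool.Agent.MP_c481b3_nt.H31F.All
import Pool.Agent.MP_c481b3_nt.H31F.Tm
import Pool.Agent.MP_c481b3_nt.H31F.Phi
import Pool.Agent.MP_c481b3_nt.H31F.K4

/-! Symmetry of the oriented modular polynomial. -/

set_option autoImplicit false

namespace Pool.Agent.MP_c481b3_nt.H79

open UpperHalfPlane hiding I
open Polynomial Pool.Agent.MP_c481b3_nt.H31F

namespace SymA

/-- a transcendental point with a transcendental value -/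
lemma exists_tr : ∃ τ : ℍ, Transcendental ℤ (τ : ℂ) ∧ Transcendental ℤ (YY τ) := by
  have h1 := Algebraic.countable ℤ ℂ
  have h2 : (YY '' ((fun τ : ℍ => (τ : ℂ)) ⁻¹' {x : ℂ | IsAlgebraic ℤ x})).Countable :=
    (h1.preimage UpperHalfPlane.coe_injective).image _
  by_contra h
  refine not_countable_complex ((h1.union h2).mono fun y _ => ?_)
  obtain ⟨τ, rfl⟩ := surj_of b1 b2.lv y
  by_cases c : IsAlgebraic ℤ (YY τ)
  · exact Or.inl c
  · exact Or.inr ⟨τ, not_not.1 fun c' => h ⟨τ, c', c⟩, rfl⟩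

lemma ind {t : ℂ} (h : Transcendental ℤ t) {p q r : ℤ} (e : p * t ^ 2 + q * t + r = 0) :
    p = 0 ∧ q = 0 ∧ r = 0 := by
  have h1 : (C p * X ^ 2 + C q * X + C r : ℤ[X]) = 0 :=
    transcendental_iff.1 h _ (by simpa using e)
  refine ⟨?_, ?_, ?_⟩
  · simpa [-eq_intCast, coeff_X, coeff_C] using congrArg (coeff · 2) h1
  · simpa [-eq_intCast, coeff_X, coeff_C] using congrArg (coeff · 1) h1
  · simpa using congrArg (coeff · 0) h1

lemma det_eq {m : ℕ} {H : M2} (h : H ∈ Hk 2 m) : H.det = m := by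
  obtain ⟨a, d, c, -, -, rfl, -, rfl⟩ := (b1.mat.mem 2 m H).1 h
  simp [Matrix.det_fin_two_of]

lemma eps_eq {m : ℕ} {H : M2} (h : H ∈ Hk 2 m) : eps H = 1 := by
  obtain ⟨a, d, c, -, -, rfl, -, rfl⟩ := (b1.mat.mem 2 m H).1 h
  simp [eps]

/-- the values at a transcendental point are distinct -/
lemma inj {m : ℕ} (hm : Odd m) {τ : ℍ} (h : Transcendental ℤ (τ : ℂ)) {M M' : M2}
    (hM : M ∈ Hk 2 m) (hM' : M' ∈ Hk 2 m) (e : YY (act M τ) = YY (act M' τ)) : M = M' := by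
  obtain ⟨γ, g1, g2⟩ := k4_of b1.y1 u1 (act M τ) (act M' τ) (by rw [JJ, JJ, e])
  have p := TmAux.det_pos b1 hM
  have p' := TmAux.det_pos b1 hM'
  have pg : 0 < γ.det := g1 ▸ one_pos
  have hc := Nat.coprime_two_left.2 hm
  have hA : (γ * M).det = m := by rw [Matrix.det_mul, g1, det_eq hM, one_mul]
  rw [← act_mul pg p, UpperHalfPlane.ext_iff, coe_act (det_mul_pos pg p), coe_act p',
    div_eq_div_iff (den_ne (det_mul_pos pg p) τ) (den_ne p' τ)] at g2
  suffices H : γ * M = M' ∨ -γ * M = M' by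
    rcases H with H | H
    · exact b1.mat.uniq 2 m γ M M' hc g1 hM hM' H
    · exact b1.mat.uniq 2 m (-γ) M M' hc (by rw [Matrix.det_neg, g1]; simp) hM hM' H
  rw [neg_mul]
  generalize γ * M = A at hA g2
  obtain ⟨a, d, c, ha, hd, rfl, -, rfl⟩ := (b1.mat.mem 2 m M').1 hM'
  obtain ⟨i1, i2, i3⟩ := ind h (p := a * A 1 0) (q := a * A 1 1 + 2 * c * A 1 0 - A 0 0 * d)
    (r := 2 * c * A 1 1 - A 0 1 * d) (by
      simp [den] at g2
      push_cast
      linear_combination -g2)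
  have a0 : (a : ℤ) ≠ 0 := by omega
  have d0 : (d : ℤ) ≠ 0 := by omega
  have j1 : A 1 0 = 0 := (mul_eq_zero.1 i1).resolve_left a0
  rw [Matrix.det_fin_two, j1] at hA
  rw [j1] at i2
  push_cast at hA
  have j2 : (A 1 1 - d) * (A 1 1 + d) = 0 := mul_left_cancel₀ a0 (by
    linear_combination A 1 1 * i2 + d * hA)
  rcases mul_eq_zero.1 j2 with j | j
  · have k1 : A 1 1 = d := by omega
    have k2 : A 0 0 = a := mul_right_cancel₀ d0 (by rw [k1] at i2; linear_combination -i2)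
    have k3 : A 0 1 = 2 * c := mul_right_cancel₀ d0 (by rw [k1] at i3; linear_combination -i3)
    left
    ext i j
    fin_cases i <;> fin_cases j <;> simp [j1, k1, k2, k3]
  · have k1 : A 1 1 = -d := by omega
    have k2 : A 0 0 = -a := mul_right_cancel₀ d0 (by rw [k1] at i2; linear_combination -i2)
    have k3 : A 0 1 = -(2 * c) := mul_right_cancel₀ d0 (by rw [k1] at i3; linear_combination -i3)
    right
    ext i j
    fin_cases i <;> fin_cases j <;> simp [j1, k1, k2, k3]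

/-- the way back -/
lemma back {m : ℕ} (hm : Odd m) (τ : ℍ) {M : M2} (hM : M ∈ Hk 2 m) :
    ∃ H ∈ Hk 2 m, YY (act H (act M τ)) = YY τ := by
  have p := TmAux.det_pos b1 hM
  obtain ⟨a, d, c, ha, hd, had, -, rfl⟩ := (b1.mat.mem 2 m M).1 hM
  have hB : (!![(d : ℤ), -(2 * c); 0, a] : M2).det = m := by
    rw [Matrix.det_fin_two_of, ← had]; push_cast; ring
  obtain ⟨γ, H, hH, g1, g2⟩ := b1.mat.hnf 2 m _ hm.pos (Nat.coprime_two_left.2 hm) hB
  refine ⟨H, hH, ?_⟩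
  have p' := TmAux.det_pos b1 hH
  have pg : 0 < γ.det := g1 ▸ one_pos
  have e1 : eps γ = 1 := by
    have := b1.mat.epsm γ H (g1 ▸ odd_one) (by rw [det_eq hH]; exact_mod_cast hm)
    rw [← g2, eps_eq hH, mul_one] at this
    rw [← this]
    simp [eps]
  have e2 := b1.y1.tY γ (act H (act !![(a : ℤ), ((2 * c : ℕ) : ℤ); 0, (d : ℤ)] τ)) g1
  have pB := det_mul_pos pg p'
  rw [e1, Int.cast_one, one_mul, ← act_mul pg p', ← act_mul pB p,
    (act_eq_self (det_mul_pos pB p)).2 ?_] at e2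
  · exact e2.symm
  · rw [← g2]
    simp [den]
    ring

lemma ev2_id (Φ : ℤ[X][X]) : ev2 Φ (X : ℤ[X][X]) (C X) = Φ := by
  have : ev2h (X : ℤ[X][X]) (C X) = RingHom.id ℤ[X][X] := by
    refine Polynomial.ringHom_ext' (Polynomial.ringHom_ext' (RingHom.ext_int _ _) ?_) ?_ <;>
      simp [ev2h_apply]
  exact congrArg (· Φ) this

end SymA

open SymA in
theorem sym : SYM := by
  intro m Φ hm h
  obtain ⟨τ, t1, t2⟩ := exists_tr
  have hi : Function.Injective (eval₂RingHom (Int.castRingHom ℂ) (YY τ)) :=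
    transcendental_iff_injective.1 t2
  have e1 : Φ.map (eval₂RingHom (Int.castRingHom ℂ) (YY τ)) =
      ∏ M ∈ Hk 2 m, (X - C (YY (act M τ))) := Polynomial.funext fun x => by
    simpa [ev2, eval_prod] using h τ x
  have mo : Φ.Monic :=
    monic_of_injective hi (e1 ▸ monic_prod_of_monic _ _ fun _ _ => monic_X_sub_C _)
  obtain ⟨Q, hQ⟩ : Φ ∣ ev2 Φ (C X : ℤ[X][X]) X := by
    rw [← map_dvd_map _ hi mo, e1]
    refine Finset.prod_dvd_of_coprime (fun M hM M' hM' ne => ?_) fun M hM => ?_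
    · exact isCoprime_X_sub_C_of_isUnit_sub (sub_ne_zero.2 fun e => ne (inj hm t1 hM hM' e)).isUnit
    · obtain ⟨H, hH, e⟩ := back hm τ hM
      rw [dvd_iff_isRoot]
      change ev2 (ev2 Φ (C X : ℤ[X][X]) X) _ _ = 0
      rw [ev2_ev2, ev2_CX, ev2_X, h]
      exact Finset.prod_eq_zero hH (sub_eq_zero.2 e.symm)
  have e2 : Φ * (Q * ev2 Q (C X : ℤ[X][X]) X) = Φ * 1 := by
    have := (congrArg (ev2h (C X : ℤ[X][X]) X) hQ).trans (map_mul _ _ _)
    rw [ev2h_apply, ev2h_apply, ev2h_apply, ev2_ev2, ev2_CX, ev2_X, ev2_id] at this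
    rw [← mul_assoc, ← hQ, ← this, mul_one]
  obtain ⟨r, hr, rfl⟩ := Polynomial.isUnit_iff.1
    (IsUnit.of_mul_eq_one _ (mul_left_cancel₀ mo.ne_zero e2))
  obtain ⟨c, hc, rfl⟩ := Polynomial.isUnit_iff.1 hr
  refine ⟨c, by rcases Int.isUnit_iff.1 hc with rfl | rfl <;> rfl, fun x y => ?_⟩
  have := (congrArg (ev2h y x) hQ).trans (map_mul _ _ _)
  rw [ev2h_apply, ev2h_apply, ev2h_apply, ev2_ev2, ev2_CX, ev2_X] at this
  rw [this, mul_comm]
  simp [ev2]

end Pool.Agent.MP_c481b3_nt.H79
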