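import Pool.Agent.MP_c481b3_nt.H79.SpecN
import Pool.Agent.MP_c481b3_nt.H79.Tay

/-! The action on the disc of any curve has expansions of order two. -/

set_option autoImplicit false

namespace Pool.Agent.MP_c481b3_nt.H79

open Pool.Agent.MP_c481b3_nt.H81 Pool.Agent.MP_c481b3_nt.H28 IsLocalRing Polynomial

namespace TayNA

section closure
variable {L : Type} [Field L] {O : ValuationSubring L} {S : Set L}

lemma tlA (I : Imp O S) (a b : ℤ) : Ty O S fun t => lA (a : L) b t :=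
  TayA.sb I (I.const _ (intCast_mem O a))
    (I.mul _ _ (TayA.nm I 9 (I.const _ (intCast_mem O b))) I.id)

lemma tlB (I : Imp O S) (a b : ℤ) : Ty O S fun t => lB (a : L) b t :=
  I.add _ _ (I.const _ (intCast_mem O b))
    (I.mul _ _ (TayA.nm I 2 (TayA.pw I (I.const _ (intCast_mem O a)) 2)) I.id)

/-- a simple root of a cubic without the quadratic term -/
lemma cub (imp : IMP2) (I : Imp O S) (h1 : ∀ x ∈ S, x ∈ O)
    (h2 : ∀ x ∈ S, ∀ y ∈ S, O.valuation (y - x) < 1) {f g k z : L → L} (hf : Ty O S f)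
    (hg : Ty O S g) (hk : Ty O S k) (z1 : ∀ x ∈ S, z x ∈ O)
    (z2 : ∀ x ∈ S, ∀ y ∈ S, O.valuation (z y - z x) < 1)
    (e : ∀ x ∈ S, f x + g x * z x + k x * z x ^ 3 = 0)
    (d : ∀ x ∈ S, O.valuation (g x + 3 * k x * z x ^ 2) = 1) : Ty O S z := by
  refine imp L O S h1 h2 4
    (fun i => if i = 0 then f else if i = 1 then g else if i = 3 then k else fun _ => 0) z
    (fun i => ?_) z1 z2 (fun x hx => ?_) fun x hx => ?_
  · split_ifs
    exacts [hf, hg, hk, I.const 0 (zero_mem O)]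
  · refine Eq.trans ?_ (e x hx)
    simp [Finset.sum_range_succ]
  · rw [← d x hx]
    simp [Finset.sum_range_succ]

end closure

end TayNA

open TayA TayNA in
theorem tay2_of : IMP → IMP2 → CRD → LIFT2 → TAY2 := by
  intro imp imp2 crd lift p _ X θ hθ
  have m1 : ∀ t ∈ {t | X.Dk t}, t ∈ X.O := fun t h => Ev.mem h
  have m2 : ∀ t ∈ {t | X.Dk t}, ∀ s ∈ {t | X.Dk t}, X.O.valuation (s - t) < 1 := fun t h s h' =>
    ((Ev.sub h' h).congr rfl (sub_self _)).v_lt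
  have I : Imp X.O {t | X.Dk t} := imp ℂ X.O _ m1 m2
  obtain ⟨K, d, e1, e2⟩ := exists_vd X.three θ (X.sep hθ)
  have hN : ¬p ∣ K.card := fun h => hθ (e1 ▸ Int.natCast_dvd_natCast.2 h)
  choose x hx tx using fun Q => crd p X K.card Q hN
  have ty : ∀ Q ∈ K.erase 0, Ty X.O {t | X.Dk t} (x Q) := fun Q hQ =>
    tx Q (Finset.mem_erase.1 hQ).1 (d.sub.nsmul_card (Finset.mem_erase.1 hQ).2)
  have A : Ty X.O {t | X.Dk t} fun t => X.fA t := tlA I X.a X.b
  have B : Ty X.O {t | X.Dk t} fun t => X.fB t := tlB I X.a X.b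
  have ca : Ty X.O {t | X.Dk t} fun _ => (X.a : ℂ) := I.const _ X.eva.mem
  have cb : Ty X.O {t | X.Dk t} fun _ => (X.b : ℂ) := I.const _ X.evb.mem
  have c1 : ∀ Q ∈ K.erase 0, Ty X.O {t | X.Dk t} fun t => 3 * x Q t ^ 2 + X.fA t :=
    fun Q hQ => I.add _ _ (nm I 3 (pw I (ty Q hQ) 2)) A
  have ta := sb I A (nm I 5 (I.sum _ _ _ c1))
  have tb := sb I B (nm I 7 (I.sum _ (K.erase 0) _ fun Q hQ => I.add _ _
    (I.mul _ _ (c1 Q hQ) (ty Q hQ))
    (nm I 2 (I.add _ _ (I.add _ _ (pw I (ty Q hQ) 3) (I.mul _ _ A (ty Q hQ))) B))))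
  have key : ∀ t, ∃ w : ℂ, X.Dk t → X.Dk (X.h θ t) ∧ Ev (resPlc X.O) w (cE X.good θ ^ 2) ∧
      X.fA t - 5 * ∑ Q ∈ K.erase 0, (3 * x Q t ^ 2 + X.fA t) = w ^ 2 * X.fA (X.h θ t) ∧
      X.fB t - 7 * ∑ Q ∈ K.erase 0, ((3 * x Q t ^ 2 + X.fA t) * x Q t +
        2 * (x Q t ^ 3 + X.fA t * x Q t + X.fB t)) = w ^ 3 * X.fB (X.h θ t) := by
    intro t
    by_cases ht : X.Dk t
    swap
    · exact ⟨0, fun h => absurd h ht⟩
    obtain ⟨h, h', C, u, v, c, eu, cm⟩ := (lift p X).lf θ t hθ ht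
    have cc : C.card = K.card := by exact_mod_cast c.trans e1.symm
    have n0 : (C.card : X.κ) ≠ 0 := cc ▸ X.nat_ne.2 hN
    have hf := red_sub_ne h.rd v.sub n0
    have im : C.image h.rd.red = K := by
      refine Finset.eq_of_subset_of_card_le (fun Q hQ => ?_) (by rw [card_red h.rd v.sub n0, cc])
      obtain ⟨P, hP, rfl⟩ := Finset.mem_image.1 hQ
      have := cm P
      rw [v.eq_zero.2 hP, map_zero, e2] at this
      exact (d.hom_eq_zero X.three).1 this.symm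
    have sm : ∀ F : ℂ → ℂ, ∑ Q ∈ K.erase 0, F (x Q t) = ∑ P ∈ C.erase 0, F (xc P) := by
      intro F
      rw [← im, image_erase h.rd.red hf, Finset.sum_image
        ((injOn_of_ne h.rd.red v.sub hf).mono (Finset.coe_subset.2 (Finset.erase_subset _ _)))]
      refine Finset.sum_congr rfl fun P hP => ?_
      rw [hx _ t h P (cc ▸ v.sub.nsmul_card (Finset.mem_erase.1 hP).2) rfl]
    refine ⟨u ^ 2, fun _ => ⟨h', eu.pow 2, ?_, ?_⟩⟩
    · rw [sm fun y => 3 * y ^ 2 + X.fA t, ← pow_mul, ← v.hA]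
      rfl
    · rw [sm fun y => (3 * y ^ 2 + X.fA t) * y + 2 * (y ^ 3 + X.fA t * y + X.fB t), ← pow_mul,
        ← v.hB]
      rfl
  choose w hw using key
  have c0 : cE X.good θ ^ 2 ≠ 0 := pow_ne_zero 2 d.hu
  have tw : Ty X.O {t | X.Dk t} w := by
    refine cub imp2 I m1 m2 (sb I (I.const 0 (zero_mem _)) (I.mul _ _ (nm I 9 cb) tb))
      (sb I (I.const 0 (zero_mem _)) (I.mul _ _ (nm I 2 (pw I ca 2)) ta))
      (I.add _ _ (nm I 2 (pw I ca 3)) (nm I 9 (pw I cb 2))) (fun t h => (hw t h).2.1.mem)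
      (fun t h s h' => (((hw s h').2.1.sub (hw t h).2.1).congr rfl (sub_self _)).v_lt)
      (fun t h => ?_) fun t h => ?_
    · obtain ⟨-, -, a, b⟩ := hw t h
      rw [a, b]
      linear_combination (-w t ^ 3) * X.lin (X.h θ t)
    · obtain ⟨k, e, a, -⟩ := hw t h
      rw [a]
      refine (((Ev.zero _).sub (((Ev.ofNat _ 2).mul (X.eva.pow 2)).mul ((e.pow 2).mul
        (rdA k.rd)))).add (((Ev.ofNat _ 3).mul (((Ev.ofNat _ 2).mul (X.eva.pow 3)).add
          ((Ev.ofNat _ 9).mul (X.evb.pow 2)))).mul (e.pow 2))).v_one fun z => ?_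
      exact mul_ne_zero (pow_ne_zero 2 c0) X.good.disc (by linear_combination z)
  have iw := I.inv _ tw fun t h => (hw t h).2.1.v_one c0
  have iD := I.inv _ (I.add _ _ (nm I 4 (pw I ca 3)) (nm I 27 (pw I cb 2))) fun _ _ =>
    (((Ev.ofNat _ 4).mul (X.eva.pow 3)).add ((Ev.ofNat _ 27).mul (X.evb.pow 2))).v_one X.good.disc
  refine I.congr _ _ (I.mul _ _ iD (sb I (I.add _ _ (I.mul _ _ ca cb)
    (I.mul _ _ (nm I 2 ca) (I.mul _ _ tb (pw I iw 3))))
    (I.mul _ _ (nm I 3 cb) (I.mul _ _ ta (pw I iw 2))))) fun t h => ?_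
  obtain ⟨-, e, a, b⟩ := hw t h
  have w0 := e.ne_zero c0
  rw [a, b, eq_inv_mul_iff_mul_eq₀ X.disc, X.par]
  field_simp

end Pool.Agent.MP_c481b3_nt.H79
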