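import Pool.Agent.MP_c481b3_nt.H79.SpecH

/-! At a supersingular prime of odd degree the trace of Frobenius vanishes. -/

set_option autoImplicit false

namespace Pool.Agent.MP_c481b3_nt.H79

open Pool.Agent.MP_c481b3_nt.H81 Pool.Agent.MP_c481b3_nt.H28 NumberField

namespace Tr0A

lemma core (hS : SSF) {k : Type} [Field k] [DecidableEq k] [IsAlgClosed k]
    [DecidableEq (RatFunc k)] [DecidableEq (LL k)] {A B : k} (hG : Good A B) (h3 : (3 : k) ≠ 0)
    (q : ℕ) [Fact q.Prime] [CharP k q] {n : ℕ} (hn : Odd n) (hA : A ^ q ^ n = A)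
    (hB : B ^ q ^ n = B) (A0 : A ≠ 0) (B0 : B ≠ 0) (ha : (q : ℤ) ∣ pol NE (frE hG q n hA hB) 1) :
    pol NE (frE hG q n hA hB) 1 = 0 := by
  have hq : q.Prime := Fact.out
  have cr := compRing h3 hG
  have ch := cr.char (frE hG q n hA hB)
  have nm := NE_frE hG q n hA hB
  generalize pol NE (frE hG q n hA hB) 1 = a at ch ha
  obtain ⟨m, hm⟩ := hn
  obtain ⟨e, e1, e2⟩ := hS k A B hG q (n * 2) n (fix_mul q n hA 2) (fix_mul q n hB 2)
    (mul_comm _ _) h3 A0 B0 fun P hP => by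
      obtain ⟨c, rfl⟩ := ha
      have h1 := congrArg (fun φ : EE hG => φ.1 P) ch
      simp only [EE_mul, EE_sub, EE_int, nm] at h1
      have h0 : ((q : ℤ) ^ n) • P = 0 := by
        rw [hm, pow_succ, mul_zsmul, natCast_zsmul, hP, zsmul_zero]
      rw [mul_comm, mul_zsmul, natCast_zsmul, ← map_nsmul, hP, map_zero, zsmul_zero, h0,
        sub_zero] at h1
      by_contra p0
      exact Sc.map_ne _ (Sc.map_ne _ p0) h1
  rw [← (frE_pow hG q n hA hB 2).1, sq, ch, nm, sub_eq_iff_eq_add, ← Int.cast_add] at e2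
  have h2 := congrArg NE e2
  rw [cr.int_mul, nm, cr.int] at h2
  have q0 : (q : ℤ) ^ n ≠ 0 := pow_ne_zero _ (by exact_mod_cast hq.ne_zero)
  have h4 : a ^ 2 = (e + 1) ^ 2 * (q : ℤ) ^ n := mul_right_cancel₀ q0 (by rw [h2]; ring)
  rcases sq_eq_one_iff.mp e1 with rfl | rfl
  · exfalso
    have h5 : a ^ 2 = (2 * (q : ℤ) ^ m) ^ 2 * q := by rw [h4, hm]; ring
    obtain ⟨c, rfl⟩ := (Int.pow_dvd_pow_iff two_ne_zero).mp ⟨_, h5⟩
    have q1 : (2 * (q : ℤ) ^ m) ^ 2 ≠ 0 :=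
      pow_ne_zero _ (mul_ne_zero two_ne_zero (pow_ne_zero _ (by exact_mod_cast hq.ne_zero)))
    rw [mul_pow] at h5
    exact (Nat.prime_iff_prime_int.mp hq).not_isSquare
      ⟨c, by rw [← sq]; exact (mul_left_cancel₀ q1 h5).symm⟩
  · simpa using h4

end Tr0A

theorem tr0_of : SSF → TR0 := by
  rintro hS K _ _ A B q P hq h5 ⟨hP, hm, ho⟩ hn hd
  classical
  have : Fact q.Prime := ⟨hq⟩
  let := Ideal.Quotient.field P
  let φ : 𝓞 K →+* AlgebraicClosure (𝓞 K ⧸ P) := (algebraMap _ _).comp (Ideal.Quotient.mk P)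
  have ker : ∀ r, φ r = 0 ↔ r ∈ P := fun r =>
    (map_eq_zero (algebraMap (𝓞 K ⧸ P) _)).trans Ideal.Quotient.eq_zero_iff_mem
  have : CharP (AlgebraicClosure (𝓞 K ⧸ P)) q :=
    (CharP.charP_iff_prime_eq_zero hq).2 (by simpa using (ker q).2 hm)
  have h3 := (small_ne (AlgebraicClosure (𝓞 K ⧸ P)) h5).2
  obtain ⟨n, G, hA, hB, -, nm, tr⟩ := loc_hom q h3 φ hP ker fun e => hn (P.mul_mem_left _ e)
  rw [nm, padicValNat.prime_pow] at ho
  rw [← tr] at hd ⊢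
  exact Tr0A.core hS G h3 q ho hA hB
    (fun e => hn (P.mul_mem_right _ (P.mul_mem_right _ ((ker A).1 e))))
    (fun e => hn (P.mul_mem_right _ (P.mul_mem_left _ ((ker B).1 e)))) hd

end Pool.Agent.MP_c481b3_nt.H79
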