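import Pool.Agent.MP_c481b3_nt.H79.SpecB
import Pool.Agent.MP_c481b3_nt.H31F.U3

/-! An inclusion of lattices gives an isogeny. -/

set_option autoImplicit false

namespace Pool.Agent.MP_c481b3_nt.H79

open Pool.Agent.MP_c481b3_nt.H81 Pool.Agent.MP_c481b3_nt.H28
open Pool.Agent.MP_c481b3_nt.H31F.U3Aux (s4 s6)

namespace UaA

variable (L L' : PeriodPair)

lemma split {u : ℂ} (hl : u ≠ 0) (hm : ∀ z ∈ L.lattice, u * z ∈ L'.lattice) {G : Type}
    [AddCommGroup G] (ψ : L'.lattice →+ G) (hψ : ∀ l : L'.lattice, ψ l = 0 ↔ l / u ∈ L.lattice)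
    (C : Finset G) (hC : ∀ l, ψ l ∈ C) (r : G → L'.lattice) (hr : ∀ P ∈ C, ψ (r P) = P) {k : ℕ}
    (hk : 2 < k) : ∑ P ∈ C, L.sumInvPow (r P / u) k = u ^ k * L'.G k := by
  classical
  have h0 : HasSum (fun l : L'.lattice => ((l : ℂ) ^ k)⁻¹) (L'.G k) := by
    simpa using L'.hasSum_sumInvPow 0 hk
  have h1 : ∀ P ∈ C, HasSum (fun l : L'.lattice => if ψ (-l) = P then ((l : ℂ) ^ k)⁻¹ else 0)
      ((u ^ k)⁻¹ * L.sumInvPow (r P / u) k) := by
    intro P hP
    let e : L.lattice → L'.lattice := fun l => ⟨u * l, hm _ l.2⟩ - r P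
    have he : ∀ l, (e l : ℂ) = u * l - r P := fun _ => rfl
    have inj : Function.Injective e := fun l l' h => by
      have h2 := congrArg Subtype.val h
      rw [he, he, sub_left_inj] at h2
      exact Subtype.ext (mul_left_cancel₀ hl h2)
    rw [← inj.hasSum_iff]
    · have h2 : (fun l : L'.lattice => if ψ (-l) = P then ((l : ℂ) ^ k)⁻¹ else 0) ∘ e =
          fun l : L.lattice => (u ^ k)⁻¹ * (((l : ℂ) - r P / u) ^ k)⁻¹ := by
        funext l
        have h3 : ψ ⟨u * l, hm _ l.2⟩ = 0 := (hψ _).2 (by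
          rw [mul_div_cancel_left₀ _ hl]
          exact l.2)
        have h4 : ψ (-e l) = P := by rw [neg_sub, map_sub, h3, hr P hP, sub_zero]
        rw [Function.comp_apply, if_pos h4, he, ← mul_inv, ← mul_pow, mul_sub,
          mul_div_cancel₀ _ hl]
      rw [h2]
      exact (L.hasSum_sumInvPow (r P / u) hk).mul_left (u ^ k)⁻¹
    · intro l hn
      refine if_neg fun h => hn ?_
      have h2 : ψ (l + r P) = 0 := by rw [map_add, hr P hP, ← h, map_neg, add_neg_cancel]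
      refine ⟨⟨_, (hψ _).1 h2⟩, Subtype.ext ?_⟩
      rw [he]
      push_cast
      field_simp
      ring
  have h2 := hasSum_sum h1
  simp only [Finset.sum_ite_eq, hC, if_true] at h2
  rw [← h2.unique h0, ← Finset.mul_sum, mul_inv_cancel_left₀ (pow_ne_zero k hl)]

lemma fin {u : ℂ} (hl : u ≠ 0) (hm : ∀ z ∈ L.lattice, u * z ∈ L'.lattice) {G : Type}
    [AddCommGroup G] (ψ : L'.lattice →+ G)
    (hψ : ∀ l : L'.lattice, ψ l = 0 ↔ l / u ∈ L.lattice) : (Set.range ψ).Finite := by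
  let m : L.lattice →ₗ[ℤ] L'.lattice := (LinearMap.mulLeft ℤ u).restrict hm
  have hm' : ∀ l, (m l : ℂ) = u * l := fun _ => rfl
  have inj : Function.Injective m := fun l l' h =>
    Subtype.ext (mul_left_cancel₀ hl (by rw [← hm', ← hm', h]))
  have h4 := Submodule.finiteQuotientOfFreeOfRankEq (LinearMap.range m) (by
    rw [LinearMap.finrank_range_of_inj inj, L.finrank_lattice, L'.finrank_lattice])
  have h5 : LinearMap.range m = LinearMap.ker ψ.toIntLinearMap := by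
    ext l
    rw [LinearMap.mem_ker, AddMonoidHom.coe_toIntLinearMap, hψ]
    constructor
    · rintro ⟨l', rfl⟩
      rw [hm', mul_div_cancel_left₀ _ hl]
      exact l'.2
    · intro h
      exact ⟨⟨_, h⟩, Subtype.ext (by rw [hm', mul_div_cancel₀ _ hl])⟩
  rw [h5] at h4
  exact Set.finite_coe_iff.1 (Finite.of_equiv _ ψ.toIntLinearMap.quotKerEquivRange.toEquiv)

end UaA

open UaA in
theorem ua : UA := by
  intro L L' φ u hG hG' ⟨hφ, hxy⟩ hl hm
  let ψ : L'.lattice →+ Pt (gA L) (gB L) :=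
    AddMonoidHom.mk' (fun l => φ (l / u)) fun a b => by
      rw [← map_add, ← add_div]
      rfl
  have hψ : ∀ l : L'.lattice, ψ l = 0 ↔ l / u ∈ L.lattice := fun l => hφ _
  have hf := fin L L' hl hm ψ hψ
  have hC : ∀ l, ψ l ∈ hf.toFinset := fun l => hf.mem_toFinset.2 ⟨l, rfl⟩
  obtain ⟨r, hr0, hr⟩ : ∃ r : Pt (gA L) (gB L) → L'.lattice, r 0 = 0 ∧
      ∀ P ∈ hf.toFinset, ψ (r P) = P := by
    refine ⟨fun P => if P = 0 then 0 else Function.invFun ψ P, if_pos rfl, fun P hP => ?_⟩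
    by_cases h : P = 0
    · simp only [h, if_true, map_zero]
    · simp only [h, if_false]
      exact Function.invFun_eq (hf.mem_toFinset.1 hP)
  have hz : (0 : Pt (gA L) (gB L)) ∈ hf.toFinset := map_zero ψ ▸ hC 0
  have key : ∀ k, 2 < k → ∑ P ∈ hf.toFinset.erase 0, L.sumInvPow (r P / u) k =
      u ^ k * L'.G k - L.G k := by
    intro k hk
    rw [← split L L' hl hm ψ hψ _ hC r hr hk, ← Finset.add_sum_erase _ _ hz, hr0]
    simp
  have hx : ∀ P ∈ hf.toFinset.erase 0, (r P : ℂ) / u ∉ L.lattice ∧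
      xc P = L.weierstrassP (r P / u) := by
    intro P hP
    obtain ⟨h1, h2⟩ := Finset.mem_erase.1 hP
    have h4 : (r P : ℂ) / u ∉ L.lattice := fun h => h1 (by rw [← hr P h2]; exact (hψ _).2 h)
    refine ⟨h4, ?_⟩
    rw [← (hxy _ h4).1]
    exact congrArg xc (hr P h2).symm
  refine ⟨hf.toFinset, ⟨hG, ⟨hz, fun P hP Q hQ => ?_⟩, hl, ?_, ?_, hG'⟩, fun P => ?_⟩
  · rw [← hr P hP, ← hr Q hQ, ← map_sub]
    exact hC _
  · have h1 : ∑ P ∈ hf.toFinset.erase 0, ca P =
        3 * ∑ P ∈ hf.toFinset.erase 0, L.sumInvPow (r P / u) 4 := by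
      rw [Finset.mul_sum]
      refine Finset.sum_congr rfl fun P hP => ?_
      rw [s4 L (hx P hP).1, ca, (hx P hP).2, gA]
      ring
    rw [vA, h1, key 4 (by norm_num), gA, gA, PeriodPair.g₂, PeriodPair.g₂]
    ring
  · have h1 : ∑ P ∈ hf.toFinset.erase 0, (ca P * xc P + cb P) =
        5 * ∑ P ∈ hf.toFinset.erase 0, L.sumInvPow (r P / u) 6 := by
      rw [Finset.mul_sum]
      refine Finset.sum_congr rfl fun P hP => ?_
      rw [s6 L (hx P hP).1, ca, cb, (hx P hP).2, gA, gB]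
      ring
    rw [vB, h1, key 6 (by norm_num), gB, gB, PeriodPair.g₃, PeriodPair.g₃]
    ring
  · rw [hf.mem_toFinset]
    constructor
    · rintro ⟨l, rfl⟩
      exact ⟨l / u, by rw [mul_div_cancel₀ _ hl]; exact l.2, rfl⟩
    · rintro ⟨z, h, rfl⟩
      exact ⟨⟨_, h⟩, congrArg φ (mul_div_cancel_left₀ _ hl)⟩

end Pool.Agent.MP_c481b3_nt.H79
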