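import Pool.Agent.MP_c481b3_nt.H79.SpecB
import Pool.Agent.MP_c481b3_nt.H31F.U2
import Pool.Agent.MP_c481b3_nt.H31F.K4

/-! An isogeny gives an inclusion of lattices. -/

set_option autoImplicit false

namespace Pool.Agent.MP_c481b3_nt.H79

open Pool.Agent.MP_c481b3_nt.H81 Pool.Agent.MP_c481b3_nt.H28 Pool.Agent.MP_88847a_mp.H86
open Pool.Agent.MP_c481b3_nt.H31F (Lt u1 u2)
open Pool.Agent.MP_c481b3_nt.H31F.K4Aux
open Filter Topology
open scoped Real

namespace UbA

lemma G_congr {L L' : PeriodPair} (h : L.lattice = L'.lattice) (n : ℕ) : L.G n = L'.G n :=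
  congrArg (fun M : Submodule ℤ ℂ => ∑' l : M, ((l : ℂ) ^ n)⁻¹) h

lemma mem_scale {L : PeriodPair} {c z : ℂ} (hc : c ≠ 0) :
    c * z ∈ (scale L c hc).lattice ↔ z ∈ L.lattice := by
  simp only [PeriodPair.mem_lattice, scale]
  refine exists₂_congr fun a b => ?_
  exact ⟨fun h => mul_left_cancel₀ hc (by linear_combination h),
    fun h => by linear_combination c * h⟩

lemma g_scale (L : PeriodPair) (c : ℂ) (hc : c ≠ 0) :
    (scale L c hc).g₂ = (c ^ 4)⁻¹ * L.g₂ ∧ (scale L c hc).g₃ = (c ^ 6)⁻¹ * L.g₃ := by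
  simp only [PeriodPair.g₂, PeriodPair.g₃, G_scale]
  constructor <;> ring

/-- every lattice gives a nonsingular curve -/
lemma good (L : PeriodPair) : Good (gA L) (gB L) := by
  have ind := LinearIndependent.pair_iff.1 L.indep
  have h2 : L.ω₂ ≠ 0 := fun h => one_ne_zero (ind 0 1 (by simp [h])).2
  have h1 : (L.ω₁ / L.ω₂).im ≠ 0 := fun h => by
    refine one_ne_zero (ind 1 (-(L.ω₁ / L.ω₂).re) ?_).1
    have := Complex.re_add_im (L.ω₁ / L.ω₂)
    rw [h, Complex.ofReal_zero, zero_mul, add_zero, eq_div_iff h2] at this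
    rw [one_smul, neg_smul, Complex.real_smul, this, add_neg_cancel]
  obtain ⟨τ, hτ⟩ : ∃ τ : UpperHalfPlane, L.lattice = (scale (Lt τ) L.ω₂ h2).lattice := by
    rcases lt_or_gt_of_ne h1 with h | h
    · refine ⟨⟨-(L.ω₁ / L.ω₂), by simpa using h⟩, Submodule.ext fun z => ?_⟩
      simp only [PeriodPair.mem_lattice, scale, Lt, mul_one, mul_neg, mul_div_cancel₀ _ h2]
      constructor <;> rintro ⟨a, b, rfl⟩ <;> exact ⟨-a, b, by simp⟩
    · refine ⟨⟨L.ω₁ / L.ω₂, h⟩, Submodule.ext fun z => ?_⟩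
      simp only [PeriodPair.mem_lattice, scale, Lt, mul_one, mul_div_cancel₀ _ h2]
  have e2 : L.g₂ = _ := (congrArg (60 * ·) (G_congr hτ 4)).trans (g_scale _ _ h2).1
  have e3 : L.g₃ = _ := (congrArg (140 * ·) (G_congr hτ 6)).trans (g_scale _ _ h2).2
  have hπ : (π : ℂ) ≠ 0 := by exact_mod_cast Real.pi_ne_zero
  refine ⟨two_ne_zero, ?_⟩
  rw [show 4 * gA L ^ 3 + 27 * gB L ^ 2 =
      -256 * π ^ 12 * (L.ω₂ ^ 12)⁻¹ * ModularForm.discriminant τ by
    rw [gA, gB, e2, e3, ModularForm.discriminant_eq_E₄_cube_sub_E₆_sq, (u1 τ).1, (u1 τ).2]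
    ring]
  exact mul_ne_zero (mul_ne_zero (mul_ne_zero (by norm_num) (pow_ne_zero _ hπ))
    (inv_ne_zero (pow_ne_zero _ h2))) (ModularForm.discriminant_ne_zero τ)

lemma wp_surj (L : PeriodPair) (x : ℂ) : ∃ z, z ∉ L.lattice ∧ L.weierstrassP z = x := by
  by_contra hn
  have h : ∀ z, z ∉ L.lattice → L.weierstrassP z - x ≠ 0 := fun z hz e =>
    hn ⟨z, hz, sub_eq_zero.1 e⟩
  have ap := L.analyticAt_weierstrassPExcept 0
  obtain ⟨c, hc⟩ := liouville0 (L := L) (fun z => (L.weierstrassP z - x)⁻¹)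
    (fun z hz => ((analyticAt_wp hz).sub analyticAt_const).inv (h z hz))
    (fun l hl z _ => by rw [wp_add hl])
    ⟨fun z => z ^ 2 / (1 + z ^ 2 * (L.weierstrassPExcept 0 z - x)),
      AnalyticAt.div (by fun_prop) (by fun_prop) (by simp), by
      filter_upwards [self_mem_nhdsWithin] with z hz
      have : z ≠ 0 := hz
      rw [wp_eq, ← inv_div]
      field_simp
      ring⟩
  obtain ⟨-, h1, h2⟩ := quad_eq_zero (L := L) (a := 0) (b := c) (c := -(c * x) - 1) fun z hz => by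
    have := mul_inv_cancel₀ (h z hz)
    rw [hc z hz] at this
    linear_combination this
  simp [h1] at h2

lemma surj {L : PeriodPair} {φ : ℂ →+ Pt (gA L) (gB L)} (h : Un L φ) (P : Pt (gA L) (gB L)) :
    ∃ z, φ z = P := by
  by_cases e : P = 0
  · exact ⟨0, by rw [e, map_zero]⟩
  obtain ⟨z, h1, h2⟩ := wp_surj L (xc P)
  rcases eq_or_neg (fun e => h1 ((h.1 z).1 e)) e ((h.2 z h1).1.trans h2) with h3 | h3
  · exact ⟨z, h3⟩
  · exact ⟨-z, by rw [map_neg, h3, neg_neg]⟩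

/-- a group between two lattices is a lattice -/
lemma mid {L L' : PeriodPair} {M : Submodule ℤ ℂ} (h : L.lattice ≤ M) (h' : M ≤ L'.lattice) :
    ∃ K : PeriodPair, K.lattice = M := by
  have : DiscreteTopology M := DiscreteTopology.of_subset (s := (L'.lattice : Set ℂ))
    (inferInstanceAs (DiscreteTopology L'.lattice)) h'
  have : IsZLattice ℝ M := ⟨top_unique ((IsZLattice.span_top (K := ℝ) (L := L.lattice)).ge.trans
    (Submodule.span_mono h))⟩
  have := ZLattice.module_free ℝ M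
  have := ZLattice.module_finite ℝ M
  let b := Module.finBasisOfFinrankEq ℤ M ((ZLattice.rank ℝ M).trans Complex.finrank_real_complex)
  have e : ![b.ofZLatticeBasis ℝ M 0, b.ofZLatticeBasis ℝ M 1] = b.ofZLatticeBasis ℝ M := by
    funext i
    fin_cases i <;> rfl
  refine ⟨⟨_, _, e ▸ (b.ofZLatticeBasis ℝ M).linearIndependent⟩, ?_⟩
  rw [PeriodPair.lattice, ← Matrix.range_cons_cons_empty _ _ ![], e]
  exact b.ofZLatticeBasis_span ℝ

end UbA

open UbA in
theorem ub_of : UA → UB := by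
  intro hA L L' C u d z hz
  obtain ⟨φ, hφ⟩ := u2 L d.good
  have N0 : ((C.card : ℂ))⁻¹ ≠ 0 :=
    inv_ne_zero (Nat.cast_ne_zero.2 (Finset.card_pos.2 ⟨0, d.sub.zero⟩).ne')
  have hL : L.lattice ≤ ((toSub d.sub).comap φ).toIntSubmodule := fun w hw => by
    change φ w ∈ C
    rw [(hφ.1 w).2 hw]
    exact d.sub.zero
  obtain ⟨K, hK⟩ := mid (L' := scale L _ N0) hL fun w hw => by
    have h1 : (C.card : ℂ) * w ∈ L.lattice := by
      rw [← hφ.1, ← nsmul_eq_mul, map_nsmul]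
      exact d.sub.nsmul_card hw
    have h2 := (mem_scale N0).2 h1
    rwa [inv_mul_cancel_left₀ (fun e => N0 (inv_eq_zero.2 e))] at h2
  obtain ⟨C', d', hC⟩ := hA L K φ 1 d.good (good K) hφ one_ne_zero fun w hw => by
    rw [one_mul, hK]
    exact hL hw
  obtain rfl : C' = C := Finset.ext fun P => by
    rw [hC, hK]
    refine ⟨fun ⟨w, h1, h2⟩ => ?_, fun h => ?_⟩
    · rw [one_mul] at h1
      exact h2 ▸ h1
    · obtain ⟨w, rfl⟩ := surj hφ P
      exact ⟨w, (one_mul w).symm ▸ h, rfl⟩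
  have u0 := inv_ne_zero d.hu
  obtain ⟨g2, g3⟩ := g_scale L' _ u0
  rw [inv_pow, inv_inv] at g2 g3
  have := lattice_le K (scale L' _ u0) (by linear_combination 4 * d'.hA - 4 * d.hA - g2)
    (by linear_combination 4 * d'.hB - 4 * d.hB - g3) (hK ▸ hL hz)
  rw [← mem_scale u0, inv_mul_cancel_left₀ d.hu]
  exact this

end Pool.Agent.MP_c481b3_nt.H79
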