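import Pool.Agent.MP_c481b3_nt.H79.GlueN
import Pool.Agent.MP_c481b3_nt.H79.Bra
import Pool.Agent.MP_c481b3_nt.H79.Cls
import Pool.Agent.MP_c481b3_nt.H79.Compz
import Pool.Agent.MP_c481b3_nt.H79.Crd
import Pool.Agent.MP_c481b3_nt.H79.Deg
import Pool.Agent.MP_c481b3_nt.H79.Dyn
import Pool.Agent.MP_c481b3_nt.H79.Finz
import Pool.Agent.MP_c481b3_nt.H79.FixaN
import Pool.Agent.MP_c481b3_nt.H79.FixbN
import Pool.Agent.MP_c481b3_nt.H79.Frb
import Pool.Agent.MP_c481b3_nt.H79.FrbN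
import Pool.Agent.MP_c481b3_nt.H79.Glob
import Pool.Agent.MP_c481b3_nt.H79.Glob2
import Pool.Agent.MP_c481b3_nt.H79.Gt
import Pool.Agent.MP_c481b3_nt.H79.H90
import Pool.Agent.MP_c481b3_nt.H79.Half
import Pool.Agent.MP_c481b3_nt.H79.Hen1
import Pool.Agent.MP_c481b3_nt.H79.HenN
import Pool.Agent.MP_c481b3_nt.H79.Hkm
import Pool.Agent.MP_c481b3_nt.H79.Imp2
import Pool.Agent.MP_c481b3_nt.H79.Inj
import Pool.Agent.MP_c481b3_nt.H79.Inr
import Pool.Agent.MP_c481b3_nt.H79.Iso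
import Pool.Agent.MP_c481b3_nt.H79.Key
import Pool.Agent.MP_c481b3_nt.H79.Krc
import Pool.Agent.MP_c481b3_nt.H79.Kron
import Pool.Agent.MP_c481b3_nt.H79.Krp
import Pool.Agent.MP_c481b3_nt.H79.LiftN
import Pool.Agent.MP_c481b3_nt.H79.Loc
import Pool.Agent.MP_c481b3_nt.H79.Locq
import Pool.Agent.MP_c481b3_nt.H79.Move
import Pool.Agent.MP_c481b3_nt.H79.Msq2
import Pool.Agent.MP_c481b3_nt.H79.Mult
import Pool.Agent.MP_c481b3_nt.H79.Noaut
import Pool.Agent.MP_c481b3_nt.H79.Nrm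
import Pool.Agent.MP_c481b3_nt.H79.Nz
import Pool.Agent.MP_c481b3_nt.H79.Odd
import Pool.Agent.MP_c481b3_nt.H79.Odp
import Pool.Agent.MP_c481b3_nt.H79.One
import Pool.Agent.MP_c481b3_nt.H79.Ordy
import Pool.Agent.MP_c481b3_nt.H79.Pad
import Pool.Agent.MP_c481b3_nt.H79.Pair
import Pool.Agent.MP_c481b3_nt.H79.Phi2
import Pool.Agent.MP_c481b3_nt.H79.Poly
import Pool.Agent.MP_c481b3_nt.H79.RatN
import Pool.Agent.MP_c481b3_nt.H79.Rec
import Pool.Agent.MP_c481b3_nt.H79.Rec2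
import Pool.Agent.MP_c481b3_nt.H79.Salg
import Pool.Agent.MP_c481b3_nt.H79.Sep
import Pool.Agent.MP_c481b3_nt.H79.SepzN
import Pool.Agent.MP_c481b3_nt.H79.Split
import Pool.Agent.MP_c481b3_nt.H79.Ssf
import Pool.Agent.MP_c481b3_nt.H79.Ssq
import Pool.Agent.MP_c481b3_nt.H79.Sym
import Pool.Agent.MP_c481b3_nt.H79.TayN
import Pool.Agent.MP_c481b3_nt.H79.Tr0
import Pool.Agent.MP_c481b3_nt.H79.Ua
import Pool.Agent.MP_c481b3_nt.H79.Ub
import Pool.Agent.MP_c481b3_nt.H79.Unq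

set_option autoImplicit false

namespace Pool.Agent.MP_c481b3_nt.H79

open Pool.Agent.MP_c481b3_nt.H81 Pool.Agent.MP_c481b3_nt.H28 NumberField Polynomial
open scoped IntermediateField

theorem bra : BRA := bra_of ua (ub_of ua)

theorem poly : POLY :=
  poly_of (kron_of phi2 sym (krc_of phi2 krp hkm) nz) (mult_of ordy noaut) bra

theorem frb : FRB2 := frb2_of padf

theorem rat : RAT2 := rat2_of lift2 frb

theorem crd : CRD := crd_of imp uni2

theorem endl : ENDL2 := endl2_of lift2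

theorem quo : QUO := quo_of (iso_of ua bra)

theorem dyn : DYN := dyn_of compz

theorem core {g : ℚ[X]} {p : ℕ} (hp : p.Prime) (h5 : 5 ≤ p) (h : Hyp2 p g)
    (glob : ∀ r : ℕ, r.Prime → r ≠ 2 → Gl p r g) : False :=
  main2_of pad lift2 rat (tayz2_of lift2 rat (tay2_of imp imp2 crd lift2) compz)
    (sepz2_of lift2 rat crd msq2) (fixa2_of lift2 rat endl frb quo (prem_of move))
    (fixb2_of lift2 rat endl frb quo (prem_of move) (h90_of move) cls) (inj_of lift2 rat endl unq2)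
    gt compz (ref_of compz) dyn (symz_of compz) (finz_of compz dyn) pair salg odd sep hp h5 h glob

theorem glob2 : GLOB2 :=
  glob2_of poly (key_of (tr0_of ssf)) (deg_of odp) (odn_of odp) unq (inr_of padf ssf)
    (loc_of (half_of split) locq nrm) rec2 nrm pad

theorem main (K : Type) [Field K] [NumberField K] (A B : 𝓞 K) (hΔ : (Wc A B).Δ ≠ 0)
    (hr : ∀ τ : K →+* ℂ, (τ (jj (A : K) B)).im ≠ 0) (p : ℕ) (hp : p.Prime) (h5 : 5 ≤ p)
    (h : Hyp2 p (minpoly ℚ (jj (A : K) B))) :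
    (SP A B).Infinite ∧ (Odd (Module.finrank ℚ⟮jj (A : K) B⟯ K) → (Z0 A B).Infinite) ∧
      (ℚ⟮jj (A : K) B⟯ = ⊤ → {P | P ∈ Z0 A B ∧ (Ideal.absNorm P).Prime}.Infinite) := by
  have k : Odd (Module.finrank ℚ⟮jj (A : K) B⟯ K) → (Z0 A B).Infinite :=
    fun ho hf => core hp h5 h fun r => glob2 K A B p r hΔ hr ho hf hp h5
  refine ⟨fun hf => core hp h5 h fun r => glob_of poly ssq rec0 nrm K A B p r hΔ hr hf hp h5, k,
    fun e => one (mul_ne_zero (mul_ne_zero ?_ ?_) hΔ) e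
      (k (by rw [e, IntermediateField.finrank_top]; exact odd_one))⟩
  all_goals
    obtain ⟨τ⟩ : Nonempty (K →+* ℂ) := inferInstance
    rintro rfl
    refine hr τ ?_
  · simp [jj]
  · have : (A : K) ≠ 0 := by rintro h; simp [Wc_disc, RingOfIntegers.coe_eq_zero_iff.1 h] at hΔ
    rw [show jj (A : K) ((0 : 𝓞 K) : K) = 1728 by
      rw [jj]; simp only [map_zero]; field_simp; ring]
    simp [map_ofNat]

end Pool.Agent.MP_c481b3_nt.H79
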