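import Pool.Agent.MP_c481b3_nt.H79.SpecP

/-! A supersingular curve over the prime field gives a context. -/

set_option autoImplicit false

namespace Pool.Agent.MP_c481b3_nt.H79

open Pool.Agent.MP_c481b3_nt.H81 Pool.Agent.MP_c481b3_nt.H28

namespace CtxA

lemma twist {k : Type} [Field k] (h2 : (2 : k) ≠ 0) (h3 : (3 : k) ≠ 0) {a b t : k} (ha : a ≠ 0)
    (hb : b ≠ 0) (ht : t * (4 * a ^ 3 + 27 * b ^ 2) = 6912 * a ^ 3) :
    ∃ c : k, c * t * (1728 - t) ≠ 0 ∧ fA c t = a ∧ fB c t = b := by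
  have e1 : (1728 - t) * (4 * a ^ 3 + 27 * b ^ 2) = 2 ^ 6 * 3 ^ 6 * b ^ 2 := by
    linear_combination -ht
  have e0 : t * (4 * a ^ 3 + 27 * b ^ 2) = 2 ^ 8 * 3 ^ 3 * a ^ 3 := by linear_combination ht
  have hs : 1728 - t ≠ 0 := fun e => by
    rw [e, zero_mul] at e1
    exact mul_ne_zero (mul_ne_zero (pow_ne_zero _ h2) (pow_ne_zero _ h3)) (pow_ne_zero _ hb) e1.symm
  have h0 : t ≠ 0 := fun e => by
    rw [e, zero_mul] at e0
    exact mul_ne_zero (mul_ne_zero (pow_ne_zero _ h2) (pow_ne_zero _ h3)) (pow_ne_zero _ ha) e0.symm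
  have e2 : 27 * b ^ 2 * t = 4 * a ^ 3 * (1728 - t) := by linear_combination ht
  refine ⟨3 * b / (2 * a * (1728 - t)), by simp [*], ?_, ?_⟩
  · rw [fA]
    field_simp
    linear_combination e2
  · rw [fB]
    field_simp
    linear_combination e2

lemma ss {p : ℕ} [Fact p.Prime] (X : Ctx p) {a b : ZMod p} (eA : fA (X.c : ZMod p) X.j = a)
    (eB : fB (X.c : ZMod p) X.j = b) (hc : Nat.card (Wc a b).toAffine.Point = p + 1) : X.SS := by
  have cf := card_fixed (A := a) (B := b) (A' := X.A) (B' := X.B)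
    (ZMod.castHom (dvd_refl p) X.κ) (by rw [← eA, map_fA, map_intCast, map_intCast]; rfl)
    (by rw [← eB, map_fB, map_intCast, map_intCast]; rfl) X.good
  rw [ZMod.card, hc] at cf
  have tr := tr_frE X.good p 1 X.hA X.hB one_ne_zero X.three
  simp only [pow_one] at tr
  rw [cf] at tr
  have ch := X.cr.char X.π
  rw [Ctx.π, tr, NE_frE] at ch
  rw [Ctx.SS, Ctx.π, ch]
  simp

end CtxA

theorem ctx_of : PAD → CTX := by
  intro hP p _ a b t h5 hu hc ht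
  obtain ⟨O, ι, pad⟩ := hP p
  rw [← ZMod.intCast_zmod_eq_zero_iff_dvd] at hu ht
  push_cast at hu ht
  obtain ⟨hab, -⟩ := mul_ne_zero_iff.1 hu
  obtain ⟨ha, hb⟩ := mul_ne_zero_iff.1 hab
  obtain ⟨c0, u, eA, eB⟩ := CtxA.twist (small_ne (ZMod p) h5).1 (small_ne (ZMod p) h5).2 ha hb
    (sub_eq_zero.1 ht)
  obtain ⟨c, rfl⟩ := ZMod.intCast_surjective c0
  refine ⟨⟨O, ι, c, t, pad, h5, ?_⟩, rfl, CtxA.ss _ eA eB hc⟩
  rw [← ZMod.intCast_zmod_eq_zero_iff_dvd]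
  push_cast
  exact u

end Pool.Agent.MP_c481b3_nt.H79
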