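import Pool.Agent.MP_c481b3_nt.H79.SpecN
import Pool.Agent.MP_c481b3_nt.H28.Loc
import Pool.Agent.MP_c481b3_nt.H28.SeedGeo

/-! The action of automorphisms on torsion points; expansions on the rational points. -/

set_option autoImplicit false

namespace Pool.Agent.MP_c481b3_nt.H79

open Pool.Agent.MP_c481b3_nt.H81 Pool.Agent.MP_c481b3_nt.H28

namespace FrbNA

variable {p : ℕ} [Fact p.Prime] (X : Fam p)

/-- an integral element fixed by all automorphisms is a `p`-adic integer -/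
lemma exists_io {z : ℂ} (hz : z ∈ X.O) (h : ∀ σ, Fx X.ι σ → σ z = z) : ∃ y, X.io y = z := by
  obtain ⟨x, rfl⟩ := X.pad.fix z h
  exact ⟨⟨x, (X.pad.mem x).1 hz⟩, rfl⟩

lemma small {A B : ℂ} (hB : X.O.valuation B ≤ 1) (h : ∀ k : ℕ, X.O.valuation
    (A * p ^ (k + 1) + B * (p ^ (k + 1)) ^ 2) ≤ X.O.valuation ((p : ℂ) ^ (k + 1)) ^ 3) :
    A = 0 ∧ B = 0 := by
  have p0 : (p : ℂ) ≠ 0 := Nat.cast_ne_zero.2 (Fact.out : p.Prime).ne_zero
  have w0 : ∀ k : ℕ, 0 < X.O.valuation ((p : ℂ) ^ (k + 1)) := fun k =>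
    zero_lt_iff.2 ((Valuation.ne_zero_iff _).2 (pow_ne_zero _ p0))
  have w1 : ∀ k : ℕ, X.O.valuation ((p : ℂ) ^ (k + 1)) ≤ X.O.valuation (p : ℂ) ^ k := fun k => by
    rw [map_pow, pow_succ]
    exact mul_le_of_le_one_right' X.pad.vp.le
  have w2 : ∀ k : ℕ, X.O.valuation ((p : ℂ) ^ (k + 1)) ≤ 1 := fun k => by
    rw [map_pow]
    exact pow_le_one' X.pad.vp.le _
  have h1 : ∀ k : ℕ, X.O.valuation (A + B * p ^ (k + 1)) ≤
      X.O.valuation ((p : ℂ) ^ (k + 1)) * X.O.valuation ((p : ℂ) ^ (k + 1)) := fun k => by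
    rw [← mul_le_mul_iff_left₀ (w0 k), ← map_mul, add_mul, mul_assoc, ← sq, ← pow_three']
    exact h k
  have hA : A = 0 := X.pad.arch A fun k => by
    rw [← add_sub_cancel_right A (B * p ^ (k + 1))]
    refine le_trans (Valuation.map_sub_le _ ((h1 k).trans (mul_le_of_le_one_left' (w2 k))) ?_)
      (w1 k)
    rw [map_mul]
    exact mul_le_of_le_one_left' hB
  refine ⟨hA, X.pad.arch B fun k => le_trans ?_ (w1 k)⟩
  have := h1 k
  rwa [hA, zero_add, map_mul, mul_le_mul_iff_left₀ (w0 k)] at this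

end FrbNA

theorem frb2_of : PADF → FRB2 := by
  classical
  intro H p _ X σ t h e N s hσ hN hs
  have T := (X.tm hN).up h.rd
  have hr : ∀ P : X.P t, P ≠ 0 → N • P = 0 → h.rd.red P ≠ 0 := fun P h0 hP =>
    red_tors_ne h.rd (X.nat_ne.2 hN) h0 hP
  set D := (tors (X.fA t) (X.fB t) N).erase 0 with hD
  have hD' : ∀ P, P ∈ D ↔ P ≠ 0 ∧ N • P = 0 := fun P => by rw [hD, Finset.mem_erase, T.mem]
  obtain ⟨m, hm⟩ := H p X.O X.ι X.pad σ hσ (insert s (D.image xc ∪ D.image yc)) (by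
    intro z hz
    simp only [Finset.mem_insert, Finset.mem_union, Finset.mem_image, hD'] at hz
    rcases hz with rfl | ⟨P, hP, rfl⟩ | ⟨P, hP, rfl⟩
    · exact hs
    · exact (ev_xc h.rd (hr P hP.1 hP.2)).mem
    · exact (ev_yc h.rd (hr P hP.1 hP.2)).mem)
  refine ⟨m, hm s (Finset.mem_insert_self _ _), fun P hP => ?_⟩
  by_cases h0 : P = 0
  · rw [h0, map_zero, map_zero, map_zero]
  have hP' := (hD' P).2 ⟨h0, hP⟩
  have key : ∀ z y, z ∈ insert s (D.image xc ∪ D.image yc) → Ev (resPlc X.O) z y →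
      Ev (resPlc X.O) (σ z) (y ^ p ^ (1 * m)) := fun z y hz hy =>
    ((Ev.of_lt (π := resPlc X.O) (hm z hz)).add (hy.pow (p ^ m))).congr (sub_add_cancel _ _)
      (by rw [zero_add, one_mul])
  rw [Fam.π, (frE_pow X.good p 1 X.hA X.hB m).1, frE_apply]
  refine red_eq h.rd (Sc.map_ne _ h0) (Sc.map_ne _ (hr P h0 hP)) ?_ ?_
  · rw [xc_frP, Fam.Dk.cj, xc_ofHom]
    exact key _ _ (Finset.mem_insert_of_mem
      (Finset.mem_union_left _ (Finset.mem_image_of_mem _ hP'))) (ev_xc h.rd (hr P h0 hP))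
  · rw [yc_frP, Fam.Dk.cj, yc_ofHom]
    exact key _ _ (Finset.mem_insert_of_mem
      (Finset.mem_union_right _ (Finset.mem_image_of_mem _ hP'))) (ev_yc h.rd (hr P h0 hP))

theorem tayz2_of : LIFT2 → RAT2 → TAY2 → COMPZ → TAYZ2 := fun hL hR hT hC p _ X θ hθ => by
  refine hC.base p _ _ fun x hx => ?_
  have ht := X.dk_io.2 hx
  obtain ⟨-, h', -⟩ := (hL p X).lf θ _ hθ.1 ht
  obtain ⟨-, a, ha, b, hb, H⟩ := hT p X θ hθ.1 _ ht
  have H' : ∀ y, Dz 0 y → X.O.valuation (X.io (X.hz θ y) - X.io (X.hz θ x) -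
      a * X.io (y - x) - b * X.io (y - x) ^ 2) ≤ X.O.valuation (X.io (y - x)) ^ 3 := fun y hy => by
    have e : X.io (y - x) = X.io y - X.io x := map_sub X.ι (y : ℚ_[p]) x
    rw [hR p X θ y hθ hy, hR p X θ x hθ hx, e]
    exact H _ (X.dk_io.2 hy)
  have key : ∀ σ, Fx X.ι σ → a - σ a = 0 ∧ b - σ b = 0 := fun σ hσ => by
    have v := (X.O.valuation_le_one_iff b).2 hb
    refine FrbNA.small X (Valuation.map_sub_le _ v (by rwa [X.pad.stab σ hσ])) fun k => ?_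
    have hy : Dz 0 (x + (p : ℤ_[p]) ^ (k + 1)) := by
      rw [Dz, add_sub_right_comm]
      exact dvd_add hx (dvd_pow_self _ k.succ_ne_zero)
    have h1 := H' _ hy
    have e : X.io ((p : ℤ_[p]) ^ (k + 1)) = (p : ℂ) ^ (k + 1) := by simp [Fam.io]
    have s : ∀ y, σ (X.io y) = X.io y := fun y => hσ _
    rw [add_sub_cancel_left, e] at h1
    have h2 := (X.pad.stab σ hσ _).trans_le h1
    simp only [map_sub, map_mul, map_pow σ, map_natCast, s] at h2
    refine le_of_eq_of_le (congrArg _ ?_) (Valuation.map_sub_le _ h2 h1)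
    ring
  obtain ⟨a', rfl⟩ := FrbNA.exists_io X ha fun σ hσ => (sub_eq_zero.1 (key σ hσ).1).symm
  obtain ⟨b', rfl⟩ := FrbNA.exists_io X hb fun σ hσ => (sub_eq_zero.1 (key σ hσ).2).symm
  refine ⟨X.dk_io.1 (by rwa [hR p X θ x hθ hx]), a', b', fun y hy => (X.pad.dvd _ _).1 ?_⟩
  simpa [Fam.io] using H' y hy

end Pool.Agent.MP_c481b3_nt.H79
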