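import Pool.Agent.MP_c481b3_nt.H79.Side
import Pool.Agent.MP_c481b3_nt.H28.WeberAlg
import Pool.Agent.MP_c481b3_nt.H28.AbsDir

/-! The main theorem from the statements. -/

set_option autoImplicit false

namespace Pool.Agent.MP_c481b3_nt.H79

open Pool.Agent.MP_c481b3_nt.H81 Pool.Agent.MP_c481b3_nt.H28 Polynomial NumberField

lemma exists_r {p : ℕ} (hp : p.Prime) : ∃ (r : ℕ) (x y : ℤ), r.Prime ∧ p < r ∧
    (r : ℤ) = x ^ 2 + p * y ^ 2 ∧ ¬(p : ℤ) ∣ x ∧ ¬(p : ℤ) ∣ y := by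
  have p0 : (0 : ℤ) < p := by exact_mod_cast hp.pos
  have c : IsCoprime (1 + p : ℤ) (p ^ 3) :=
    IsCoprime.pow_right ⟨1, -1, by ring⟩
  obtain ⟨r, ⟨hr, u, v, e⟩, h⟩ := (weber_of absDirichlet (1 + p) (2 * p ^ 2) (p ^ 3) (by omega)
    (by nlinarith [pow_pos p0 3]) fun r a _ b => c.isUnit_of_dvd' a b).exists_gt p
  have hu : ¬(p : ℤ) ∣ u := fun ⟨k, hk⟩ => h.ne ((Nat.prime_dvd_prime_iff_eq hp hr).1
    (Int.natCast_dvd_natCast.1 ⟨(1 + p) * p * k ^ 2 + 2 * p * u * v + p ^ 2 * v ^ 2, by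
      rw [e, hk]; ring⟩))
  exact ⟨r, u, u + p * v, hr, h, by rw [e]; ring, hu,
    fun h => hu ((dvd_add_left (dvd_mul_right _ _)).1 h)⟩

theorem main_of (ctx : CTX) (lift : LIFT) (rat : RAT) (tayz : TAYZ) (sepz : SEPZ) (fixa : FIXA)
    (fixb : FIXB) (cz : COMPZ) (ref : REF) (dyn : DYN) (sym : SYMZ) (fin : FINZ) (pair : PAIR)
    (glob : GLOB) (salg : SALG) (odd : ODD) (sep : SEP) (K : Type) [Field K] [NumberField K]
    (A B : 𝓞 K) (hΔ : (Wc A B).Δ ≠ 0) (hr : ∀ τ : K →+* ℂ, (τ (jj (A : K) B)).im ≠ 0) (p : ℕ)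
    (hp : p.Prime) (h5 : 5 ≤ p) (h : Hyp p (minpoly ℚ (jj (A : K) B))) : (SP A B).Infinite := by
  intro hf
  have := Fact.mk hp
  obtain ⟨a, b, t, h1, h2, h3, h4⟩ := h
  obtain ⟨X, rfl, ss⟩ := ctx p a b t h5 h1 h2 h3
  obtain ⟨r, x, y, r1, r2, r3, r4, r5⟩ := exists_r hp
  obtain ⟨M, hM⟩ := glob K A B p r hΔ hr hf hp h5 r1 (by omega)
  have g1 : minpoly ℚ (jj (A : K) B) ≠ 0 := minpoly.ne_zero (Algebra.IsIntegral.isIntegral _)
  generalize minpoly ℚ (jj (A : K) B) = g at *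
  obtain ⟨g2, g3⟩ : aeval (X.j : ℚ) g ≠ 0 ∧ aeval (1728 : ℚ) g ≠ 0 :=
    mul_ne_zero_iff.1 fun e => by rw [e, padicValRat.zero] at h4; simp at h4
  have s1 := sep _ _ _ X.good p X.hA X.hB X.three ss
  have π0 := frE_ne X.good X.three p 1 X.hA X.hB
  obtain ⟨l, l', φ, φ', t, d, d', e, t1, t2⟩ := salg X.E NE X.cr p X.π hp (by omega) ss s1
    (odd (Pt X.A X.B) X.E NE X.cr p X.π hp (by omega) ss (fun n hn => by
      have tm : Tm X.A X.B n := X.tm fun h => by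
        rcases hn with rfl | rfl <;> have := Nat.le_of_dvd (by norm_num) h <;> omega
      refine ⟨?_, fun θ => div_nat tm θ⟩
      simp only [← tm.mem, ← tm.card]
      simp) (s1.imp fun φ h => ⟨fun e => h.2 (by simp [e, X.cr.zero]), h.1⟩))
    (fun φ => nonres X.good X.three p X.hA X.hB)
    (fun r φ hr rp => descend X.good X.three ss π0 hr
      (X.nat_ne.2 fun h => rp ((Nat.prime_dvd_prime_iff_eq hp hr).1 h).symm)) (max M r)
  have sd : ∀ {l : ℕ} {φ : X.E}, Sd NE p X.π (max M r) l φ → φ * φ = -(l : X.E) ∧ ¬p ∣ l ∧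
      X.St φ ∧ Tz X.j (X.hz φ) (-1) ∧ Iv X.j g (X.hz φ) ∧ ∃ c, Dz X.j c ∧ X.hz φ c = c ∧
      pv g c ≠ 0 ∧ Even (padicValRat p (aeval (1728 : ℚ) g) + (pv g c).valuation) := by
    intro l φ d
    have a : φ * φ = -(l : X.E) := by rw [X.cr.sq_anti π0 d.anti, d.norm, Int.cast_natCast]
    have b := max_lt_iff.1 d.big
    have pl : ¬p ∣ l := fun h => by have := (Nat.prime_dvd_prime_iff_eq hp d.prime).1 h; omega
    exact ⟨a, pl, (Ctx.st_anti pl a d.anti).2, Ctx.side (lift p X) (rat p X) (tayz p X) (sepz p X)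
      (fixa p X) (fixb p X) cz ref dyn sym pair ss d.prime (by have := d.mod8; omega) r1 r2 b.2 r3
      r4 r5 a d.anti g3 fun i => hM l d.prime b.1 d.mod8
        (fun q h1 h2 => d.res q h1 (le_max_of_le_left h2)) d.nonres i _⟩
  obtain ⟨a1, b1, c1, T1, I1, c, hc, e1, e2, e3⟩ := sd d
  obtain ⟨a2, b2, c2, T2, I2, -⟩ := sd d'
  have e4 : pv g (X.j : ℤ_[p]) = ((aeval (X.j : ℚ) g : ℚ) : ℚ_[p]) := by
    rw [pv, ← eq_ratCast (algebraMap ℚ ℚ_[p]), ← aeval_algebraMap_apply, map_intCast]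
    rfl
  have := fin p _ c _ _ g h5 g1 T1 T2 (Ctx.hz_inv (lift p X) (rat p X) b1 a1 c1)
    (Ctx.hz_inv (lift p X) (rat p X) b2 a2 c2) hc e1
    (sepz p X φ φ' l l' t c c1 c2 a1 a2 e t1 t2 hc e1) I1 I2 c X.j hc (by simp [Dz]) e2
    (by rw [e4]; exact_mod_cast g2)
  rw [e4, Padic.valuation_ratCast, Int.odd_iff, Int.odd_iff] at this
  rw [padicValRat.mul g2 g3, Int.odd_iff] at h4
  rw [Int.even_iff] at e3
  omega

end Pool.Agent.MP_c481b3_nt.H79
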