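import Pool.Agent.MP_c481b3_nt.H79.SideN
import Pool.Agent.MP_c481b3_nt.H28.WeberAlg
import Pool.Agent.MP_c481b3_nt.H28.AbsDir

/-! The main theorem from the statements. -/

set_option autoImplicit false

namespace Pool.Agent.MP_c481b3_nt.H79

open Pool.Agent.MP_c481b3_nt.H81 Pool.Agent.MP_c481b3_nt.H28 Polynomial NumberField

lemma exists_r2 {p : ℕ} (hp : p.Prime) : ∃ (r : ℕ) (x y : ℤ), r.Prime ∧ p < r ∧
    (r : ℤ) = x ^ 2 + p * y ^ 2 ∧ ¬(p : ℤ) ∣ x ∧ ¬(p : ℤ) ∣ y := by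
  have p0 : (0 : ℤ) < p := by exact_mod_cast hp.pos
  have c : IsCoprime (1 + p : ℤ) (p ^ 3) :=
    IsCoprime.pow_right ⟨1, -1, by ring⟩
  obtain ⟨r, ⟨hr, u, v, e⟩, h⟩ := (weber_of absDirichlet (1 + p) (2 * p ^ 2) (p ^ 3) (by omega)
    (by nlinarith [pow_pos p0 3]) fun r a _ b => c.isUnit_of_dvd' a b).exists_gt p
  have hu : ¬(p : ℤ) ∣ u := fun ⟨k, hk⟩ => h.ne ((Nat.prime_dvd_prime_iff_eq hp hr).1
    (Int.natCast_dvd_natCast.1 ⟨(1 + p) * p * k ^ 2 + 2 * p * u * v + p ^ 2 * v ^ 2, by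
      rw [e, hk]; ring⟩))
  exact ⟨r, u, u + p * v, hr, h, by rw [e]; ring, hu,
    fun h => hu ((dvd_add_left (dvd_mul_right _ _)).1 h)⟩

lemma exists_fam (hP : PAD) {p : ℕ} [Fact p.Prime] {a b : ℤ} (h5 : 5 ≤ p)
    (hu : ¬(p : ℤ) ∣ 4 * a ^ 3 + 27 * b ^ 2)
    (hc : Nat.card (Wc (a : ZMod p) b).toAffine.Point = p + 1) :
    ∃ X : Fam p, X.a = a ∧ X.b = b ∧ X.SS := by
  obtain ⟨O, ι, pad⟩ := hP p
  obtain ⟨X, rfl, rfl⟩ : ∃ X : Fam p, X.a = a ∧ X.b = b := ⟨⟨O, ι, a, b, pad, h5, hu⟩, rfl, rfl⟩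
  have cf := card_fixed (A' := X.A) (B' := X.B) (ZMod.castHom (dvd_refl p) X.κ)
    (map_intCast _ X.a) (map_intCast _ X.b) X.good
  rw [ZMod.card, hc] at cf
  have tr := tr_frE X.good p 1 X.hA X.hB one_ne_zero X.three
  simp only [pow_one] at tr
  rw [cf] at tr
  have ch := X.cr.char X.π
  rw [Fam.π, tr, NE_frE] at ch
  exact ⟨X, rfl, rfl, by rw [Fam.SS, Fam.π, ch]; simp⟩

theorem main2_of (pad : PAD) (lift : LIFT2) (rat : RAT2) (tayz : TAYZ2) (sepz : SEPZ2)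
    (fixa : FIXA2) (fixb : FIXB2) (inj : INJ) (gt : GT) (cz : COMPZ) (ref : REF) (dyn : DYN)
    (sym : SYMZ) (fin : FINZ) (pair : PAIR) (salg : SALG) (odd : ODD) (sep : SEP) {g : ℚ[X]}
    {p : ℕ} (hp : p.Prime) (h5 : 5 ≤ p) (h : Hyp2 p g)
    (glob : ∀ r : ℕ, r.Prime → r ≠ 2 → Gl p r g) : False := by
  have := Fact.mk hp
  obtain ⟨a, b, h1, h2, h4⟩ := h
  obtain ⟨X, rfl, rfl, ss⟩ := exists_fam pad h5 h1 h2
  obtain ⟨r, x, y, r1, r2, r3, r4, r5⟩ := exists_r2 hp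
  obtain ⟨M, hM⟩ := glob r r1 (by omega)
  obtain ⟨g2, g3⟩ : aeval (jj (X.a : ℚ) X.b) g ≠ 0 ∧ aeval (1728 : ℚ) g ≠ 0 :=
    mul_ne_zero_iff.1 fun e => by rw [e, padicValRat.zero] at h4; simp at h4
  obtain ⟨g', hg⟩ := gt p X g
  have s1 := sep _ _ _ X.good p X.hA X.hB X.three ss
  have π0 := frE_ne X.good X.three p 1 X.hA X.hB
  obtain ⟨l, l', φ, φ', t, d, d', e, t1, t2⟩ := salg X.E NE X.cr p X.π hp (by omega) ss s1
    (odd (Pt X.A X.B) X.E NE X.cr p X.π hp (by omega) ss (fun n hn => by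
      have tm : Tm X.A X.B n := X.tm fun h => by
        rcases hn with rfl | rfl <;> have := Nat.le_of_dvd (by norm_num) h <;> omega
      refine ⟨?_, fun θ => div_nat tm θ⟩
      simp only [← tm.mem, ← tm.card]
      simp) (s1.imp fun φ h => ⟨fun e => h.2 (by simp [e, X.cr.zero]), h.1⟩))
    (fun φ => nonres X.good X.three p X.hA X.hB)
    (fun r φ hr rp => descend X.good X.three ss π0 hr
      (X.nat_ne.2 fun h => rp ((Nat.prime_dvd_prime_iff_eq hp hr).1 h).symm)) (max M r)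
  have sd : ∀ {l : ℕ} {φ : X.E}, Sd NE p X.π (max M r) l φ → φ * φ = -(l : X.E) ∧ ¬p ∣ l ∧
      X.St φ ∧ Tz 0 (X.hz φ) (-1) ∧ Iv 0 g' (X.hz φ) ∧ ∃ c, Dz 0 c ∧ X.hz φ c = c ∧
      pv g' c ≠ 0 ∧ Even (padicValRat p (aeval (1728 : ℚ) g) + (pv g' c).valuation) := by
    intro l φ d
    have a : φ * φ = -(l : X.E) := by rw [X.cr.sq_anti π0 d.anti, d.norm, Int.cast_natCast]
    have b := max_lt_iff.1 d.big
    have pl : ¬p ∣ l := fun h => by have := (Nat.prime_dvd_prime_iff_eq hp d.prime).1 h; omega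
    exact ⟨a, pl, (Fam.st_anti pl a d.anti).2, Fam.side (lift p X) (rat p X) (tayz p X) (sepz p X)
      (fixa p X) (fixb p X) (inj p X) cz ref dyn sym pair ss d.prime (by have := d.mod8; omega) r1 r2 b.2 r3
      r4 r5 a d.anti g3 hg fun i => hM l d.prime b.1 d.mod8
        (fun q h1 h2 => d.res q h1 (le_max_of_le_left h2)) d.nonres i _⟩
  obtain ⟨a1, b1, c1, T1, I1, c, hc, e1, e2, e3⟩ := sd d
  obtain ⟨a2, b2, c2, T2, I2, -⟩ := sd d'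
  have d0 : Dz (0 : ℤ_[p]) 0 := by simp [Dz]
  have e4 : pv g (X.Jz 0) = ((aeval (jj (X.a : ℚ) X.b) g : ℚ) : ℚ_[p]) := by
    have e := X.ι.injective ((Fam.io_Jz (X := X) d0).trans (X.J_io _))
    rw [pv, e, ← eq_ratCast (algebraMap ℚ ℚ_[p]), ← aeval_algebraMap_apply, jj_map]
    simp [lA, lB]
  have e5 : pv g' (0 : ℤ_[p]) ≠ 0 := by rw [Ne, (hg 0 d0).1, e4]; exact_mod_cast g2
  have := fin p _ c _ _ g' h5 (by rintro rfl; simp [pv] at e5) T1 T2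
    (Fam.hz_inv (lift p X) (rat p X) b1 a1 c1) (Fam.hz_inv (lift p X) (rat p X) b2 a2 c2) hc e1
    (sepz p X φ φ' l l' t c c1 c2 a1 a2 e t1 t2 hc e1) I1 I2 c 0 hc d0 e2 e5
  rw [(hg 0 d0).2, e4, Padic.valuation_ratCast, Int.odd_iff, Int.odd_iff] at this
  rw [padicValRat.mul g2 g3, Int.odd_iff] at h4
  rw [Int.even_iff] at e3
  omega

end Pool.Agent.MP_c481b3_nt.H79
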