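import Pool.Agent.MP_c481b3_nt.H79.Iu
import Pool.Agent.MP_c481b3_nt.H31F.All
import Pool.Agent.MP_c481b3_nt.H31F.K4
import Pool.Agent.MP_c481b3_nt.H31F.U2

/-! Curves with the same multiplier are isogenous. -/

set_option autoImplicit false

namespace Pool.Agent.MP_c481b3_nt.H79

open UpperHalfPlane hiding I
open Pool.Agent.MP_c481b3_nt.H81 Pool.Agent.MP_c481b3_nt.H28 Pool.Agent.MP_c481b3_nt.H31F
open scoped Real

namespace IsoA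

lemma lt (τ : ℍ) : Good (gA (Lt τ)) (gB (Lt τ)) ∧ jj (gA (Lt τ)) (gB (Lt τ)) = H31F.JJ τ := by
  have h1 := b1.y1
  have hπ : (π : ℂ) ≠ 0 := by exact_mod_cast Real.pi_ne_zero
  have hd : 4 * (-(Lt τ).g₂ / 4) ^ 3 + 27 * (-(Lt τ).g₃ / 4) ^ 2 =
      -256 * π ^ 12 * H31F.dl τ ^ 2 := by
    rw [h1.disc, ModularForm.discriminant_eq_E₄_cube_sub_E₆_sq, (u1 τ).1, (u1 τ).2]
    ring
  have hne := h1.ne τ
  refine ⟨⟨two_ne_zero, ?_⟩, ?_⟩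
  · rw [hd]
    exact mul_ne_zero (mul_ne_zero (by norm_num) (pow_ne_zero _ hπ)) (pow_ne_zero _ hne)
  · rw [jj, hd, h1.eJ, gA, (u1 τ).1]
    field_simp
    ring

lemma cm (hB : BRA) {n : ℕ} {A B u : ℂ} {χ : Pt A B →+ Pt A B} (hn : Odd n) (h : Cx n u χ) :
    ∃ (τ : ℍ) (a c : ℤ), H31F.JJ τ = jj A B ∧ c ≠ 0 ∧ ((c : ℂ) * τ - a) ^ 2 = -n := by
  obtain ⟨e, he, h1⟩ : ∃ e : ℤ, e ^ 2 = 1 ∧ (e = 1 ↔ ∀ P, 2 • P = 0 → χ P = P) := by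
    by_cases g : ∀ P, 2 • P = 0 → χ P = P
    · exact ⟨1, rfl, iff_of_true rfl g⟩
    · exact ⟨-1, rfl, iff_of_false (by decide) g⟩
  obtain ⟨τ, Q, q1, q2, q3, q4, -⟩ := (hB n e _ hn he).2 ⟨A, B, u, χ, h, rfl, h1⟩
  have n0 : (0 : ℤ) < n := by exact_mod_cast hn.pos
  rw [act_eq_self (q2 ▸ n0), den] at q4
  rw [Matrix.det_fin_two] at q2
  rw [Matrix.trace_fin_two] at q3
  have q5 : Q 1 1 = -Q 0 0 := by linarith
  rw [q5] at q2 q4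
  refine ⟨τ, Q 0 0, Q 1 0, q1, fun c0 => ?_, ?_⟩
  · rw [c0] at q2
    nlinarith [sq_nonneg (Q 0 0)]
  · have q6 := congrArg (Int.cast : ℤ → ℂ) q2
    push_cast at q4 q6
    linear_combination -(Q 1 0 : ℂ) * q4 - q6

end IsoA

open IsoA

theorem iso_of : UA → BRA → ISO := by
  intro hA hB n A B A' B' u χ χ' hn h h'
  obtain ⟨τ, a, c, t1, t2, t3⟩ := cm hB hn h
  obtain ⟨τ', a', c', s1, -, s3⟩ := cm hB hn h'
  obtain ⟨e, he⟩ : ∃ e : ℤ, (c : ℂ) * τ - a = e * (c' * τ' - a') := by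
    rcases sq_eq_sq_iff_eq_or_eq_neg.1 (t3.trans s3.symm) with g | g
    · exact ⟨1, by simp [g]⟩
    · exact ⟨-1, by simp [g]⟩
  obtain ⟨φ, hφ⟩ := u2 (Lt τ) (lt τ).1
  obtain ⟨C, d, -⟩ := hA (Lt τ) (Lt τ') φ c (lt τ).1 (lt τ').1 hφ (Int.cast_ne_zero.2 t2)
    fun z hz => by
    obtain ⟨x, y, rfl⟩ := PeriodPair.mem_lattice.1 hz
    refine PeriodPair.mem_lattice.2 ⟨x * e * c', x * (a - e * a') + y * c, ?_⟩
    change _ * (τ' : ℂ) + _ * 1 = c * (x * (τ : ℂ) + y * 1)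
    push_cast
    linear_combination -x * he
  have g := (cx_iff.1 h).1
  have g' := (cx_iff.1 h').1
  obtain ⟨v, f, i1⟩ := iu_iso three_ne_zero g.good.1 (lt τ).1 (t1.symm.trans (lt τ).2.symm)
  obtain ⟨v', f', i2⟩ := iu_iso three_ne_zero (lt τ').1 g'.good.1 ((lt τ').2.trans s1)
  have i := (i1.comp three_ne_zero (vd_iu three_ne_zero d)).comp three_ne_zero i2
  have k := (g.comp three_ne_zero i).ext (mul_comm u _ ▸ i.comp three_ne_zero g')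
  obtain ⟨D, d', -, e'⟩ := i
  exact ⟨D, _, d', fun P => by rw [← e', ← e']; exact DFunLike.congr_fun k P⟩

theorem quo_of : ISO → QUO := by
  rintro hI n A B u t χ ε hn h ⟨A', B', u', χ₀, h0, rfl, h1⟩
  obtain ⟨χ', h', h2⟩ : ∃ χ' : Pt A' B' →+ Pt A' B', Cx n u χ' ∧
      (ε ↔ ∀ P, 2 • P = 0 → χ' P = P) := by
    rcases sq_eq_sq_iff_eq_or_eq_neg.1 ((cx_iff.1 h).2.trans (cx_iff.1 h0).2.symm) with g | g
    · exact ⟨χ₀, g ▸ h0, h1⟩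
    · refine ⟨-χ₀, cx_iff.2 ⟨g ▸ (cx_iff.1 h0).1.neg, (cx_iff.1 h).2⟩, h1.trans
        (forall₂_congr fun P hP => ?_)⟩
      rw [two_nsmul, add_eq_zero_iff_eq_neg] at hP
      rw [AddMonoidHom.neg_apply, neg_eq_iff_eq_neg, ← hP]
  obtain ⟨D, v, d, e⟩ := hI n A B A' B' u χ χ' hn h h'
  have e' : ∀ P, d.hom three_ne_zero (χ P) = χ' (d.hom three_ne_zero P) := e
  refine ⟨D, ⟨v, A', B', d, rfl⟩, fun P hP => ?_, h2.trans ?_⟩
  · rw [← d.hom_eq_zero three_ne_zero] at hP ⊢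
    rw [e', hP, map_zero]
  · simp only [← d.hom_eq_zero three_ne_zero, map_nsmul, map_sub, e', sub_eq_zero]
    exact (d.surj three_ne_zero).forall

end Pool.Agent.MP_c481b3_nt.H79
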