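import Pool.Agent.MP_c481b3_nt.H79.SpecP
import Pool.Agent.MP_c481b3_nt.H79.Iu
import Pool.Agent.MP_c481b3_nt.H28.WkB

/-! Endomorphisms of degree prime to `p` act on the deformation disc. -/

set_option autoImplicit false

namespace Pool.Agent.MP_c481b3_nt.H79

open Pool.Agent.MP_c481b3_nt.H81 Pool.Agent.MP_c481b3_nt.H28

namespace LiftA

variable {p : ℕ} [Fact p.Prime] {X : Ctx p} {θ : X.E} {t : ℂ}

lemma card_ne {n : ℕ} (hθ : ¬(p : ℤ) ∣ NE θ) (c : (n : ℤ) = NE θ) : ¬p ∣ n := fun e =>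
  hθ (c ▸ Int.natCast_dvd_natCast.2 e)

/-- existence of a lift -/
lemma ex (hθ : ¬(p : ℤ) ∣ NE θ) (h : X.Dk t) : ∃ t', X.Lf θ t t' := by
  obtain ⟨C', d, c, e⟩ := exists_vd X.three θ (X.sep hθ)
  have tm := X.tm (card_ne hθ c)
  obtain ⟨C, hC, im⟩ := exists_lift_sub h.rd tm (tm.mem_subs.2 ⟨d.sub, rfl⟩)
  obtain ⟨c1, c2⟩ := (tm.up h.rd).mem_subs.1 hC
  have hf := red_sub_ne h.rd c1 (c2 ▸ tm.ne)
  have e1 := ev_vA h.rd c1 hf
  have e2 := ev_vB h.rd c1 hf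
  have hu' := d.hu
  obtain ⟨g, a0, b0, j0⟩ := X.spec
  rw [im, d.hA] at e1
  rw [im, d.hB] at e2
  have n1 := mul_ne_zero (pow_ne_zero 4 d.hu) a0
  have n2 := mul_ne_zero (pow_ne_zero 6 d.hu) b0
  have g1 : Good (cE X.good θ ^ 4 * X.A) (cE X.good θ ^ 6 * X.B) := ⟨g.two, by
    rw [show 4 * (cE X.good θ ^ 4 * X.A) ^ 3 + 27 * (cE X.good θ ^ 6 * X.B) ^ 2
      = cE X.good θ ^ 12 * (4 * X.A ^ 3 + 27 * X.B ^ 2) by ring]
    exact mul_ne_zero (pow_ne_zero 12 d.hu) g.disc⟩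
  have g2 : Good (vA C) (vB C) := rd_good (rd_of e1 e2 g1)
  have h' : X.Dk (jj (vA C) (vB C)) := by
    have := ev_jj e1 e2 g1
    rwa [jj_scale d.hu, j0] at this
  obtain ⟨g3, a1, b1, j1⟩ := h'.spec
  have k := jj_eq three_ne_zero g2 g3 j1.symm
  have r' := h'.rd
  generalize jj (vA C) (vB C) = t' at *
  have e4 := (e2.mul (rdA r')).div (e1.mul (rdB r')) (mul_ne_zero n1 b0)
  rw [show cE X.good θ ^ 6 * X.B * X.A / (cE X.good θ ^ 4 * X.A * X.B) = cE X.good θ ^ 2 by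
    field_simp] at e4
  obtain ⟨u, hu, e5⟩ : ∃ u, u ^ 2 = vB C * fA (X.c : ℂ) t' / (vA C * fB (X.c : ℂ) t') ∧
      Ev (resPlc X.O) u (cE X.good θ) := by
    obtain ⟨u, hu⟩ := IsAlgClosed.exists_pow_nat_eq
      (vB C * fA (X.c : ℂ) t' / (vA C * fB (X.c : ℂ) t')) two_pos
    have m := Ev.of_mem ((resPlc X.O).mem_of_pow two_ne_zero (hu ▸ e4.mem))
    rcases sq_eq_sq_iff_eq_or_eq_neg.1 ((m.pow 2).unique (hu ▸ e4)) with e | e
    · exact ⟨u, hu, e ▸ m⟩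
    · exact ⟨-u, by rw [neg_sq, hu], m.neg.congr rfl (by rw [e, neg_neg])⟩
  have a2 := e1.ne_zero n1
  have b2 := e2.ne_zero n2
  have D : VD C u (fA (X.c : ℂ) t') (fB (X.c : ℂ) t') := by
    refine ⟨h.spec.1, c1, e5.ne_zero hu', ?_, ?_, g3⟩
    · rw [show u ^ 4 = (u ^ 2) ^ 2 by ring, hu]
      field_simp
      linear_combination k
    · rw [show u ^ 6 = (u ^ 2) ^ 3 by ring, hu]
      field_simp
      linear_combination k
  refine ⟨t', h, h', C, u, D, c2 ▸ c, e5, fun P => ?_⟩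
  rw [D.red_vm h.rd h'.rd e5 hu' hf, im, e]
  rfl

lemma lf (hθ : ¬(p : ℤ) ∣ NE θ) (h : X.Dk t) : X.Lf θ t (X.h θ t) :=
  Classical.epsilon_spec (ex hθ h)

/-- a subgroup of the right order that reduces into the kernel reduces onto it -/
lemma img (hθ : ¬(p : ℤ) ∣ NE θ) (h : X.Dk t) {C : Finset (X.P t)} (hC : IsSub C)
    (c : (C.card : ℤ) = NE θ) (e : ∀ P ∈ C, θ.1 (h.rd.red P) = 0) (Q : Pt X.A X.B) :
    Q ∈ C.image h.rd.red ↔ θ.1 Q = 0 := by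
  obtain ⟨C', d, c', e'⟩ := exists_vd X.three θ (X.sep hθ)
  have m : ∀ Q, θ.1 Q = 0 ↔ Q ∈ C' := fun Q => by rw [e']; exact d.hom_eq_zero X.three
  rw [m, Finset.eq_of_subset_of_card_le (s := C.image h.rd.red) (t := C') (fun Q hQ => ?_) ?_]
  · rw [card_red h.rd hC (X.nat_ne.2 (card_ne hθ c))]
    exact_mod_cast (c'.trans c.symm).le
  · obtain ⟨P, hP, rfl⟩ := Finset.mem_image.1 hQ
    exact (m _).1 (e P hP)

lemma ker (h : X.Dk t) {C : Finset (X.P t)} {u A' B' : ℂ} (hθ : ¬(p : ℤ) ∣ NE θ)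
    (d : VD C u A' B') (c : ¬p ∣ C.card) (e : ∀ Q, Q ∈ C.image h.rd.red ↔ θ.1 Q = 0) :
    jj A' B' = X.h θ t := by
  obtain ⟨h0, h', C₁, u₁, d₁, c₁, -, e₁⟩ := lf hθ h
  have n₁ := card_ne hθ c₁
  have i : C.image h.rd.red = C₁.image h.rd.red := Finset.ext fun Q => by
    rw [e, img hθ h d₁.sub c₁ fun P hP => by rw [← e₁, d₁.eq_zero.2 hP, map_zero]]
  have k : C.card = C₁.card := by
    rw [← card_red h.rd d.sub (X.nat_ne.2 c), i, card_red h.rd d₁.sub (X.nat_ne.2 n₁)]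
  have tm := X.tm n₁
  have : C = C₁ := subs_inj h.rd tm ((tm.up h.rd).mem_subs.2 ⟨d.sub, k⟩)
    ((tm.up h.rd).mem_subs.2 ⟨d₁.sub, rfl⟩) i
  rw [vd_jj d, this, ← vd_jj d₁, h'.spec.2.2.2]

lemma mul {θ' : X.E} (hθ : ¬(p : ℤ) ∣ NE θ) (hθ' : ¬(p : ℤ) ∣ NE θ') (h : X.Dk t) :
    X.h (θ * θ') t = X.h θ (X.h θ' t) := by
  obtain ⟨h0, h₁, C₁, u₁, d₁, c₁, -, e₁⟩ := lf hθ' h
  obtain ⟨h1, h₂, C₂, u₂, d₂, c₂, -, e₂⟩ := lf hθ h₁
  obtain ⟨H, d, c, e⟩ := (vd_iu three_ne_zero d₁).comp three_ne_zero (vd_iu three_ne_zero d₂)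
  have n : ¬(p : ℤ) ∣ NE (θ * θ') := by
    rw [X.cr.mul, (Nat.prime_iff_prime_int.1 Fact.out).dvd_mul]
    exact fun x => x.elim hθ hθ'
  have c' : (H.card : ℤ) = NE (θ * θ') := by rw [c, X.cr.mul, Nat.cast_mul, c₁, c₂]
  rw [← ker h n d (card_ne n c') (img n h d.sub c' fun P hP => ?_), h₂.spec.2.2.2]
  rw [EE_mul, ← e₁, ← e₂, ← d₁.hom_apply three_ne_zero, ← d₂.hom_apply three_ne_zero,
    ← AddMonoidHom.comp_apply (d₂.hom _), e, d.eq_zero.2 hP, map_zero]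

lemma int {n : ℤ} (hn : ¬(p : ℤ) ∣ n) (h : X.Dk t) : X.h n t = t := by
  have tm := X.tm (mt Int.natCast_dvd.2 hn)
  have pp : p.Prime := Fact.out
  rw [← ker (θ := n) h ?_ (tm.up h.rd).vd ?_ fun Q => ?_, h.spec.2.2.2]
  · rw [X.cr.int]
    exact mt (Nat.prime_iff_prime_int.1 pp).dvd_of_dvd_pow hn
  · rw [(tm.up h.rd).card]
    exact mt pp.dvd_of_dvd_pow (mt Int.natCast_dvd.2 hn)
  · rw [image_tors h.rd tm, tm.mem, EE_int, natAbs_nsmul_eq_zero]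

end LiftA

theorem lift : LIFT := fun _ _ _ =>
  ⟨fun _ _ => LiftA.lf, fun _ _ h _ _ _ _ => LiftA.ker h, fun _ _ _ => LiftA.mul,
    fun _ _ => LiftA.int⟩

end Pool.Agent.MP_c481b3_nt.H79
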