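import Pool.Agent.MP_c481b3_nt.H79.SpecG

/-! The norm of a polynomial value over a polynomial without real roots. -/

set_option autoImplicit false

namespace Pool.Agent.MP_c481b3_nt.H79

open Polynomial

namespace NrmA

theorem split {g : ℚ[X]} (h : ∀ ρ ∈ g.aroots ℂ, ρ.im ≠ 0) :
    ∃ t : Multiset ℂ, g.aroots ℂ = t + t.map (starRingEnd ℂ) := by
  have e : (g.aroots ℂ).map (starRingEnd ℂ) = g.aroots ℂ := by
    rw [aroots_def, ← (IsAlgClosed.splits _).roots_map, map_map,
      Subsingleton.elim ((starRingEnd ℂ).comp _) (algebraMap ℚ ℂ)]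
  refine ⟨(g.aroots ℂ).filter fun ρ => 0 < ρ.im, ?_⟩
  conv_lhs => rw [← Multiset.filter_add_not (fun ρ : ℂ => 0 < ρ.im) (g.aroots ℂ)]
  congr 1
  conv_lhs => rw [← e, Multiset.filter_map]
  refine congrArg _ (Multiset.filter_congr fun ρ hρ => ?_)
  simp [(h ρ hρ).symm.le_iff_lt]

end NrmA

theorem nrm : NRM := by
  intro g hg h
  obtain ⟨t, ht⟩ := NrmA.split h
  have hd : (g.map (algebraMap ℚ ℂ)).natDegree = g.natDegree := natDegree_map _
  have ev : Even g.natDegree := ⟨t.card, by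
    rw [← hd, (IsAlgClosed.splits _).natDegree_eq_card_roots, ← aroots_def, ht, Multiset.card_add,
      Multiset.card_map]⟩
  refine ⟨ev, fun F => ?_⟩
  have hi : Function.Injective (algebraMap ℤ ℂ) := FaithfulSMul.algebraMap_injective ℤ ℂ
  have hF := natDegree_map_eq_of_injective hi F
  have e1 := resultant_eq_prod_eval (g.map (algebraMap ℚ ℂ)) _ _ hF.le (IsAlgClosed.splits _)
  have e2 := resultant_eq_prod_eval (F.map (algebraMap ℤ ℂ)) _ _ hd.le (IsAlgClosed.splits _)
  simp only [eval_map_algebraMap] at e1 e2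
  rw [(hg.map _).leadingCoeff, one_pow, one_mul, hd] at e1
  rw [hF, resultant_comm, (ev.mul_left _).neg_one_pow, one_mul, e1,
    leadingCoeff_map_of_injective hi] at e2
  have e3 : ((resultant g (F.map (algebraMap ℤ ℚ)) g.natDegree F.natDegree : ℚ) : ℂ) = Nr g F := by
    refine ((resultant_map_map _ _ _ _ (algebraMap ℚ ℂ)).symm.trans ?_).trans e1
    rw [map_map, ← IsScalarTower.algebraMap_eq]
  refine ⟨⟨_, ?_, e3⟩, e2⟩
  have e4 : ∀ ρ, aeval (starRingEnd ℂ ρ) F = starRingEnd ℂ (aeval ρ F) := fun ρ =>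
    aeval_algHom_apply (starRingEnd ℂ).toIntAlgHom ρ F
  rw [Nr, ht, Multiset.map_add, Multiset.prod_add, Multiset.map_map, Function.comp_def, funext e4,
    ← Function.comp_def, ← Multiset.map_map, ← map_multiset_prod, Complex.mul_conj,
    ← Complex.ofReal_ratCast, Complex.ofReal_inj] at e3
  exact_mod_cast e3 ▸ Complex.normSq_nonneg _

end Pool.Agent.MP_c481b3_nt.H79
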