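import Pool.Agent.MP_c481b3_nt.H79.SpecP
import Pool.Agent.MP_c481b3_nt.H79.Iu

/-! The action on the rational points of the disc. -/

set_option autoImplicit false

namespace Pool.Agent.MP_c481b3_nt.H79

open Pool.Agent.MP_c481b3_nt.H81 Pool.Agent.MP_c481b3_nt.H28

namespace RatA

variable {p : ℕ} [Fact p.Prime] (X : Ctx p)

/-- a subgroup of the right order that reduces into the kernel reduces onto it -/
lemma ker_eq {θ : X.E} (hθ : ¬(p : ℤ) ∣ NE θ) {t : ℂ} (ht : X.Dk t) {D : Finset (X.P t)}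
    (hD : IsSub D) (hc : (D.card : ℤ) = NE θ) (h : ∀ P ∈ D, θ.1 (ht.rd.red P) = 0) :
    ¬p ∣ D.card ∧ ∀ Q, Q ∈ D.image ht.rd.red ↔ θ.1 Q = 0 := by
  have h0 : ¬p ∣ D.card := fun e => hθ (hc ▸ Int.natCast_dvd_natCast.2 e)
  obtain ⟨K, d, e1, e2⟩ := exists_vd X.three θ (X.sep hθ)
  have k : ∀ Q, θ.1 Q = 0 ↔ Q ∈ K := fun Q => by rw [← d.hom_eq_zero X.three, ← e2]; rfl
  have e : D.image ht.rd.red = K := Finset.eq_of_subset_of_card_le (fun Q hQ => by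
    obtain ⟨P, hP, rfl⟩ := Finset.mem_image.1 hQ
    exact (k _).1 (h P hP)) (by
      rw [card_red ht.rd hD (X.nat_ne.2 h0)]
      exact_mod_cast (e1.trans hc.symm).le)
  exact ⟨h0, fun Q => by rw [e, k]⟩

lemma st_pow {θ : X.E} (hθ : X.St θ) (m : ℕ) {Q : Pt X.A X.B} (h : θ.1 Q = 0) :
    θ.1 ((X.π ^ m).1 Q) = 0 := by
  induction m with
  | zero => exact h
  | succ m ih =>
    rw [pow_succ', EE_mul, ← EE_mul]
    rcases hθ.2 with e | e
    · rw [e, EE_mul, ih, map_zero]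
    · rw [e, EE_neg, EE_mul, ih, map_zero, neg_zero]

lemma fixed (L : X.Lift) (F : X.Frb) {θ : X.E} (hθ : X.St θ) {t : ℂ} (ht : X.Dk t) (σ : ℂ ≃+* ℂ)
    (hσ : Fx X.ι σ) (e : (σ : ℂ →+* ℂ) t = t) : σ (X.h θ t) = X.h θ t := by
  obtain ⟨_, h', C, u, d, hc, -, hr⟩ := L.lf θ t hθ.1 ht
  have hC : ∀ P ∈ C, θ.1 (ht.rd.red P) = 0 := fun P hP => by
    rw [← hr, d.eq_zero.2 hP, map_zero]
  have n0 := (ker_eq X hθ.1 ht d.sub hc hC).1
  have g : (X.c : ℂ) * σ (X.h θ t) * (1728 - σ (X.h θ t)) ≠ 0 := by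
    have := (_root_.map_ne_zero σ).2
      ((((Ev.int _ X.c).mul h').mul ((Ev.ofNat _ 1728).sub h')).ne_zero X.unit')
    rwa [map_mul, map_mul, map_sub, map_intCast, map_ofNat] at this
  have g' := f_good two_ne_zero three_ne_zero g
  have hA : (σ : ℂ →+* ℂ) (fA (X.c : ℂ) t) = fA (X.c : ℂ) t := by rw [map_fA, map_intCast, e]
  have hB : (σ : ℂ →+* ℂ) (fB (X.c : ℂ) t) = fB (X.c : ℂ) t := by rw [map_fB, map_intCast, e]
  have h1 := d.red (rd_triv (σ : ℂ →+* ℂ) hA hB ht.spec.1)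
    (rd_triv (σ : ℂ →+* ℂ) (by rw [map_fA, map_intCast]; rfl) (by rw [map_fB, map_intCast]; rfl)
      g'.1) (ev_triv _ u) ((_root_.map_ne_zero _).2 d.hu) fun P hP => by
        rw [red_triv _ hA hB ht.spec.1]
        exact Sc.map_ne _ (Finset.mem_erase.1 hP).1
  rw [Finset.image_congr fun P _ => red_triv _ hA hB ht.spec.1 P] at h1
  obtain ⟨m, -, hm⟩ := F σ t ht e C.card 0 hσ n0 (zero_mem _)
  obtain ⟨k1, k2⟩ := ker_eq X hθ.1 ht h1.sub
    (by rw [Finset.card_image_of_injective _ (Sc.injective _), hc]) fun P hP => by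
      obtain ⟨Q, hQ, rfl⟩ := Finset.mem_image.1 hP
      exact (congrArg θ.1 (hm Q (d.sub.nsmul_card hQ))).trans (st_pow X hθ m (hC Q hQ))
  exact g'.2.2.2.symm.trans (L.ker θ t ht _ _ _ _ hθ.1 h1 k1 k2)

/-- an integral element fixed by all automorphisms is a `p`-adic integer -/
lemma exists_io {z : ℂ} (hz : z ∈ X.O) (h : ∀ σ, Fx X.ι σ → σ z = z) : ∃ y, X.io y = z := by
  obtain ⟨x, rfl⟩ := X.pad.fix z h
  exact ⟨⟨x, (X.pad.mem x).1 hz⟩, rfl⟩

lemma small {A B : ℂ} (hB : X.O.valuation B ≤ 1) (h : ∀ k : ℕ, X.O.valuation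
    (A * p ^ (k + 1) + B * (p ^ (k + 1)) ^ 2) ≤ X.O.valuation ((p : ℂ) ^ (k + 1)) ^ 3) :
    A = 0 ∧ B = 0 := by
  have p0 : (p : ℂ) ≠ 0 := Nat.cast_ne_zero.2 (Fact.out : p.Prime).ne_zero
  have w0 : ∀ k : ℕ, 0 < X.O.valuation ((p : ℂ) ^ (k + 1)) := fun k =>
    zero_lt_iff.2 ((Valuation.ne_zero_iff _).2 (pow_ne_zero _ p0))
  have w1 : ∀ k : ℕ, X.O.valuation ((p : ℂ) ^ (k + 1)) ≤ X.O.valuation (p : ℂ) ^ k := fun k => by
    rw [map_pow, pow_succ]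
    exact mul_le_of_le_one_right' X.pad.vp.le
  have w2 : ∀ k : ℕ, X.O.valuation ((p : ℂ) ^ (k + 1)) ≤ 1 := fun k => by
    rw [map_pow]
    exact pow_le_one' X.pad.vp.le _
  have h1 : ∀ k : ℕ, X.O.valuation (A + B * p ^ (k + 1)) ≤
      X.O.valuation ((p : ℂ) ^ (k + 1)) * X.O.valuation ((p : ℂ) ^ (k + 1)) := fun k => by
    rw [← mul_le_mul_iff_left₀ (w0 k), ← map_mul, add_mul, mul_assoc, ← sq, ← pow_three']
    exact h k
  have hA : A = 0 := X.pad.arch A fun k => by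
    rw [← add_sub_cancel_right A (B * p ^ (k + 1))]
    refine le_trans (Valuation.map_sub_le _ ((h1 k).trans (mul_le_of_le_one_left' (w2 k))) ?_)
      (w1 k)
    rw [map_mul]
    exact mul_le_of_le_one_left' hB
  refine ⟨hA, X.pad.arch B fun k => le_trans ?_ (w1 k)⟩
  have := h1 k
  rwa [hA, zero_add, map_mul, mul_le_mul_iff_left₀ (w0 k)] at this

end RatA

open RatA

theorem rat_of : LIFT → FRB → RAT := fun hL hF p _ X θ x hθ hx => by
  have ht := X.dk_io.2 hx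
  obtain ⟨-, h', -⟩ := (hL p X).lf θ _ hθ.1 ht
  exact Classical.epsilon_spec (p := fun y => X.io y = X.h θ (X.io x))
    (exists_io X h'.mem fun σ hσ => fixed X (hL p X) (hF p X) hθ ht σ hσ (hσ _))

theorem tayz_of : LIFT → RAT → TAY → COMPZ → TAYZ := fun hL hR hT hC p _ X θ hθ => by
  refine hC.base p _ _ fun x hx => ?_
  have ht := X.dk_io.2 hx
  obtain ⟨-, h', -⟩ := (hL p X).lf θ _ hθ.1 ht
  obtain ⟨-, a, ha, b, hb, H⟩ := hT p X θ hθ.1 _ ht
  have H' : ∀ y, Dz X.j y → X.O.valuation (X.io (X.hz θ y) - X.io (X.hz θ x) -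
      a * X.io (y - x) - b * X.io (y - x) ^ 2) ≤ X.O.valuation (X.io (y - x)) ^ 3 := fun y hy => by
    have e : X.io (y - x) = X.io y - X.io x := map_sub X.ι (y : ℚ_[p]) x
    rw [hR p X θ y hθ hy, hR p X θ x hθ hx, e]
    exact H _ (X.dk_io.2 hy)
  have key : ∀ σ, Fx X.ι σ → a - σ a = 0 ∧ b - σ b = 0 := fun σ hσ => by
    have v := (X.O.valuation_le_one_iff b).2 hb
    refine small X (Valuation.map_sub_le _ v (by rwa [X.pad.stab σ hσ])) fun k => ?_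
    have hy : Dz X.j (x + (p : ℤ_[p]) ^ (k + 1)) := by
      rw [Dz, add_sub_right_comm]
      exact dvd_add hx (dvd_pow_self _ k.succ_ne_zero)
    have h1 := H' _ hy
    have e : X.io ((p : ℤ_[p]) ^ (k + 1)) = (p : ℂ) ^ (k + 1) := by simp [Ctx.io]
    have s : ∀ y, σ (X.io y) = X.io y := fun y => hσ _
    rw [add_sub_cancel_left, e] at h1
    have h2 := (X.pad.stab σ hσ _).trans_le h1
    simp only [map_sub, map_mul, map_pow σ, map_natCast, s] at h2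
    refine le_of_eq_of_le (congrArg _ ?_) (Valuation.map_sub_le _ h2 h1)
    ring
  obtain ⟨a', rfl⟩ := exists_io X ha fun σ hσ => (sub_eq_zero.1 (key σ hσ).1).symm
  obtain ⟨b', rfl⟩ := exists_io X hb fun σ hσ => (sub_eq_zero.1 (key σ hσ).2).symm
  refine ⟨X.dk_io.1 (by rwa [hR p X θ x hθ hx]), a', b', fun y hy => (X.pad.dvd _ _).1 ?_⟩
  simpa [Ctx.io] using H' y hy

end Pool.Agent.MP_c481b3_nt.H79
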