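import Pool.Agent.MP_c481b3_nt.H79.SpecH
import Pool.Agent.MP_c481b3_nt.H79.Rec

/-! Quadratic reciprocity, with parities of valuations. -/

set_option autoImplicit false

namespace Pool.Agent.MP_c481b3_nt.H79

open RecA

namespace Rec2A

theorem sym_eq2 {l p n : ℕ} (hl : l.Prime) (h8 : l % 8 = 7) (hp : p.Prime)
    (hj : jacobiSym (-(l : ℤ)) p = -1) (n0 : n ≠ 0) (hn : ¬l ∣ n)
    (h : ∀ q : ℕ, q.Prime → q ≠ p → jacobiSym (-(l : ℤ)) q = -1 → Even (padicValNat q n)) :
    jacobiSym (n : ℤ) l = (-1) ^ padicValNat p n := by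
  let χ : ℕ →* ℤ := ⟨⟨fun a => jacobiSym (a : ℤ) l, by simp⟩, fun a b => by
    simp [jacobiSym.mul_left]⟩
  have e : ∀ q : ℕ, q.Prime → χ q = jacobiSym (-(l : ℤ)) q := fun q hq => recip_prime h8 hq
  change χ n = _
  conv_lhs => rw [← Nat.prod_factorization_pow_eq_self n0]
  rw [Finsupp.prod, map_prod, Finset.prod_eq_single p]
  · rw [map_pow, e p hp, hj, Nat.factorization_def _ hp]
  · intro q hq hqp
    obtain ⟨pq, dq, -⟩ := Nat.mem_primeFactors.1 (Nat.support_factorization n ▸ hq)
    have hc : Int.gcd (q : ℤ) (l : ℤ) = 1 := by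
      rw [Int.gcd_natCast_natCast]
      exact ((Nat.Prime.coprime_iff_not_dvd hl).2 fun h' => hn (h'.trans dq)).symm
    rw [map_pow, Nat.factorization_def _ pq]
    rcases jacobiSym.eq_one_or_neg_one hc with h1 | h1
    · rw [show χ q = 1 from h1, one_pow]
    · rw [show χ q = -1 from h1, (h q pq hqp ((e q pq).symm.trans h1)).neg_one_pow]
  · intro hq
    rw [Finsupp.notMem_support_iff.1 hq, pow_zero, map_one]

end Rec2A

open Rec2A in
theorem rec2 : REC2 := by
  rintro l p w hl h8 hp hj hw0 ⟨k, u, hw, hu⟩ hodd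
  have := Fact.mk hl
  by_contra hne
  push Not at hne
  have l0 : (0 : ℚ) < l := by exact_mod_cast hl.pos
  set x := w / l ^ k with hx
  have hn : 0 < x.num := Rat.num_pos.2 (by positivity)
  have ha0 : x.num.natAbs ≠ 0 := Int.natAbs_ne_zero.2 hn.ne'
  have par : ∀ q : ℕ, q.Prime → jacobiSym (-(l : ℤ)) q = -1 →
      (Odd (padicValNat q (x.num.natAbs * x.den)) ↔ Odd (padicValRat q w)) := fun q hq h => by
    have := Fact.mk hq
    have ne : q ≠ l := fun e => by
      rw [← recip_prime h8 hq, e, jacobiSym.mod_left, Int.emod_self,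
        jacobiSym.zero_left hl.one_lt] at h
      exact absurd h (by decide)
    have e : padicValRat q x = padicValRat q w := by
      rw [hx, padicValRat.div hw0.ne' (by positivity), padicValRat.zpow, padicValRat.of_nat,
        padicValNat_primes ne]
      simp
    rw [← e, padicValRat_def, padicValInt, padicValNat.mul ha0 x.den_nz, Int.odd_iff, Nat.odd_iff]
    omega
  obtain ⟨ha, hb⟩ := unit_of hw
  have h2 := sym_eq2 hl h8 hp hj (mul_ne_zero ha0 x.den_nz)
    (fun h => (hl.dvd_mul.1 h).elim (fun h => ha (Int.natCast_dvd.2 h))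
      fun h => hb (Int.natCast_dvd_natCast.2 h)) fun q hq hqp hqj =>
    Nat.not_odd_iff_even.1 fun h => hne q hq hqp hqj ((par q hq hqj).1 h)
  rw [((par p hp hj).2 hodd).neg_one_pow, Nat.cast_mul, Int.natAbs_of_nonneg hn.le,
    sym_one hw hu] at h2
  exact absurd h2 (by decide)

end Pool.Agent.MP_c481b3_nt.H79
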