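import Pool.Agent.MP_c481b3_nt.H79.SpecN
import Pool.Agent.MP_c481b3_nt.H79.Iu

/-! The reflection attached to one endomorphism preserves the parity. -/

set_option autoImplicit false

namespace Pool.Agent.MP_c481b3_nt.H79

open Pool.Agent.MP_c481b3_nt.H81 Pool.Agent.MP_c481b3_nt.H28 Polynomial Finset

lemma par_step2 {α : Type} [DecidableEq α] (u u' : ℕ → α) (G : α → ℤ) (w : ℤ)
    (hu : Function.Injective u) (hu' : Function.Injective u')
    (hd : ∀ n m, u n = u' m → n = 0 ∧ m = 0) (h0 : u' 0 = u 0)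
    (h : ∀ i, Even (w + ∑ x ∈ (range (i + 1)).image u ∪ (range (i + 1)).image u', G x)) :
    Even (w + G (u 0)) ∧ ∀ n, (Odd (G (u' n)) ↔ Odd (G (u n))) := by
  refine ⟨by simpa [h0] using h 0, fun n => ?_⟩
  rcases n with _ | n
  · rw [h0]
  have h1 := h (n + 1)
  rw [range_add_one (n := n + 1), image_insert, image_insert, insert_union, union_insert, sum_insert,
    sum_insert] at h1
  · have := h n
    rw [Int.even_iff] at this h1
    rw [Int.odd_iff, Int.odd_iff]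
    omega
  · simp only [mem_union, mem_image, mem_range, not_or, not_exists, not_and]
    exact ⟨fun m _ e => by have := hd _ _ e; omega, fun m _ e => by have := hu' e; omega⟩
  · simp only [mem_insert, mem_union, mem_image, mem_range, not_or, not_exists, not_and]
    exact ⟨fun e => by have := hd _ _ e; omega, fun m _ e => by have := hu e; omega,
      fun m _ e => by have := hd _ _ e.symm; omega⟩

namespace Fam
variable {p : ℕ} [Fact p.Prime] {X : Fam p}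

lemma pp : Prime (p : ℤ) := Nat.prime_iff_prime_int.1 Fact.out

lemma St.mul {θ θ' : X.E} (a : X.St θ) (b : X.St θ') : X.St (θ * θ') := by
  refine ⟨fun h => ?_, ?_⟩
  · rw [X.cr.mul] at h
    exact (pp.dvd_or_dvd h).elim a.1 b.1
  rw [mul_assoc]
  rcases a.2 with e | e <;> rcases b.2 with e' | e' <;>
    simp [e', ← mul_assoc, e]

lemma st_int {n : ℤ} (h : ¬(p : ℤ) ∣ n) : X.St n :=
  ⟨fun e => h (pp.dvd_of_dvd_pow (X.cr.int n ▸ e)), Or.inl (Int.cast_commute n _).eq⟩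

lemma St.pow {θ : X.E} (a : X.St θ) (n : ℕ) : X.St (θ ^ n) := by
  induction n with
  | zero => simpa using st_int (X := X) (n := 1) pp.not_dvd_one
  | succ n ih => rw [pow_succ]; exact ih.mul a

lemma st_anti {φ : X.E} {l : ℕ} (h : ¬p ∣ l) (a : φ * φ = -(l : X.E))
    (b : φ * X.π = -(X.π * φ)) : NE φ = l ∧ X.St φ := by
  have e : NE φ = l := X.cr.norm_of_sq (Int.natCast_nonneg l) (by rwa [Int.cast_natCast])
  exact ⟨e, e ▸ mt Int.natCast_dvd_natCast.1 h, Or.inr b⟩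

lemma SS.lin (ss : X.SS) (x y : ℤ) :
    ((x : X.E) + (y : ℤ) * X.π) * ((x : X.E) + (-y : ℤ) * X.π) = (x ^ 2 + p * y ^ 2 : ℤ) := by
  have : (p : X.E) = -(X.π * X.π) := by rw [ss, neg_neg]
  push_cast
  rw [this]
  simp only [← zsmul_eq_mul, sq, add_mul, mul_add, smul_mul_assoc, mul_smul_comm, neg_mul, mul_neg,
    ← Int.smul_one_eq_cast, one_mul, mul_one]
  module

lemma lin_comm (x y : ℤ) : Commute ((x : X.E) + (y : ℤ) * X.π) X.π :=
  (Int.cast_commute x _).add_left ((Int.cast_commute y _).mul_left (Commute.refl _))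

lemma SS.st_lin (ss : X.SS) {x : ℤ} (h : ¬(p : ℤ) ∣ x) (y : ℤ) :
    X.St ((x : X.E) + (y : ℤ) * X.π) := by
  refine ⟨fun e => h (pp.dvd_of_dvd_pow (n := 4) ?_), Or.inl (lin_comm x y)⟩
  have := congrArg NE (ss.lin x y)
  rw [X.cr.mul, X.cr.int] at this
  obtain ⟨k, hk⟩ := this ▸ e.mul_right _
  exact ⟨k - 2 * x ^ 2 * y ^ 2 - p * y ^ 4, by linear_combination hk⟩

lemma ne_pow {θ : X.E} {r : ℕ} (h : NE θ = r) (n : ℕ) : NE (θ ^ n) = (r ^ n : ℕ) := by
  induction n with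
  | zero => simp [X.cr.one]
  | succ n ih => rw [pow_succ, X.cr.mul, ih, h, pow_succ, Nat.cast_mul]

lemma anti_lin {φ : X.E} (b : φ * X.π = -(X.π * φ)) (x y : ℤ) :
    φ * ((x : X.E) + (y : ℤ) * X.π) = ((x : X.E) + (-y : ℤ) * X.π) * φ := by
  rw [mul_add, add_mul, (Int.cast_commute x φ).eq, ← (Int.cast_commute y φ).left_comm, b,
    Int.cast_neg, neg_mul, neg_mul, mul_neg, mul_assoc]

variable (hL : X.Lift) (hR : X.Rat)
include hL hR

lemma dz_hz {θ : X.E} (a : X.St θ) {x : ℤ_[p]} (hx : Dz 0 x) : Dz 0 (X.hz θ x) := by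
  obtain ⟨-, h, -⟩ := hL.lf θ _ a.1 (X.dk_io.2 hx)
  rw [← X.dk_io, hR θ x a hx]
  exact h

lemma hz_mul {θ θ' : X.E} (a : X.St θ) (b : X.St θ') {x : ℤ_[p]} (hx : Dz 0 x) :
    X.hz (θ * θ') x = X.hz θ (X.hz θ' x) := X.io_inj (by
  rw [hR _ x (a.mul b) hx, hR _ _ a (dz_hz hL hR b hx), hR _ x b hx,
    hL.mul _ _ _ a.1 b.1 (X.dk_io.2 hx)])

lemma hz_int {n : ℤ} (h : ¬(p : ℤ) ∣ n) {x : ℤ_[p]} (hx : Dz 0 x) : X.hz n x = x :=
  X.io_inj (by rw [hR _ x (st_int h) hx, hL.int n _ h (X.dk_io.2 hx)])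

lemma hz_pow {θ : X.E} (a : X.St θ) {x : ℤ_[p]} (hx : Dz 0 x) (n : ℕ) :
    X.hz (θ ^ n) x = (X.hz θ)^[n] x := by
  induction n with
  | zero => simpa using hz_int hL hR (n := 1) pp.not_dvd_one hx
  | succ n ih => rw [pow_succ', hz_mul hL hR a (a.pow n) hx, ih, Function.iterate_succ_apply']

lemma hz_inv {φ : X.E} {l : ℕ} (h : ¬p ∣ l) (a : φ * φ = -(l : X.E)) (b : X.St φ) (x : ℤ_[p])
    (hx : Dz 0 x) : X.hz φ (X.hz φ x) = x := by
  rw [← hz_mul hL hR b b hx, a, ← Int.cast_natCast, ← Int.cast_neg]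
  exact hz_int hL hR (n := -l) (by rwa [dvd_neg, Int.natCast_dvd_natCast]) hx

lemma refl (hT : X.Tayz) (hS : X.Sepz) (ref : REF) {φ φ' : X.E} {l l' : ℕ} {t : ℤ} (h : ¬p ∣ l)
    (h' : ¬p ∣ l') (a : φ * φ = -(l : X.E)) (a' : φ' * φ' = -(l' : X.E)) (b : X.St φ)
    (b' : X.St φ') (e : φ * φ' + φ' * φ = t) (t1 : ¬(p : ℤ) ∣ t)
    (t2 : ¬(p : ℤ) ^ 2 ∣ t ^ 2 - 4 * l * l') :
    Tz 0 (X.hz φ) (-1) ∧ ∃ c, Dz 0 c ∧ X.hz φ c = c := by
  have p2 : p ≠ 2 := by have := X.five; omega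
  obtain ⟨e1, T⟩ := hT φ b
  obtain ⟨e2, T'⟩ := hT φ' b'
  refine (ref p _ _ _ p2 T (hz_inv hL hR h a b)).resolve_left fun i => ?_
  obtain ⟨c, c1, c2⟩ : ∃ c, Dz 0 c ∧ X.hz φ' c = c := by
    rcases ref p _ _ _ p2 T' (hz_inv hL hR h' a' b') with i' | ⟨-, i'⟩
    · have : Dz (0 : ℤ_[p]) 0 := by simp [Dz]
      exact ⟨_, this, i' _ this⟩
    · exact i'
  exact hS φ φ' l l' t c b b' a a' e t1 t2 c1 (i c c1) (by simp [c2])

theorem side (hT : X.Tayz) (hS : X.Sepz) (hA : X.Fixa) (hB : X.Fixb) (hI : X.Inj) (cz : COMPZ) (ref : REF)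
    (dyn : DYN) (sym : SYMZ) (pair : PAIR) (ss : X.SS) {φ : X.E} {l r : ℕ} {x y : ℤ}
    (hl : l.Prime) (l4 : l % 4 = 3) (hr : r.Prime) (pr : p < r) (rl : r < l)
    (er : (r : ℤ) = x ^ 2 + p * y ^ 2) (hx : ¬(p : ℤ) ∣ x) (hy : ¬(p : ℤ) ∣ y)
    (a : φ * φ = -(l : X.E)) (b : φ * X.π = -(X.π * φ)) {g g' : ℚ[X]} (g0 : aeval (1728 : ℚ) g ≠ 0)
    (hg : ∀ x, Dz 0 x →
      (pv g' x = 0 ↔ pv g (X.Jz x) = 0) ∧ (pv g' x).valuation = (pv g (X.Jz x)).valuation)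
    (hP : ∀ i, Par p g (l * (r ^ i) ^ 2) (X.T2 φ)) :
    Tz 0 (X.hz φ) (-1) ∧ Iv 0 g' (X.hz φ) ∧ ∃ c, Dz 0 c ∧ X.hz φ c = c ∧ pv g' c ≠ 0 ∧
      Even (padicValRat p (aeval (1728 : ℚ) g) + (pv g' c).valuation) := by
  classical
  have hp : p.Prime := Fact.out
  have h5 := X.five
  have pl : ¬p ∣ l := fun h => by have := (Nat.prime_dvd_prime_iff_eq hp hl).1 h; omega
  have pr' : ¬p ∣ r := fun h => by have := (Nat.prime_dvd_prime_iff_eq hp hr).1 h; omega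
  have pl' : ¬(p : ℤ) ∣ l := mt Int.natCast_dvd_natCast.1 pl
  have p2 : ¬(p : ℤ) ∣ 2 := fun h => by have := Int.le_of_dvd two_pos h; omega
  have st := (st_anti pl a b).2
  have sa := ss.st_lin hx y
  have sb := ss.st_lin hx (-y)
  have e1 := anti_lin b x y
  have e2 := ss.lin x y
  have e3 := ss.lin x (-y)
  rw [neg_neg, neg_sq] at e3
  rw [← er] at e2 e3
  have e4 : (x : X.E) + y * X.π + (x + (-y : ℤ) * X.π) = (2 * x : ℤ) := by
    push_cast; rw [neg_mul, two_mul]; abel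
  have hB' := fun i c z => hB φ l r i x y c z ss hl l4 (fun e => pl (e ▸ dvd_rfl)) hr (by omega)
    (by omega) (by omega) er a b
  have k1 : ∀ η : ℤ, η ^ 2 = 1 → (x : X.E) + (η * y : ℤ) * X.π = x + y * X.π ∨
      (x : X.E) + (η * y : ℤ) * X.π = x + (-y : ℤ) * X.π := fun η h => by
    rcases sq_eq_one_iff.1 h with rfl | rfl <;> simp
  have k2 : (x : X.E) + ((1 : ℤ) * y : ℤ) * X.π = x + y * X.π := by simp
  have k3 : (x : X.E) + ((-1 : ℤ) * y : ℤ) * X.π = x + (-y : ℤ) * X.π := by simp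
  have ca := lin_comm (X := X) x y
  have cb := lin_comm (X := X) x (-y)
  generalize (x : X.E) + y * X.π = α at *
  generalize (x : X.E) + (-y : ℤ) * X.π = β at *
  have a' : α * φ * (α * φ) = -((r * l : ℕ) : X.E) := by
    rw [mul_assoc, ← mul_assoc φ, e1, mul_assoc, ← mul_assoc, e2, a]; simp
  have et : φ * (α * φ) + α * φ * φ = (-(2 * x * l) : ℤ) := by
    rw [← mul_assoc, e1, mul_assoc, mul_assoc, ← add_mul, add_comm, e4, a]; simp
  have t1 : ¬(p : ℤ) ∣ -(2 * x * l) := fun h =>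
    (pp.dvd_or_dvd (dvd_neg.1 h)).elim (fun h => (pp.dvd_or_dvd h).elim p2 hx) pl'
  have t2 : ¬(p : ℤ) ^ 2 ∣ (-(2 * x * l)) ^ 2 - 4 * l * (r * l : ℕ) := fun ⟨k, hk⟩ => by
    have : (p : ℤ) ∣ (2 * l * y) ^ 2 := ⟨-k, mul_left_cancel₀ (pp (p := p)).ne_zero (by
      push_cast at hk; linear_combination -hk - 4 * l ^ 2 * er)⟩
    exact (pp.dvd_or_dvd (pp.dvd_of_dvd_pow this)).elim
      (fun h => (pp.dvd_or_dvd h).elim p2 pl') hy
  have prl : ¬p ∣ r * l := fun h => (hp.dvd_mul.1 h).elim pr' pl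
  obtain ⟨T, c, c1, c2⟩ := refl hL hR hT hS ref pl prl a a' st (sa.mul st) et t1 t2
  obtain ⟨T', -⟩ := refl hL hR hT hS ref prl pl a' a (sa.mul st) st ((add_comm _ _).trans et) t1
    (by convert t2 using 2; ring)
  have eH : ∀ z, Dz 0 z → X.hz α z = X.hz (α * φ) (X.hz φ z) := fun z hz => by
    rw [hz_mul hL hR sa st (dz_hz hL hR st hz), hz_inv hL hR pl a st z hz]
  have TH : Tz 0 (X.hz α) 1 := by simpa using cz.comp p _ _ _ _ _ _ T T' eH
  have D := dyn p _ c _ h5 TH c1 (by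
    rw [eH c c1, c2]; exact hS φ _ l _ _ c st (sa.mul st) a a' et t1 t2 c1 c2)
  have du : ∀ n, Dz 0 ((X.hz α)^[n] c) := fun n => by
    rw [← hz_pow hL hR sa c1]; exact dz_hz hL hR (sa.pow n) c1
  have eu : ∀ n, X.hz (β ^ n) c = X.hz φ ((X.hz α)^[n] c) := fun n => by
    rw [← hz_pow hL hR sa c1, ← hz_mul hL hR st (sa.pow n) c1, (SemiconjBy.pow_right e1 n).eq,
      hz_mul hL hR (sb.pow n) st c1, c2]
  have hu : Function.Injective fun n => (X.hz α)^[n] c := by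
    refine fun n m e => ?_
    wlog h : n ≤ m generalizing n m
    · exact (this m n e.symm (by omega)).symm
    obtain ⟨k, rfl⟩ := Nat.exists_eq_add_of_le' h
    have := (D _ (du n)).2 k (by rw [← Function.iterate_add_apply]; exact e.symm)
    omega
  have key := par_step2 (fun n => (X.hz α)^[n] c) (fun n => X.hz φ ((X.hz α)^[n] c))
    (fun z => (pv g' z).valuation) (padicValRat p (aeval (1728 : ℚ) g)) hu (fun n m e => hu (by
      have := congrArg (X.hz φ) e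
      rwa [hz_inv hL hR pl a st _ (du n), hz_inv hL hR pl a st _ (du m)] at this))
    (fun n m e => by
      have e' := congrArg (X.hz α)^[m] e
      rw [← eu, ← Function.iterate_add_apply, ← hz_pow hL hR sa (dz_hz hL hR (sb.pow m) c1),
        ← hz_mul hL hR (sa.pow m) (sb.pow m) c1, ← (show Commute α β from e2.trans e3.symm).mul_pow,
        e2, ← Int.cast_pow, hz_int hL hR (fun h => pr' (Int.natCast_dvd_natCast.1
          (pp.dvd_of_dvd_pow h))) c1] at e'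
      have := (D c c1).2 _ e'
      omega) c2
  have na : NE α = r := mul_right_cancel₀ (Int.natCast_ne_zero.2 hl.ne_zero) (by
    have : NE (α * φ) = (r * l : ℕ) :=
      X.cr.norm_of_sq (Int.natCast_nonneg _) (by rwa [Int.cast_natCast])
    rwa [X.cr.mul, (st_anti pl a b).1, Nat.cast_mul] at this)
  have nb : NE β = r := mul_left_cancel₀ (Int.natCast_ne_zero.2 hr.ne_zero) (by
    rw [← sq, ← X.cr.int, ← e2, X.cr.mul, na])
  have fm : ∀ i, ∀ z ∈ (range (i + 1)).image (fun n => (X.hz α)^[n] c) ∪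
      (range (i + 1)).image (fun n => X.hz φ ((X.hz α)^[n] c)), Dz 0 z ∧ ∃ (θ : X.E) (n : ℕ),
      θ * X.π = X.π * θ ∧ NE θ = (r ^ n : ℕ) ∧ z = X.hz θ c := fun i z hz => by
    simp only [mem_union, mem_image] at hz
    rcases hz with ⟨n, -, rfl⟩ | ⟨n, -, rfl⟩
    · exact ⟨du n, _, n, ca.pow_left n, ne_pow na n, (hz_pow hL hR sa c1 n).symm⟩
    · exact ⟨dz_hz hL hR st (du n), _, n, cb.pow_left n, ne_pow nb n, (eu n).symm⟩
  have hpair : ∀ i, (∀ z ∈ (range (i + 1)).image (fun n => (X.hz α)^[n] c) ∪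
      (range (i + 1)).image (fun n => X.hz φ ((X.hz α)^[n] c)), pv g' z ≠ 0) ∧
      Even (padicValRat p (aeval (1728 : ℚ) g) + ∑ z ∈ (range (i + 1)).image
        (fun n => (X.hz α)^[n] c) ∪ (range (i + 1)).image (fun n => X.hz φ ((X.hz α)^[n] c)),
          (pv g' z).valuation) := fun i => by
    obtain ⟨Z, w, z1, z2, w0, w1, w2⟩ := hP i
    obtain ⟨s, hs⟩ := IsAlgClosed.exists_pow_nat_eq (-((l * (r ^ i) ^ 2 : ℕ) : ℂ)) two_pos
    have n0 : ¬p ∣ l * (r ^ i) ^ 2 := fun h =>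
      (hp.dvd_mul.1 h).elim pl fun h => pr' (hp.dvd_of_dvd_pow (hp.dvd_of_dvd_pow h))
    have cm : Commute ((r : X.E) ^ i) φ := (Nat.cast_commute r φ).pow_left i
    have f1 : (r : X.E) ^ i * φ * ((r : X.E) ^ i * φ) = -((l * (r ^ i) ^ 2 : ℕ) : X.E) := by
      rw [← cm.mul_mul_mul_comm, a, mul_comm l]; simp [sq]
    have f2 : (r : X.E) ^ i * φ * X.π = -(X.π * ((r : X.E) ^ i * φ)) := by
      rw [mul_assoc, b, mul_neg, ((Nat.cast_commute r X.π).pow_left i).left_comm]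
    have f3 : X.hz ((r : X.E) ^ i * φ) c = c := by
      have : ¬(p : ℤ) ∣ (r : ℤ) ^ i := fun h => pr' (Int.natCast_dvd_natCast.1 (pp.dvd_of_dvd_pow h))
      rw [← Int.cast_natCast, ← Int.cast_pow, hz_mul hL hR (st_int this) st c1, c2,
        hz_int hL hR this c1]
    obtain ⟨f4, f5⟩ := st_anti n0 f1 f2
    have f6 := nonres X.good X.three p X.hA X.hB f2 f5.1
    rw [f4, Int.cast_neg, Int.cast_natCast] at f6
    have := pair p X.O X.ι _ s g Z (((range (i + 1)).image (fun n => (X.hz α)^[n] c) ∪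
      (range (i + 1)).image (fun n => X.hz φ ((X.hz α)^[n] c))).image X.Jz) w X.pad f6 hs z2
      (fun t ht => hA _ _ c _ s t ss ((hl.odd_of_ne_two (by omega)).mul
        (hr.odd_of_ne_two (by omega)).pow.pow) n0 f1 f2 c1 f3 hs ((z1 t).1 ht)) (fun z => ?_) w0 w1
    · refine ⟨fun z hz e => this.1 _ (mem_image_of_mem _ hz) ((hg z (fm i z hz).1).1.1 e), ?_⟩
      rw [padicValRat.mul w0 g0, Int.even_iff] at w2
      have := Int.even_iff.1 this.2
      rw [sum_image fun z hz z' hz' e => ?_] at this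
      · rw [Int.even_iff, sum_congr rfl fun z hz => (hg z (fm i z hz).1).2]
        omega
      obtain ⟨-, θ, n, t1, t2, rfl⟩ := fm i z hz
      obtain ⟨-, θ', n', t1', t2', rfl⟩ := fm i z' hz'
      refine hI φ θ θ' l _ _ c ss pl (mt hp.dvd_of_dvd_pow pr') (mt hp.dvd_of_dvd_pow pr') a b c1 c2
        t1 t1' t2 t2' (fun ⟨k, hk⟩ => ?_) e
      have := Fact.mk hl
      have k0 : k ≠ 0 := by rintro rfl; simp [hl.ne_zero, hr.ne_zero] at hk
      have := congrArg (padicValNat l) hk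
      rw [← pow_add, padicValNat.mul hl.ne_zero (pow_ne_zero _ hr.ne_zero), padicValNat.mul k0 k0,
        padicValNat_self, padicValNat.eq_zero_of_not_dvd fun h =>
          rl.ne' ((Nat.prime_dvd_prime_iff_eq hl hr).1 (hl.dvd_of_dvd_pow h))] at this
      omega
    rw [z1, hB' i c z c1 c2]
    simp only [mem_union, mem_image, mem_range, Nat.lt_succ_iff]
    constructor
    · rintro ⟨η, n, h1, h2, rfl⟩
      rcases k1 η h1 with e | e <;> rw [e]
      · exact ⟨_, ⟨_, Or.inl ⟨n, h2, rfl⟩, rfl⟩, by rw [hz_pow hL hR sa c1]⟩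
      · exact ⟨_, ⟨_, Or.inr ⟨n, h2, rfl⟩, rfl⟩, by rw [eu]⟩
    · rintro ⟨_, ⟨_, ⟨n, h, rfl⟩ | ⟨n, h, rfl⟩, rfl⟩, rfl⟩
      · exact ⟨1, n, rfl, h, by rw [k2, hz_pow hL hR sa c1]⟩
      · exact ⟨-1, n, rfl, h, by rw [k3, eu]⟩
  obtain ⟨q1, q2⟩ := key fun i => (hpair i).2
  exact ⟨T, sym p _ c _ _ _ _ g' T TH c1 (D c c1).1 q2, c, c1, c2, (hpair 0).1 c (by simp), q1⟩

end Fam

end Pool.Agent.MP_c481b3_nt.H79
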