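import Pool.Agent.MP_c481b3_nt.H31F.Spec2

/-! Statements about the oriented modular polynomials. -/

set_option autoImplicit false

namespace Pool.Agent.MP_c481b3_nt.H79

open UpperHalfPlane hiding I
open Polynomial Pool.Agent.MP_c481b3_nt.H31F

/-- the value of an integer polynomial in two variables; `x` is the outer variable -/
noncomputable def ev2 {R : Type} [CommRing R] (Φ : ℤ[X][X]) (x y : R) : R :=
  (Φ.map (eval₂RingHom (Int.castRingHom R) y)).eval x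

section ev2
variable {R S : Type} [CommRing R] [CommRing S]

/-- `ev2` as a ring homomorphism in the polynomial -/
noncomputable def ev2h (x y : R) : ℤ[X][X] →+* R :=
  (evalRingHom x).comp (mapRingHom (eval₂RingHom (Int.castRingHom R) y))

lemma ev2h_apply (Φ : ℤ[X][X]) (x y : R) : ev2h x y Φ = ev2 Φ x y := rfl

@[simp] lemma ev2_X (x y : R) : ev2 X x y = x := by simp [ev2]

@[simp] lemma ev2_CX (x y : R) : ev2 (C X) x y = y := by simp [ev2]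

lemma map_ev2 (f : R →+* S) (Φ : ℤ[X][X]) (x y : R) : f (ev2 Φ x y) = ev2 Φ (f x) (f y) := by
  have : f.comp (ev2h x y) = ev2h (f x) (f y) := by
    refine Polynomial.ringHom_ext' (Polynomial.ringHom_ext' (RingHom.ext_int _ _) ?_) ?_ <;>
      simp [ev2h_apply]
  exact congrArg (· Φ) this

/-- substitution of polynomials -/
lemma ev2_ev2 (Φ u v : ℤ[X][X]) (x y : R) :
    ev2 (ev2 Φ u v) x y = ev2 Φ (ev2 u x y) (ev2 v x y) := map_ev2 (ev2h x y) Φ u v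

/-- an identity that holds on an infinite field holds in every ring of that characteristic -/
lemma ev2_zero (k : Type) [Field k] [Infinite k] (n : ℕ) [CharP k n] {Φ : ℤ[X][X]}
    (h : ∀ x y : k, ev2 Φ x y = 0) (hn : (n : R) = 0) (x y : R) : ev2 Φ x y = 0 := by
  have h1 : ∀ i j, (n : ℤ) ∣ (Φ.coeff i).coeff j := fun i j => by
    have h2 : (Φ.coeff i).map (Int.castRingHom k) = 0 := Polynomial.funext fun y => by
      have h3 : Φ.map (eval₂RingHom (Int.castRingHom k) y) = 0 :=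
        Polynomial.funext fun x => by simpa [ev2] using h x y
      simpa [eval_map] using congrArg (coeff · i) h3
    rw [← CharP.intCast_eq_zero_iff k n]
    simpa using congrArg (coeff · j) h2
  obtain ⟨Ψ, rfl⟩ : C (C (n : ℤ)) ∣ Φ :=
    (C_dvd_iff_dvd_coeff _ _).2 fun i => (C_dvd_iff_dvd_coeff _ _).2 (h1 i)
  rw [← ev2h_apply, map_mul]
  simp [hn]

end ev2

/-- the modular polynomial of the function `YY` -/
def IsPhi (m : ℕ) (Φ : ℤ[X][X]) : Prop :=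
  ∀ (τ : ℍ) (x : ℂ), ev2 Φ x (YY τ) = ∏ M ∈ Hk 2 m, (x - YY (act M τ))

/-- existence, and the behaviour under a change of both signs -/
def PHI2 : Prop := ∀ m : ℕ, Odd m → ∃ Φ, IsPhi m Φ ∧
  ∀ x y : ℂ, ev2 Φ (-x) (-y) = (-1) ^ (Hk 2 m).card * ev2 Φ x y

/-- symmetry -/
def SYM : Prop := ∀ (m : ℕ) (Φ : ℤ[X][X]), Odd m → IsPhi m Φ →
  ∃ c : ℤ, c ^ 2 = 1 ∧ ∀ x y : ℂ, ev2 Φ x y = c * ev2 Φ y x

/-- the congruence of Kronecker in prime degree -/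
def KRP : Prop := ∀ (l : ℕ) (Φ : ℤ[X][X]), l.Prime → l ≠ 2 → IsPhi l Φ →
  ∀ (R : Type) [CommRing R], (l : R) = 0 → ∀ x y : R, ev2 Φ x y = (x - y ^ l) * (x ^ l - y)

/-- the triangular matrices of determinant `l m` -/
def HKM : Prop := ∀ (l m : ℕ) (f : ℍ → ℂ), l.Prime → l ≠ 2 → Odd m → ¬l ∣ m →
  (∀ (b : ℤ) (τ : ℍ), f (act !![1, 2 * b; 0, 1] τ) = f τ) → ∀ τ : ℍ,
    ∏ M ∈ Hk 2 (l * m), f (act M τ) = ∏ M ∈ Hk 2 m, ∏ H ∈ Hk 2 l, f (act H (act M τ))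

/-- the congruence of Kronecker in composite degree -/
def KRC : Prop := ∀ (l m : ℕ) (Φ Φ' : ℤ[X][X]), l.Prime → l ≠ 2 → Odd m → ¬l ∣ m → IsPhi m Φ →
  IsPhi (l * m) Φ' → ∀ (R : Type) [CommRing R] [CharP R l] (x y : R),
    ev2 Φ' x y = ev2 Φ x (y ^ l) * ev2 Φ (x ^ l) y

/-- the diagonal polynomial is primitive -/
def NZ : Prop := ∀ (n q : ℕ) (Φ : ℤ[X][X]) (e : ℤ), Odd n → ¬IsSquare n → IsPhi n Φ → e ^ 2 = 1 →
  q.Prime → ev2 Φ ((e : (ZMod q)[X]) * X) X ≠ 0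

/-- the oriented diagonal polynomial -/
def IsPsi (n : ℕ) (e : ℤ) (Ψ : ℤ[X]) : Prop :=
  ∀ τ : ℍ, aeval (JJ τ) Ψ = ∏ M ∈ Hk 2 n, (e * YY τ - YY (act M τ))

/-- the diagonal polynomial is `X - 1728` times a square modulo `l` -/
def KRON : Prop := ∀ (l r i : ℕ) (e : ℤ), l.Prime → l ≠ 2 → r.Prime → r ≠ 2 → l ≠ r → e ^ 2 = 1 →
  ∃ Ψ : ℤ[X], IsPsi (l * (r ^ i) ^ 2) e Ψ ∧
    (∀ q : ℕ, q.Prime → Ψ.map (Int.castRingHom (ZMod q)) ≠ 0) ∧
    ∃ (c : ℤ) (S : (ZMod l)[X]), c ^ 2 = 1 ∧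
      (C c * (X - 1728) * Ψ).map (Int.castRingHom (ZMod l)) = S ^ 2

/-- the function `YY` takes a value other than zero to an odd order -/
def ORDY : Prop := ∀ τ : ℍ, YY τ ≠ 0 → ∃ e : ℕ, Odd e ∧
  analyticOrderAt (fun z : ℂ => YY (ofComplex z) - YY τ) τ = e

/-- no extra automorphisms -/
def NOAUT : Prop := ∀ (l m : ℕ) (τ : ℍ) (Λ : M2), l.Prime → l % 12 = 11 → ¬l ∣ m →
  Λ.det = (l * m ^ 2 : ℕ) → act Λ τ = τ →
  YY τ ≠ 0 ∧ ∀ γ : M2, γ.det = 1 → act γ τ = τ → γ = 1 ∨ γ = -1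

/-- `t` is the invariant of a fixed point of a matrix of trace zero and sign `e` -/
def An (n : ℕ) (e : ℤ) (t : ℂ) : Prop :=
  ∃ (τ : ℍ) (Q : M2), JJ τ = t ∧ Q.det = n ∧ Q.trace = 0 ∧ act Q τ = τ ∧ eps Q = e

/-- the roots of odd multiplicity -/
def MULT : Prop := ∀ (l m : ℕ) (e : ℤ) (Ψ : ℤ[X]), l.Prime → l % 12 = 11 → Odd m → ¬l ∣ m →
  e ^ 2 = 1 → IsPsi (l * m ^ 2) e Ψ → Ψ ≠ 0 → ∀ t : ℂ,
    (Odd ((Ψ.map (Int.castRingHom ℂ)).rootMultiplicity t) ↔ An (l * m ^ 2) e t)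

end Pool.Agent.MP_c481b3_nt.H79
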