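import Pool.Agent.MP_c481b3_nt.H79.SpecA
import Pool.Agent.MP_c481b3_nt.H31F.SpecC

/-! Statements about curves with complex multiplication and about quaternion orders. -/

set_option autoImplicit false

namespace Pool.Agent.MP_c481b3_nt.H79

open Pool.Agent.MP_c481b3_nt.H81 Pool.Agent.MP_c481b3_nt.H28

/-! ## lattices -/

/-- coefficient `A` of the curve of a lattice -/
noncomputable abbrev gA (L : PeriodPair) : ℂ := -L.g₂ / 4

/-- coefficient `B` of the curve of a lattice -/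
noncomputable abbrev gB (L : PeriodPair) : ℂ := -L.g₃ / 4

/-- the uniformization, as in `H31F.U2` -/
def Un (L : PeriodPair) (φ : ℂ →+ Pt (gA L) (gB L)) : Prop := (∀ z, φ z = 0 ↔ z ∈ L.lattice) ∧
  ∀ z, z ∉ L.lattice → xc (φ z) = L.weierstrassP z ∧ yc (φ z) = L.derivWeierstrassP z / 2

/-- an inclusion of lattices gives an isogeny -/
def UA : Prop := ∀ (L L' : PeriodPair) (φ : ℂ →+ Pt (gA L) (gB L)) (u : ℂ), Good (gA L) (gB L) →
  Good (gA L') (gB L') → Un L φ → u ≠ 0 → (∀ z ∈ L.lattice, u * z ∈ L'.lattice) →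
  ∃ C : Finset (Pt (gA L) (gB L)), VD C u (gA L') (gB L') ∧
    ∀ P, P ∈ C ↔ ∃ z, u * z ∈ L'.lattice ∧ φ z = P

/-- an isogeny gives an inclusion of lattices -/
def UB : Prop := ∀ (L L' : PeriodPair) (C : Finset (Pt (gA L) (gB L))) (u : ℂ),
  VD C u (gA L') (gB L') → ∀ z ∈ L.lattice, u * z ∈ L'.lattice

/-- `χ` is an endomorphism of degree `n` that multiplies the differential by `u = √(-n)` -/
def Cx {A B : ℂ} (n : ℕ) (u : ℂ) (χ : Pt A B →+ Pt A B) : Prop :=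
  ∃ C, VD C u A B ∧ C.card = n ∧ u ^ 2 = -n ∧ ∀ P, χ P = vm C u A B P

/-- `t` is the invariant of a curve with an endomorphism of square `-n`; `ε` says whether the
endomorphism fixes the points of order two -/
def Cm (n : ℕ) (ε : Prop) (t : ℂ) : Prop := ∃ (A B u : ℂ) (χ : Pt A B →+ Pt A B),
  Cx n u χ ∧ jj A B = t ∧ (ε ↔ ∀ P, 2 • P = 0 → χ P = P)

/-- the analytic and the algebraic description agree -/
def BRA : Prop := ∀ (n : ℕ) (e : ℤ) (t : ℂ), Odd n → e ^ 2 = 1 → (An n e t ↔ Cm n (e = 1) t)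

/-- two curves with the same multiplier are related by an isogeny that respects it -/
def ISO : Prop := ∀ (n : ℕ) (A B A' B' u : ℂ) (χ : Pt A B →+ Pt A B) (χ' : Pt A' B' →+ Pt A' B'),
  Odd n → Cx n u χ → Cx n u χ' → ∃ (D : Finset (Pt A B)) (v : ℂ), VD D v A' B' ∧
    ∀ P, vm D v A' B' (χ P) = χ' (vm D v A' B' P)

/-- the quotient by `C` has invariant `t`, inherits `χ`, and has type `ε` -/
structure Quo {A B : ℂ} (χ : Pt A B →+ Pt A B) (ε : Prop) (t : ℂ) (C : Finset (Pt A B)) :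
    Prop where
  quo : ∃ u A' B', VD C u A' B' ∧ jj A' B' = t
  st : ∀ P ∈ C, χ P ∈ C
  ty : ε ↔ ∀ P, 2 • P ∈ C → χ P - P ∈ C

/-- every curve with the same multiplier is a quotient -/
def QUO : Prop := ∀ (n : ℕ) (A B u t : ℂ) (χ : Pt A B →+ Pt A B) (ε : Prop), Odd n → Cx n u χ →
  Cm n ε t → ∃ C, Quo χ ε t C

/-- transport along an endomorphism that commutes with `χ` -/
def MOVE : Prop := ∀ (A B v t : ℂ) (χ : Pt A B →+ Pt A B) (ε : Prop) (D H : Finset (Pt A B)),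
  VD D v A B → (∀ P, χ (vm D v A B P) = vm D v A B (χ P)) → IsSub H → D ⊆ H →
  (Quo χ ε t H ↔ Quo χ ε t (H.image (vm D v A B)))

/-- removal of the part of order a power of an inert prime -/
def PREM : Prop := ∀ (n p : ℕ) (A B u t : ℂ) (χ : Pt A B →+ Pt A B) (ε : Prop)
  (C : Finset (Pt A B)), p.Prime → ¬IsSquare (-(n : ZMod p)) → Cx n u χ → Quo χ ε t C →
  ∃ k : ℕ, Quo χ ε t (C.image (p ^ k • ·)) ∧ ¬p ∣ (C.image (p ^ k • ·)).card

/-- a rational quotient is the quotient by a rational subgroup -/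
def H90 : Prop := ∀ (n : ℕ) (A B u t : ℂ) (χ : Pt A B →+ Pt A B) (ε : Prop) (C : Finset (Pt A B))
  (σ : ℂ →+* ℂ) (hA : σ A = A) (hB : σ B = B) (hG : Good A B), σ u = -u → σ t = t → Cx n u χ →
  Quo χ ε t C → ∃ C', Quo χ ε t C' ∧ ∀ P ∈ C', (Sc.ofHom σ hA hB hG).map P ∈ C'

/-! ## quaternion orders -/

/-- the finite subgroups that are stable under `π` and `r ^ i φ` -/
def CLS : Prop := ∀ (G R : Type) [AddCommGroup G] [Ring R] [Module R G] (N : R → ℤ),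
  CompRing R N → ∀ (p l r i : ℕ) (x y : ℤ) (π φ : R), p.Prime → p ≠ 2 → l.Prime → l % 4 = 3 →
  l ≠ p → r.Prime → r ≠ 2 → r ≠ p → r ≠ l → (r : ℤ) = x ^ 2 + p * y ^ 2 → π * π = -(p : R) →
  φ * φ = -(l : R) → φ * π = -(π * φ) →
  (∀ θ : R, ¬(p : ℤ) ∣ N θ →
    (Nat.card {P : G // θ • P = 0} : ℤ) = N θ ∧ ∀ Q : G, ∃ P : G, θ • P = Q) →
  ∀ C : AddSubgroup G, Finite C → ¬p ∣ Nat.card C → (∀ P ∈ C, π • P ∈ C) →
  (∀ P ∈ C, ((r : R) ^ i * φ) • P ∈ C) →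
  ((∀ P : G, 2 • P ∈ C → ((r : R) ^ i * φ) • P - P ∈ C) ↔
    ∀ P : G, 2 • P = 0 → ((r : R) ^ i * φ) • P = P) →
  ∃ (m η : ℤ) (e b : ℕ), ¬(p : ℤ) ∣ m ∧ η ^ 2 = 1 ∧ b ≤ i ∧
    ∀ P : G, P ∈ C ↔ (((x : R) + (η * y : ℤ) * π) ^ b * (m * φ ^ e)) • P = 0

/-- an anticommuting element of odd norm -/
def ODD : Prop := ∀ (G R : Type) [AddCommGroup G] [Ring R] [Module R G] (N : R → ℤ),
  CompRing R N → ∀ (p : ℕ) (π : R), p.Prime → p ≠ 2 → π * π = -(p : R) →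
  (∀ n : ℕ, n = 2 ∨ n = 4 → Nat.card {P : G // n • P = 0} = n ^ 2 ∧
    ∀ θ : R, (∀ P : G, n • P = 0 → θ • P = 0) → ∃ ψ, θ = n * ψ) →
  (∃ φ, φ ≠ 0 ∧ φ * π = -(π * φ)) → ∃ φ, φ * π = -(π * φ) ∧ Odd (N φ)

/-- an anticommuting element of large prime norm `l`, with the small primes split in `ℚ(√-l)` -/
structure Sd {R : Type} [Ring R] (N : R → ℤ) (p : ℕ) (π : R) (M l : ℕ) (φ : R) : Prop where
  prime : l.Prime
  big : M < l
  mod8 : l % 8 = 7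
  res : ∀ q : ℕ, q.Prime → q ≤ M → q ≠ 2 → q ≠ p → jacobiSym (-(l : ℤ)) q = 1
  nonres : jacobiSym (-(l : ℤ)) p = -1
  anti : φ * π = -(π * φ)
  norm : N φ = l

/-- two such elements in general position -/
def SALG : Prop := ∀ (R : Type) [Ring R] (N : R → ℤ), CompRing R N → ∀ (p : ℕ) (π : R), p.Prime →
  p ≠ 2 → π * π = -(p : R) → (∃ φ, φ * π = -(π * φ) ∧ ¬(p : ℤ) ∣ N φ) →
  (∃ φ, φ * π = -(π * φ) ∧ Odd (N φ)) →
  (∀ φ, φ * π = -(π * φ) → ¬(p : ℤ) ∣ N φ → ¬IsSquare ((-N φ : ℤ) : ZMod p)) →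
  (∀ (r : ℕ) (φ : R), r.Prime → r ≠ p → φ * π = -(π * φ) → (r : ℤ) ∣ N φ →
    (∃ ψ, φ = r * ψ) ∨ ∃ (m : ℤ) (ψ : R), (r : ℤ) ∣ m ^ 2 + p ∧ (π - m) * φ = r * ψ) →
  ∀ M : ℕ, ∃ (l l' : ℕ) (φ φ' : R) (t : ℤ), Sd N p π M l φ ∧ Sd N p π M l' φ' ∧
    φ * φ' + φ' * φ = t ∧ ¬(p : ℤ) ∣ t ∧ ¬(p : ℤ) ^ 2 ∣ t ^ 2 - 4 * l * l'

/-- a separable endomorphism that anticommutes with Frobenius -/
def SEP : Prop := ∀ (k : Type) [Field k] [DecidableEq k] [IsAlgClosed k] [DecidableEq (RatFunc k)]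
  [DecidableEq (LL k)] (A B : k) (hG : Good A B) (p : ℕ) [Fact p.Prime] [CharP k p]
  (hA : A ^ p ^ 1 = A) (hB : B ^ p ^ 1 = B), (3 : k) ≠ 0 →
  frE hG p 1 hA hB * frE hG p 1 hA hB = -(p : EE hG) →
  ∃ φ : EE hG, φ * frE hG p 1 hA hB = -(frE hG p 1 hA hB * φ) ∧ ¬(p : ℤ) ∣ NE φ

/-- `H28.ModSq` for degrees that need not be prime -/
def MSQ : Prop :=
  ∀ (L κ : Type) [Field L] [Field κ] [DecidableEq L] [DecidableEq κ] [IsAlgClosed L]
    [IsAlgClosed κ] [CharZero L] (π : Plc L κ) (A B : L) (A' B' : κ) (r : Rd π A B A' B')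
    (p l l' : ℕ) (t : ℤ), p.Prime → (p : κ) = 0 → Tm A' B' l → Tm A' B' l' →
    (t : κ) ≠ 0 → A' ≠ 0 → B' ≠ 0 →
    ∀ D ∈ subs A B l, ∀ D' ∈ subs A B l', ∀ u u' : κ,
    VD (D.image r.red) u A' B' → VD (D'.image r.red) u' A' B' → u ^ 2 = -l → u' ^ 2 = -l' →
    (∀ P, vm (D.image r.red) u A' B' (vm (D.image r.red) u A' B' P) = -(l • P)) →
    (∀ P, vm (D'.image r.red) u' A' B' (vm (D'.image r.red) u' A' B' P) = -(l' • P)) →
    (∀ P, vm (D.image r.red) u A' B' (vm (D'.image r.red) u' A' B' P)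
      + vm (D'.image r.red) u' A' B' (vm (D.image r.red) u A' B' P) = t • P) →
    ∀ w : L, π.O.valuation w < 1 → π.O.valuation (dl D) ≤ π.O.valuation w →
      π.O.valuation (dl D') ≤ π.O.valuation w →
      π.O.valuation ((t ^ 2 - 4 * l * l' : ℤ) : L) ≤ π.O.valuation w

end Pool.Agent.MP_c481b3_nt.H79
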