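import Pool.Agent.MP_c481b3_nt.H79.SpecP

/-! The global statements. -/

set_option autoImplicit false

namespace Pool.Agent.MP_c481b3_nt.H79

open Pool.Agent.MP_c481b3_nt.H81 Pool.Agent.MP_c481b3_nt.H28 Polynomial NumberField

/-- the supersingular primes -/
def SP {K : Type} [Field K] [NumberField K] (A B : 𝓞 K) : Set (Ideal (𝓞 K)) :=
  {P | P.IsMaximal ∧ (Wc A B).Δ ∉ P ∧ ∃ q : ℕ, q.Prime ∧ (q : 𝓞 K) ∈ P ∧ (q : ℤ) ∣ aP A B P}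

/-- a congruence with a singular modulus at a prime that does not split -/
def SSQ : Prop := ∀ (K : Type) [Field K] [NumberField K] (A B : 𝓞 K) (σ : K →+* ℂ)
  (O : ValuationSubring ℂ) (q n : ℕ) (ε : Prop) (t : ℂ), q.Prime → 5 ≤ q →
  O.valuation (q : ℂ) < 1 → Cm n ε t → O.valuation (t - jj (σ A) (σ B)) < 1 →
  (¬IsSquare (-(n : ZMod q)) ∨ ∃ m, n = q * m ∧ ¬q ∣ m ∧ Odd m) →
  (∀ P : Ideal (𝓞 K), P.IsMaximal → (q : 𝓞 K) ∈ P → (Wc A B).Δ ∉ P) →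
  ∃ P ∈ SP A B, (q : 𝓞 K) ∈ P

/-- quadratic reciprocity for a positive rational number -/
def REC : Prop := ∀ (l p : ℕ) (w u : ℚ), l.Prime → l % 8 = 7 → p.Prime →
  jacobiSym (-(l : ℤ)) p = -1 → 0 < w → padicNorm l w = 1 → padicNorm l (w - u ^ 2) < 1 →
  Odd (padicValRat p w) →
  ∃ q : ℕ, q.Prime ∧ q ≠ p ∧ jacobiSym (-(l : ℤ)) q = -1 ∧ padicValRat q w ≠ 0

/-- the product of the values of `F` at the complex roots of `g` -/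
noncomputable def Nr (g : ℚ[X]) (F : ℤ[X]) : ℂ := ((g.aroots ℂ).map fun ρ => aeval ρ F).prod

/-- for a polynomial without real roots this product is a nonnegative rational number -/
def NRM : Prop := ∀ g : ℚ[X], g.Monic → (∀ ρ ∈ g.aroots ℂ, ρ.im ≠ 0) → Even g.natDegree ∧
  ∀ F : ℤ[X], (∃ w : ℚ, 0 ≤ w ∧ (w : ℂ) = Nr g F) ∧
    Nr g F = (F.leadingCoeff : ℂ) ^ g.natDegree * ((F.aroots ℂ).map fun t => aeval t g).prod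

/-- the polynomial of the singular moduli of a given type -/
def POLY : Prop := ∀ (l r i : ℕ) (ε : Prop), l.Prime → l % 12 = 11 → r.Prime → r ≠ 2 → l ≠ r →
  ∃ F : ℤ[X], (∀ q : ℕ, q.Prime → F.map (Int.castRingHom (ZMod q)) ≠ 0) ∧
    (∃ (c : ℤ) (R Z : ℤ[X]), c ^ 2 = 1 ∧ C c * (X - 1728) * F = R ^ 2 + C (l : ℤ) * Z) ∧
    (F.aroots ℂ).Nodup ∧ ∀ t, t ∈ F.aroots ℂ ↔ Cm (l * (r ^ i) ^ 2) ε t

/-- the parity relation that holds when there are finitely many supersingular primes -/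
def Par (p : ℕ) (g : ℚ[X]) (n : ℕ) (ε : Prop) : Prop := ∃ (Z : Finset ℂ) (w : ℚ),
  (∀ t, t ∈ Z ↔ Cm n ε t) ∧ (∀ σ : ℂ ≃+* ℂ, ∀ t ∈ Z, σ t ∈ Z) ∧ w ≠ 0 ∧
    (w : ℂ) = ∏ t ∈ Z, aeval t g ∧ Even (padicValRat p (w * aeval (1728 : ℚ) g))

/-- the argument of Elkies -/
def GLOB : Prop := ∀ (K : Type) [Field K] [NumberField K] (A B : 𝓞 K) (p r : ℕ), (Wc A B).Δ ≠ 0 →
  (∀ τ : K →+* ℂ, (τ (jj (A : K) B)).im ≠ 0) → (SP A B).Finite → p.Prime → 5 ≤ p → r.Prime →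
  r ≠ 2 → ∃ M : ℕ, ∀ l : ℕ, l.Prime → M < l → l % 8 = 7 →
    (∀ q : ℕ, q.Prime → q ≤ M → q ≠ 2 → q ≠ p → jacobiSym (-(l : ℤ)) q = 1) →
    jacobiSym (-(l : ℤ)) p = -1 → ∀ (i : ℕ) (ε : Prop),
      Par p (minpoly ℚ (jj (A : K) B)) (l * (r ^ i) ^ 2) ε

/-- conjugate points contribute an even valuation -/
def PAIR : Prop := ∀ (p : ℕ) [Fact p.Prime] (O : ValuationSubring ℂ) (ι : ℚ_[p] →+* ℂ) (n : ℕ)
  (s : ℂ) (g : ℚ[X]) (Z : Finset ℂ) (S : Finset ℤ_[p]) (w : ℚ), Pad p O ι →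
  ¬IsSquare (-(n : ZMod p)) → s ^ 2 = -n → (∀ σ : ℂ ≃+* ℂ, ∀ t ∈ Z, σ t ∈ Z) →
  (∀ t ∈ Z, ∃ a b, t = ι a + ι b * s) → (∀ z : ℚ_[p], ι z ∈ Z ↔ ∃ x ∈ S, z = x) → w ≠ 0 →
  (w : ℂ) = ∏ t ∈ Z, aeval t g →
  (∀ x ∈ S, pv g x ≠ 0) ∧ Even (padicValRat p w + ∑ x ∈ S, (pv g x).valuation)

/-- an unramified prime of degree one gives an embedding in the `p`-adic numbers -/
def HEN1 : Prop := ∀ (K : Type) [Field K] [NumberField K] (p : ℕ) [Fact p.Prime]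
  (P : Ideal (𝓞 K)), Ideal.absNorm P = p → (p : 𝓞 K) ∉ P ^ 2 →
  ∃ ψ : K →+* ℚ_[p], ∀ x : 𝓞 K, ‖ψ x‖ ≤ 1 ∧ (‖ψ x‖ < 1 ↔ x ∈ P)

/-- the hypothesis of the main theorem -/
def Hyp (p : ℕ) (g : ℚ[X]) : Prop := ∃ a b t : ℤ, ¬(p : ℤ) ∣ a * b * (4 * a ^ 3 + 27 * b ^ 2) ∧
  Nat.card (Wc (a : ZMod p) b).toAffine.Point = p + 1 ∧
  (p : ℤ) ∣ t * (4 * a ^ 3 + 27 * b ^ 2) - 6912 * a ^ 3 ∧
  Odd (padicValRat p (aeval (t : ℚ) g * aeval (1728 : ℚ) g))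

/-- one supersingular prime of degree one gives the hypothesis -/
def HEN : Prop := ∀ (K : Type) [Field K] [NumberField K] (A B : 𝓞 K) (p : ℕ) (P : Ideal (𝓞 K)),
  p.Prime → 5 ≤ p → Ideal.absNorm P = p → (p : 𝓞 K) ∉ P ^ 2 → A * B * (Wc A B).Δ ∉ P →
  aP A B P = 0 → Hyp p (minpoly ℚ (jj (A : K) B))

end Pool.Agent.MP_c481b3_nt.H79
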