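import Pool.Agent.MP_c481b3_nt.H79.SpecG

/-! Statements about primes of odd degree. -/

set_option autoImplicit false

namespace Pool.Agent.MP_c481b3_nt.H79

open Pool.Agent.MP_c481b3_nt.H81 Pool.Agent.MP_c481b3_nt.H28 Polynomial NumberField
open scoped IntermediateField

/-- an even power of Frobenius on a supersingular curve is an integer -/
def SSF : Prop := ∀ (k : Type) [Field k] [DecidableEq k] [IsAlgClosed k] [DecidableEq (RatFunc k)]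
  [DecidableEq (LL k)] (A B : k) (hG : Good A B) (q n m : ℕ) [Fact q.Prime] [CharP k q]
  (hA : A ^ q ^ n = A) (hB : B ^ q ^ n = B), n = 2 * m → (3 : k) ≠ 0 → A ≠ 0 → B ≠ 0 →
  (∀ P : Pt A B, q • P = 0 → P = 0) →
  ∃ e : ℤ, e ^ 2 = 1 ∧ frE hG q n hA hB = ((e * q ^ m : ℤ) : EE hG)

/-- a maximal ideal of odd degree above `q` -/
structure Od {K : Type} [Field K] [NumberField K] (q : ℕ) (P : Ideal (𝓞 K)) : Prop where
  max : P.IsMaximal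
  mem : (q : 𝓞 K) ∈ P
  odd : Odd (padicValNat q (Ideal.absNorm P))

/-- at a supersingular prime of odd degree the trace vanishes -/
def TR0 : Prop := ∀ (K : Type) [Field K] [NumberField K] (A B : 𝓞 K) (q : ℕ) (P : Ideal (𝓞 K)),
  q.Prime → 5 ≤ q → Od q P → A * B * (Wc A B).Δ ∉ P → (q : ℤ) ∣ aP A B P → aP A B P = 0

/-- `SSQ` at a given prime -/
def SSQ2 : Prop := ∀ (K : Type) [Field K] [NumberField K] (A B : 𝓞 K) (σ : K →+* ℂ)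
  (O : ValuationSubring ℂ) (q n : ℕ) (ε : Prop) (t : ℂ) (P : Ideal (𝓞 K)), q.Prime → 5 ≤ q →
  O.valuation (q : ℂ) < 1 → Cm n ε t → O.valuation (t - jj (σ A) (σ B)) < 1 →
  (¬IsSquare (-(n : ZMod q)) ∨ ∃ m, n = q * m ∧ ¬q ∣ m ∧ Odd m) →
  (∀ x : 𝓞 K, O.valuation (σ x) < 1 ↔ x ∈ P) → (Wc A B).Δ ∉ P → (q : ℤ) ∣ aP A B P

/-- a prime of odd degree that divides the value of the polynomial of the singular moduli -/
def KEY : Prop := ∀ (K : Type) [Field K] [NumberField K] (A B x : 𝓞 K) (q n d : ℕ) (ε : Prop)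
  (F : ℤ[X]) (P : Ideal (𝓞 K)), q.Prime → 5 ≤ q → F.map (Int.castRingHom (ZMod q)) ≠ 0 →
  (∀ t ∈ F.aroots ℂ, Cm n ε t) → (¬IsSquare (-(n : ZMod q)) ∨ ∃ m, n = q * m ∧ ¬q ∣ m ∧ Odd m) →
  Od q P → A * B * (Wc A B).Δ ∉ P → ¬q ∣ d → (x : K) = d * aeval (jj (A : K) B) F → x ∈ P →
  aP A B P = 0

/-- an ideal whose norm has odd valuation lies in a prime of odd degree -/
def ODP : Prop := ∀ (K : Type) [Field K] [NumberField K] (q : ℕ) (I : Ideal (𝓞 K)), q.Prime →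
  Odd (padicValNat q (Ideal.absNorm I)) → ∃ P, Od q P ∧ I ≤ P

/-- a residue of odd degree gives a prime of odd degree -/
def DEG : Prop := ∀ (K : Type) [Field K] [NumberField K] (j : K), Odd (Module.finrank ℚ⟮j⟯ K) →
  ∃ D : ℕ, D ≠ 0 ∧ ∀ (q m : ℕ) (O : ValuationSubring ℂ) (σ : K →+* ℂ), q.Prime → ¬q ∣ D →
    O.valuation (q : ℂ) < 1 → σ j ∈ O → Odd m → O.valuation (σ j ^ q ^ m - σ j) < 1 →
    ∃ P, Od q P ∧ ∀ x : 𝓞 K, (x : K) ∈ ℚ⟮j⟯ → O.valuation (σ x) < 1 → x ∈ P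

/-- a norm of odd valuation gives a prime of odd degree -/
def ODN : Prop := ∀ (K : Type) [Field K] [NumberField K] (j : K) (x : 𝓞 K) (q d : ℕ) (F : ℤ[X])
  (w : ℚ), Odd (Module.finrank ℚ⟮j⟯ K) → q.Prime → ¬q ∣ d → (x : K) = d * aeval j F →
  (w : ℂ) = Nr (minpoly ℚ j) F → Odd (padicValRat q w) → ∃ P, Od q P ∧ x ∈ P

/-- the field of complex multiplication is unique -/
def UNQ : Prop := ∀ (l l' m m' : ℕ) (ε ε' : Prop) (t : ℂ), l.Prime → l'.Prime →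
  Cm (l * m ^ 2) ε t → Cm (l' * m' ^ 2) ε' t → l = l'

/-- a singular modulus that is fixed by an automorphism which moves `√(-l)` -/
def INR : Prop := ∀ (l : ℕ) [Fact l.Prime] (O : ValuationSubring ℂ) (ι : ℚ_[l] →+* ℂ) (m : ℕ)
  (ε : Prop) (s t : ℂ) (τ : ℂ ≃+* ℂ), Pad l O ι → 5 ≤ l → Odd m → ¬l ∣ m → s ^ 2 = -l →
  Cm (l * m ^ 2) ε t → O.valuation t = 1 → O.valuation (t - 1728) = 1 → Fx ι τ → τ t = t →
  τ s = -s → ∃ k : ℕ, Odd k ∧ O.valuation (t ^ l ^ k - t) < 1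

/-- a stable set splits in two conjugate halves -/
def SPLIT : Prop := ∀ (l : ℕ) [Fact l.Prime] (O : ValuationSubring ℂ) (ι : ℚ_[l] →+* ℂ) (s : ℂ)
  (T : Finset ℂ), Pad l O ι → s ^ 2 = -l → (∀ τ, Fx ι τ → ∀ t ∈ T, τ t ∈ T) →
  (∀ τ, Fx ι τ → ∀ t ∈ T, τ t = t → τ s = s) →
  ∃ (H : Finset ℂ) (σ : ℂ ≃+* ℂ), Fx ι σ ∧ σ s = -s ∧
    (∀ τ, Fx ι τ → τ s = s → ∀ t ∈ H, τ t ∈ H) ∧ T.val = H.val + H.val.map σ

/-- then its polynomial is a square modulo the maximal ideal, and products over it are norms -/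
def HALF : Prop := ∀ (l : ℕ) [Fact l.Prime] (O : ValuationSubring ℂ) (ι : ℚ_[l] →+* ℂ) (s : ℂ)
  (T : Finset ℂ) (g : ℚ[X]), Pad l O ι → s ^ 2 = -l → (∀ t ∈ T, t ∈ O) →
  (∀ τ, Fx ι τ → ∀ t ∈ T, τ t ∈ T) → (∀ τ, Fx ι τ → ∀ t ∈ T, τ t = t → τ s = s) →
  (∃ a b : ℚ_[l], ∏ t ∈ T, aeval t g = ι (a ^ 2 + l * b ^ 2)) ∧ ∃ h : ℤ[X], h.Monic ∧
    ∀ i, O.valuation ((∏ t ∈ T, (X - C t) - h.map (Int.castRingHom ℂ) ^ 2).coeff i) < 1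

/-- `w` is a power of `l` times a unit that is a square modulo `l` -/
def Sq (l : ℕ) (w : ℚ) : Prop :=
  ∃ (k : ℤ) (u : ℚ), padicNorm l (w / l ^ k) = 1 ∧ padicNorm l (w / l ^ k - u ^ 2) < 1

/-- norms from the ramified quadratic extension -/
def LOCQ : Prop := ∀ (l : ℕ) [Fact l.Prime] (w u : ℚ) (U a b : ℚ_[l]), w ≠ 0 → ‖U‖ = 1 →
  ‖U - (u : ℚ_[l]) ^ 2‖ < 1 → (w : ℚ_[l]) = U * (a ^ 2 + l * b ^ 2) → Sq l w

/-- the local condition at `l` -/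
def LOC : Prop := ∀ (l : ℕ) [Fact l.Prime] (O : ValuationSubring ℂ) (ι : ℚ_[l] →+* ℂ) (s : ℂ)
  (g : ℚ[X]) (F R Z : ℤ[X]) (c : ℤ) (w : ℚ), Pad l O ι → s ^ 2 = -l → g.Monic →
  (∀ ρ ∈ g.aroots ℂ, ρ.im ≠ 0 ∧ ρ ∈ O ∧ O.valuation (ρ - 1728) = 1) →
  F.map (Int.castRingHom (ZMod l)) ≠ 0 → c ^ 2 = 1 →
  C c * (X - 1728) * F = R ^ 2 + C (l : ℤ) * Z → (F.aroots ℂ).Nodup →
  (∀ t ∈ F.aroots ℂ, ∀ ρ ∈ g.aroots ℂ, O.valuation (t - ρ) < 1 →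
    ∀ τ, Fx ι τ → τ t = t → τ s = s) →
  w ≠ 0 → (w : ℂ) = Nr g ((X - 1728) * F) → Sq l w

/-- quadratic reciprocity -/
def REC2 : Prop := ∀ (l p : ℕ) (w : ℚ), l.Prime → l % 8 = 7 → p.Prime →
  jacobiSym (-(l : ℤ)) p = -1 → 0 < w → Sq l w → Odd (padicValRat p w) →
  ∃ q : ℕ, q.Prime ∧ q ≠ p ∧ jacobiSym (-(l : ℤ)) q = -1 ∧ Odd (padicValRat q w)

/-- the primes with trace zero -/
def Z0 {K : Type} [Field K] [NumberField K] (A B : 𝓞 K) : Set (Ideal (𝓞 K)) :=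
  {P | P.IsMaximal ∧ (Wc A B).Δ ∉ P ∧ aP A B P = 0}

/-- the conclusion of the argument of Elkies -/
def Gl (p r : ℕ) (g : ℚ[X]) : Prop := ∃ M : ℕ, ∀ l : ℕ, l.Prime → M < l → l % 8 = 7 →
  (∀ q : ℕ, q.Prime → q ≤ M → q ≠ 2 → q ≠ p → jacobiSym (-(l : ℤ)) q = 1) →
  jacobiSym (-(l : ℤ)) p = -1 → ∀ (i : ℕ) (ε : Prop), Par p g (l * (r ^ i) ^ 2) ε

/-- the argument of Elkies for the primes with trace zero -/
def GLOB2 : Prop := ∀ (K : Type) [Field K] [NumberField K] (A B : 𝓞 K) (p r : ℕ),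
  (Wc A B).Δ ≠ 0 → (∀ τ : K →+* ℂ, (τ (jj (A : K) B)).im ≠ 0) →
  Odd (Module.finrank ℚ⟮jj (A : K) B⟯ K) → (Z0 A B).Finite → p.Prime → 5 ≤ p → r.Prime → r ≠ 2 →
  Gl p r (minpoly ℚ (jj (A : K) B))

end Pool.Agent.MP_c481b3_nt.H79
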