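import Pool.Agent.MP_c481b3_nt.H79.SpecH
import Pool.Agent.MP_c481b3_nt.H28.PolyAux
import Pool.Agent.MP_c481b3_nt.H28.Univ

/-! The deformation disc of any supersingular curve over the prime field. -/

set_option autoImplicit false

namespace Pool.Agent.MP_c481b3_nt.H79

open Pool.Agent.MP_c481b3_nt.H81 Pool.Agent.MP_c481b3_nt.H28 IsLocalRing Polynomial NumberField

section line
variable {R S : Type} [CommRing R] [CommRing S]

/-- coefficient `A` on the line through `(a, b)` -/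
def lA (a b t : R) : R := a - 9 * b * t

/-- coefficient `B` on the line through `(a, b)` -/
def lB (a b t : R) : R := b + 2 * a ^ 2 * t

lemma map_lA (f : R →+* S) (a b t : R) : f (lA a b t) = lA (f a) (f b) (f t) := by
  simp [lA, map_ofNat]

lemma map_lB (f : R →+* S) (a b t : R) : f (lB a b t) = lB (f a) (f b) (f t) := by
  simp [lB, map_ofNat]

end line

/-- implicit functions with coefficients that have expansions -/
def IMP2 : Prop := ∀ (L : Type) [Field L] (O : ValuationSubring L) (S : Set L), (∀ x ∈ S, x ∈ O) →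
  (∀ x ∈ S, ∀ y ∈ S, O.valuation (y - x) < 1) → ∀ (n : ℕ) (c : ℕ → L → L) (z : L → L),
  (∀ i, Ty O S (c i)) → (∀ x ∈ S, z x ∈ O) → (∀ x ∈ S, ∀ y ∈ S, O.valuation (z y - z x) < 1) →
  (∀ x ∈ S, ∑ i ∈ Finset.range n, c i x * z x ^ i = 0) →
  (∀ x ∈ S, O.valuation (∑ i ∈ Finset.range n, i * c i x * z x ^ (i - 1)) = 1) → Ty O S z

/-- the universal polynomial of the torsion on a line -/
def UNI2 : Prop := ∀ (a b : ℤ) (n : ℕ), 4 * a ^ 3 + 27 * b ^ 2 ≠ 0 → n ≠ 0 → ∃ G : ℤ[X][X],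
  ∀ t : ℂ, Good (lA (a : ℂ) b t) (lB (a : ℂ) b t) →
    G.map (eval₂RingHom (Int.castRingHom ℂ) t) = xp (lA (a : ℂ) b t) (lB (a : ℂ) b t) n

/-- the torsion points of two lifts are congruent modulo `w` -/
def Tc {L κ : Type} [Field L] [Field κ] [DecidableEq L] [DecidableEq κ] {π : Plc L κ}
    {A B A₁ B₁ : L} {A' B' : κ} (r : Rd π A B A' B') (r₁ : Rd π A₁ B₁ A' B') (w : L) : Prop :=
  ∀ (q : ℕ) (P : Pt A B) (P₁ : Pt A₁ B₁), (q : κ) ≠ 0 → q • P = 0 → q • P₁ = 0 → P ≠ 0 →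
    r.red P = r₁.red P₁ → π.O.valuation (xc P - xc P₁) ≤ π.O.valuation w

/-- `MSQ` for all curves -/
def MSQ2 : Prop :=
  ∀ (L κ : Type) [Field L] [Field κ] [DecidableEq L] [DecidableEq κ] [IsAlgClosed L]
    [IsAlgClosed κ] [CharZero L] (π : Plc L κ) (A B A₁ B₁ A₂ B₂ : L) (A' B' : κ)
    (r : Rd π A B A' B') (r₁ : Rd π A₁ B₁ A' B') (r₂ : Rd π A₂ B₂ A' B') (p l l' : ℕ) (t : ℤ),
    p.Prime → (p : κ) = 0 → Tm A' B' l → Tm A' B' l' → (t : κ) ≠ 0 →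
    ∀ D ∈ subs A B l, ∀ D' ∈ subs A B l', ∀ (v v' : L) (u u' : κ), VD D v A₁ B₁ → VD D' v' A₂ B₂ →
    Ev π v u → Ev π v' u' → u ^ 2 = -l → u' ^ 2 = -l' →
    (∀ P, vm (D.image r.red) u A' B' (vm (D.image r.red) u A' B' P) = -(l • P)) →
    (∀ P, vm (D'.image r.red) u' A' B' (vm (D'.image r.red) u' A' B' P) = -(l' • P)) →
    (∀ P, vm (D.image r.red) u A' B' (vm (D'.image r.red) u' A' B' P)
      + vm (D'.image r.red) u' A' B' (vm (D.image r.red) u A' B' P) = t • P) →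
    ∀ w : L, π.O.valuation w < 1 → Tc r r₁ w → Tc r r₂ w →
      π.O.valuation ((t ^ 2 - 4 * l * l' : ℤ) : L) ≤ π.O.valuation w

/-- two structures of complex multiplication generate the same field -/
def UNQ2 : Prop := ∀ (n n' : ℕ) (ε ε' : Prop) (t : ℂ), Cm n ε t → Cm n' ε' t → IsSquare (n * n')

/-- a curve over the prime field -/
structure Fam (p : ℕ) [Fact p.Prime] where
  O : ValuationSubring ℂ
  ι : ℚ_[p] →+* ℂ
  a : ℤ
  b : ℤ
  pad : Pad p O ι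
  five : 5 ≤ p
  unit : ¬(p : ℤ) ∣ 4 * a ^ 3 + 27 * b ^ 2

namespace Fam
variable {p : ℕ} [Fact p.Prime] (X : Fam p)

/-- the residue field -/
abbrev κ := ResidueField X.O

instance : IsAlgClosed X.κ := resid_closed X.O

instance : CharP X.κ p := res_charP Fact.out X.pad.vp

noncomputable instance : DecidableEq X.κ := Classical.decEq _

noncomputable instance : DecidableEq (RatFunc X.κ) := Classical.decEq _

noncomputable instance : DecidableEq (LL X.κ) := Classical.decEq _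

lemma two : (2 : X.κ) ≠ 0 := (small_ne X.κ X.five).1

lemma three : (3 : X.κ) ≠ 0 := (small_ne X.κ X.five).2

lemma int_ne {n : ℤ} : (n : X.κ) ≠ 0 ↔ ¬(p : ℤ) ∣ n := (CharP.intCast_eq_zero_iff X.κ p n).not

lemma nat_ne {n : ℕ} : (n : X.κ) ≠ 0 ↔ ¬p ∣ n := (CharP.cast_eq_zero_iff X.κ p n).not

/-- the reduced curve -/
noncomputable def A : X.κ := X.a

/-- the reduced curve -/
noncomputable def B : X.κ := X.b

lemma good : Good X.A X.B := ⟨X.two, by rw [A, B]; exact_mod_cast X.int_ne.2 X.unit⟩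

lemma hA : X.A ^ p ^ 1 = X.A := by rw [pow_one, ← frobenius_def, A, map_intCast]

lemma hB : X.B ^ p ^ 1 = X.B := by rw [pow_one, ← frobenius_def, B, map_intCast]

lemma tm {n : ℕ} (h : ¬p ∣ n) : Tm X.A X.B n := ⟨X.good, X.three, X.nat_ne.2 h⟩

/-- the endomorphisms of the reduced curve -/
noncomputable abbrev E := EE X.good

lemma cr : CompRing X.E NE := compRing X.three X.good

/-- Frobenius -/
noncomputable def π : X.E := frE X.good p 1 X.hA X.hB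

lemma sep {θ : X.E} (h : ¬(p : ℤ) ∣ NE θ) : cE X.good θ ≠ 0 := fun e => by
  obtain ⟨ψ, rfl⟩ := div_frob X.good p X.hA X.hB θ e
  exact h (by rw [X.cr.mul, NE_frE, pow_one]; exact dvd_mul_left _ _)

/-- the curve is supersingular -/
def SS : Prop := X.π * X.π = -(p : X.E)

/-- the residue disc -/
def Dk (t : ℂ) : Prop := Ev (resPlc X.O) t 0

/-- the curve with parameter `t` -/
abbrev fA (t : ℂ) : ℂ := lA (X.a : ℂ) X.b t

/-- the curve with parameter `t` -/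
abbrev fB (t : ℂ) : ℂ := lB (X.a : ℂ) X.b t

/-- its points -/
abbrev P (t : ℂ) := Pt (X.fA t) (X.fB t)

/-- its invariant -/
noncomputable def J (t : ℂ) : ℂ := jj (X.fA t) (X.fB t)

lemma eva : Ev (resPlc X.O) (X.a : ℂ) X.A := Ev.int _ _

lemma evb : Ev (resPlc X.O) (X.b : ℂ) X.B := Ev.int _ _

lemma map_fA (σ : ℂ →+* ℂ) (t : ℂ) : σ (X.fA t) = X.fA (σ t) := by
  rw [map_lA, map_intCast, map_intCast]

lemma map_fB (σ : ℂ →+* ℂ) (t : ℂ) : σ (X.fB t) = X.fB (σ t) := by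
  rw [map_lB, map_intCast, map_intCast]

variable {X} in
lemma Dk.rd {t : ℂ} (h : X.Dk t) : Rd (resPlc X.O) (X.fA t) (X.fB t) X.A X.B :=
  rd_of ((X.eva.sub (((Ev.ofNat _ 9).mul X.evb).mul h)).congr rfl (by simp))
    ((X.evb.add (((Ev.ofNat _ 2).mul (X.eva.pow 2)).mul h)).congr rfl (by simp)) X.good

variable {X} in
lemma Dk.good {t : ℂ} (h : X.Dk t) : Good (X.fA t) (X.fB t) := rd_good h.rd

lemma disc : 4 * (X.a : ℂ) ^ 3 + 27 * (X.b : ℂ) ^ 2 ≠ 0 :=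
  (((Ev.ofNat _ 4).mul (X.eva.pow 3)).add ((Ev.ofNat _ 27).mul (X.evb.pow 2))).ne_zero X.good.disc

/-- the parameter is determined by the coefficients -/
lemma par (t : ℂ) : (4 * (X.a : ℂ) ^ 3 + 27 * (X.b : ℂ) ^ 2) * t
    = X.a * X.b + 2 * X.a * X.fB t - 3 * X.b * X.fA t := by simp only [lA, lB]; ring

lemma lin (t : ℂ) : 2 * (X.a : ℂ) ^ 2 * X.fA t + 9 * X.b * X.fB t
    = 2 * (X.a : ℂ) ^ 3 + 9 * (X.b : ℂ) ^ 2 := by simp only [lA, lB]; ring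

variable {X} in
/-- the line is transversal to the scalings -/
lemma uni {t t' w : ℂ} (h : X.Dk t) (hw : Ev (resPlc X.O) w 1) (eA : X.fA t = w ^ 2 * X.fA t')
    (eB : X.fB t = w ^ 3 * X.fB t') : t = t' := by
  have e : w = 1 := by
    have := (((((Ev.ofNat _ 2).mul (X.eva.pow 3)).add ((Ev.ofNat _ 9).mul (X.evb.pow 2))).mul
      (((hw.pow 2).add hw).add (Ev.one _))).sub (((Ev.ofNat _ 2).mul (X.eva.pow 2)).mul
        (rdA h.rd))).ne_zero fun z => X.good.disc (by linear_combination z)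
    exact sub_eq_zero.1 (mul_left_cancel₀ this (by
      linear_combination X.lin t - w ^ 3 * X.lin t' - 2 * (X.a : ℂ) ^ 2 * w * eA
        - 9 * (X.b : ℂ) * eB))
  subst e
  exact mul_left_cancel₀ X.disc (by rw [par, par, eA, eB]; ring)

/-- the endomorphism `θ` lifts to an isogeny from the curve `t` to the curve `t'` -/
def Lf (θ : X.E) (t t' : ℂ) : Prop := ∃ (h : X.Dk t) (h' : X.Dk t') (C : Finset (X.P t)) (u : ℂ),
  VD C u (X.fA t') (X.fB t') ∧ (C.card : ℤ) = NE θ ∧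
    Ev (resPlc X.O) u (cE X.good θ) ∧ ∀ P, h'.rd.red (vm C u _ _ P) = θ.1 (h.rd.red P)

/-- the action on the disc -/
noncomputable def h (θ : X.E) (t : ℂ) : ℂ := Classical.epsilon (X.Lf θ t)

/-- properties of the action -/
structure Lift : Prop where
  lf : ∀ θ t, ¬(p : ℤ) ∣ NE θ → X.Dk t → X.Lf θ t (X.h θ t)
  uniq : ∀ θ t t', ¬(p : ℤ) ∣ NE θ → X.Lf θ t t' → t' = X.h θ t
  ker : ∀ (θ : X.E) (t : ℂ) (ht : X.Dk t) (C : Finset (X.P t)) (u A' B' : ℂ), ¬(p : ℤ) ∣ NE θ →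
    VD C u A' B' → ¬p ∣ C.card → (∀ Q, Q ∈ C.image ht.rd.red ↔ θ.1 Q = 0) →
    jj A' B' = X.J (X.h θ t)
  mul : ∀ θ θ' t, ¬(p : ℤ) ∣ NE θ → ¬(p : ℤ) ∣ NE θ' → X.Dk t → X.h (θ * θ') t = X.h θ (X.h θ' t)
  int : ∀ (n : ℤ) t, ¬(p : ℤ) ∣ n → X.Dk t → X.h n t = t

/-- `p`-adic integers as complex numbers -/
noncomputable def io (x : ℤ_[p]) : ℂ := X.ι x

lemma dk_io {x : ℤ_[p]} : X.Dk (X.io x) ↔ Dz 0 x := by
  have e : X.O.valuation (X.io x) < 1 ↔ Dz 0 x := by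
    rw [Dz, ← PadicInt.norm_lt_one_iff_dvd, io, X.pad.lt, sub_zero]
    rfl
  exact ⟨fun h => e.1 h.v_lt, fun h => Ev.of_lt (π := resPlc X.O) (e.2 h)⟩

lemma io_inj : Function.Injective X.io := fun _ _ h => Subtype.ext (X.ι.injective h)

/-- the action on the rational points of the disc -/
noncomputable def hz (θ : X.E) (x : ℤ_[p]) : ℤ_[p] :=
  Classical.epsilon fun y => X.io y = X.h θ (X.io x)

/-- the invariant at a rational point -/
noncomputable def Jz (x : ℤ_[p]) : ℤ_[p] := Classical.epsilon fun y => X.io y = X.J (X.io x)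

lemma J_io (x : ℚ_[p]) : X.J (X.ι x) = X.ι (jj (lA (X.a : ℚ_[p]) X.b x) (lB (X.a : ℚ_[p]) X.b x)) := by
  rw [jj_map, map_lA, map_lB, map_intCast, map_intCast, J]

variable {X} in
lemma io_Jz {x : ℤ_[p]} (hx : Dz 0 x) : X.io (X.Jz x) = X.J (X.io x) := by
  have r := (X.dk_io.2 hx).rd
  have m := (ev_jj (rdA r) (rdB r) X.good).mem
  exact Classical.epsilon_spec (p := fun y => X.io y = X.J (X.io x))
    ⟨⟨_, (X.pad.mem _).1 (X.J_io x ▸ m)⟩, (X.J_io x).symm⟩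

/-- endomorphisms of degree prime to `p` that normalize Frobenius -/
def St (θ : X.E) : Prop := ¬(p : ℤ) ∣ NE θ ∧ (θ * X.π = X.π * θ ∨ θ * X.π = -(X.π * θ))

/-- the endomorphism fixes the points of order two -/
def T2 (θ : X.E) : Prop := ∀ P : Pt X.A X.B, 2 • P = 0 → θ.1 P = P

variable {X} in
/-- the action of an automorphism on the points of a curve that it fixes -/
noncomputable def Dk.cj {t : ℂ} (h : X.Dk t) (σ : ℂ →+* ℂ) (e : σ t = t) : X.P t →+ X.P t :=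
  (Sc.ofHom σ (by rw [map_fA, e]) (by rw [map_fB, e]) h.good).map

/-- automorphisms act on the torsion through powers of Frobenius -/
def Frb : Prop := ∀ (σ : ℂ ≃+* ℂ) (t : ℂ) (h : X.Dk t) (e : (σ : ℂ →+* ℂ) t = t) (N : ℕ) (s : ℂ),
  Fx X.ι σ → ¬p ∣ N → s ∈ X.O → ∃ m : ℕ, X.O.valuation (σ s - s ^ p ^ m) < 1 ∧
    ∀ P : X.P t, N • P = 0 → h.rd.red (h.cj σ e P) = (X.π ^ m).1 (h.rd.red P)

/-- rational points go to rational points -/
def Rat : Prop := ∀ θ x, X.St θ → Dz 0 x → X.io (X.hz θ x) = X.h θ (X.io x)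

/-- the coordinates of the torsion points have expansions of order two -/
def Crd : Prop := ∀ (N : ℕ) (Q : Pt X.A X.B), ¬p ∣ N → ∃ x : ℂ → ℂ,
  (∀ (t : ℂ) (h : X.Dk t) (P : X.P t), N • P = 0 → h.rd.red P = Q → xc P = x t) ∧
    (Q ≠ 0 → N • Q = 0 → Ty X.O {t | X.Dk t} x)

/-- the action has expansions of order two -/
def Tay : Prop := ∀ θ, ¬(p : ℤ) ∣ NE θ → Ty X.O {t | X.Dk t} (X.h θ)

/-- the same on the rational points -/
def Tayz : Prop := ∀ θ, X.St θ → ∃ e, Tz 0 (X.hz θ) e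

/-- two endomorphisms in general position do not lift together modulo `p ^ 2` -/
def Sepz : Prop := ∀ (φ φ' : X.E) (l l' : ℕ) (t : ℤ) (x : ℤ_[p]), X.St φ → X.St φ' →
  φ * φ = -(l : X.E) → φ' * φ' = -(l' : X.E) → φ * φ' + φ' * φ = t → ¬(p : ℤ) ∣ t →
  ¬(p : ℤ) ^ 2 ∣ t ^ 2 - 4 * l * l' → Dz 0 x → X.hz φ x = x → ¬(p : ℤ_[p]) ^ 2 ∣ X.hz φ' x - x

/-- a fixed point has complex multiplication -/
def Endl : Prop := ∀ (θ : X.E) (n : ℕ) (t : ℂ) (h : X.Dk t), ¬p ∣ n → θ * θ = -(n : X.E) →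
  X.h θ t = t → Cm n (X.T2 θ) (X.J t) ∧ ∃ (u : ℂ) (χ : X.P t →+ X.P t), Cx n u χ ∧
    Ev (resPlc X.O) u (cE X.good θ) ∧ ∀ P, h.rd.red (χ P) = θ.1 (h.rd.red P)

/-- the singular moduli lie in the unramified quadratic extension -/
def Fixa : Prop := ∀ (θ : X.E) (n : ℕ) (c : ℤ_[p]) (ε : Prop) (s t : ℂ), X.SS → Odd n → ¬p ∣ n →
  θ * θ = -(n : X.E) → θ * X.π = -(X.π * θ) → Dz 0 c → X.hz θ c = c → s ^ 2 = -n → Cm n ε t →
  ∃ a b, t = X.ι a + X.ι b * s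

/-- the rational singular moduli -/
def Fixb : Prop := ∀ (φ : X.E) (l r i : ℕ) (x y : ℤ) (c : ℤ_[p]) (z : ℚ_[p]), X.SS → l.Prime →
  l % 4 = 3 → l ≠ p → r.Prime → r ≠ 2 → r ≠ p → r ≠ l → (r : ℤ) = x ^ 2 + p * y ^ 2 →
  φ * φ = -(l : X.E) → φ * X.π = -(X.π * φ) → Dz 0 c → X.hz φ c = c →
  (Cm (l * (r ^ i) ^ 2) (X.T2 φ) (X.ι z) ↔ ∃ (η : ℤ) (b : ℕ), η ^ 2 = 1 ∧ b ≤ i ∧
    z = X.Jz (X.hz (((x : X.E) + (η * y : ℤ) * X.π) ^ b) c))

/-- the invariant separates the points of an orbit -/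
def Inj : Prop := ∀ (φ θ θ' : X.E) (l n n' : ℕ) (c : ℤ_[p]), X.SS → ¬p ∣ l → ¬p ∣ n → ¬p ∣ n' →
  φ * φ = -(l : X.E) → φ * X.π = -(X.π * φ) → Dz 0 c → X.hz φ c = c → θ * X.π = X.π * θ →
  θ' * X.π = X.π * θ' → NE θ = n → NE θ' = n' → ¬IsSquare (l * (n * n')) →
  X.Jz (X.hz θ c) = X.Jz (X.hz θ' c) → X.hz θ c = X.hz θ' c

/-- the values of a polynomial at the invariant -/
def Gt : Prop := ∀ g : ℚ[X], ∃ g' : ℚ[X], ∀ x, Dz 0 x →
  (pv g' x = 0 ↔ pv g (X.Jz x) = 0) ∧ (pv g' x).valuation = (pv g (X.Jz x)).valuation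

end Fam

def LIFT2 : Prop := ∀ (p : ℕ) [Fact p.Prime] (X : Fam p), X.Lift

def FRB2 : Prop := ∀ (p : ℕ) [Fact p.Prime] (X : Fam p), X.Frb

def RAT2 : Prop := ∀ (p : ℕ) [Fact p.Prime] (X : Fam p), X.Rat

def CRD : Prop := ∀ (p : ℕ) [Fact p.Prime] (X : Fam p), X.Crd

def TAY2 : Prop := ∀ (p : ℕ) [Fact p.Prime] (X : Fam p), X.Tay

def TAYZ2 : Prop := ∀ (p : ℕ) [Fact p.Prime] (X : Fam p), X.Tayz

def SEPZ2 : Prop := ∀ (p : ℕ) [Fact p.Prime] (X : Fam p), X.Sepz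

def ENDL2 : Prop := ∀ (p : ℕ) [Fact p.Prime] (X : Fam p), X.Endl

def FIXA2 : Prop := ∀ (p : ℕ) [Fact p.Prime] (X : Fam p), X.Fixa

def FIXB2 : Prop := ∀ (p : ℕ) [Fact p.Prime] (X : Fam p), X.Fixb

def INJ : Prop := ∀ (p : ℕ) [Fact p.Prime] (X : Fam p), X.Inj

def GT : Prop := ∀ (p : ℕ) [Fact p.Prime] (X : Fam p), X.Gt

/-- the hypothesis of the main theorem -/
def Hyp2 (p : ℕ) (g : ℚ[X]) : Prop := ∃ a b : ℤ, ¬(p : ℤ) ∣ 4 * a ^ 3 + 27 * b ^ 2 ∧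
  Nat.card (Wc (a : ZMod p) b).toAffine.Point = p + 1 ∧
  Odd (padicValRat p (aeval (jj (a : ℚ) b) g * aeval (1728 : ℚ) g))

/-- one supersingular prime of degree one gives the hypothesis -/
def HEN2 : Prop := ∀ (K : Type) [Field K] [NumberField K] (A B : 𝓞 K) (p : ℕ) (P : Ideal (𝓞 K)),
  (∀ τ : K →+* ℂ, (τ (jj (A : K) B)).im ≠ 0) → p.Prime → 5 ≤ p → Ideal.absNorm P = p →
  (p : 𝓞 K) ∉ P ^ 2 → (Wc A B).Δ ∉ P → aP A B P = 0 → Hyp2 p (minpoly ℚ (jj (A : K) B))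

end Pool.Agent.MP_c481b3_nt.H79
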