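import Mathlib

/-! Statements about maps of a disc of `p`-adic integers. -/

set_option autoImplicit false

namespace Pool.Agent.MP_c481b3_nt.H79

open Polynomial

section
variable {p : ℕ} [Fact p.Prime]

/-- the disc around `j` -/
def Dz (j x : ℤ_[p]) : Prop := (p : ℤ_[p]) ∣ x - j

/-- `f` maps the disc to itself, has expansions of order two, and its derivative is `e` mod `p` -/
def Tz (j : ℤ_[p]) (f : ℤ_[p] → ℤ_[p]) (e : ℤ_[p]) : Prop := ∀ x, Dz j x → Dz j (f x) ∧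
  ∃ a b : ℤ_[p], (p : ℤ_[p]) ∣ a - e ∧
    ∀ y, Dz j y → (y - x) ^ 3 ∣ f y - f x - a * (y - x) - b * (y - x) ^ 2

/-- the value of a rational polynomial -/
noncomputable def pv (g : ℚ[X]) (x : ℤ_[p]) : ℚ_[p] := aeval (x : ℚ_[p]) g

/-- the parity of the valuation of `g` is invariant under `s` -/
def Iv (j : ℤ_[p]) (g : ℚ[X]) (s : ℤ_[p] → ℤ_[p]) : Prop := ∀ y, Dz j y → pv g y ≠ 0 →
  pv g (s y) ≠ 0 → (Odd (pv g (s y)).valuation ↔ Odd (pv g y).valuation)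

/-- the forward orbit of `x` is dense in the disc -/
def Dns (j : ℤ_[p]) (f : ℤ_[p] → ℤ_[p]) (x : ℤ_[p]) : Prop :=
  ∀ y, Dz j y → ∀ k : ℕ, ∃ n : ℕ, (p : ℤ_[p]) ^ k ∣ f^[n] x - y

end

/-- formal properties -/
structure COMPZ : Prop where
  base : ∀ (p : ℕ) [Fact p.Prime] (j : ℤ_[p]) (f : ℤ_[p] → ℤ_[p]), (∀ x, Dz j x → Dz j (f x) ∧
    ∃ a b : ℤ_[p], ∀ y, Dz j y → (y - x) ^ 3 ∣ f y - f x - a * (y - x) - b * (y - x) ^ 2) →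
    ∃ e, Tz j f e
  comp : ∀ (p : ℕ) [Fact p.Prime] (j : ℤ_[p]) (f g h : ℤ_[p] → ℤ_[p]) (e e' : ℤ_[p]), Tz j f e →
    Tz j g e' → (∀ x, Dz j x → h x = g (f x)) → Tz j h (e * e')
  lip : ∀ (p : ℕ) [Fact p.Prime] (j : ℤ_[p]) (f : ℤ_[p] → ℤ_[p]) (e : ℤ_[p]), Tz j f e →
    ∀ x y, Dz j x → Dz j y → y - x ∣ f y - f x

/-- an involution is the identity or a reflection -/
def REF : Prop := ∀ (p : ℕ) [Fact p.Prime] (j : ℤ_[p]) (s : ℤ_[p] → ℤ_[p]) (e : ℤ_[p]), p ≠ 2 →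
  Tz j s e → (∀ x, Dz j x → s (s x) = x) →
  (∀ x, Dz j x → s x = x) ∨ (Tz j s (-1) ∧ ∃ c, Dz j c ∧ s c = c)

/-- a map tangent to the identity that moves a point as far as possible is minimal -/
def DYN : Prop := ∀ (p : ℕ) [Fact p.Prime] (j c : ℤ_[p]) (f : ℤ_[p] → ℤ_[p]), 5 ≤ p → Tz j f 1 →
  Dz j c → ¬(p : ℤ_[p]) ^ 2 ∣ f c - c →
  ∀ x, Dz j x → Dns j f x ∧ ∀ n : ℕ, f^[n] x = x → n = 0

/-- a symmetry along a dense orbit is a symmetry -/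
def SYMZ : Prop := ∀ (p : ℕ) [Fact p.Prime] (j c e e' : ℤ_[p]) (s f : ℤ_[p] → ℤ_[p]) (g : ℚ[X]),
  Tz j s e → Tz j f e' → Dz j c → Dns j f c →
  (∀ n : ℕ, Odd (pv g (s (f^[n] c))).valuation ↔ Odd (pv g (f^[n] c)).valuation) → Iv j g s

/-- two reflections in general position force the parity to be constant -/
def FINZ : Prop := ∀ (p : ℕ) [Fact p.Prime] (j c : ℤ_[p]) (s s' : ℤ_[p] → ℤ_[p]) (g : ℚ[X]),
  5 ≤ p → g ≠ 0 → Tz j s (-1) → Tz j s' (-1) → (∀ x, Dz j x → s (s x) = x) →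
  (∀ x, Dz j x → s' (s' x) = x) → Dz j c → s c = c → ¬(p : ℤ_[p]) ^ 2 ∣ s' c - c → Iv j g s →
  Iv j g s' → ∀ x y, Dz j x → Dz j y → pv g x ≠ 0 → pv g y ≠ 0 →
  (Odd (pv g x).valuation ↔ Odd (pv g y).valuation)

end Pool.Agent.MP_c481b3_nt.H79
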