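import Pool.Agent.MP_c481b3_nt.H79.SpecB
import Pool.Agent.MP_c481b3_nt.H79.SpecZ

/-! The deformation disc of a supersingular curve over the prime field. -/

set_option autoImplicit false

namespace Pool.Agent.MP_c481b3_nt.H79

open Pool.Agent.MP_c481b3_nt.H81 Pool.Agent.MP_c481b3_nt.H28 IsLocalRing Polynomial

/-! ## the family -/

section family
variable {R S : Type} [CommRing R] [CommRing S]

/-- coefficient `A` of the curve with invariant `t` -/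
def fA (c t : R) : R := 3 * c ^ 2 * t * (1728 - t)

/-- coefficient `B` of the curve with invariant `t` -/
def fB (c t : R) : R := 2 * c ^ 3 * t * (1728 - t) ^ 2

lemma map_fA (f : R →+* S) (c t : R) : f (fA c t) = fA (f c) (f t) := by simp [fA, map_ofNat]

lemma map_fB (f : R →+* S) (c t : R) : f (fB c t) = fB (f c) (f t) := by simp [fB, map_ofNat]

lemma f_disc (c t : R) :
    4 * fA c t ^ 3 + 27 * fB c t ^ 2 = 2 ^ 8 * 3 ^ 6 * (c ^ 6 * t ^ 2 * (1728 - t) ^ 3) := by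
  simp only [fA, fB]; ring

variable {k : Type} [Field k] {c t : k}

lemma f_good (h2 : (2 : k) ≠ 0) (h3 : (3 : k) ≠ 0) (h : c * t * (1728 - t) ≠ 0) :
    Good (fA c t) (fB c t) ∧ fA c t ≠ 0 ∧ fB c t ≠ 0 ∧ jj (fA c t) (fB c t) = t := by
  obtain ⟨h, c3⟩ := mul_ne_zero_iff.1 h
  obtain ⟨c1, c2⟩ := mul_ne_zero_iff.1 h
  have d : 4 * fA c t ^ 3 + 27 * fB c t ^ 2 ≠ 0 := by rw [f_disc]; simp [*]
  refine ⟨⟨h2, d⟩, by simp [fA, *], by simp [fB, *], ?_⟩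
  rw [jj, div_eq_iff d, f_disc, fA]; ring

end family

/-! ## the complex numbers as an algebraic closure of the `p`-adic numbers -/

/-- the automorphism fixes the `p`-adic numbers -/
def Fx {p : ℕ} [Fact p.Prime] (ι : ℚ_[p] →+* ℂ) (σ : ℂ ≃+* ℂ) : Prop := ∀ x, σ (ι x) = ι x

/-- the properties of the embedding and of the valuation ring -/
structure Pad (p : ℕ) [Fact p.Prime] (O : ValuationSubring ℂ) (ι : ℚ_[p] →+* ℂ) : Prop where
  le : ∀ x y, O.valuation (ι x) ≤ O.valuation (ι y) ↔ ‖x‖ ≤ ‖y‖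
  stab : ∀ σ, Fx ι σ → ∀ z, O.valuation (σ z) = O.valuation z
  fix : ∀ z, (∀ σ, Fx ι σ → σ z = z) → ∃ x, z = ι x
  fix2 : ∀ (s z : ℂ) (a : ℚ_[p]), s ^ 2 = ι a → (∀ σ, Fx ι σ → σ s = s → σ z = z) →
    ∃ x y, z = ι x + ι y * s
  arch : ∀ z, (∀ k : ℕ, O.valuation z ≤ O.valuation (p : ℂ) ^ k) → z = 0
  alg : ∀ z : ℂ, ∃ g : ℚ_[p][X], g ≠ 0 ∧ g.eval₂ ι z = 0

/-- existence -/
def PAD : Prop := ∀ (p : ℕ) [Fact p.Prime], ∃ O ι, Pad p O ι

/-- the action on the residue field is given by powers of Frobenius -/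
def PADF : Prop := ∀ (p : ℕ) [Fact p.Prime] (O : ValuationSubring ℂ) (ι : ℚ_[p] →+* ℂ), Pad p O ι →
  ∀ σ, Fx ι σ → ∀ S : Finset ℂ, (∀ z ∈ S, z ∈ O) →
    ∃ m : ℕ, ∀ z ∈ S, O.valuation (σ z - z ^ p ^ m) < 1

section pad
variable {p : ℕ} [Fact p.Prime] {O : ValuationSubring ℂ} {ι : ℚ_[p] →+* ℂ} (h : Pad p O ι)
include h

lemma Pad.mem (x : ℚ_[p]) : ι x ∈ O ↔ ‖x‖ ≤ 1 := by
  rw [← O.valuation_le_one_iff, ← norm_one (α := ℚ_[p]), ← h.le, map_one, map_one]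

lemma Pad.lt (x : ℚ_[p]) : O.valuation (ι x) < 1 ↔ ‖x‖ < 1 := by
  rw [← not_le, ← not_le, ← norm_one (α := ℚ_[p]), ← h.le, map_one, map_one]

lemma Pad.vp : O.valuation (p : ℂ) < 1 := by
  rw [← map_natCast ι, h.lt]; exact Padic.norm_p_lt_one

/-- divisibility of `p`-adic integers -/
lemma Pad.dvd (x y : ℤ_[p]) : O.valuation (ι y) ≤ O.valuation (ι x) ↔ x ∣ y := by
  rw [h.le]
  refine ⟨fun e => ?_, fun ⟨z, e⟩ => ?_⟩
  · by_cases h0 : x = 0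
    · subst h0
      have : y = 0 := by simpa using e
      simp [this]
    have h1 : (x : ℚ_[p]) ≠ 0 := PadicInt.coe_ne_zero.2 h0
    refine ⟨⟨y / x, ?_⟩, Subtype.ext ?_⟩
    · rw [norm_div]; exact div_le_one_of_le₀ e (norm_nonneg _)
    · change (y : ℚ_[p]) = x * (y / x)
      rw [mul_div_cancel₀ _ h1]
  · rw [e, PadicInt.coe_mul, norm_mul]
    exact mul_le_of_le_one_right (norm_nonneg _) z.2

end pad

/-! ## expansions of order two -/

/-- `f` has integral expansions of order two on `S` -/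
def Ty {L : Type} [Field L] (O : ValuationSubring L) (S : Set L) (f : L → L) : Prop :=
  ∀ x ∈ S, f x ∈ O ∧ ∃ a ∈ O, ∃ b ∈ O, ∀ y ∈ S,
    O.valuation (f y - f x - a * (y - x) - b * (y - x) ^ 2) ≤ O.valuation (y - x) ^ 3

/-- closure properties on a subset `S` of a residue disc -/
structure Imp {L : Type} [Field L] (O : ValuationSubring L) (S : Set L) : Prop where
  const : ∀ c ∈ O, Ty O S fun _ => c
  id : Ty O S fun x => x
  add : ∀ f g, Ty O S f → Ty O S g → Ty O S fun x => f x + g x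
  mul : ∀ f g, Ty O S f → Ty O S g → Ty O S fun x => f x * g x
  inv : ∀ f, Ty O S f → (∀ x ∈ S, O.valuation (f x) = 1) → Ty O S fun x => (f x)⁻¹
  sum : ∀ (ι : Type) (s : Finset ι) (f : ι → L → L), (∀ i ∈ s, Ty O S (f i)) →
    Ty O S fun x => ∑ i ∈ s, f i x
  congr : ∀ f g, Ty O S f → (∀ x ∈ S, g x = f x) → Ty O S g
  imp : ∀ (F : ℤ[X][X]) (z w : L → L), Ty O S w → (∀ x ∈ S, z x ∈ O) →
    (∀ x ∈ S, ∀ y ∈ S, O.valuation (z y - z x) < 1) → (∀ x ∈ S, ev2 F (z x) (w x) = 0) →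
    (∀ x ∈ S, O.valuation (ev2 F.derivative (z x) (w x)) = 1) → Ty O S z

/-- the closure properties hold -/
def IMP : Prop := ∀ (L : Type) [Field L] (O : ValuationSubring L) (S : Set L), (∀ x ∈ S, x ∈ O) →
  (∀ x ∈ S, ∀ y ∈ S, O.valuation (y - x) < 1) → Imp O S

/-! ## the context -/

/-- a curve over the prime field with invariant `j` -/
structure Ctx (p : ℕ) [Fact p.Prime] where
  O : ValuationSubring ℂ
  ι : ℚ_[p] →+* ℂ
  c : ℤ
  j : ℤ
  pad : Pad p O ι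
  five : 5 ≤ p
  unit : ¬(p : ℤ) ∣ c * j * (1728 - j)

namespace Ctx
variable {p : ℕ} [Fact p.Prime] (X : Ctx p)

/-- the residue field -/
abbrev κ := ResidueField X.O

instance : IsAlgClosed X.κ := resid_closed X.O

instance : CharP X.κ p := res_charP Fact.out X.pad.vp

noncomputable instance : DecidableEq X.κ := Classical.decEq _

noncomputable instance : DecidableEq (RatFunc X.κ) := Classical.decEq _

noncomputable instance : DecidableEq (LL X.κ) := Classical.decEq _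

lemma two : (2 : X.κ) ≠ 0 := (small_ne X.κ X.five).1

lemma three : (3 : X.κ) ≠ 0 := (small_ne X.κ X.five).2

lemma int_ne {n : ℤ} : (n : X.κ) ≠ 0 ↔ ¬(p : ℤ) ∣ n := (CharP.intCast_eq_zero_iff X.κ p n).not

lemma nat_ne {n : ℕ} : (n : X.κ) ≠ 0 ↔ ¬p ∣ n := (CharP.cast_eq_zero_iff X.κ p n).not

/-- the reduced curve -/
noncomputable def A : X.κ := fA (X.c : X.κ) X.j

/-- the reduced curve -/
noncomputable def B : X.κ := fB (X.c : X.κ) X.j

lemma unit' : (X.c : X.κ) * X.j * (1728 - X.j) ≠ 0 := by exact_mod_cast X.int_ne.2 X.unit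

lemma spec : Good X.A X.B ∧ X.A ≠ 0 ∧ X.B ≠ 0 ∧ jj X.A X.B = X.j := f_good X.two X.three X.unit'

lemma good : Good X.A X.B := X.spec.1

lemma hA : X.A ^ p ^ 1 = X.A := by
  rw [pow_one, ← frobenius_def, A, map_fA, map_intCast, map_intCast]

lemma hB : X.B ^ p ^ 1 = X.B := by
  rw [pow_one, ← frobenius_def, B, map_fB, map_intCast, map_intCast]

lemma tm {n : ℕ} (h : ¬p ∣ n) : Tm X.A X.B n := ⟨X.good, X.three, X.nat_ne.2 h⟩

/-- the endomorphisms of the reduced curve -/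
noncomputable abbrev E := EE X.good

lemma cr : CompRing X.E NE := compRing X.three X.good

/-- Frobenius -/
noncomputable def π : X.E := frE X.good p 1 X.hA X.hB

lemma sep {θ : X.E} (h : ¬(p : ℤ) ∣ NE θ) : cE X.good θ ≠ 0 := fun e => by
  obtain ⟨ψ, rfl⟩ := div_frob X.good p X.hA X.hB θ e
  exact h (by rw [X.cr.mul, NE_frE, pow_one]; exact dvd_mul_left _ _)

/-- the curve is supersingular -/
def SS : Prop := X.π * X.π = -(p : X.E)

/-- the residue disc -/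
def Dk (t : ℂ) : Prop := Ev (resPlc X.O) t (X.j : X.κ)

/-- the points of the curve with invariant `t` -/
abbrev P (t : ℂ) := Pt (fA (X.c : ℂ) t) (fB (X.c : ℂ) t)

variable {X} in
lemma Dk.rd {t : ℂ} (h : X.Dk t) : Rd (resPlc X.O) (fA (X.c : ℂ) t) (fB (X.c : ℂ) t) X.A X.B :=
  rd_of ((((Ev.ofNat _ 3).mul ((Ev.int _ X.c).pow 2)).mul h).mul ((Ev.ofNat _ 1728).sub h))
    ((((Ev.ofNat _ 2).mul ((Ev.int _ X.c).pow 3)).mul h).mul (((Ev.ofNat _ 1728).sub h).pow 2))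
    X.good

variable {X} in
lemma Dk.spec {t : ℂ} (h : X.Dk t) : Good (fA (X.c : ℂ) t) (fB (X.c : ℂ) t) ∧ fA (X.c : ℂ) t ≠ 0 ∧
    fB (X.c : ℂ) t ≠ 0 ∧ jj (fA (X.c : ℂ) t) (fB (X.c : ℂ) t) = t :=
  f_good two_ne_zero three_ne_zero
    ((((Ev.int _ X.c).mul h).mul ((Ev.ofNat _ 1728).sub h)).ne_zero X.unit')

/-- the endomorphism `θ` lifts to an isogeny from the curve `t` to the curve `t'` -/
def Lf (θ : X.E) (t t' : ℂ) : Prop := ∃ (h : X.Dk t) (h' : X.Dk t') (C : Finset (X.P t)) (u : ℂ),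
  VD C u (fA (X.c : ℂ) t') (fB (X.c : ℂ) t') ∧ (C.card : ℤ) = NE θ ∧
    Ev (resPlc X.O) u (cE X.good θ) ∧ ∀ P, h'.rd.red (vm C u _ _ P) = θ.1 (h.rd.red P)

/-- the action on the disc -/
noncomputable def h (θ : X.E) (t : ℂ) : ℂ := Classical.epsilon (X.Lf θ t)

/-- properties of the action -/
structure Lift : Prop where
  lf : ∀ θ t, ¬(p : ℤ) ∣ NE θ → X.Dk t → X.Lf θ t (X.h θ t)
  ker : ∀ (θ : X.E) (t : ℂ) (ht : X.Dk t) (C : Finset (X.P t)) (u A' B' : ℂ), ¬(p : ℤ) ∣ NE θ →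
    VD C u A' B' → ¬p ∣ C.card → (∀ Q, Q ∈ C.image ht.rd.red ↔ θ.1 Q = 0) → jj A' B' = X.h θ t
  mul : ∀ θ θ' t, ¬(p : ℤ) ∣ NE θ → ¬(p : ℤ) ∣ NE θ' → X.Dk t → X.h (θ * θ') t = X.h θ (X.h θ' t)
  int : ∀ (n : ℤ) t, ¬(p : ℤ) ∣ n → X.Dk t → X.h n t = t

/-- `p`-adic integers as complex numbers -/
noncomputable def io (x : ℤ_[p]) : ℂ := X.ι x

lemma dk_io {x : ℤ_[p]} : X.Dk (X.io x) ↔ Dz X.j x := by
  have e : X.O.valuation (X.io x - X.j) < 1 ↔ Dz X.j x := by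
    rw [Dz, ← PadicInt.norm_lt_one_iff_dvd, io, ← map_intCast X.ι, ← map_sub, X.pad.lt]
    rfl
  rw [← e]
  refine ⟨fun h => ((h.sub (Ev.int _ X.j)).congr rfl (sub_self _)).v_lt, fun h => ?_⟩
  exact ((Ev.of_lt (π := resPlc X.O) h).add (Ev.int _ X.j)).congr (sub_add_cancel _ _) (zero_add _)

lemma io_inj : Function.Injective X.io := fun _ _ h => Subtype.ext (X.ι.injective h)

/-- the action on the rational points of the disc -/
noncomputable def hz (θ : X.E) (x : ℤ_[p]) : ℤ_[p] :=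
  Classical.epsilon fun y => X.io y = X.h θ (X.io x)

/-- endomorphisms of degree prime to `p` that normalize Frobenius -/
def St (θ : X.E) : Prop := ¬(p : ℤ) ∣ NE θ ∧ (θ * X.π = X.π * θ ∨ θ * X.π = -(X.π * θ))

/-- the endomorphism fixes the points of order two -/
def T2 (θ : X.E) : Prop := ∀ P : Pt X.A X.B, 2 • P = 0 → θ.1 P = P

variable {X} in
/-- the action of an automorphism on the points of a curve that it fixes -/
noncomputable def Dk.cj {t : ℂ} (h : X.Dk t) (σ : ℂ →+* ℂ) (e : σ t = t) : X.P t →+ X.P t :=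
  (Sc.ofHom σ (by rw [map_fA, map_intCast, e]) (by rw [map_fB, map_intCast, e]) h.spec.1).map

/-- automorphisms act on the torsion through powers of Frobenius -/
def Frb : Prop := ∀ (σ : ℂ ≃+* ℂ) (t : ℂ) (h : X.Dk t) (e : (σ : ℂ →+* ℂ) t = t) (N : ℕ) (s : ℂ),
  Fx X.ι σ → ¬p ∣ N → s ∈ X.O → ∃ m : ℕ, X.O.valuation (σ s - s ^ p ^ m) < 1 ∧
    ∀ P : X.P t, N • P = 0 → h.rd.red (h.cj σ e P) = (X.π ^ m).1 (h.rd.red P)

/-- rational points go to rational points -/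
def Rat : Prop := ∀ θ x, X.St θ → Dz X.j x → X.io (X.hz θ x) = X.h θ (X.io x)

/-- the action has expansions of order two -/
def Tay : Prop := ∀ θ, ¬(p : ℤ) ∣ NE θ → Ty X.O {t | X.Dk t} (X.h θ)

/-- the same on the rational points -/
def Tayz : Prop := ∀ θ, X.St θ → ∃ e, Tz X.j (X.hz θ) e

/-- two endomorphisms in general position do not lift together modulo `p ^ 2` -/
def Sepz : Prop := ∀ (φ φ' : X.E) (l l' : ℕ) (t : ℤ) (x : ℤ_[p]), X.St φ → X.St φ' →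
  φ * φ = -(l : X.E) → φ' * φ' = -(l' : X.E) → φ * φ' + φ' * φ = t → ¬(p : ℤ) ∣ t →
  ¬(p : ℤ) ^ 2 ∣ t ^ 2 - 4 * l * l' → Dz X.j x → X.hz φ x = x → ¬(p : ℤ_[p]) ^ 2 ∣ X.hz φ' x - x

/-- a fixed point has complex multiplication -/
def Endl : Prop := ∀ (θ : X.E) (n : ℕ) (t : ℂ) (h : X.Dk t), ¬p ∣ n → θ * θ = -(n : X.E) →
  X.h θ t = t → Cm n (X.T2 θ) t ∧ ∃ (u : ℂ) (χ : X.P t →+ X.P t), Cx n u χ ∧
    Ev (resPlc X.O) u (cE X.good θ) ∧ ∀ P, h.rd.red (χ P) = θ.1 (h.rd.red P)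

/-- the singular moduli lie in the unramified quadratic extension -/
def Fixa : Prop := ∀ (θ : X.E) (n : ℕ) (c : ℤ_[p]) (ε : Prop) (s t : ℂ), X.SS → Odd n → ¬p ∣ n →
  θ * θ = -(n : X.E) → θ * X.π = -(X.π * θ) → Dz X.j c → X.hz θ c = c → s ^ 2 = -n → Cm n ε t →
  ∃ a b, t = X.ι a + X.ι b * s

/-- the rational singular moduli -/
def Fixb : Prop := ∀ (φ : X.E) (l r i : ℕ) (x y : ℤ) (c : ℤ_[p]) (z : ℚ_[p]), X.SS → l.Prime →
  l % 4 = 3 → l ≠ p → r.Prime → r ≠ 2 → r ≠ p → r ≠ l → (r : ℤ) = x ^ 2 + p * y ^ 2 →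
  φ * φ = -(l : X.E) → φ * X.π = -(X.π * φ) → Dz X.j c → X.hz φ c = c →
  (Cm (l * (r ^ i) ^ 2) (X.T2 φ) (X.ι z) ↔ ∃ (η : ℤ) (b : ℕ), η ^ 2 = 1 ∧ b ≤ i ∧
    z = X.hz (((x : X.E) + (η * y : ℤ) * X.π) ^ b) c)

end Ctx

def LIFT : Prop := ∀ (p : ℕ) [Fact p.Prime] (X : Ctx p), X.Lift

def FRB : Prop := ∀ (p : ℕ) [Fact p.Prime] (X : Ctx p), X.Frb

def RAT : Prop := ∀ (p : ℕ) [Fact p.Prime] (X : Ctx p), X.Rat

def TAY : Prop := ∀ (p : ℕ) [Fact p.Prime] (X : Ctx p), X.Tay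

def TAYZ : Prop := ∀ (p : ℕ) [Fact p.Prime] (X : Ctx p), X.Tayz

def SEPZ : Prop := ∀ (p : ℕ) [Fact p.Prime] (X : Ctx p), X.Sepz

def ENDL : Prop := ∀ (p : ℕ) [Fact p.Prime] (X : Ctx p), X.Endl

def FIXA : Prop := ∀ (p : ℕ) [Fact p.Prime] (X : Ctx p), X.Fixa

def FIXB : Prop := ∀ (p : ℕ) [Fact p.Prime] (X : Ctx p), X.Fixb

/-- a supersingular curve over the prime field gives a context -/
def CTX : Prop := ∀ (p : ℕ) [Fact p.Prime] (a b t : ℤ), 5 ≤ p →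
  ¬(p : ℤ) ∣ a * b * (4 * a ^ 3 + 27 * b ^ 2) →
  Nat.card (Wc (a : ZMod p) b).toAffine.Point = p + 1 →
  (p : ℤ) ∣ t * (4 * a ^ 3 + 27 * b ^ 2) - 6912 * a ^ 3 → ∃ X : Ctx p, X.j = t ∧ X.SS

end Pool.Agent.MP_c481b3_nt.H79
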