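import Pool.Agent.MP_c481b3_nt.H79.SpecH
import Pool.Agent.MP_c481b3_nt.H79.Iu

/-! The field of complex multiplication is unique. -/

set_option autoImplicit false

namespace Pool.Agent.MP_c481b3_nt.H79

open Pool.Agent.MP_c481b3_nt.H81 Pool.Agent.MP_c481b3_nt.H28

theorem unq : UNQ := by
  classical
  rintro l l' m m' ε ε' t hl hl' ⟨A, B, u, χ, h, e, -⟩ ⟨A', B', u', χ', h', e', -⟩
  obtain ⟨h, hu⟩ := cx_iff.1 h
  obtain ⟨h', hu'⟩ := cx_iff.1 h'
  obtain ⟨G, -, -, n0⟩ := h.good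
  obtain ⟨G', -, -, n0'⟩ := h'.good
  obtain ⟨v, f, hf⟩ := iu_iso three_ne_zero G G' (e.trans e'.symm)
  obtain ⟨g, hg, -⟩ := hf.dual three_ne_zero (by simp)
  obtain ⟨ψ, -, p1, p2⟩ := (((h.comp three_ne_zero hf).comp three_ne_zero h').comp three_ne_zero
    hg).toE three_ne_zero G
  have v0 := hf.good.2.2.1
  have c := congrArg (cE G) ((compRing three_ne_zero G).char ψ)
  rw [map_sub, map_mul, map_mul, map_intCast, map_intCast, p1, p2,
    show u * v * u' * ((1 : ℕ) / v) = u * u' by field_simp; simp] at c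
  generalize pol NE ψ 1 = a at c
  obtain ⟨N, hN⟩ : ∃ N, N = l * m ^ 2 * (l' * m' ^ 2) := ⟨_, rfl⟩
  have N0 : N ≠ 0 := hN ▸ mul_ne_zero n0 n0'
  have z : (u * u') ^ 2 = N := by rw [mul_pow, hu, hu', hN, neg_mul_neg, ← Nat.cast_mul]
  have c2 : a * (u * u') = 2 * N := by
    rw [one_mul, one_mul, mul_comm (l' * m' ^ 2), ← hN] at c
    push_cast at c
    linear_combination z - c
  have c3 : (a : ℂ) ^ 2 = 4 * N := mul_right_cancel₀ (Nat.cast_ne_zero.2 N0)
    (by linear_combination (a * (u * u') + 2 * N) * c2 - a ^ 2 * z)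
  have c4 : a.natAbs ^ 2 = l * l' * (2 * m * m') ^ 2 := by
    have : a ^ 2 = 4 * N := by exact_mod_cast c3
    zify
    rw [sq_abs, this, hN]
    push_cast
    ring
  by_contra ne
  have := Fact.mk hl
  have := Fact.mk hl'
  have m0 : m ≠ 0 := by rintro rfl; simp at n0
  have m0' : m' ≠ 0 := by rintro rfl; simp at n0'
  have k0 : 2 * m * m' ≠ 0 := by positivity
  have c5 := congrArg (padicValNat l) c4
  rw [padicValNat.mul (mul_ne_zero hl.ne_zero hl'.ne_zero) (pow_ne_zero _ k0),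
    padicValNat.mul hl.ne_zero hl'.ne_zero, padicValNat_self, padicValNat_primes ne,
    padicValNat.pow, padicValNat.pow] at c5
  all_goals omega

end Pool.Agent.MP_c481b3_nt.H79
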